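import Pool.Agent.R739.RM.Defs

/-! CA: frequency of words in the 3/2 automaton from equidistribution. -/

set_option autoImplicit false

namespace Pool.Agent.R980

open Finset Filter Topology Pool.Agent.R739.RD Pool.Agent.R739.RM
open Pool.Agent.H429R2.Auto Pool.Agent.R544.PQ

lemma rmca_code_surj (L : ℕ) (m : ℕ) (hm : m < 6 ^ L) : ∃ w : Fin L → Fin 6, code w = m := by
  have hinj : Function.Injective (fun w : Fin L → Fin 6 => (⟨code w, code_lt w⟩ : Fin (6 ^ L))) := by
    intro w w' h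
    have h1 : code w = code w' := by simpa using h
    funext s
    apply Fin.ext
    rw [← code_digit w s, ← code_digit w' s, h1]
  have hbij := (Fintype.bijective_iff_injective_and_card
    (fun w : Fin L → Fin 6 => (⟨code w, code_lt w⟩ : Fin (6 ^ L)))).2 ⟨hinj, by simp⟩
  obtain ⟨w, hw⟩ := hbij.2 ⟨m, hm⟩
  exact ⟨w, by simpa using hw⟩

lemma rmca_iff {L : ℕ} (w : Fin L → Fin 6) (β : ℝ) (hβ : 0 ≤ β) (j : ℤ) (t : ℕ) :
    Shows (F^[t] (conf β)) w j ↔
      ((code w : ℝ) / 6 ^ L ≤ Int.fract ((6 : ℝ) ^ (j - 1) * ((3 / 2) ^ t * β)) ∧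
      Int.fract ((6 : ℝ) ^ (j - 1) * ((3 / 2) ^ t * β)) < ((code w : ℝ) + 1) / 6 ^ L) := by
  constructor
  · intro h
    set y : ℝ := (6 : ℝ) ^ (j - 1) * ((3 / 2) ^ t * β) with hy
    have h6 : (0 : ℝ) < 6 ^ L := by positivity
    have hf0 := Int.fract_nonneg y
    have hf1 := Int.fract_lt_one y
    have hm0 : (0 : ℝ) ≤ 6 ^ L * Int.fract y := by positivity
    set m : ℕ := ⌊(6 : ℝ) ^ L * Int.fract y⌋₊ with hm
    have h1 : (m : ℝ) ≤ 6 ^ L * Int.fract y := Nat.floor_le hm0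
    have h2 : (6 : ℝ) ^ L * Int.fract y < m + 1 := Nat.lt_floor_add_one _
    have hlt : m < 6 ^ L := by
      have h3 : (m : ℝ) < 6 ^ L := by nlinarith
      exact_mod_cast h3
    obtain ⟨w', hw'⟩ := rmca_code_surj L m hlt
    have ha : (code w' : ℝ) / 6 ^ L ≤ Int.fract y := by
      rw [hw', div_le_iff₀ h6]; linarith
    have hb : Int.fract y < ((code w' : ℝ) + 1) / 6 ^ L := by
      rw [hw', lt_div_iff₀ h6]; linarith
    have hs := shows_of_hit w' β hβ j t ha hb
    have hww : w = w' := by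
      funext s
      rw [← h s, ← hs s]
    rw [hww]
    exact ⟨ha, hb⟩
  · rintro ⟨h1, h2⟩
    exact shows_of_hit w β hβ j t h1 h2

theorem RM_CA : Pool.Agent.R739.RM.STM_CA := by
  intro β hβ j hE L w
  have h6 : (0 : ℝ) < 6 ^ L := by positivity
  have hcl := code_lt w
  have hclR : (code w : ℝ) + 1 ≤ 6 ^ L := by exact_mod_cast hcl
  have h := hE ((code w : ℝ) / 6 ^ L) (((code w : ℝ) + 1) / 6 ^ L) (by positivity)
    (div_lt_div_of_pos_right (by linarith) h6) ((div_le_one h6).2 hclR)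
  have e : ((code w : ℝ) + 1) / 6 ^ L - (code w : ℝ) / 6 ^ L = 1 / 6 ^ L := by
    rw [← sub_div]; congr 1; ring
  rw [e] at h
  refine h.congr (fun N => ?_)
  congr 2
  apply congrArg Finset.card
  ext n
  simp only [Finset.mem_filter]
  rw [rmca_iff w β hβ j n]

end Pool.Agent.R980
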