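import Mathlib

/-!
# Budget-constrained construction of graphs of minimum degree `k`: definitions and basic facts
-/

set_option autoImplicit false

namespace Pool.Agent.R980.Budget

open Finset
open scoped Classical

/-- the edges of `K_n` -/
abbrev Edge (n : ℕ) : Type := {e : Sym2 (Fin n) // ¬ e.IsDiag}

/-- An ordering of the `N = n.choose 2` edges of `K_n` (the edge at position `i` is `σ i`, so
`e_{i+1} = σ i`). -/
abbrev Ordering (n : ℕ) : Type := Fin (n.choose 2) ≃ Edge n

/-- the degree of the vertex `v` in the graph with edge set `H` -/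
noncomputable def deg {n : ℕ} (H : Finset (Edge n)) (v : Fin n) : ℕ :=
  (H.filter fun e => v ∈ e.1).card

/-- the graph with edge set `H` has minimum degree at least `k` -/
def MinDeg {n : ℕ} (k : ℕ) (H : Finset (Edge n)) : Prop := ∀ v : Fin n, k ≤ deg H v

/-- the edge set of `G_t`: the first `t` edges -/
noncomputable def shown {n : ℕ} (σ : Ordering n) (t : ℕ) : Finset (Edge n) :=
  univ.filter fun e => (σ.symm e).1 < t

/-- the hitting time `τ_k` of minimum degree at least `k` -/
noncomputable def tau {n : ℕ} (k : ℕ) (σ : Ordering n) : ℕ :=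
  sInf {t : ℕ | MinDeg k (shown σ t)}

/-- A strategy of Builder: he buys the current edge `e` iff `S e B`, where `B` is the set of the
edges bought so far. -/
abbrev Strategy (n : ℕ) : Type := Edge n → Finset (Edge n) → Prop

/-- the edge set of `B_t`: the edges bought among the first `t` edges -/
noncomputable def bought {n : ℕ} (S : Strategy n) (σ : Ordering n) : ℕ → Finset (Edge n)
  | 0 => ∅
  | t + 1 =>
    if h : t < n.choose 2 then
      (if S (σ ⟨t, h⟩) (bought S σ t) then insert (σ ⟨t, h⟩) (bought S σ t) else bought S σ t)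
    else bought S σ t

/-- The edge set of the `k`-nearest neighbour graph: the edges which, at one of their endpoints,
are among the first `k` edges. -/
noncomputable def nearest {n : ℕ} (k : ℕ) (σ : Ordering n) : Finset (Edge n) :=
  univ.filter fun e => ∃ v ∈ e.1, deg (shown σ (σ.symm e).1) v < k

/-- the probability of the event `A` for a uniformly random ordering of the edges of `K_n` -/
noncomputable def prob (n : ℕ) (A : Ordering n → Prop) : ℝ :=
  ((univ.filter A).card : ℝ) / (Fintype.card (Ordering n) : ℝ)

/-- The strategy: as long as fewer than `m` edges are bought, buy the edges whose two endpoints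
both have degree less than `k`; afterwards, buy the edges with an endpoint of degree less
than `k`. -/
def rule {n : ℕ} (k m : ℕ) : Strategy n := fun e B =>
  (B.card < m ∧ ∀ v ∈ e.1, deg B v < k) ∨ (m ≤ B.card ∧ ∃ v ∈ e.1, deg B v < k)

/-- the same strategy, which stops buying when `b` edges are bought -/
def cap {n : ℕ} (k m b : ℕ) : Strategy n := fun e B => rule k m e B ∧ B.card < b

/-- both endpoints of `e` have degree less than `k` -/
def AllNew {n : ℕ} (k : ℕ) (H : Finset (Edge n)) (e : Edge n) : Prop := ∀ v ∈ e.1, deg H v < k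

/-- an endpoint of `e` has degree less than `k` -/
def SomeNew {n : ℕ} (k : ℕ) (H : Finset (Edge n)) (e : Edge n) : Prop := ∃ v ∈ e.1, deg H v < k

variable {n : ℕ}

theorem deg_mono {H H' : Finset (Edge n)} (h : H ⊆ H') (v : Fin n) : deg H v ≤ deg H' v :=
  card_le_card (filter_subset_filter _ h)

theorem deg_insert (H : Finset (Edge n)) (e : Edge n) (he : e ∉ H) (v : Fin n) :
    deg (insert e H) v = deg H v + if v ∈ e.1 then 1 else 0 := by
  unfold deg
  rw [filter_insert]
  split_ifs with h
  · rw [card_insert_of_notMem (fun hc => he (mem_filter.1 hc).1)]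
  · rfl

/-- the two endpoints -/
theorem exists_ends (e : Edge n) : ∃ a b : Fin n, a ≠ b ∧ e.1 = s(a, b) := by
  obtain ⟨e, he⟩ := e
  induction e with
  | _ a b => exact ⟨a, b, fun h => he (by rw [h]; exact Sym2.mk_isDiag_iff.2 rfl), rfl⟩

theorem sum_min_insert (k : ℕ) (H : Finset (Edge n)) (e : Edge n) (he : e ∉ H) :
    ∑ v : Fin n, min k (deg (insert e H) v) = ∑ v : Fin n, min k (deg H v)
      + ((if SomeNew k H e then 1 else 0) + (if AllNew k H e then 1 else 0)) := by
  obtain ⟨a, b, hab, heq⟩ := exists_ends e
  have h1 : ∀ v : Fin n, min k (deg (insert e H) v) = min k (deg H v)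
      + ((if v = a then (if deg H a < k then 1 else 0) else 0)
        + (if v = b then (if deg H b < k then 1 else 0) else 0)) := by
    intro v
    have hmem : v ∈ e.1 ↔ v = a ∨ v = b := by rw [heq]; exact Sym2.mem_iff
    rw [deg_insert H e he v]
    by_cases hva : v = a
    · rw [if_pos (hmem.2 (Or.inl hva)), if_pos hva, if_neg (fun h => hab (hva.symm.trans h)), hva]
      split_ifs with h
      · omega
      · omega
    · by_cases hvb : v = b
      · rw [if_pos (hmem.2 (Or.inr hvb)), if_neg hva, if_pos hvb, hvb]
        split_ifs with h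
        · omega
        · omega
      · rw [if_neg (fun h => (hmem.1 h).elim hva hvb), if_neg hva, if_neg hvb]
        rfl
  rw [sum_congr rfl fun v _ => h1 v, sum_add_distrib, sum_add_distrib, sum_ite_eq' univ a,
    sum_ite_eq' univ b, if_pos (mem_univ _), if_pos (mem_univ _)]
  congr 1
  have h2 : SomeNew k H e ↔ (deg H a < k ∨ deg H b < k) := by
    unfold SomeNew
    rw [heq]
    constructor
    · rintro ⟨v, hv, h⟩
      rcases Sym2.mem_iff.1 hv with rfl | rfl
      · exact Or.inl h
      · exact Or.inr h
    · rintro (h | h)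
      · exact ⟨a, Sym2.mem_iff.2 (Or.inl rfl), h⟩
      · exact ⟨b, Sym2.mem_iff.2 (Or.inr rfl), h⟩
  have h3 : AllNew k H e ↔ (deg H a < k ∧ deg H b < k) := by
    unfold AllNew
    rw [heq]
    constructor
    · intro h
      exact ⟨h a (Sym2.mem_iff.2 (Or.inl rfl)), h b (Sym2.mem_iff.2 (Or.inr rfl))⟩
    · rintro ⟨ha, hb⟩ v hv
      rcases Sym2.mem_iff.1 hv with rfl | rfl
      · exact ha
      · exact hb
  rw [if_congr h2 rfl rfl, if_congr h3 rfl rfl]
  by_cases ha : deg H a < k <;> by_cases hb : deg H b < k <;> simp [ha, hb]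

theorem mem_shown (σ : Ordering n) (t : ℕ) (e : Edge n) :
    e ∈ shown σ t ↔ (σ.symm e).1 < t := by
  unfold shown
  rw [mem_filter]
  exact ⟨fun h => h.2, fun h => ⟨mem_univ _, h⟩⟩

theorem shown_zero (σ : Ordering n) : shown σ 0 = ∅ := by
  ext e; rw [mem_shown]; simp

theorem shown_succ (σ : Ordering n) (t : ℕ) (h : t < n.choose 2) :
    shown σ (t + 1) = insert (σ ⟨t, h⟩) (shown σ t) := by
  ext e
  rw [mem_shown, mem_insert, mem_shown]
  constructor
  · intro h1
    by_cases h2 : (σ.symm e).1 = t
    · left
      have : σ.symm e = ⟨t, h⟩ := Fin.ext h2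
      rw [← this, Equiv.apply_symm_apply]
    · right; omega
  · rintro (rfl | h1)
    · rw [Equiv.symm_apply_apply]; simp
    · omega

theorem not_mem_shown (σ : Ordering n) (t : ℕ) (h : t < n.choose 2) :
    σ ⟨t, h⟩ ∉ shown σ t := by
  rw [mem_shown, Equiv.symm_apply_apply]; simp

theorem shown_mono (σ : Ordering n) {s t : ℕ} (h : s ≤ t) : shown σ s ⊆ shown σ t := by
  intro e he
  rw [mem_shown] at he ⊢
  omega

theorem shown_all (σ : Ordering n) : shown σ (n.choose 2) = univ := by
  ext e; rw [mem_shown]; simp

theorem bought_succ (S : Strategy n) (σ : Ordering n) (t : ℕ) (h : t < n.choose 2) :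
    bought S σ (t + 1) =
      if S (σ ⟨t, h⟩) (bought S σ t) then insert (σ ⟨t, h⟩) (bought S σ t) else bought S σ t := by
  rw [bought, dif_pos h]

theorem bought_late (S : Strategy n) (σ : Ordering n) (t : ℕ) (h : n.choose 2 ≤ t) :
    bought S σ (t + 1) = bought S σ t := by
  rw [bought, dif_neg (by omega)]

theorem bought_step (S : Strategy n) (σ : Ordering n) (t : ℕ) :
    bought S σ t ⊆ bought S σ (t + 1) := by
  rw [bought]
  split_ifs
  · exact subset_insert _ _
  · exact subset_rfl
  · exact subset_rfl

theorem bought_mono (S : Strategy n) (σ : Ordering n) {s t : ℕ} (h : s ≤ t) :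
    bought S σ s ⊆ bought S σ t := by
  induction t, h using Nat.le_induction with
  | base => exact subset_rfl
  | succ t _ ih => exact ih.trans (bought_step S σ t)

theorem bought_subset (S : Strategy n) (σ : Ordering n) (t : ℕ) :
    bought S σ t ⊆ shown σ t := by
  induction t with
  | zero => rw [bought]; exact empty_subset _
  | succ t ih =>
    by_cases h : t < n.choose 2
    · rw [bought_succ S σ t h, shown_succ σ t h]
      split_ifs
      · exact insert_subset_insert _ ih
      · exact ih.trans (subset_insert _ _)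
    · rw [bought_late S σ t (by omega)]
      exact ih.trans (shown_mono σ (Nat.le_succ t))

theorem not_mem_bought (S : Strategy n) (σ : Ordering n) (t : ℕ) (h : t < n.choose 2) :
    σ ⟨t, h⟩ ∉ bought S σ t := fun hc => not_mem_shown σ t h (bought_subset S σ t hc)

theorem card_bought_le (S : Strategy n) (σ : Ordering n) (t : ℕ) : (bought S σ t).card ≤ t := by
  induction t with
  | zero => rw [bought]; simp
  | succ t ih =>
    rw [bought]
    split_ifs
    · exact (card_insert_le _ _).trans (by omega)
    · omega
    · omega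

/-- an edge bought at some time is bought at its own position -/
theorem mem_bought_iff (S : Strategy n) (σ : Ordering n) (t : ℕ) (ht : t ≤ n.choose 2)
    (i : Fin (n.choose 2)) :
    σ i ∈ bought S σ t ↔ i.1 < t ∧ S (σ i) (bought S σ i.1) := by
  induction t with
  | zero => rw [bought]; simp
  | succ t ih =>
    have h : t < n.choose 2 := by omega
    rw [bought_succ S σ t h]
    by_cases hi : i.1 = t
    · have hi' : i = ⟨t, h⟩ := Fin.ext hi
      subst hi'
      have h1 := not_mem_bought S σ t h
      split_ifs with hS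
      · exact ⟨fun _ => ⟨Nat.lt_succ_self _, hS⟩, fun _ => mem_insert_self _ _⟩
      · exact ⟨fun hc => absurd hc h1, fun hc => absurd hc.2 hS⟩
    · have h1 : σ i ≠ σ ⟨t, h⟩ := fun hc => hi (by rw [σ.injective hc])
      split_ifs with hS
      · rw [mem_insert, ih (by omega)]
        constructor
        · rintro (hc | hc)
          · exact absurd hc h1
          · exact ⟨by omega, hc.2⟩
        · rintro ⟨hc, hc'⟩
          exact Or.inr ⟨by omega, hc'⟩
      · rw [ih (by omega)]
        constructor
        · rintro ⟨hc, hc'⟩; exact ⟨by omega, hc'⟩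
        · rintro ⟨hc, hc'⟩; exact ⟨by omega, hc'⟩

/-- the edges shown when both endpoints have few bought edges -/
noncomputable def twoNew (k m : ℕ) (σ : Ordering n) : Finset (Edge n) :=
  univ.filter fun e => AllNew k (bought (rule k m) σ (σ.symm e).1) e

/-- the edges shown when both endpoints have few shown edges -/
noncomputable def firstBoth (k : ℕ) (σ : Ordering n) : Finset (Edge n) :=
  univ.filter fun e => AllNew k (shown σ (σ.symm e).1) e

theorem nearest_eq (k : ℕ) (σ : Ordering n) :
    nearest k σ = univ.filter fun e => SomeNew k (shown σ (σ.symm e).1) e := by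
  ext e
  constructor
  · intro h
    exact mem_filter.2 ⟨mem_univ _, (mem_filter.1 h).2⟩
  · intro h
    exact mem_filter.2 ⟨mem_univ _, (mem_filter.1 h).2⟩

theorem filter_shown_succ (P : Edge n → Prop) {hP : DecidablePred P} (σ : Ordering n) (t : ℕ) (h : t < n.choose 2) :
    ((shown σ (t + 1)).filter P).card =
      ((shown σ t).filter P).card + if P (σ ⟨t, h⟩) then 1 else 0 := by
  rw [shown_succ σ t h, filter_insert]
  split_ifs with hP
  · rw [card_insert_of_notMem (fun hc => not_mem_shown σ t h (mem_filter.1 hc).1)]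
  · rfl

theorem rule_count (k m : ℕ) (σ : Ordering n) (t : ℕ) (ht : t ≤ n.choose 2) :
    (bought (rule k m) σ t).card + ((shown σ t).filter fun e =>
      AllNew k (bought (rule k m) σ (σ.symm e).1) e).card
      = ∑ v : Fin n, min k (deg (bought (rule k m) σ t) v) := by
  induction t with
  | zero =>
    rw [shown_zero, filter_empty, card_empty]
    simp [bought, deg]
  | succ t ih =>
    have h : t < n.choose 2 := by omega
    have ih' := ih (by omega)
    rw [filter_shown_succ (fun e => AllNew k (bought (rule k m) σ (σ.symm e).1) e) σ t h,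
      Equiv.symm_apply_apply]
    set B := bought (rule k m) σ t with hB
    have hnot : σ ⟨t, h⟩ ∉ B := not_mem_bought _ σ t h
    rw [bought_succ _ σ t h]
    by_cases hr : rule k m (σ ⟨t, h⟩) (bought (rule k m) σ t)
    · rw [if_pos hr, sum_min_insert k B _ hnot, card_insert_of_notMem hnot]
      have hex : SomeNew k B (σ ⟨t, h⟩) := by
        rcases hr with ⟨_, h1⟩ | ⟨_, h1⟩
        · obtain ⟨a, b, hab, heq⟩ := exists_ends (σ ⟨t, h⟩)
          exact ⟨a, by rw [heq]; exact Sym2.mem_iff.2 (Or.inl rfl),
            h1 a (by rw [heq]; exact Sym2.mem_iff.2 (Or.inl rfl))⟩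
        · exact h1
      rw [if_pos hex]
      omega
    · rw [if_neg hr]
      have hall : ¬ AllNew k B (σ ⟨t, h⟩) := by
        intro hall
        apply hr
        by_cases hm : B.card < m
        · exact Or.inl ⟨hm, hall⟩
        · refine Or.inr ⟨not_lt.1 hm, ?_⟩
          obtain ⟨a, b, hab, heq⟩ := exists_ends (σ ⟨t, h⟩)
          exact ⟨a, by rw [heq]; exact Sym2.mem_iff.2 (Or.inl rfl),
            hall a (by rw [heq]; exact Sym2.mem_iff.2 (Or.inl rfl))⟩
      rw [if_neg hall]
      omega

theorem nearest_count (k : ℕ) (σ : Ordering n) (t : ℕ) (ht : t ≤ n.choose 2) :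
    ((shown σ t).filter fun e => SomeNew k (shown σ (σ.symm e).1) e).card
      + ((shown σ t).filter fun e => AllNew k (shown σ (σ.symm e).1) e).card
      = ∑ v : Fin n, min k (deg (shown σ t) v) := by
  induction t with
  | zero =>
    rw [shown_zero, filter_empty, filter_empty, card_empty]
    simp [deg]
  | succ t ih =>
    have h : t < n.choose 2 := by omega
    have ih' := ih (by omega)
    rw [filter_shown_succ (fun e => SomeNew k (shown σ (σ.symm e).1) e) σ t h,
      filter_shown_succ (fun e => AllNew k (shown σ (σ.symm e).1) e) σ t h,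
      Equiv.symm_apply_apply]
    conv_rhs => rw [shown_succ σ t h]
    rw [sum_min_insert k (shown σ t) _ (not_mem_shown σ t h)]
    dsimp only
    omega

theorem deg_univ (v : Fin n) : deg (univ : Finset (Edge n)) v = n - 1 := by
  unfold deg
  have h1 : ((univ : Finset (Edge n)).filter fun e => v ∈ e.1).image (fun e => e.1)
      = (univ.erase v).image fun w => s(v, w) := by
    ext z
    rw [mem_image, mem_image]
    constructor
    · rintro ⟨e, he, rfl⟩
      rw [mem_filter] at he
      obtain ⟨w, hw⟩ := Sym2.mem_iff_exists.1 he.2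
      refine ⟨w, ?_, hw.symm⟩
      rw [mem_erase]
      refine ⟨?_, mem_univ _⟩
      rintro rfl
      exact e.2 (by rw [hw]; exact Sym2.mk_isDiag_iff.2 rfl)
    · rintro ⟨w, hw, rfl⟩
      rw [mem_erase] at hw
      refine ⟨⟨s(v, w), fun hd => hw.1 (Sym2.mk_isDiag_iff.1 hd).symm⟩, ?_, rfl⟩
      rw [mem_filter]
      exact ⟨mem_univ _, Sym2.mem_iff.2 (Or.inl rfl)⟩
  rw [← card_image_of_injective _ Subtype.val_injective, h1, card_image_of_injOn,
    card_erase_of_mem (mem_univ _), card_univ, Fintype.card_fin]
  intro x hx y hy hxy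
  simp only [Sym2.eq_iff] at hxy
  rcases hxy with ⟨_, h⟩ | ⟨h, h'⟩
  · exact h
  · rw [← h]; exact h'

theorem nearest_card (k : ℕ) (hk : k ≤ n - 1) (σ : Ordering n) :
    (nearest k σ).card + (firstBoth k σ).card = n * k := by
  have h := nearest_count k σ (n.choose 2) le_rfl
  rw [shown_all σ] at h
  rw [nearest_eq]
  unfold firstBoth
  rw [h]
  simp only [deg_univ]
  rw [sum_const, card_univ, Fintype.card_fin, smul_eq_mul, min_eq_left hk]

theorem rule_card_le (k m : ℕ) (σ : Ordering n) :
    (bought (rule k m) σ (n.choose 2)).card + (twoNew k m σ).card ≤ n * k := by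
  have h := rule_count k m σ (n.choose 2) le_rfl
  rw [shown_all σ] at h
  unfold twoNew
  rw [h]
  refine (sum_le_card_nsmul _ _ k fun v _ => min_le_left _ _).trans ?_
  rw [card_univ, Fintype.card_fin, smul_eq_mul]

/-- every surplus edge saves one edge -/
theorem saving (k m : ℕ) (hk : k ≤ n - 1) (σ : Ordering n) (Sp : Finset (Edge n))
    (h1 : Sp ⊆ twoNew k m σ) (h2 : ∀ e ∈ Sp, e ∉ firstBoth k σ) :
    (bought (rule k m) σ (n.choose 2)).card + Sp.card ≤ (nearest k σ).card := by
  have h3 := nearest_card k hk σ
  have h4 := rule_card_le k m σ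
  have h5 : firstBoth k σ ⊆ twoNew k m σ := by
    intro e he
    unfold firstBoth at he
    unfold twoNew
    rw [mem_filter] at he ⊢
    exact ⟨mem_univ _, fun v hv => (deg_mono (bought_subset _ σ _) v).trans_lt (he.2 v hv)⟩
  have h6 : (firstBoth k σ ∪ Sp).card = (firstBoth k σ).card + Sp.card := by
    rw [card_union_of_disjoint]
    rw [Finset.disjoint_left]
    intro e he he'
    exact h2 e he' he
  have h7 := card_le_card (union_subset h5 h1)
  omega

theorem cap_card_le (k m b : ℕ) (σ : Ordering n) (t : ℕ) :
    (bought (cap k m b) σ t).card ≤ b := by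
  induction t with
  | zero => rw [bought]; simp
  | succ t ih =>
    rw [bought]
    split_ifs with h hS
    · exact (card_insert_le _ _).trans hS.2
    · exact ih
    · exact ih

theorem cap_eq (k m b : ℕ) (σ : Ordering n)
    (hb : (bought (rule k m) σ (n.choose 2)).card ≤ b) (t : ℕ) :
    bought (cap k m b) σ t = bought (rule k m) σ t := by
  induction t with
  | zero => rfl
  | succ t ih =>
    by_cases h : t < n.choose 2
    · rw [bought_succ _ σ t h, bought_succ _ σ t h, ih]
      by_cases hr : rule k m (σ ⟨t, h⟩) (bought (rule k m) σ t)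
      · have h1 : (bought (rule k m) σ t).card < b := by
          have h2 : bought (rule k m) σ (t + 1) = insert (σ ⟨t, h⟩) (bought (rule k m) σ t) := by
            rw [bought_succ _ σ t h, if_pos hr]
          have h3 := card_le_card (bought_mono (rule k m) σ (show t + 1 ≤ n.choose 2 by omega))
          rw [h2, card_insert_of_notMem (not_mem_bought _ σ t h)] at h3
          omega
        rw [if_pos hr, if_pos ⟨hr, h1⟩]
      · rw [if_neg hr, if_neg (fun hc => hr hc.1)]
    · rw [bought_late _ σ t (by omega), bought_late _ σ t (by omega), ih]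

/-- number of edges at `v` in the positions `a, ..., t - 1` -/
noncomputable def post (σ : Ordering n) (a t : ℕ) (v : Fin n) : ℕ :=
  ((univ : Finset (Fin (n.choose 2))).filter fun i => a ≤ i.1 ∧ i.1 < t ∧ v ∈ (σ i).1).card

theorem post_mono (σ : Ordering n) (a : ℕ) {s t : ℕ} (h : s ≤ t) (v : Fin n) :
    post σ a s v ≤ post σ a t v := by
  unfold post
  refine card_le_card fun i hi => ?_
  rw [mem_filter] at hi ⊢
  exact ⟨hi.1, hi.2.1, by omega, hi.2.2.2⟩

theorem deg_shown (σ : Ordering n) (t : ℕ) (v : Fin n) : deg (shown σ t) v = post σ 0 t v := by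
  unfold deg post
  rw [← card_map σ.toEmbedding]
  congr 1
  ext e
  rw [mem_filter, mem_shown, mem_map]
  constructor
  · rintro ⟨h1, h2⟩
    refine ⟨σ.symm e, ?_, by simp⟩
    rw [mem_filter]
    exact ⟨mem_univ _, Nat.zero_le _, h1, by rw [Equiv.apply_symm_apply]; exact h2⟩
  · rintro ⟨i, hi, rfl⟩
    rw [mem_filter] at hi
    simp only [Equiv.coe_toEmbedding, Equiv.symm_apply_apply]
    exact ⟨hi.2.2.1, hi.2.2.2⟩

theorem post_succ (σ : Ordering n) (a t : ℕ) (hat : a ≤ t) (h : t < n.choose 2) (v : Fin n) :
    post σ a (t + 1) v = post σ a t v + if v ∈ (σ ⟨t, h⟩).1 then 1 else 0 := by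
  unfold post
  have h1 : ((univ : Finset (Fin (n.choose 2))).filter
      fun i => a ≤ i.1 ∧ i.1 < t + 1 ∧ v ∈ (σ i).1)
      = ((univ : Finset (Fin (n.choose 2))).filter fun i => a ≤ i.1 ∧ i.1 < t ∧ v ∈ (σ i).1) ∪
        (if v ∈ (σ ⟨t, h⟩).1 then {⟨t, h⟩} else ∅) := by
    ext i
    rw [mem_union, mem_filter, mem_filter]
    by_cases hi : i.1 = t
    · have hi' : i = ⟨t, h⟩ := Fin.ext hi
      subst hi'
      by_cases hv : v ∈ (σ ⟨t, h⟩).1
      · rw [if_pos hv]; simp [hv, hat]
      · rw [if_neg hv]; simp [hv]
    · constructor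
      · rintro ⟨_, h2, h3, h4⟩
        exact Or.inl ⟨mem_univ _, h2, by omega, h4⟩
      · rintro (⟨_, h2, h3, h4⟩ | h5)
        · exact ⟨mem_univ _, h2, by omega, h4⟩
        · exfalso
          split_ifs at h5 with hv
          · rw [mem_singleton] at h5
            exact hi (by rw [h5])
          · simp at h5
  rw [h1, card_union_of_disjoint]
  · split_ifs <;> simp
  · rw [Finset.disjoint_left]
    intro i hi hi'
    rw [mem_filter] at hi
    split_ifs at hi' with hv
    · rw [mem_singleton] at hi'
      rw [hi'] at hi
      simp at hi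
    · simp at hi'

/-- after `m` edges are bought, every vertex gets what it needs -/
theorem deg_ge_post (k m : ℕ) (σ : Ordering n) (a : ℕ)
    (hm : m ≤ (bought (rule k m) σ a).card) (t : ℕ) (hat : a ≤ t) (ht : t ≤ n.choose 2)
    (v : Fin n) : min k (post σ a t v) ≤ deg (bought (rule k m) σ t) v := by
  induction t, hat using Nat.le_induction with
  | base =>
    have : post σ a a v = 0 := by
      unfold post
      rw [card_eq_zero, filter_eq_empty_iff]
      rintro i - ⟨h1, h2, _⟩
      omega
    rw [this]; simp
  | succ t hat ih =>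
    have h : t < n.choose 2 := by omega
    have ih' := ih (by omega)
    rw [post_succ σ a t hat h v]
    have hmono := deg_mono (bought_step (rule k m) σ t) v
    by_cases hv : v ∈ (σ ⟨t, h⟩).1
    · rw [if_pos hv]
      by_cases hd : deg (bought (rule k m) σ t) v < k
      · have hr : rule k m (σ ⟨t, h⟩) (bought (rule k m) σ t) :=
          Or.inr ⟨hm.trans (card_le_card (bought_mono _ σ hat)), v, hv, hd⟩
        rw [bought_succ _ σ t h, if_pos hr, deg_insert _ _ (not_mem_bought _ σ t h), if_pos hv]
        omega
      · omega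
    · rw [if_neg hv]
      omega

/-- The deterministic success criterion: if at least `m` edges are bought among the first `a`, and
some vertex `z` without edges in the first `a` positions is the last one to see `k` edges after
time `a`, then the purchase is successful at time `τ_k`. -/
theorem success (k m : ℕ) (hk : k ≤ n - 1) (σ : Ordering n) (a t' : ℕ) (hat : a ≤ t')
    (hm : m ≤ (bought (rule k m) σ a).card)
    (h1 : ∀ v, k ≤ post σ a t' v) (z : Fin n) (h2 : ∀ t < t', post σ 0 t z < k) :
    MinDeg k (bought (rule k m) σ (tau k σ)) := by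
  have hne : {t : ℕ | MinDeg k (shown σ t)}.Nonempty := by
    refine ⟨n.choose 2, fun v => ?_⟩
    rw [shown_all, deg_univ]
    exact hk
  have hmem : MinDeg k (shown σ (tau k σ)) := Nat.sInf_mem hne
  have hle : tau k σ ≤ n.choose 2 := by
    refine Nat.sInf_le fun v => ?_
    rw [shown_all, deg_univ]
    exact hk
  have hge : t' ≤ tau k σ := by
    by_contra hcon
    rw [not_le] at hcon
    have h3 := h2 _ hcon
    have h4 := hmem z
    rw [deg_shown] at h4
    omega
  intro v
  have h5 := deg_ge_post k m σ a hm (tau k σ) (hat.trans hge) hle v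
  have h6 := (h1 v).trans (post_mono σ a hge v)
  omega

end Pool.Agent.R980.Budget
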