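import Mathlib
import Pool.Agent.R980.Budget

/-!
# Trees in the early graph on which the strategy saves an edge
-/

set_option autoImplicit false
set_option linter.unusedSectionVars false

namespace Pool.Agent.R980.Budget

open Finset
open scoped Classical

variable {n : ℕ}

/-- first end of the `j`-th edge of the tree -/
def ea (k : ℕ) (j : Fin (2 * k + 1)) : Fin (2 * k + 2) :=
  if j.1 < k then ⟨0, by omega⟩ else if j.1 < 2 * k - 1 then ⟨1, by omega⟩
    else if j.1 = 2 * k - 1 then ⟨0, by omega⟩ else ⟨1, by omega⟩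

/-- second end of the `j`-th edge of the tree -/
def eb (k : ℕ) (j : Fin (2 * k + 1)) : Fin (2 * k + 2) :=
  if h : j.1 < 2 * k - 1 then ⟨j.1 + 2, by omega⟩ else if j.1 = 2 * k - 1 then ⟨1, by omega⟩
    else ⟨2 * k + 1, by omega⟩

theorem ea_ne_eb (k : ℕ) (hk : 0 < k) (j : Fin (2 * k + 1)) : ea k j ≠ eb k j := by
  unfold ea eb
  split_ifs <;> (intro h; rw [Fin.mk.injEq] at h; omega)

theorem ea_val (k : ℕ) (j : Fin (2 * k + 1)) : (ea k j).1 =
    if j.1 < k then 0 else if j.1 < 2 * k - 1 then 1 else if j.1 = 2 * k - 1 then 0 else 1 := by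
  unfold ea
  split_ifs <;> rfl

theorem eb_val (k : ℕ) (j : Fin (2 * k + 1)) : (eb k j).1 =
    if j.1 < 2 * k - 1 then j.1 + 2 else if j.1 = 2 * k - 1 then 1 else 2 * k + 1 := by
  unfold eb
  split_ifs <;> rfl

theorem card_window (M a b : ℕ) (hb : b ≤ M) :
    (univ.filter fun j : Fin M => a ≤ j.1 ∧ j.1 < b).card = b - a := by
  rw [← card_image_of_injective _ Fin.val_injective, ← Nat.card_Ico a b]
  congr 1
  ext i
  rw [mem_image, mem_Ico]
  constructor
  · rintro ⟨j, hj, rfl⟩
    exact (mem_filter.1 hj).2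
  · intro hi
    exact ⟨⟨i, by omega⟩, mem_filter.2 ⟨mem_univ _, hi⟩, rfl⟩

theorem rule_iff (k m : ℕ) (e : Edge n) (B : Finset (Edge n)) (h : B.card < m) :
    rule k m e B ↔ AllNew k B e := by
  unfold rule AllNew
  constructor
  · rintro (⟨_, h1⟩ | ⟨h1, _⟩)
    · exact h1
    · omega
  · intro h1
    exact Or.inl ⟨h, h1⟩

section tree

variable (k p q m : ℕ) (hp : (2 * k + 2) * p ≤ n) (hq : (2 * k + 1) * q ≤ m)

include hp in
theorem vt_lt (y : Fin (2 * k + 2) → Fin p) (c : Fin (2 * k + 2)) : c.1 * p + (y c).1 < n := by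
  have h1 := (y c).2
  have h2 := c.2
  have h3 : (c.1 + 1) * p ≤ (2 * k + 2) * p := Nat.mul_le_mul_right _ (by omega)
  have h4 : (c.1 + 1) * p = c.1 * p + p := by ring
  omega

/-- the vertices of the tree -/
def vt (y : Fin (2 * k + 2) → Fin p) (c : Fin (2 * k + 2)) : Fin n :=
  ⟨c.1 * p + (y c).1, vt_lt k p hp y c⟩

include hq in
theorem ps_lt (r : Fin (2 * k + 1) → Fin q) (j : Fin (2 * k + 1)) : j.1 * q + (r j).1 < m := by
  have h1 := (r j).2
  have h2 := j.2
  have h3 : (j.1 + 1) * q ≤ (2 * k + 1) * q := Nat.mul_le_mul_right _ (by omega)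
  have h4 : (j.1 + 1) * q = j.1 * q + q := by ring
  omega

/-- the positions of the edges of the tree -/
def ps (r : Fin (2 * k + 1) → Fin q) (j : Fin (2 * k + 1)) : Fin m :=
  ⟨j.1 * q + (r j).1, ps_lt k q m hq r j⟩

theorem block_inj {a b c x y : ℕ} (hx : x < a) (hy : y < a) (h : b * a + x = c * a + y) :
    b = c ∧ x = y := by
  have ha : 0 < a := by omega
  have h1 : (b * a + x) / a = b := by
    rw [mul_comm, Nat.mul_add_div ha, Nat.div_eq_of_lt hx, add_zero]
  have h2 : (c * a + y) / a = c := by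
    rw [mul_comm, Nat.mul_add_div ha, Nat.div_eq_of_lt hy, add_zero]
  have h3 : b = c := by rw [← h1, ← h2, h]
  refine ⟨h3, ?_⟩
  rw [h3] at h
  omega

theorem vt_eq (y y' : Fin (2 * k + 2) → Fin p) (c c' : Fin (2 * k + 2))
    (h : vt k p hp y c = vt k p hp y' c') : c = c' ∧ y c = y' c' := by
  unfold vt at h
  rw [Fin.mk.injEq] at h
  have := block_inj (y c).2 (y' c').2 h
  exact ⟨Fin.ext this.1, Fin.ext this.2⟩

theorem ps_eq (r r' : Fin (2 * k + 1) → Fin q) (j j' : Fin (2 * k + 1))
    (h : ps k q m hq r j = ps k q m hq r' j') : j = j' ∧ r j = r' j' := by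
  unfold ps at h
  rw [Fin.mk.injEq] at h
  have := block_inj (r j).2 (r' j').2 h
  exact ⟨Fin.ext this.1, Fin.ext this.2⟩

theorem ps_strict (r : Fin (2 * k + 1) → Fin q) {j j' : Fin (2 * k + 1)} (h : j.1 < j'.1) :
    (ps k q m hq r j).1 < (ps k q m hq r j').1 := by
  unfold ps
  have h1 := (r j).2
  have h3 : (j.1 + 1) * q ≤ j'.1 * q := Nat.mul_le_mul_right _ (by omega)
  have h4 : (j.1 + 1) * q = j.1 * q + q := by ring
  simp only
  omega

variable (hk : 0 < k)

/-- the `j`-th edge of the tree -/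
def Ed (y : Fin (2 * k + 2) → Fin p) (j : Fin (2 * k + 1)) : Edge n :=
  ⟨s(vt k p hp y (ea k j), vt k p hp y (eb k j)), fun h =>
    ea_ne_eb k hk j (vt_eq k p hp y y _ _ (Sym2.mk_isDiag_iff.1 h)).1⟩

theorem mem_Ed (y : Fin (2 * k + 2) → Fin p) (j : Fin (2 * k + 1)) (v : Fin n) :
    v ∈ (Ed k p hp hk y j).1 ↔ v = vt k p hp y (ea k j) ∨ v = vt k p hp y (eb k j) :=
  Sym2.mem_iff

/-- the sequence `ω` shows the tree as an isolated component, its edges in the given order -/
def Special (x : (Fin (2 * k + 2) → Fin p) × (Fin (2 * k + 1) → Fin q)) (ω : Fin m → Edge n) :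
    Prop :=
  (∀ j, ω (ps k q m hq x.2 j) = Ed k p hp hk x.1 j) ∧
    ∀ i, (∀ j, i ≠ ps k q m hq x.2 j) → ∀ c, vt k p hp x.1 c ∉ (ω i).1

/-- two different special trees are disjoint -/
theorem special_disjoint (x x' : (Fin (2 * k + 2) → Fin p) × (Fin (2 * k + 1) → Fin q))
    (ω : Fin m → Edge n) (hx : Special k p q m hp hq hk x ω) (hx' : Special k p q m hp hq hk x' ω)
    (c : Fin (2 * k + 2)) (hc : x.1 c = x'.1 c) : x = x' := by
  have hstep : ∀ j : Fin (2 * k + 1), ∀ a ∈ ({ea k j, eb k j} : Finset (Fin (2 * k + 2))),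
      x.1 a = x'.1 a →
      x.2 j = x'.2 j ∧ x.1 (ea k j) = x'.1 (ea k j) ∧ x.1 (eb k j) = x'.1 (eb k j) := by
    intro j a ha hxa
    have hva : vt k p hp x.1 a = vt k p hp x'.1 a := by
      unfold vt
      rw [Fin.mk.injEq, hxa]
    have hmem : vt k p hp x'.1 a ∈ (ω (ps k q m hq x.2 j)).1 := by
      rw [hx.1 j, mem_Ed, ← hva]
      rw [mem_insert, mem_singleton] at ha
      rcases ha with rfl | rfl
      · exact Or.inl rfl
      · exact Or.inr rfl
    have hex : ∃ j', ps k q m hq x.2 j = ps k q m hq x'.2 j' := by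
      by_contra hcon
      push Not at hcon
      exact hx'.2 _ hcon a hmem
    obtain ⟨j', hj'⟩ := hex
    have h1 := ps_eq k q m hq x.2 x'.2 j j' hj'
    have hjj := h1.1
    subst hjj
    refine ⟨h1.2, ?_⟩
    have h2 : Ed k p hp hk x.1 j = Ed k p hp hk x'.1 j := by
      rw [← hx.1 j, hj', hx'.1 j]
    have hne := ea_ne_eb k hk j
    have h3 : vt k p hp x.1 (ea k j) ∈ (Ed k p hp hk x'.1 j).1 := by
      rw [← h2, mem_Ed]; exact Or.inl rfl
    have h4 : vt k p hp x.1 (eb k j) ∈ (Ed k p hp hk x'.1 j).1 := by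
      rw [← h2, mem_Ed]; exact Or.inr rfl
    rw [mem_Ed] at h3 h4
    constructor
    · rcases h3 with h3 | h3
      · exact (vt_eq k p hp _ _ _ _ h3).2
      · exact absurd (vt_eq k p hp _ _ _ _ h3).1 hne
    · rcases h4 with h4 | h4
      · exact absurd (vt_eq k p hp _ _ _ _ h4).1.symm hne
      · exact (vt_eq k p hp _ _ _ _ h4).2
  have hE : ∀ j : Fin (2 * k + 1), x.1 (ea k j) = x'.1 (ea k j) ↔
      x.1 (eb k j) = x'.1 (eb k j) := fun j =>
    ⟨fun h => (hstep j _ (mem_insert_self _ _) h).2.2, fun h =>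
      (hstep j _ (mem_insert_of_mem (mem_singleton_self _)) h).2.1⟩
  have h01 : x.1 ⟨0, by omega⟩ = x'.1 ⟨0, by omega⟩ ↔ x.1 ⟨1, by omega⟩ = x'.1 ⟨1, by omega⟩ := by
    have h1 := hE ⟨2 * k - 1, by omega⟩
    have h2 : ea k ⟨2 * k - 1, by omega⟩ = ⟨0, by omega⟩ := by
      apply Fin.ext
      rw [ea_val]
      simp only
      split_ifs <;> omega
    have h3 : eb k ⟨2 * k - 1, by omega⟩ = ⟨1, by omega⟩ := by
      apply Fin.ext
      rw [eb_val]
      simp only
      split_ifs <;> omega
    rw [h2, h3] at h1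
    exact h1
  have hc0 : ∀ c : Fin (2 * k + 2), x.1 c = x'.1 c ↔ x.1 ⟨0, by omega⟩ = x'.1 ⟨0, by omega⟩ := by
    intro c
    by_cases h0 : c.1 = 0
    · have : c = ⟨0, by omega⟩ := Fin.ext h0
      rw [this]
    · by_cases h1 : c.1 = 1
      · have : c = ⟨1, by omega⟩ := Fin.ext h1
        rw [this]
        exact h01.symm
      · by_cases h2 : c.1 ≤ 2 * k
        · have h3 := hE ⟨c.1 - 2, by omega⟩
          have h4 : eb k ⟨c.1 - 2, by omega⟩ = c := by
            apply Fin.ext
            rw [eb_val]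
            simp only
            split_ifs <;> omega
          rw [h4] at h3
          rw [← h3]
          have h5 : ea k ⟨c.1 - 2, by omega⟩ = ⟨0, by omega⟩ ∨
              ea k ⟨c.1 - 2, by omega⟩ = ⟨1, by omega⟩ := by
            rw [Fin.ext_iff, Fin.ext_iff, ea_val]
            simp only
            split_ifs <;> simp
          rcases h5 with h5 | h5
          · rw [h5]
          · rw [h5]; exact h01.symm
        · have h3 := hE ⟨2 * k, by omega⟩
          have h4 : eb k ⟨2 * k, by omega⟩ = c := by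
            apply Fin.ext
            rw [eb_val]
            simp only
            split_ifs <;> omega
          have h5 : ea k ⟨2 * k, by omega⟩ = ⟨1, by omega⟩ := by
            apply Fin.ext
            rw [ea_val]
            simp only
            split_ifs <;> omega
          rw [h4, h5] at h3
          rw [← h3]
          exact h01.symm
  have hall : ∀ c, x.1 c = x'.1 c := fun c' => (hc0 c').2 ((hc0 c).1 hc)
  refine Prod.ext (funext hall) (funext fun j => ?_)
  exact (hstep j _ (mem_insert_self _ _) (hall _)).1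

theorem early_edge (σ : Ordering n) (hm : m ≤ n.choose 2)
    (x : (Fin (2 * k + 2) → Fin p) × (Fin (2 * k + 1) → Fin q))
    (hx : Special k p q m hp hq hk x (fun i => σ (Fin.castLE hm i)))
    (e : Edge n) (he : (σ.symm e).1 < m) (c : Fin (2 * k + 2)) (hc : vt k p hp x.1 c ∈ e.1) :
    ∃ j, e = Ed k p hp hk x.1 j ∧ (c = ea k j ∨ c = eb k j) := by
  have h1 : σ (Fin.castLE hm ⟨(σ.symm e).1, he⟩) = e := by
    have : Fin.castLE hm ⟨(σ.symm e).1, he⟩ = σ.symm e := Fin.ext rfl
    rw [this, Equiv.apply_symm_apply]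
  have hex : ∃ j, (⟨(σ.symm e).1, he⟩ : Fin m) = ps k q m hq x.2 j := by
    by_contra hcon
    push Not at hcon
    have h2 := hx.2 _ hcon c
    simp only [h1] at h2
    exact h2 hc
  obtain ⟨j, hj⟩ := hex
  have h2 := hx.1 j
  simp only [← hj, h1] at h2
  refine ⟨j, h2, ?_⟩
  rw [h2, mem_Ed] at hc
  rcases hc with h | h
  · exact Or.inl (vt_eq k p hp _ _ _ _ h).1
  · exact Or.inr (vt_eq k p hp _ _ _ _ h).1

theorem pos_Ed (σ : Ordering n) (hm : m ≤ n.choose 2)
    (x : (Fin (2 * k + 2) → Fin p) × (Fin (2 * k + 1) → Fin q))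
    (hx : Special k p q m hp hq hk x (fun i => σ (Fin.castLE hm i))) (j : Fin (2 * k + 1)) :
    σ.symm (Ed k p hp hk x.1 j) = Fin.castLE hm (ps k q m hq x.2 j) := by
  rw [← hx.1 j, Equiv.symm_apply_apply]

theorem Ed_inj (σ : Ordering n) (hm : m ≤ n.choose 2)
    (x : (Fin (2 * k + 2) → Fin p) × (Fin (2 * k + 1) → Fin q))
    (hx : Special k p q m hp hq hk x (fun i => σ (Fin.castLE hm i))) (j j' : Fin (2 * k + 1))
    (h : Ed k p hp hk x.1 j = Ed k p hp hk x.1 j') : j = j' := by
  have h1 := pos_Ed k p q m hp hq hk σ hm x hx j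
  have h2 := pos_Ed k p q m hp hq hk σ hm x hx j'
  rw [h, h2] at h1
  have h3 := Fin.castLE_injective hm h1
  exact (ps_eq k q m hq _ _ _ _ h3).1.symm

theorem deg_upper (σ : Ordering n) (hm : m ≤ n.choose 2)
    (x : (Fin (2 * k + 2) → Fin p) × (Fin (2 * k + 1) → Fin q))
    (hx : Special k p q m hp hq hk x (fun i => σ (Fin.castLE hm i)))
    (j0 : Fin (2 * k + 1)) (H : Finset (Edge n))
    (hH : H ⊆ shown σ (ps k q m hq x.2 j0).1) (c : Fin (2 * k + 2)) :
    deg H (vt k p hp x.1 c) ≤ (univ.filter fun j : Fin (2 * k + 1) =>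
      (c = ea k j ∨ c = eb k j) ∧ j.1 < j0.1 ∧ Ed k p hp hk x.1 j ∈ H).card := by
  unfold deg
  refine (card_le_card (t := (univ.filter fun j : Fin (2 * k + 1) =>
      (c = ea k j ∨ c = eb k j) ∧ j.1 < j0.1 ∧ Ed k p hp hk x.1 j ∈ H).image
      (Ed k p hp hk x.1)) ?_).trans card_image_le
  intro e he
  rw [mem_filter] at he
  have h1 : (σ.symm e).1 < (ps k q m hq x.2 j0).1 := (mem_shown _ _ _).1 (hH he.1)
  have h2 := (ps k q m hq x.2 j0).2
  obtain ⟨j, hj, hc⟩ := early_edge k p q m hp hq hk σ hm x hx e (by omega) c he.2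
  rw [mem_image]
  refine ⟨j, ?_, hj.symm⟩
  rw [mem_filter]
  refine ⟨mem_univ _, hc, ?_, by rw [← hj]; exact he.1⟩
  by_contra hcon
  rw [hj, pos_Ed k p q m hp hq hk σ hm x hx j] at h1
  rw [not_lt] at hcon
  rcases Nat.lt_or_eq_of_le hcon with h3 | h3
  · have := ps_strict k q m hq x.2 h3
    simp only [Fin.val_castLE] at h1
    omega
  · have h4 : j0 = j := Fin.ext h3
    rw [h4] at h1
    simp at h1

theorem deg_lower (σ : Ordering n) (hm : m ≤ n.choose 2)
    (x : (Fin (2 * k + 2) → Fin p) × (Fin (2 * k + 1) → Fin q))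
    (hx : Special k p q m hp hq hk x (fun i => σ (Fin.castLE hm i)))
    (H : Finset (Edge n)) (J : Finset (Fin (2 * k + 1))) (c : Fin (2 * k + 2))
    (hJ : ∀ j ∈ J, Ed k p hp hk x.1 j ∈ H ∧ (c = ea k j ∨ c = eb k j)) :
    J.card ≤ deg H (vt k p hp x.1 c) := by
  unfold deg
  refine card_le_card_of_injOn (Ed k p hp hk x.1) ?_
    (fun j _ j' _ h => Ed_inj k p q m hp hq hk σ hm x hx j j' h)
  intro j hj
  rw [mem_coe] at hj
  rw [mem_coe, mem_filter]
  refine ⟨(hJ j hj).1, ?_⟩
  rw [mem_Ed]
  rcases (hJ j hj).2 with h | h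
  · exact Or.inl (by rw [h])
  · exact Or.inr (by rw [h])

/-- The last edge of a special tree is a surplus edge. -/
theorem surplus (σ : Ordering n) (hm : m ≤ n.choose 2)
    (x : (Fin (2 * k + 2) → Fin p) × (Fin (2 * k + 1) → Fin q))
    (hx : Special k p q m hp hq hk x (fun i => σ (Fin.castLE hm i))) :
    Ed k p hp hk x.1 ⟨2 * k, by omega⟩ ∈ twoNew k m σ ∧
      Ed k p hp hk x.1 ⟨2 * k, by omega⟩ ∉ firstBoth k σ := by
  set P : Fin (2 * k + 1) → ℕ := fun j => (ps k q m hq x.2 j).1 with hP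
  have hPm : ∀ j, P j < m := fun j => (ps k q m hq x.2 j).2
  have hpos : ∀ j, (σ.symm (Ed k p hp hk x.1 j)).1 = P j := fun j => by
    rw [pos_Ed k p q m hp hq hk σ hm x hx j]; rfl
  have hcard : ∀ t < m, (bought (rule k m) σ t).card < m := fun t ht =>
    (card_bought_le _ σ t).trans_lt ht
  -- membership in the purchase
  have hmemB : ∀ j (t : ℕ), t ≤ n.choose 2 → (Ed k p hp hk x.1 j ∈ bought (rule k m) σ t ↔
      P j < t ∧ AllNew k (bought (rule k m) σ (P j)) (Ed k p hp hk x.1 j)) := by
    intro j t ht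
    have h1 := mem_bought_iff (rule k m) σ t ht (σ.symm (Ed k p hp hk x.1 j))
    rw [Equiv.apply_symm_apply, hpos j] at h1
    rw [h1, rule_iff k m _ _ (hcard _ (hPm j))]
  have hsub : ∀ j, bought (rule k m) σ (P j) ⊆ shown σ (ps k q m hq x.2 j).1 := fun j =>
    bought_subset _ _ _
  -- the first `k` edges are bought
  have hfirst : ∀ j : Fin (2 * k + 1), j.1 < k →
      AllNew k (bought (rule k m) σ (P j)) (Ed k p hp hk x.1 j) := by
    intro j hj v hv
    rw [mem_Ed] at hv
    rcases hv with rfl | rfl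
    · refine (deg_upper k p q m hp hq hk σ hm x hx j _ (hsub j) _).trans_lt ?_
      refine (card_le_card (t := univ.filter fun i : Fin (2 * k + 1) =>
        0 ≤ i.1 ∧ i.1 < j.1) ?_).trans_lt ?_
      · intro i hi
        rw [mem_filter] at hi ⊢
        exact ⟨mem_univ _, Nat.zero_le _, hi.2.2.1⟩
      · rw [card_window _ _ _ (by omega)]
        omega
    · refine (deg_upper k p q m hp hq hk σ hm x hx j _ (hsub j) _).trans_lt ?_
      rw [card_eq_zero.2]
      · exact hk
      · rw [filter_eq_empty_iff]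
        rintro i - ⟨h1, h2, _⟩
        rcases h1 with h1 | h1
        · have h3 := congrArg Fin.val h1
          rw [eb_val, ea_val] at h3
          split_ifs at h3 <;> omega
        · have h3 := congrArg Fin.val h1
          rw [eb_val, eb_val] at h3
          split_ifs at h3 <;> omega
  have h2k1 : P ⟨2 * k - 1, by omega⟩ < P ⟨2 * k, by omega⟩ :=
    ps_strict k q m hq x.2 (by simp only; omega)
  -- the edge joining the centres is not bought
  have hcentre : Ed k p hp hk x.1 ⟨2 * k - 1, by omega⟩ ∉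
      bought (rule k m) σ (P ⟨2 * k, by omega⟩) := by
    rw [hmemB _ _ ((hPm _).le.trans hm)]
    rintro ⟨_, hall⟩
    have h1 := hall (vt k p hp x.1 ⟨0, by omega⟩) (by
      rw [mem_Ed]
      left
      congr 1
      apply Fin.ext
      rw [ea_val]
      simp only
      split_ifs <;> omega)
    have h2 := deg_lower k p q m hp hq hk σ hm x hx
      (bought (rule k m) σ (P ⟨2 * k - 1, by omega⟩))
      (univ.filter fun i : Fin (2 * k + 1) => 0 ≤ i.1 ∧ i.1 < k) ⟨0, by omega⟩ (by
        intro j hj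
        rw [mem_filter] at hj
        refine ⟨?_, Or.inl ?_⟩
        · rw [hmemB _ _ ((hPm _).le.trans hm)]
          refine ⟨ps_strict k q m hq x.2 (by simp only; omega), hfirst j hj.2.2⟩
        · apply Fin.ext
          rw [ea_val, if_pos hj.2.2])
    rw [card_window _ _ _ (by omega)] at h2
    omega
  constructor
  · unfold twoNew
    rw [mem_filter]
    refine ⟨mem_univ _, ?_⟩
    rw [hpos]
    intro v hv
    rw [mem_Ed] at hv
    rcases hv with rfl | rfl
    · refine (deg_upper k p q m hp hq hk σ hm x hx _ _ (hsub _) _).trans_lt ?_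
      refine (card_le_card (t := univ.filter fun i : Fin (2 * k + 1) =>
        k ≤ i.1 ∧ i.1 < 2 * k - 1) ?_).trans_lt ?_
      · intro i hi
        rw [mem_filter] at hi ⊢
        obtain ⟨_, h1, h2, h3⟩ := hi
        refine ⟨mem_univ _, ?_⟩
        have hne : i.1 ≠ 2 * k - 1 := by
          intro hc
          have : i = ⟨2 * k - 1, by omega⟩ := Fin.ext hc
          rw [this] at h3
          exact hcentre h3
        simp only at h2
        rcases h1 with h1 | h1
        · have h4 := congrArg Fin.val h1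
          rw [ea_val, ea_val] at h4
          simp only at h4
          split_ifs at h4 <;> omega
        · have h4 := congrArg Fin.val h1
          rw [ea_val, eb_val] at h4
          simp only at h4
          split_ifs at h4 <;> omega
      · rw [card_window _ _ _ (by omega)]
        omega
    · refine (deg_upper k p q m hp hq hk σ hm x hx _ _ (hsub _) _).trans_lt ?_
      rw [card_eq_zero.2]
      · exact hk
      · rw [filter_eq_empty_iff]
        rintro i - ⟨h1, h2, _⟩
        simp only at h2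
        rcases h1 with h1 | h1
        · have h3 := congrArg Fin.val h1
          rw [eb_val, ea_val] at h3
          simp only at h3
          split_ifs at h3 <;> omega
        · have h3 := congrArg Fin.val h1
          rw [eb_val, eb_val] at h3
          simp only at h3
          split_ifs at h3 <;> omega
  · unfold firstBoth
    rw [mem_filter]
    rintro ⟨_, hall⟩
    rw [hpos] at hall
    have h1 := hall (vt k p hp x.1 ⟨1, by omega⟩) (by
      rw [mem_Ed]
      left
      congr 1
      apply Fin.ext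
      rw [ea_val]
      simp only
      split_ifs <;> omega)
    have h2 := deg_lower k p q m hp hq hk σ hm x hx
      (shown σ (P ⟨2 * k, by omega⟩))
      (univ.filter fun i : Fin (2 * k + 1) => k ≤ i.1 ∧ i.1 < 2 * k) ⟨1, by omega⟩ (by
        intro j hj
        rw [mem_filter] at hj
        refine ⟨?_, ?_⟩
        · rw [mem_shown, hpos]
          exact ps_strict k q m hq x.2 (by simp only; omega)
        · rw [Fin.ext_iff, Fin.ext_iff, ea_val, eb_val]
          simp only
          split_ifs <;> omega)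
    rw [card_window _ _ _ (by omega)] at h2
    omega

/-- the number of special trees is at most the number of surplus edges -/
theorem special_count_le (σ : Ordering n) (hm : m ≤ n.choose 2) (hkn : k ≤ n - 1) :
    (bought (rule k m) σ (n.choose 2)).card +
      (univ.filter fun x : (Fin (2 * k + 2) → Fin p) × (Fin (2 * k + 1) → Fin q) =>
        Special k p q m hp hq hk x (fun i => σ (Fin.castLE hm i))).card
      ≤ (nearest k σ).card := by
  set F := univ.filter fun x : (Fin (2 * k + 2) → Fin p) × (Fin (2 * k + 1) → Fin q) =>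
        Special k p q m hp hq hk x (fun i => σ (Fin.castLE hm i)) with hF
  have hinj : Set.InjOn (fun x : (Fin (2 * k + 2) → Fin p) × (Fin (2 * k + 1) → Fin q) =>
      Ed k p hp hk x.1 ⟨2 * k, by omega⟩) F := by
    intro x hx x' hx' h
    rw [mem_coe, hF, mem_filter] at hx hx'
    simp only at h
    have h1 : vt k p hp x.1 (ea k ⟨2 * k, by omega⟩) ∈
        (Ed k p hp hk x'.1 ⟨2 * k, by omega⟩).1 := by
      rw [← h, mem_Ed]; exact Or.inl rfl
    rw [mem_Ed] at h1
    rcases h1 with h1 | h1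
    · exact special_disjoint k p q m hp hq hk x x' _ hx.2 hx'.2 _ (vt_eq k p hp _ _ _ _ h1).2
    · exact absurd (vt_eq k p hp _ _ _ _ h1).1 (ea_ne_eb k hk _)
  have h1 := saving k m hkn σ (F.image fun x => Ed k p hp hk x.1 ⟨2 * k, by omega⟩)
    (by
      intro e he
      obtain ⟨x, hx, rfl⟩ := mem_image.1 he
      exact (surplus k p q m hp hq hk σ hm x (mem_filter.1 hx).2).1)
    (by
      intro e he
      obtain ⟨x, hx, rfl⟩ := mem_image.1 he
      exact (surplus k p q m hp hq hk σ hm x (mem_filter.1 hx).2).2)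
  rw [card_image_of_injOn hinj] at h1
  exact h1

end tree

end Pool.Agent.R980.Budget
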