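import Mathlib
import Pool.Agent.R980.BudgetTree

/-!
# The number of special trees in a sequence of independent uniform edges
-/

set_option autoImplicit false
set_option linter.unusedSectionVars false

namespace Pool.Agent.R980.Budget

open Finset
open scoped Classical

variable {n : ℕ}

theorem card_edges (n : ℕ) : Fintype.card (Edge n) = n.choose 2 := by
  have h := Sym2.card_subtype_not_diag (α := Fin n)
  rw [Fintype.card_fin] at h
  rw [← h]

/-- the edges avoiding a set of vertices -/
theorem card_avoid (V : Finset (Fin n)) :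
    ((univ : Finset (Edge n)).filter fun e => ∀ v ∈ V, v ∉ e.1).card
      = (n - V.card).choose 2 := by
  have h1 : ((univ : Finset (Edge n)).filter fun e => ∀ v ∈ V, v ∉ e.1).image (fun e => e.1)
      = Vᶜ.offDiag.image (Function.uncurry Sym2.mk) := by
    ext z
    rw [mem_image, mem_image]
    constructor
    · rintro ⟨e, he, rfl⟩
      rw [mem_filter] at he
      obtain ⟨a, b, hab, heq⟩ := exists_ends e
      refine ⟨(a, b), ?_, heq.symm⟩
      rw [mem_offDiag, mem_compl, mem_compl]
      refine ⟨fun h => he.2 a h ?_, fun h => he.2 b h ?_, hab⟩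
      · rw [heq]; exact Sym2.mem_iff.2 (Or.inl rfl)
      · rw [heq]; exact Sym2.mem_iff.2 (Or.inr rfl)
    · rintro ⟨⟨a, b⟩, hab, rfl⟩
      rw [mem_offDiag, mem_compl, mem_compl] at hab
      refine ⟨⟨s(a, b), fun h => hab.2.2 (Sym2.mk_isDiag_iff.1 h)⟩, ?_, rfl⟩
      rw [mem_filter]
      refine ⟨mem_univ _, fun v hv hvm => ?_⟩
      rcases Sym2.mem_iff.1 hvm with rfl | rfl
      · exact hab.1 hv
      · exact hab.2.1 hv
  rw [← card_image_of_injective _ Subtype.val_injective, h1, Sym2.card_image_offDiag,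
    card_compl, Fintype.card_fin]

section moment

variable (k p q m : ℕ) (hp : (2 * k + 2) * p ≤ n) (hq : (2 * k + 1) * q ≤ m) (hk : 0 < k)

/-- the allowed edges at position `i` -/
noncomputable def allowed (x : (Fin (2 * k + 2) → Fin p) × (Fin (2 * k + 1) → Fin q))
    (i : Fin m) : Finset (Edge n) :=
  univ.filter fun e => (∀ j, i = ps k q m hq x.2 j → e = Ed k p hp hk x.1 j) ∧
    ((∀ j, i ≠ ps k q m hq x.2 j) → ∀ c, vt k p hp x.1 c ∉ e.1)

theorem special_iff (x : (Fin (2 * k + 2) → Fin p) × (Fin (2 * k + 1) → Fin q))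
    (ω : Fin m → Edge n) : Special k p q m hp hq hk x ω ↔
      ∀ i, ω i ∈ allowed k p q m hp hq hk x i := by
  unfold Special allowed
  constructor
  · rintro ⟨h1, h2⟩ i
    rw [mem_filter]
    refine ⟨mem_univ _, ?_, h2 i⟩
    rintro j rfl
    exact h1 j
  · intro h
    refine ⟨fun j => ?_, fun i hi => ?_⟩
    · exact ((mem_filter.1 (h (ps k q m hq x.2 j))).2.1) j rfl
    · exact (mem_filter.1 (h i)).2.2 hi

theorem allowed_ps (x : (Fin (2 * k + 2) → Fin p) × (Fin (2 * k + 1) → Fin q))
    (j : Fin (2 * k + 1)) :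
    allowed k p q m hp hq hk x (ps k q m hq x.2 j) = {Ed k p hp hk x.1 j} := by
  unfold allowed
  ext e
  rw [mem_filter, mem_singleton]
  constructor
  · rintro ⟨_, h, _⟩
    exact h j rfl
  · rintro rfl
    refine ⟨mem_univ _, fun j' hj' => ?_, fun h => absurd rfl (h j)⟩
    rw [(ps_eq k q m hq _ _ _ _ hj').1]

theorem allowed_other (x : (Fin (2 * k + 2) → Fin p) × (Fin (2 * k + 1) → Fin q))
    (i : Fin m) (hi : ∀ j, i ≠ ps k q m hq x.2 j) :
    allowed k p q m hp hq hk x i
      = univ.filter fun e => ∀ v ∈ univ.image (vt k p hp x.1), v ∉ e.1 := by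
  unfold allowed
  ext e
  rw [mem_filter, mem_filter]
  constructor
  · rintro ⟨_, _, h⟩
    refine ⟨mem_univ _, fun v hv => ?_⟩
    obtain ⟨c, _, rfl⟩ := mem_image.1 hv
    exact h hi c
  · rintro ⟨_, h⟩
    refine ⟨mem_univ _, fun j hj => absurd hj (hi j), fun _ c => ?_⟩
    exact h _ (mem_image.2 ⟨c, mem_univ _, rfl⟩)

theorem card_vts (x : (Fin (2 * k + 2) → Fin p) × (Fin (2 * k + 1) → Fin q)) :
    (univ.image (vt k p hp x.1)).card = 2 * k + 2 := by
  rw [card_image_of_injective, card_univ, Fintype.card_fin]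
  intro c c' h
  exact (vt_eq k p hp _ _ _ _ h).1

/-- the positions of the tree -/
def psSet (x : (Fin (2 * k + 2) → Fin p) × (Fin (2 * k + 1) → Fin q)) : Finset (Fin m) :=
  univ.image (ps k q m hq x.2)

theorem card_psSet (x : (Fin (2 * k + 2) → Fin p) × (Fin (2 * k + 1) → Fin q)) :
    (psSet k p q m hq x).card = 2 * k + 1 := by
  unfold psSet
  rw [card_image_of_injective, card_univ, Fintype.card_fin]
  intro c c' h
  exact (ps_eq k q m hq _ _ _ _ h).1

theorem one_count (x : (Fin (2 * k + 2) → Fin p) × (Fin (2 * k + 1) → Fin q)) :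
    (univ.filter fun ω : Fin m → Edge n => Special k p q m hp hq hk x ω).card
      = ((n - (2 * k + 2)).choose 2) ^ (m - (2 * k + 1)) := by
  have h1 : (univ.filter fun ω : Fin m → Edge n => Special k p q m hp hq hk x ω)
      = Fintype.piFinset (allowed k p q m hp hq hk x) := by
    ext ω
    rw [mem_filter, Fintype.mem_piFinset, special_iff]
    exact ⟨fun h => h.2, fun h => ⟨mem_univ _, h⟩⟩
  rw [h1, Fintype.card_piFinset]
  rw [← prod_mul_prod_compl (psSet k p q m hq x)]
  have h2 : ∏ i ∈ psSet k p q m hq x, (allowed k p q m hp hq hk x i).card = 1 := by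
    apply prod_eq_one
    intro i hi
    obtain ⟨j, _, rfl⟩ := mem_image.1 hi
    rw [allowed_ps, card_singleton]
  have h3 : ∀ i ∈ (psSet k p q m hq x)ᶜ, (allowed k p q m hp hq hk x i).card
      = (n - (2 * k + 2)).choose 2 := by
    intro i hi
    rw [mem_compl] at hi
    rw [allowed_other k p q m hp hq hk x i (fun j hj => hi (mem_image.2 ⟨j, mem_univ _, hj.symm⟩)),
      card_avoid, card_vts k p q hp x]
  rw [h2, prod_congr rfl h3, prod_const, one_mul, card_compl, Fintype.card_fin,
    card_psSet k p q m hq x]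

theorem pair_count (x x' : (Fin (2 * k + 2) → Fin p) × (Fin (2 * k + 1) → Fin q))
    (hne : x ≠ x') :
    (univ.filter fun ω : Fin m → Edge n => Special k p q m hp hq hk x ω ∧
      Special k p q m hp hq hk x' ω).card
      ≤ ((n - 2 * (2 * k + 2)).choose 2) ^ (m - 2 * (2 * k + 1)) := by
  by_cases hex : ∃ ω : Fin m → Edge n, Special k p q m hp hq hk x ω ∧
      Special k p q m hp hq hk x' ω
  swap
  · have : (univ.filter fun ω : Fin m → Edge n => Special k p q m hp hq hk x ω ∧
      Special k p q m hp hq hk x' ω) = ∅ := by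
      rw [filter_eq_empty_iff]
      intro ω _ h
      exact hex ⟨ω, h⟩
    rw [this]; simp
  · obtain ⟨ω0, hs, hs'⟩ := hex
    have hdis : ∀ c, x.1 c ≠ x'.1 c := fun c hc =>
      hne (special_disjoint k p q m hp hq hk x x' ω0 hs hs' c hc)
    have hV : Disjoint (univ.image (vt k p hp x.1)) (univ.image (vt k p hp x'.1)) := by
      rw [Finset.disjoint_left]
      intro v hv hv'
      obtain ⟨c, _, rfl⟩ := mem_image.1 hv
      obtain ⟨c', _, h⟩ := mem_image.1 hv'
      have h1 := vt_eq k p hp _ _ _ _ h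
      obtain ⟨rfl, h2⟩ := h1
      exact hdis _ h2.symm
    have hP : Disjoint (psSet k p q m hq x) (psSet k p q m hq x') := by
      rw [Finset.disjoint_left]
      intro i hi hi'
      obtain ⟨j, _, rfl⟩ := mem_image.1 hi
      obtain ⟨j', _, h⟩ := mem_image.1 hi'
      have h1 := hs.1 j
      rw [← h, hs'.1 j'] at h1
      have h2 : vt k p hp x.1 (ea k j) ∈ (Ed k p hp hk x'.1 j').1 := by
        rw [h1, mem_Ed]; exact Or.inl rfl
      rw [mem_Ed] at h2
      rcases h2 with h2 | h2
      · have h3 := vt_eq k p hp _ _ _ _ h2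
        exact hdis _ (by rw [h3.2, h3.1])
      · have h3 := vt_eq k p hp _ _ _ _ h2
        exact hdis _ (by rw [h3.2, h3.1])
    set T := psSet k p q m hq x ∪ psSet k p q m hq x' with hT
    have hTc : T.card = 2 * (2 * k + 1) := by
      rw [hT, card_union_of_disjoint hP, card_psSet k p q m hq x, card_psSet k p q m hq x']
      ring
    have h1 : (univ.filter fun ω : Fin m → Edge n => Special k p q m hp hq hk x ω ∧
        Special k p q m hp hq hk x' ω) = Fintype.piFinset fun i =>
          allowed k p q m hp hq hk x i ∩ allowed k p q m hp hq hk x' i := by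
      ext ω
      rw [mem_filter, Fintype.mem_piFinset, special_iff, special_iff]
      constructor
      · rintro ⟨_, h2, h3⟩ i
        exact mem_inter.2 ⟨h2 i, h3 i⟩
      · intro h
        exact ⟨mem_univ _, fun i => (mem_inter.1 (h i)).1, fun i => (mem_inter.1 (h i)).2⟩
    rw [h1, Fintype.card_piFinset, ← prod_mul_prod_compl T]
    have h2 : ∏ i ∈ T, (allowed k p q m hp hq hk x i ∩ allowed k p q m hp hq hk x' i).card
        ≤ 1 := by
      apply prod_le_one'
      intro i hi
      rw [hT, mem_union] at hi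
      rcases hi with hi | hi
      · obtain ⟨j, _, rfl⟩ := mem_image.1 hi
        refine (card_le_card inter_subset_left).trans ?_
        rw [allowed_ps, card_singleton]
      · obtain ⟨j, _, rfl⟩ := mem_image.1 hi
        refine (card_le_card inter_subset_right).trans ?_
        rw [allowed_ps, card_singleton]
    have h3 : ∀ i ∈ Tᶜ, (allowed k p q m hp hq hk x i ∩ allowed k p q m hp hq hk x' i).card
        = (n - 2 * (2 * k + 2)).choose 2 := by
      intro i hi
      rw [mem_compl, hT, mem_union, not_or] at hi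
      rw [allowed_other k p q m hp hq hk x i
        (fun j hj => hi.1 (mem_image.2 ⟨j, mem_univ _, hj.symm⟩)),
        allowed_other k p q m hp hq hk x' i
        (fun j hj => hi.2 (mem_image.2 ⟨j, mem_univ _, hj.symm⟩))]
      have h4 : (univ.filter fun e : Edge n => ∀ v ∈ univ.image (vt k p hp x.1), v ∉ e.1) ∩
          (univ.filter fun e : Edge n => ∀ v ∈ univ.image (vt k p hp x'.1), v ∉ e.1)
          = univ.filter fun e : Edge n => ∀ v ∈ univ.image (vt k p hp x.1) ∪
            univ.image (vt k p hp x'.1), v ∉ e.1 := by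
        ext e
        rw [mem_inter, mem_filter, mem_filter, mem_filter]
        constructor
        · rintro ⟨⟨_, h5⟩, ⟨_, h6⟩⟩
          refine ⟨mem_univ _, fun v hv => ?_⟩
          rcases mem_union.1 hv with hv | hv
          · exact h5 v hv
          · exact h6 v hv
        · rintro ⟨_, h5⟩
          exact ⟨⟨mem_univ _, fun v hv => h5 v (mem_union_left _ hv)⟩,
            ⟨mem_univ _, fun v hv => h5 v (mem_union_right _ hv)⟩⟩
      rw [h4, card_avoid, card_union_of_disjoint hV, card_vts k p q hp x, card_vts k p q hp x']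
      congr 1
      omega
    rw [prod_congr rfl h3, prod_const, card_compl, Fintype.card_fin, hTc]
    exact (Nat.mul_le_mul_right _ h2).trans (by rw [one_mul])

/-- the number of special trees -/
noncomputable def cntS (ω : Fin m → Edge n) : ℕ :=
  (univ.filter fun x : (Fin (2 * k + 2) → Fin p) × (Fin (2 * k + 1) → Fin q) =>
    Special k p q m hp hq hk x ω).card

theorem card_idx : Fintype.card ((Fin (2 * k + 2) → Fin p) × (Fin (2 * k + 1) → Fin q))
    = p ^ (2 * k + 2) * q ^ (2 * k + 1) := by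
  rw [Fintype.card_prod, Fintype.card_fun, Fintype.card_fun, Fintype.card_fin, Fintype.card_fin,
    Fintype.card_fin, Fintype.card_fin]

theorem sum_cntS : ∑ ω : Fin m → Edge n, cntS k p q m hp hq hk ω
    = p ^ (2 * k + 2) * q ^ (2 * k + 1) *
      ((n - (2 * k + 2)).choose 2) ^ (m - (2 * k + 1)) := by
  unfold cntS
  simp_rw [card_filter]
  rw [sum_comm]
  have h : ∀ x ∈ (univ : Finset ((Fin (2 * k + 2) → Fin p) × (Fin (2 * k + 1) → Fin q))),
      (∑ ω : Fin m → Edge n, if Special k p q m hp hq hk x ω then 1 else 0)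
      = ((n - (2 * k + 2)).choose 2) ^ (m - (2 * k + 1)) := by
    intro x _
    rw [← card_filter]
    exact one_count k p q m hp hq hk x
  rw [sum_congr rfl h, sum_const, card_univ, card_idx, smul_eq_mul]

theorem sum_cntS_sq : ∑ ω : Fin m → Edge n, (cntS k p q m hp hq hk ω) ^ 2
    ≤ p ^ (2 * k + 2) * q ^ (2 * k + 1) * ((n - (2 * k + 2)).choose 2) ^ (m - (2 * k + 1))
      + (p ^ (2 * k + 2) * q ^ (2 * k + 1)) ^ 2 *
        ((n - 2 * (2 * k + 2)).choose 2) ^ (m - 2 * (2 * k + 1)) := by
  have h1 : ∀ ω : Fin m → Edge n, (cntS k p q m hp hq hk ω) ^ 2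
      = ∑ x : (Fin (2 * k + 2) → Fin p) × (Fin (2 * k + 1) → Fin q),
        ∑ x' : (Fin (2 * k + 2) → Fin p) × (Fin (2 * k + 1) → Fin q),
        if Special k p q m hp hq hk x ω ∧ Special k p q m hp hq hk x' ω then 1 else 0 := by
    intro ω
    unfold cntS
    rw [sq, card_filter, sum_mul_sum]
    refine sum_congr rfl fun x _ => sum_congr rfl fun x' _ => ?_
    by_cases hx : Special k p q m hp hq hk x ω <;>
      by_cases hx' : Special k p q m hp hq hk x' ω <;> simp [hx, hx']
  simp_rw [h1]
  rw [sum_comm]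
  have h2 : ∀ x ∈ (univ : Finset ((Fin (2 * k + 2) → Fin p) × (Fin (2 * k + 1) → Fin q))),
      (∑ ω : Fin m → Edge n, ∑ x' : (Fin (2 * k + 2) → Fin p) × (Fin (2 * k + 1) → Fin q),
        if Special k p q m hp hq hk x ω ∧ Special k p q m hp hq hk x' ω then 1 else 0)
      ≤ ((n - (2 * k + 2)).choose 2) ^ (m - (2 * k + 1)) + p ^ (2 * k + 2) * q ^ (2 * k + 1) *
        ((n - 2 * (2 * k + 2)).choose 2) ^ (m - 2 * (2 * k + 1)) := by
    intro x _
    rw [sum_comm]
    have h3 : ∀ x' ∈ (univ : Finset ((Fin (2 * k + 2) → Fin p) × (Fin (2 * k + 1) → Fin q))),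
        (∑ ω : Fin m → Edge n,
          if Special k p q m hp hq hk x ω ∧ Special k p q m hp hq hk x' ω then 1 else 0)
        ≤ (if x' = x then ((n - (2 * k + 2)).choose 2) ^ (m - (2 * k + 1)) else 0)
          + ((n - 2 * (2 * k + 2)).choose 2) ^ (m - 2 * (2 * k + 1)) := by
      intro x' _
      rw [← card_filter]
      by_cases h : x' = x
      · subst h
        rw [if_pos rfl]
        have h4 := one_count k p q m hp hq hk x'
        rw [← h4]
        refine le_trans (card_le_card ?_) (Nat.le_add_right _ _)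
        intro ω hω
        rw [mem_filter] at hω ⊢
        exact ⟨hω.1, hω.2.1⟩
      · rw [if_neg h, zero_add]
        exact pair_count k p q m hp hq hk x x' (fun hc => h hc.symm)
    refine (sum_le_sum h3).trans ?_
    rw [sum_add_distrib, sum_ite_eq' univ x, if_pos (mem_univ _), sum_const, card_univ, card_idx,
      smul_eq_mul]
  refine (sum_le_sum h2).trans ?_
  rw [sum_const, card_univ, card_idx, smul_eq_mul]
  apply le_of_eq
  ring

end moment

/-- Chebyshev's inequality on a finite set -/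
theorem cheb {Ω : Type} [Fintype Ω] (S : Ω → ℕ) (μ : ℝ)
    (h1 : ∑ ω, (S ω : ℝ) = μ * Fintype.card Ω) :
    ((univ.filter fun ω => (S ω : ℝ) < μ / 2).card : ℝ) * μ ^ 2
      ≤ 4 * (∑ ω, (S ω : ℝ) ^ 2 - μ ^ 2 * Fintype.card Ω) := by
  have h2 : ∑ ω, ((S ω : ℝ) - μ) ^ 2 = ∑ ω, (S ω : ℝ) ^ 2 - μ ^ 2 * Fintype.card Ω := by
    have h3 : ∀ ω, ((S ω : ℝ) - μ) ^ 2 = (S ω : ℝ) ^ 2 - 2 * μ * (S ω : ℝ) + μ ^ 2 :=
      fun ω => by ring
    simp_rw [h3]
    rw [sum_add_distrib, sum_sub_distrib, ← mul_sum, h1, sum_const, card_univ, nsmul_eq_mul]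
    ring
  rw [← h2]
  have h4 : ∑ ω ∈ univ.filter (fun ω => (S ω : ℝ) < μ / 2), ((S ω : ℝ) - μ) ^ 2
      ≤ ∑ ω, ((S ω : ℝ) - μ) ^ 2 :=
    sum_le_sum_of_subset_of_nonneg (subset_univ _) fun ω _ _ => sq_nonneg _
  have h5 : ((univ.filter fun ω => (S ω : ℝ) < μ / 2).card : ℝ) * (μ ^ 2 / 4)
      ≤ ∑ ω ∈ univ.filter (fun ω => (S ω : ℝ) < μ / 2), ((S ω : ℝ) - μ) ^ 2 := by
    rw [← nsmul_eq_mul, ← sum_const]
    refine sum_le_sum fun ω hω => ?_
    have h6 := (mem_filter.1 hω).2
    have h7 : (0 : ℝ) ≤ (S ω : ℝ) := Nat.cast_nonneg _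
    nlinarith
  linarith

end Pool.Agent.R980.Budget
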