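import Mathlib
import Pool.Agent.R980.BudgetMoment

/-!
# Asymptotics of the number of special trees
-/

set_option autoImplicit false
set_option linter.unusedSectionVars false

namespace Pool.Agent.R980.Budget

open Finset Filter Topology
open scoped Classical

theorem choose_two_real (x : ℕ) : ((x.choose 2 : ℕ) : ℝ) = (x : ℝ) * ((x : ℝ) - 1) / 2 :=
  Nat.cast_choose_two ℝ x

theorem choose_prod_le (n h : ℕ) (hn : 2 * h + 1 ≤ n) :
    (((n - 2 * h).choose 2 : ℕ) : ℝ) * ((n.choose 2 : ℕ) : ℝ)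
      ≤ (((n - h).choose 2 : ℕ) : ℝ) ^ 2 := by
  rw [choose_two_real, choose_two_real, choose_two_real,
    Nat.cast_sub (show 2 * h ≤ n by omega), Nat.cast_sub (show h ≤ n by omega)]
  push_cast
  set x : ℝ := (n : ℝ) - h with hx
  have h0 : (0 : ℝ) ≤ h := Nat.cast_nonneg _
  have hxh : (h : ℝ) + 1 ≤ x := by
    have : ((2 * h + 1 : ℕ) : ℝ) ≤ n := by exact_mod_cast hn
    push_cast at this
    rw [hx]; linarith
  have h1 : (n : ℝ) = x + h := by rw [hx]; ring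
  rw [h1]
  have h2 : (x + h - 2 * h) * (x + h - 2 * h - 1) / 2 * ((x + h) * (x + h - 1) / 2)
      = (x ^ 2 - h ^ 2) * ((x - 1) ^ 2 - h ^ 2) / 4 := by ring
  have h3 : (x * (x - 1) / 2) ^ 2 = x ^ 2 * (x - 1) ^ 2 / 4 := by ring
  rw [h2, h3]
  have h4 : (0 : ℝ) ≤ (x - 1) ^ 2 - h ^ 2 := by nlinarith
  have h5 : (0 : ℝ) ≤ x ^ 2 := sq_nonneg _
  have h6 : (0 : ℝ) ≤ (h : ℝ) ^ 2 := sq_nonneg _
  have h7 : (x ^ 2 - h ^ 2) * ((x - 1) ^ 2 - h ^ 2) ≤ x ^ 2 * (x - 1) ^ 2 := by nlinarith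
  linarith

/-- `(n - h).choose 2 / n.choose 2 ≥ (1 - h / (n - 1)) ^ 2` -/
theorem choose_ratio (n h : ℕ) (hn : h + 2 ≤ n) :
    (1 - (h : ℝ) / ((n : ℝ) - 1)) ^ 2 * ((n.choose 2 : ℕ) : ℝ) ≤ (((n - h).choose 2 : ℕ) : ℝ) := by
  rw [choose_two_real, choose_two_real, Nat.cast_sub (show h ≤ n by omega)]
  have hn' : (h : ℝ) + 2 ≤ n := by exact_mod_cast hn
  have h0 : (0 : ℝ) ≤ h := Nat.cast_nonneg _
  have h1 : (0 : ℝ) < (n : ℝ) - 1 := by linarith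
  have h2 : (1 - (h : ℝ) / ((n : ℝ) - 1)) * ((n : ℝ) - 1) = (n : ℝ) - h - 1 := by
    field_simp
    ring
  have h3 : (1 - (h : ℝ) / ((n : ℝ) - 1)) * (n : ℝ) ≤ (n : ℝ) - h := by
    have h4 : (h : ℝ) ≤ (h : ℝ) / ((n : ℝ) - 1) * n := by
      rw [div_mul_eq_mul_div, le_div_iff₀ h1]
      nlinarith
    linarith
  have h5 : (0 : ℝ) ≤ 1 - (h : ℝ) / ((n : ℝ) - 1) := by
    rw [sub_nonneg, div_le_one h1]; linarith
  have h6 : (1 - (h : ℝ) / ((n : ℝ) - 1)) ^ 2 * ((n : ℝ) * ((n : ℝ) - 1) / 2)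
      = ((1 - (h : ℝ) / ((n : ℝ) - 1)) * n) * ((1 - (h : ℝ) / ((n : ℝ) - 1)) * ((n : ℝ) - 1)) / 2 := by
    ring
  rw [h6, h2]
  have h7 : (0 : ℝ) ≤ (n : ℝ) - h - 1 := by linarith
  have h8 := mul_le_mul_of_nonneg_right h3 h7
  linarith

theorem pow_lemma (D0 D1 D2 : ℝ) (h0 : 0 < D0) (h1 : 0 < D1) (h2 : 0 ≤ D2)
    (h : D2 * D0 ≤ D1 ^ 2) (j f : ℕ) :
    D2 ^ j * D0 ^ (j + 2 * f) ≤ (D1 ^ (j + f)) ^ 2 * (D0 / D1) ^ (2 * f) := by
  have h3 : (D2 * D0) ^ j ≤ (D1 ^ 2) ^ j := pow_le_pow_left₀ (mul_nonneg h2 h0.le) h j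
  rw [mul_pow] at h3
  have h4 : (D1 ^ (j + f)) ^ 2 * (D0 / D1) ^ (2 * f) = (D1 ^ 2) ^ j * D0 ^ (2 * f) := by
    rw [div_pow, mul_div_assoc', div_eq_iff (pow_ne_zero _ h1.ne')]
    rw [← pow_mul, ← pow_mul]
    ring
  rw [h4, pow_add, ← mul_assoc]
  exact mul_le_mul_of_nonneg_right h3 (pow_nonneg h0.le _)

theorem card_seq (n m : ℕ) : (Fintype.card (Fin m → Edge n) : ℝ) = ((n.choose 2 : ℕ) : ℝ) ^ m := by
  rw [Fintype.card_fun, Fintype.card_fin, card_edges]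
  push_cast
  rfl

/-- the bound of the second moment method, for independent uniform edges -/
theorem low_bound (n k p q m : ℕ) (hp : (2 * k + 2) * p ≤ n) (hq : (2 * k + 1) * q ≤ m)
    (hk : 0 < k) (hm : 2 * (2 * k + 1) ≤ m) (hn : 2 * (2 * k + 2) + 2 ≤ n) (μ : ℝ)
    (hμ : μ = (p : ℝ) ^ (2 * k + 2) * (q : ℝ) ^ (2 * k + 1) *
      (((n - (2 * k + 2)).choose 2 : ℕ) : ℝ) ^ (m - (2 * k + 1)) / ((n.choose 2 : ℕ) : ℝ) ^ m)
    (hμ0 : 0 < μ) :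
    ((univ.filter fun ω : Fin m → Edge n => (cntS k p q m hp hq hk ω : ℝ) < μ / 2).card : ℝ)
      ≤ 4 * (1 / μ + ((((n.choose 2 : ℕ) : ℝ) / (((n - (2 * k + 2)).choose 2 : ℕ) : ℝ))
        ^ (2 * (2 * k + 1)) - 1)) * (Fintype.card (Fin m → Edge n) : ℝ) := by
  have hD0 : (0 : ℝ) < ((n.choose 2 : ℕ) : ℝ) := by
    have : 0 < n.choose 2 := Nat.choose_pos (by omega)
    exact_mod_cast this
  have hD1 : (0 : ℝ) < (((n - (2 * k + 2)).choose 2 : ℕ) : ℝ) := by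
    have : 0 < (n - (2 * k + 2)).choose 2 := Nat.choose_pos (by omega)
    exact_mod_cast this
  have hD2 : (0 : ℝ) ≤ (((n - 2 * (2 * k + 2)).choose 2 : ℕ) : ℝ) := Nat.cast_nonneg _
  have hlc := choose_prod_le n (2 * k + 2) (by omega)
  have hcard := card_seq n m
  have hpos : (0 : ℝ) < (Fintype.card (Fin m → Edge n) : ℝ) := by rw [hcard]; positivity
  have hs1 : ∑ ω : Fin m → Edge n, (cntS k p q m hp hq hk ω : ℝ)
      = μ * Fintype.card (Fin m → Edge n) := by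
    have h := sum_cntS k p q m hp hq hk
    have h' : ((∑ ω : Fin m → Edge n, cntS k p q m hp hq hk ω : ℕ) : ℝ)
      = ((p ^ (2 * k + 2) * q ^ (2 * k + 1) *
      ((n - (2 * k + 2)).choose 2) ^ (m - (2 * k + 1)) : ℕ) : ℝ) := by rw [h]
    push_cast at h'
    rw [h', hμ, hcard, div_mul_cancel₀ _ (pow_pos hD0 _).ne']
  have hch := cheb (cntS k p q m hp hq hk) μ hs1
  have hs2 : ∑ ω : Fin m → Edge n, (cntS k p q m hp hq hk ω : ℝ) ^ 2
      ≤ μ * Fintype.card (Fin m → Edge n) + ((p : ℝ) ^ (2 * k + 2) * (q : ℝ) ^ (2 * k + 1)) ^ 2 *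
        (((n - 2 * (2 * k + 2)).choose 2 : ℕ) : ℝ) ^ (m - 2 * (2 * k + 1)) := by
    have h := sum_cntS_sq k p q m hp hq hk
    have h' : ((∑ ω : Fin m → Edge n, (cntS k p q m hp hq hk ω) ^ 2 : ℕ) : ℝ)
      ≤ ((p ^ (2 * k + 2) * q ^ (2 * k + 1) * ((n - (2 * k + 2)).choose 2) ^ (m - (2 * k + 1))
      + (p ^ (2 * k + 2) * q ^ (2 * k + 1)) ^ 2 *
        ((n - 2 * (2 * k + 2)).choose 2) ^ (m - 2 * (2 * k + 1)) : ℕ) : ℝ) := by exact_mod_cast h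
    push_cast at h'
    have h'' : μ * Fintype.card (Fin m → Edge n) = (p : ℝ) ^ (2 * k + 2) * (q : ℝ) ^ (2 * k + 1) *
      (((n - (2 * k + 2)).choose 2 : ℕ) : ℝ) ^ (m - (2 * k + 1)) := by
      rw [hμ, hcard, div_mul_cancel₀ _ (pow_pos hD0 _).ne']
    rw [h'']
    exact h'
  obtain ⟨j, hj⟩ : ∃ j, m = j + 2 * (2 * k + 1) := ⟨m - 2 * (2 * k + 1), by omega⟩
  have hkey : ((p : ℝ) ^ (2 * k + 2) * (q : ℝ) ^ (2 * k + 1)) ^ 2 *
        (((n - 2 * (2 * k + 2)).choose 2 : ℕ) : ℝ) ^ (m - 2 * (2 * k + 1))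
      ≤ μ ^ 2 * (((n.choose 2 : ℕ) : ℝ) / (((n - (2 * k + 2)).choose 2 : ℕ) : ℝ))
        ^ (2 * (2 * k + 1)) * Fintype.card (Fin m → Edge n) := by
    rw [hcard, hμ]
    set G : ℝ := (p : ℝ) ^ (2 * k + 2) * (q : ℝ) ^ (2 * k + 1) with hG
    set D0 : ℝ := ((n.choose 2 : ℕ) : ℝ)
    set D1 : ℝ := (((n - (2 * k + 2)).choose 2 : ℕ) : ℝ)
    set D2 : ℝ := (((n - 2 * (2 * k + 2)).choose 2 : ℕ) : ℝ)
    have hpl := pow_lemma D0 D1 D2 hD0 hD1 hD2 hlc j (2 * k + 1)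
    have e1 : m - 2 * (2 * k + 1) = j := by omega
    have e2 : m - (2 * k + 1) = j + (2 * k + 1) := by omega
    have e3 : m = j + 2 * (2 * k + 1) := hj
    rw [e1, e2]
    have h1 : (G * D1 ^ (j + (2 * k + 1)) / D0 ^ m) ^ 2 * (D0 / D1) ^ (2 * (2 * k + 1)) * D0 ^ m
        = G ^ 2 * ((D1 ^ (j + (2 * k + 1))) ^ 2 * (D0 / D1) ^ (2 * (2 * k + 1))) / D0 ^ m := by
      have hne : D0 ^ m ≠ 0 := (pow_pos hD0 _).ne'
      field_simp
    rw [h1, le_div_iff₀ (pow_pos hD0 _), mul_assoc]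
    apply mul_le_mul_of_nonneg_left _ (sq_nonneg G)
    rw [e3]
    exact hpl
  set ρ : ℝ := (((n.choose 2 : ℕ) : ℝ) / (((n - (2 * k + 2)).choose 2 : ℕ) : ℝ))
        ^ (2 * (2 * k + 1)) with hρ
  set C : ℝ := (Fintype.card (Fin m → Edge n) : ℝ) with hC
  have h9 : ((univ.filter fun ω : Fin m → Edge n =>
      (cntS k p q m hp hq hk ω : ℝ) < μ / 2).card : ℝ) * μ ^ 2
      ≤ (4 * (1 / μ + (ρ - 1)) * C) * μ ^ 2 := by
    refine hch.trans ?_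
    have h10 : (4 * (1 / μ + (ρ - 1)) * C) * μ ^ 2 = 4 * (μ * C + (μ ^ 2 * ρ * C - μ ^ 2 * C)) := by
      field_simp
    rw [h10]
    linarith
  exact le_of_mul_le_mul_right h9 (pow_pos hμ0 2)

theorem theta_tendsto (h : ℕ) :
    Tendsto (fun n : ℕ => (1 : ℝ) - (h : ℝ) / ((n : ℝ) - 1)) atTop (𝓝 1) := by
  have h1 : Tendsto (fun n : ℕ => (n : ℝ) - 1) atTop atTop :=
    tendsto_atTop_add_const_right _ _ tendsto_natCast_atTop_atTop
  have h2 : Tendsto (fun n : ℕ => (h : ℝ) / ((n : ℝ) - 1)) atTop (𝓝 0) :=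
    Tendsto.div_atTop tendsto_const_nhds h1
  have h3 := (tendsto_const_nhds (x := (1 : ℝ))).sub h2
  rw [sub_zero] at h3
  exact h3

/-- the constant -/
noncomputable def cst (k s : ℕ) : ℝ :=
  (1 / 2) * (1 / (2 * ((2 * k + 2 : ℕ) : ℝ))) ^ (2 * k + 2) *
    (1 / (4 * (s : ℝ) * ((2 * k + 1 : ℕ) : ℝ))) ^ (2 * k + 1)

theorem cst_pos (k s : ℕ) (hs : 0 < s) : 0 < cst k s := by
  unfold cst
  have h1 : (0 : ℝ) < s := by exact_mod_cast hs
  have h2 : (0 : ℝ) < ((2 * k + 2 : ℕ) : ℝ) := by positivity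
  have h3 : (0 : ℝ) < ((2 * k + 1 : ℕ) : ℝ) := by positivity
  positivity

theorem half_le_div (x y : ℕ) (hy : 0 < y) (h : 2 * y ≤ x) :
    (x : ℝ) / (2 * y) ≤ ((x / y : ℕ) : ℝ) := by
  have h1 : x < y * (x / y) + y := Nat.lt_mul_div_succ x hy |>.trans_le (by rw [Nat.mul_succ])
  have h2 : (x : ℝ) < y * ((x / y : ℕ) : ℝ) + y := by exact_mod_cast h1
  have h3 : (2 : ℝ) * y ≤ x := by exact_mod_cast h
  have h4 : (0 : ℝ) < y := by exact_mod_cast hy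
  rw [div_le_iff₀ (by positivity)]
  nlinarith

theorem mu_ge (k s n : ℕ) (hk : 0 < k) (hs : 8 * (2 * k + 2) ≤ s)
    (hn : 2 * s * (2 * (2 * k + 1)) ≤ n) :
    cst k s * n ≤ ((n / (2 * k + 2) : ℕ) : ℝ) ^ (2 * k + 2) *
      (((n / s) / (2 * k + 1) : ℕ) : ℝ) ^ (2 * k + 1) *
      (((n - (2 * k + 2)).choose 2 : ℕ) : ℝ) ^ (n / s - (2 * k + 1)) /
        ((n.choose 2 : ℕ) : ℝ) ^ (n / s) := by
  set h : ℕ := 2 * k + 2 with hh
  set f : ℕ := 2 * k + 1 with hf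
  have hhf : h = f + 1 := by omega
  have hs0 : 0 < s := by omega
  have hf0 : 0 < f := by omega
  have hn2 : 2 * s ≤ n := by nlinarith
  have hnh : 2 * h ≤ n := by omega
  set m : ℕ := n / s with hm
  have hsm : s * m ≤ n := Nat.mul_div_le n s
  have hmf : 2 * f ≤ m := by
    rw [hm, Nat.le_div_iff_mul_le hs0]
    nlinarith
  have hp : (n : ℝ) / (2 * h) ≤ ((n / h : ℕ) : ℝ) := half_le_div n h (by omega) hnh
  have hm1 : (n : ℝ) / (2 * s) ≤ (m : ℝ) := half_le_div n s hs0 hn2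
  have hq : (m : ℝ) / (2 * f) ≤ ((m / f : ℕ) : ℝ) := half_le_div m f hf0 hmf
  have hsR : (0 : ℝ) < s := by exact_mod_cast hs0
  have hfR : (0 : ℝ) < f := by exact_mod_cast hf0
  have hnR : (0 : ℝ) < n := by
    have : 0 < n := by omega
    exact_mod_cast this
  have hq2 : (n : ℝ) / (4 * s * f) ≤ ((m / f : ℕ) : ℝ) := by
    refine le_trans ?_ hq
    rw [div_le_div_iff₀ (by positivity) (by positivity)]
    rw [div_le_iff₀ (by positivity)] at hm1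
    nlinarith
  have hD0 : (0 : ℝ) < ((n.choose 2 : ℕ) : ℝ) := by
    have : 0 < n.choose 2 := Nat.choose_pos (by omega)
    exact_mod_cast this
  have hD0n : ((n.choose 2 : ℕ) : ℝ) ≤ (n : ℝ) ^ 2 := by
    rw [choose_two_real]
    nlinarith
  have hratio := choose_ratio n h (by omega)
  set θ : ℝ := 1 - (h : ℝ) / ((n : ℝ) - 1) with hθ
  have hn1 : (0 : ℝ) < (n : ℝ) - 1 := by
    have : (2 : ℝ) ≤ n := by exact_mod_cast (show 2 ≤ n by omega)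
    linarith
  have hhn : (h : ℝ) / ((n : ℝ) - 1) ≤ 1 := by
    rw [div_le_one hn1]
    have : ((h + 1 : ℕ) : ℝ) ≤ n := by exact_mod_cast (show h + 1 ≤ n by omega)
    push_cast at this
    linarith
  have hh0 : (0 : ℝ) ≤ (h : ℝ) / ((n : ℝ) - 1) := by positivity
  have hθ0 : 0 ≤ θ := by rw [hθ]; linarith
  have hθ1 : θ ≤ 1 := by rw [hθ]; linarith
  have hθm : (1 : ℝ) / 2 ≤ θ ^ (2 * m) := by
    have h1 := one_add_mul_le_pow (a := -((h : ℝ) / ((n : ℝ) - 1))) (by linarith) (2 * m)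
    have h2 : (1 : ℝ) + -((h : ℝ) / ((n : ℝ) - 1)) = θ := by rw [hθ]; ring
    rw [h2] at h1
    refine le_trans ?_ h1
    have h3 : ((2 * m : ℕ) : ℝ) * ((h : ℝ) / ((n : ℝ) - 1)) ≤ 1 / 2 := by
      rw [mul_div_assoc', div_le_iff₀ hn1]
      have h4 : (8 : ℝ) * h * m ≤ n := by
        have : 8 * h * m ≤ n := (Nat.mul_le_mul_right m hs).trans hsm
        exact_mod_cast this
      push_cast
      have h5 : (2 : ℝ) ≤ n := by exact_mod_cast (show 2 ≤ n by omega)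
      nlinarith
    linarith
  have hD1 : θ ^ (2 * (m - f)) * ((n.choose 2 : ℕ) : ℝ) ^ (m - f)
      ≤ (((n - h).choose 2 : ℕ) : ℝ) ^ (m - f) := by
    rw [pow_mul, ← mul_pow]
    exact pow_le_pow_left₀ (by positivity) hratio _
  have hD1' : (1 / 2 : ℝ) * ((n.choose 2 : ℕ) : ℝ) ^ (m - f)
      ≤ (((n - h).choose 2 : ℕ) : ℝ) ^ (m - f) := by
    refine le_trans (mul_le_mul_of_nonneg_right ?_ (by positivity)) hD1
    refine hθm.trans ?_
    exact pow_le_pow_of_le_one hθ0 hθ1 (by omega)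
  rw [le_div_iff₀ (by positivity)]
  have h1 : ((n / h : ℕ) : ℝ) ^ h ≥ ((n : ℝ) / (2 * h)) ^ h :=
    pow_le_pow_left₀ (by positivity) hp _
  have h2 : ((m / f : ℕ) : ℝ) ^ f ≥ ((n : ℝ) / (4 * s * f)) ^ f :=
    pow_le_pow_left₀ (by positivity) hq2 _
  have h3 : ((n.choose 2 : ℕ) : ℝ) ^ m = ((n.choose 2 : ℕ) : ℝ) ^ f *
      ((n.choose 2 : ℕ) : ℝ) ^ (m - f) := by
    rw [← pow_add]
    congr 1
    omega
  have h4 : ((n.choose 2 : ℕ) : ℝ) ^ f ≤ ((n : ℝ) ^ 2) ^ f :=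
    pow_le_pow_left₀ hD0.le hD0n _
  have h5 : cst k s * n * ((n : ℝ) ^ 2) ^ f
      = ((n : ℝ) / (2 * h)) ^ h * ((n : ℝ) / (4 * s * f)) ^ f * (1 / 2) := by
    unfold cst
    rw [← hh, ← hf, div_pow, div_pow, div_pow, div_pow, one_pow, one_pow, hhf]
    ring
  have hc := cst_pos k s hs0
  calc cst k s * n * ((n.choose 2 : ℕ) : ℝ) ^ m
      = cst k s * n * ((n.choose 2 : ℕ) : ℝ) ^ f * ((n.choose 2 : ℕ) : ℝ) ^ (m - f) := by
        rw [h3]; ring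
    _ ≤ cst k s * n * ((n : ℝ) ^ 2) ^ f * ((n.choose 2 : ℕ) : ℝ) ^ (m - f) := by
        refine mul_le_mul_of_nonneg_right ?_ (by positivity)
        exact mul_le_mul_of_nonneg_left h4 (by positivity)
    _ = ((n : ℝ) / (2 * h)) ^ h * ((n : ℝ) / (4 * s * f)) ^ f *
        ((1 / 2) * ((n.choose 2 : ℕ) : ℝ) ^ (m - f)) := by
        rw [h5]; ring
    _ ≤ ((n / h : ℕ) : ℝ) ^ h * ((m / f : ℕ) : ℝ) ^ f *
        (((n - h).choose 2 : ℕ) : ℝ) ^ (m - f) := by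
        refine mul_le_mul ?_ hD1' (by positivity) (by positivity)
        exact mul_le_mul h1 h2 (by positivity) (by positivity)

/-- The number of special trees is linear in `n`, with high probability (for independent uniform
edges). -/
theorem low_limit (k s : ℕ) (hk : 0 < k) (hs : 8 * (2 * k + 2) ≤ s) (η : ℝ) (hη : 0 < η) :
    ∀ᶠ n : ℕ in atTop,
      ((univ.filter fun ω : Fin (n / s) → Edge n =>
        (cntS k (n / (2 * k + 2)) ((n / s) / (2 * k + 1)) (n / s) (Nat.mul_div_le _ _)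
          (Nat.mul_div_le _ _) hk ω : ℝ) < cst k s / 2 * n).card : ℝ)
        ≤ η * (Fintype.card (Fin (n / s) → Edge n) : ℝ) := by
  have hs0 : 0 < s := by omega
  have hc := cst_pos k s hs0
  have hlim : Tendsto (fun n : ℕ => 4 * (1 / (cst k s * n) +
      ((((1 : ℝ) - ((2 * k + 2 : ℕ) : ℝ) / ((n : ℝ) - 1)) ^ 2)⁻¹ ^ (2 * (2 * k + 1)) - 1)))
      atTop (𝓝 (4 * (0 + (((1 : ℝ) ^ 2)⁻¹ ^ (2 * (2 * k + 1)) - 1)))) := by
    refine Tendsto.const_mul _ (Tendsto.add ?_ (Tendsto.sub ?_ tendsto_const_nhds))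
    · refine Tendsto.div_atTop tendsto_const_nhds ?_
      exact tendsto_natCast_atTop_atTop.const_mul_atTop hc
    · exact (((theta_tendsto (2 * k + 2)).pow 2).inv₀ (by norm_num)).pow _
  have hz : (4 : ℝ) * (0 + (((1 : ℝ) ^ 2)⁻¹ ^ (2 * (2 * k + 1)) - 1)) = 0 := by
    rw [one_pow, inv_one, one_pow]; ring
  rw [hz] at hlim
  filter_upwards [hlim.eventually_lt_const hη, eventually_ge_atTop (2 * s * (2 * (2 * k + 1)))]
    with n hn1 hn2
  have hn3 : 2 * s ≤ n := by nlinarith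
  have hn4 : 2 * (2 * k + 2) + 2 ≤ n := by omega
  have hmf : 2 * (2 * k + 1) ≤ n / s := by
    rw [Nat.le_div_iff_mul_le hs0]
    nlinarith
  set μ : ℝ := ((n / (2 * k + 2) : ℕ) : ℝ) ^ (2 * k + 2) *
      (((n / s) / (2 * k + 1) : ℕ) : ℝ) ^ (2 * k + 1) *
      (((n - (2 * k + 2)).choose 2 : ℕ) : ℝ) ^ (n / s - (2 * k + 1)) /
        ((n.choose 2 : ℕ) : ℝ) ^ (n / s) with hμ
  have hμge : cst k s * n ≤ μ := mu_ge k s n hk hs hn2
  have hnR : (0 : ℝ) < n := by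
    have : 0 < n := by omega
    exact_mod_cast this
  have hcn : 0 < cst k s * n := mul_pos hc hnR
  have hμ0 : 0 < μ := lt_of_lt_of_le hcn hμge
  have hb := low_bound n k (n / (2 * k + 2)) ((n / s) / (2 * k + 1)) (n / s) (Nat.mul_div_le _ _)
    (Nat.mul_div_le _ _) hk hmf hn4 μ hμ hμ0
  refine (Nat.cast_le.2 (card_le_card (t := univ.filter fun ω : Fin (n / s) → Edge n =>
        (cntS k (n / (2 * k + 2)) ((n / s) / (2 * k + 1)) (n / s) (Nat.mul_div_le _ _)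
          (Nat.mul_div_le _ _) hk ω : ℝ) < μ / 2) ?_)).trans (hb.trans ?_)
  · intro ω hω
    rw [mem_filter] at hω ⊢
    exact ⟨mem_univ _, by linarith [hω.2]⟩
  · refine mul_le_mul_of_nonneg_right ?_ (Nat.cast_nonneg _)
    refine le_trans ?_ hn1.le
    have h1 : 1 / μ ≤ 1 / (cst k s * n) := one_div_le_one_div_of_le hcn hμge
    have hD0 : (0 : ℝ) < ((n.choose 2 : ℕ) : ℝ) := by
      have : 0 < n.choose 2 := Nat.choose_pos (by omega)
      exact_mod_cast this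
    have hD1 : (0 : ℝ) < (((n - (2 * k + 2)).choose 2 : ℕ) : ℝ) := by
      have : 0 < (n - (2 * k + 2)).choose 2 := Nat.choose_pos (by omega)
      exact_mod_cast this
    have hn1' : (0 : ℝ) < (n : ℝ) - 1 := by
      have : (2 : ℝ) ≤ n := by exact_mod_cast (show 2 ≤ n by omega)
      linarith
    have hθ : 0 < (1 : ℝ) - ((2 * k + 2 : ℕ) : ℝ) / ((n : ℝ) - 1) := by
      rw [sub_pos, div_lt_one hn1']
      have : ((2 * k + 2 + 2 : ℕ) : ℝ) ≤ n := by exact_mod_cast (show 2 * k + 2 + 2 ≤ n by omega)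
      push_cast at this ⊢
      linarith
    have h2 : ((n.choose 2 : ℕ) : ℝ) / (((n - (2 * k + 2)).choose 2 : ℕ) : ℝ)
        ≤ (((1 : ℝ) - ((2 * k + 2 : ℕ) : ℝ) / ((n : ℝ) - 1)) ^ 2)⁻¹ := by
      rw [div_le_iff₀ hD1, ← div_eq_inv_mul, le_div_iff₀ (by positivity), mul_comm]
      exact choose_ratio n (2 * k + 2) (by omega)
    have h3 := pow_le_pow_left₀ (by positivity) h2 (2 * (2 * k + 1))
    linarith

end Pool.Agent.R980.Budget
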