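import Mathlib

/-!
# Swapping arguments for uniformly random orderings of a finite set
-/

set_option autoImplicit false
set_option linter.unusedSectionVars false

namespace Pool.Agent.R980.PermSwap

open Finset
open scoped Classical

variable {N : ℕ} {E : Type} [Fintype E] [DecidableEq E]

/-- the ordering with positions `p, q` exchanged -/
noncomputable def swapPos (p q : Fin N) (σ : Fin N ≃ E) : Fin N ≃ E := (Equiv.swap p q).trans σ

theorem swapPos_apply (p q i : Fin N) (σ : Fin N ≃ E) : swapPos p q σ i = σ (Equiv.swap p q i) :=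
  rfl

theorem swapPos_symm (p q : Fin N) (σ : Fin N ≃ E) (e : E) :
    (swapPos p q σ).symm e = Equiv.swap p q (σ.symm e) := rfl

theorem swapPos_invol (p q : Fin N) (σ : Fin N ≃ E) : swapPos p q (swapPos p q σ) = σ := by
  ext i
  rw [swapPos_apply, swapPos_apply, Equiv.swap_apply_self]

theorem swapPos_inj (p q : Fin N) : Function.Injective (swapPos (E := E) p q) :=
  Function.Involutive.injective (swapPos_invol p q)

/-- the number of orderings with property `P` and `e` at position `p` -/
noncomputable def cnt (P : (Fin N ≃ E) → Prop) (e : E) (p : Fin N) : ℕ :=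
  (univ.filter fun σ : Fin N ≃ E => P σ ∧ σ.symm e = p).card

theorem sum_cnt (P : (Fin N ≃ E) → Prop) (e : E) (Q : Fin N → Prop)
    {h1 : DecidablePred fun σ : Fin N ≃ E => P σ ∧ Q (σ.symm e)} {h2 : DecidablePred Q} :
    (univ.filter fun σ : Fin N ≃ E => P σ ∧ Q (σ.symm e)).card
      = ∑ p ∈ univ.filter Q, cnt P e p := by
  rw [card_eq_sum_card_fiberwise (f := fun σ : Fin N ≃ E => σ.symm e) (t := univ.filter Q)
    (fun σ hσ => by
      rw [mem_coe, mem_filter] at hσ
      rw [mem_coe, mem_filter]
      exact ⟨mem_univ _, hσ.2.2⟩)]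
  refine sum_congr rfl fun p hp => ?_
  rw [mem_filter] at hp
  unfold cnt
  congr 1
  ext σ
  rw [mem_filter, mem_filter, mem_filter]
  constructor
  · rintro ⟨⟨_, h1, h2⟩, h3⟩
    exact ⟨mem_univ _, h1, h3⟩
  · rintro ⟨_, h1, h2⟩
    exact ⟨⟨mem_univ _, h1, by rw [h2]; exact hp.2⟩, h2⟩

theorem cnt_le_of_swap (P : (Fin N ≃ E) → Prop) (e : E) (p q : Fin N)
    (h : ∀ σ, P σ → σ.symm e = p → P (swapPos p q σ)) : cnt P e p ≤ cnt P e q := by
  unfold cnt
  refine card_le_card_of_injOn (swapPos p q) ?_ (fun σ _ σ' _ hh => swapPos_inj p q hh)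
  intro σ hσ
  rw [mem_coe, mem_filter] at hσ ⊢
  refine ⟨mem_univ _, h σ hσ.2.1 hσ.2.2, ?_⟩
  rw [swapPos_symm, hσ.2.2, Equiv.swap_apply_left]

theorem card_filter_lt (a : ℕ) (ha : a ≤ N) :
    (univ.filter fun p : Fin N => p.1 < a).card = a := by
  have h : (univ.filter fun p : Fin N => p.1 < a)
      = (univ : Finset (Fin a)).map (Fin.castLEEmb ha) := by
    ext p
    rw [mem_filter, mem_map]
    constructor
    · rintro ⟨_, h⟩
      exact ⟨⟨p.1, h⟩, mem_univ _, Fin.ext rfl⟩
    · rintro ⟨x, _, rfl⟩
      exact ⟨mem_univ _, x.2⟩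
  rw [h, card_map, card_univ, Fintype.card_fin]

theorem card_filter_ge (t : ℕ) (ht : t ≤ N) :
    (univ.filter fun p : Fin N => t ≤ p.1).card = N - t := by
  have h := card_filter_add_card_filter_not (s := (univ : Finset (Fin N)))
    (fun p : Fin N => p.1 < t)
  rw [card_filter_lt t ht, card_univ, Fintype.card_fin] at h
  have h2 : (univ.filter fun p : Fin N => ¬ p.1 < t) = univ.filter fun p : Fin N => t ≤ p.1 := by
    ext p
    rw [mem_filter, mem_filter, not_lt]
  rw [h2] at h
  omega

/-- A property which does not depend on the order outside the positions `a, ..., t - 1` makes it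
unlikely that a given element is at one of the first `a` positions. -/
theorem front_le (P : (Fin N ≃ E) → Prop) (e : E) (a t : ℕ) (hat : a ≤ t) (ht : t ≤ N)
    (hP : ∀ σ p q, (p.1 < a ∨ t ≤ p.1) → (q.1 < a ∨ t ≤ q.1) → P σ → P (swapPos p q σ)) :
    (univ.filter fun σ : Fin N ≃ E => P σ ∧ (σ.symm e).1 < a).card * (N - t)
      ≤ a * (univ.filter P).card := by
  rcases Nat.eq_zero_or_pos a with ha | ha
  · have h : (univ.filter fun σ : Fin N ≃ E => P σ ∧ (σ.symm e).1 < a) = ∅ := by
      rw [filter_eq_empty_iff]
      rintro σ - ⟨_, h⟩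
      omega
    rw [h]; simp
  · have h0 : 0 < N := by omega
    set c := cnt P e ⟨0, h0⟩ with hc
    have hall : ∀ p : Fin N, (p.1 < a ∨ t ≤ p.1) → cnt P e p = c := by
      intro p hp
      apply le_antisymm
      · exact cnt_le_of_swap P e p ⟨0, h0⟩ fun σ h _ => hP σ _ _ hp (Or.inl ha) h
      · exact cnt_le_of_swap P e ⟨0, h0⟩ p fun σ h _ => hP σ _ _ (Or.inl ha) hp h
    have h1 : (univ.filter fun σ : Fin N ≃ E => P σ ∧ (σ.symm e).1 < a).card = a * c := by
      rw [sum_cnt P e (fun p => p.1 < a), sum_congr rfl (fun p hp => hall p (Or.inl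
        (mem_filter.1 hp).2)), sum_const, smul_eq_mul, card_filter_lt a (by omega)]
    have h2 : (univ.filter fun σ : Fin N ≃ E => P σ ∧ t ≤ (σ.symm e).1).card = (N - t) * c := by
      rw [sum_cnt P e (fun p => t ≤ p.1), sum_congr rfl (fun p hp => hall p (Or.inr
        (mem_filter.1 hp).2)), sum_const, smul_eq_mul, card_filter_ge t ht]
    have h3 : (univ.filter fun σ : Fin N ≃ E => P σ ∧ t ≤ (σ.symm e).1).card
        ≤ (univ.filter P).card := by
      refine card_le_card fun σ hσ => ?_
      rw [mem_filter] at hσ ⊢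
      exact ⟨hσ.1, hσ.2.1⟩
    rw [h1]
    calc a * c * (N - t) = a * ((N - t) * c) := by ring
      _ ≤ a * (univ.filter P).card := Nat.mul_le_mul_left _ (by rw [← h2]; exact h3)

/-- It is unlikely that the elements of `J` all avoid a window of positions. -/
theorem avoid_le (a h : ℕ) (hah : a ≤ h) (hh : h ≤ N) (J : Finset E) :
    N ^ J.card * (univ.filter fun σ : Fin N ≃ E => ∀ e ∈ J, ¬ (a ≤ (σ.symm e).1 ∧
      (σ.symm e).1 < h)).card ≤ (N - (h - a)) ^ J.card * Fintype.card (Fin N ≃ E) := by
  induction J using Finset.induction_on with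
  | empty => simp
  | insert e J he ih =>
    set P : (Fin N ≃ E) → Prop := fun σ => ∀ e ∈ J, ¬ (a ≤ (σ.symm e).1 ∧ (σ.symm e).1 < h)
      with hP
    have hw1 : (univ.filter fun p : Fin N => ¬ (a ≤ p.1 ∧ p.1 < h)).card = N - (h - a) := by
      have h1 : (univ.filter fun p : Fin N => ¬ (a ≤ p.1 ∧ p.1 < h))
          = (univ.filter fun p : Fin N => p.1 < a) ∪ (univ.filter fun p : Fin N => h ≤ p.1) := by
        ext p
        rw [mem_union, mem_filter, mem_filter, mem_filter]
        constructor
        · rintro ⟨_, h1⟩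
          by_cases h2 : p.1 < a
          · exact Or.inl ⟨mem_univ _, h2⟩
          · exact Or.inr ⟨mem_univ _, by omega⟩
        · rintro (⟨_, h1⟩ | ⟨_, h1⟩)
          · exact ⟨mem_univ _, by omega⟩
          · exact ⟨mem_univ _, by omega⟩
      rw [h1, card_union_of_disjoint, card_filter_lt a (by omega), card_filter_ge h hh]
      · omega
      · rw [Finset.disjoint_left]
        intro p hp hp'
        rw [mem_filter] at hp hp'
        omega
    have hw2 : (univ.filter fun p : Fin N => a ≤ p.1 ∧ p.1 < h).card = h - a := by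
      have h1 := card_filter_add_card_filter_not (s := (univ : Finset (Fin N)))
        (fun p : Fin N => a ≤ p.1 ∧ p.1 < h)
      rw [hw1, card_univ, Fintype.card_fin] at h1
      omega
    -- swapping
    have hsw : ∀ q p : Fin N, ¬ (a ≤ q.1 ∧ q.1 < h) → (a ≤ p.1 ∧ p.1 < h) →
        cnt P e q ≤ cnt P e p := by
      intro q p hq hp
      refine cnt_le_of_swap P e q p fun σ hσ hpos => ?_
      intro e' he'
      rw [swapPos_symm]
      have h1 : σ.symm e' ≠ q := by
        intro hc
        rw [← hpos] at hc
        have := σ.symm.injective hc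
        rw [this] at he'
        exact he he'
      have h2 : σ.symm e' ≠ p := by
        intro hc
        apply hσ e' he'
        rw [hc]
        exact hp
      rw [Equiv.swap_apply_of_ne_of_ne h1 h2]
      exact hσ e' he'
    set X := ∑ q ∈ univ.filter (fun p : Fin N => ¬ (a ≤ p.1 ∧ p.1 < h)), cnt P e q with hX
    set Y := ∑ q ∈ univ.filter (fun p : Fin N => a ≤ p.1 ∧ p.1 < h), cnt P e q with hY
    have hXY : (h - a) * X ≤ (N - (h - a)) * Y := by
      have h1 : ∀ q ∈ univ.filter (fun p : Fin N => ¬ (a ≤ p.1 ∧ p.1 < h)),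
          (h - a) * cnt P e q ≤ Y := by
        intro q hq
        rw [mem_filter] at hq
        rw [hY, ← hw2, ← smul_eq_mul, ← sum_const]
        refine sum_le_sum fun p hp => ?_
        rw [mem_filter] at hp
        exact hsw q p hq.2 hp.2
      rw [hX, mul_sum]
      refine (sum_le_card_nsmul _ _ _ h1).trans ?_
      rw [hw1, smul_eq_mul]
    have h1 : (univ.filter fun σ : Fin N ≃ E => P σ ∧ ¬ (a ≤ (σ.symm e).1 ∧
        (σ.symm e).1 < h)).card = X := sum_cnt P e fun p => ¬ (a ≤ p.1 ∧ p.1 < h)
    have h2 : (univ.filter fun σ : Fin N ≃ E => P σ ∧ (a ≤ (σ.symm e).1 ∧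
        (σ.symm e).1 < h)).card = Y := sum_cnt P e fun p => a ≤ p.1 ∧ p.1 < h
    have h3 : X + Y = (univ.filter P).card := by
      rw [← h1, ← h2, ← card_union_of_disjoint]
      · congr 1
        ext σ
        rw [mem_union, mem_filter, mem_filter, mem_filter]
        tauto
      · rw [Finset.disjoint_left]
        intro σ hσ hσ'
        rw [mem_filter] at hσ hσ'
        exact hσ.2.2 hσ'.2.2
    have h4 : N * X ≤ (N - (h - a)) * (univ.filter P).card := by
      have h5 : N = (h - a) + (N - (h - a)) := by omega
      calc N * X = (h - a) * X + (N - (h - a)) * X := by rw [← add_mul, ← h5]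
        _ ≤ (N - (h - a)) * Y + (N - (h - a)) * X := Nat.add_le_add_right hXY _
        _ = (N - (h - a)) * (univ.filter P).card := by rw [← h3]; ring
    have h5 : (univ.filter fun σ : Fin N ≃ E => ∀ e' ∈ insert e J, ¬ (a ≤ (σ.symm e').1 ∧
      (σ.symm e').1 < h)).card = X := by
      rw [← h1]
      congr 1
      ext σ
      rw [mem_filter, mem_filter, forall_mem_insert]
      tauto
    rw [h5, card_insert_of_notMem he, pow_succ, pow_succ]
    calc N ^ J.card * N * X = N ^ J.card * (N * X) := by ring
      _ ≤ N ^ J.card * ((N - (h - a)) * (univ.filter P).card) := Nat.mul_le_mul_left _ h4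
      _ = (N - (h - a)) * (N ^ J.card * (univ.filter P).card) := by ring
      _ ≤ (N - (h - a)) * ((N - (h - a)) ^ J.card * Fintype.card (Fin N ≃ E)) :=
          Nat.mul_le_mul_left _ ih
      _ = _ := by ring

/-- the number of orderings with a given beginning -/
theorem begin_le (m : ℕ) (hm : m ≤ N) (ω : ℕ → E) :
    (univ.filter fun σ : Fin N ≃ E => ∀ i : Fin N, i.1 < m → σ i = ω i.1).card
      * N.descFactorial m ≤ Fintype.card (Fin N ≃ E) := by
  induction m with
  | zero =>
    rw [Nat.descFactorial_zero, mul_one]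
    exact card_le_univ _
  | succ m ih =>
    have ih' := ih (by omega)
    rw [Nat.descFactorial_succ]
    set Pm := univ.filter fun σ : Fin N ≃ E => ∀ i : Fin N, i.1 < m → σ i = ω i.1 with hPm
    set i0 : Fin N := ⟨m, by omega⟩ with hi0
    have hkey : (univ.filter fun σ : Fin N ≃ E => ∀ i : Fin N, i.1 < m + 1 → σ i = ω i.1).card
        * (N - m) ≤ Pm.card := by
      set R : Finset E := (range m).image ω with hR
      have hRc : R.card ≤ m := by
        refine card_image_le.trans ?_
        rw [card_range]
      set c := (univ.filter fun σ : Fin N ≃ E => ∀ i : Fin N, i.1 < m + 1 → σ i = ω i.1).card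
        with hc
      by_cases he : ω m ∈ R
      · have : c = 0 := by
          rw [hc, card_eq_zero, filter_eq_empty_iff]
          intro σ _ hσ
          rw [hR, mem_image] at he
          obtain ⟨j, hj, hjm⟩ := he
          rw [mem_range] at hj
          have h1 := hσ ⟨j, by omega⟩ (by simp only; omega)
          have h2 := hσ i0 (by simp [hi0])
          have h3 : σ ⟨j, by omega⟩ = σ i0 := by rw [h1, h2]; exact hjm
          have h4 := σ.injective h3
          rw [hi0, Fin.mk.injEq] at h4
          omega
        rw [this]; simp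
      · have hE : Fintype.card E ≤ N ∨ c = 0 := by
          by_cases hne : Nonempty (Fin N ≃ E)
          · obtain ⟨σ⟩ := hne
            left
            have := Fintype.card_congr σ
            rw [Fintype.card_fin] at this
            omega
          · right
            rw [hc, card_eq_zero, filter_eq_empty_iff]
            intro σ _ _
            exact hne ⟨σ⟩
        have hNE : Fintype.card E = N ∨ c = 0 := by
          by_cases hne : Nonempty (Fin N ≃ E)
          · obtain ⟨σ⟩ := hne
            left
            have := Fintype.card_congr σ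
            rw [Fintype.card_fin] at this
            omega
          · right
            rw [hc, card_eq_zero, filter_eq_empty_iff]
            intro σ _ _
            exact hne ⟨σ⟩
        rcases hNE with hNE | hc0
        · -- all labels outside `R` are equally likely
          have h1 : ∀ e' ∈ Rᶜ, c ≤ (Pm.filter fun σ => σ i0 = e').card := by
            intro e' he'
            rw [mem_compl] at he'
            refine card_le_card_of_injOn (fun σ => σ.trans (Equiv.swap (ω m) e')) ?_ ?_
            · intro σ hσ
              rw [mem_coe, mem_filter] at hσ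
              rw [mem_coe, mem_filter, hPm, mem_filter]
              refine ⟨⟨mem_univ _, fun i hi => ?_⟩, ?_⟩
              · rw [Equiv.trans_apply, hσ.2 i (by omega)]
                have hmem : ω i.1 ∈ R := by
                  rw [hR, mem_image]
                  exact ⟨i.1, mem_range.2 hi, rfl⟩
                rw [Equiv.swap_apply_of_ne_of_ne]
                · intro hcon; rw [hcon] at hmem; exact he hmem
                · intro hcon; rw [hcon] at hmem; exact he' hmem
              · rw [Equiv.trans_apply, hσ.2 i0 (by simp [hi0])]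
                exact Equiv.swap_apply_left _ _
            · intro σ _ σ' _ hh
              ext i
              have := congrArg (fun τ : Fin N ≃ E => τ i) hh
              simpa using this
          have h2 : (Pm.filter fun σ => σ i0 ∈ Rᶜ).card
              = ∑ e' ∈ Rᶜ, (Pm.filter fun σ => σ i0 = e').card := by
            rw [card_eq_sum_card_fiberwise (f := fun σ : Fin N ≃ E => σ i0) (t := Rᶜ)
              (fun σ hσ => by rw [mem_coe, mem_filter] at hσ; exact hσ.2)]
            refine sum_congr rfl fun e' he' => ?_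
            congr 1
            ext σ
            constructor
            · intro h3
              have h4 := mem_filter.1 h3
              exact mem_filter.2 ⟨(mem_filter.1 h4.1).1, h4.2⟩
            · intro h3
              have h4 := mem_filter.1 h3
              exact mem_filter.2 ⟨mem_filter.2 ⟨h4.1, by rw [h4.2]; exact he'⟩, h4.2⟩
          have h3 : Rᶜ.card * c ≤ (Pm.filter fun σ => σ i0 ∈ Rᶜ).card := by
            rw [h2]
            have := card_nsmul_le_sum Rᶜ _ c h1
            rwa [smul_eq_mul] at this
          have h4 : N - m ≤ Rᶜ.card := by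
            rw [card_compl, hNE]
            omega
          calc c * (N - m) ≤ c * Rᶜ.card := Nat.mul_le_mul_left _ h4
            _ = Rᶜ.card * c := by ring
            _ ≤ _ := h3
            _ ≤ Pm.card := card_le_card (filter_subset _ _)
        · rw [hc0]; simp
    calc _ = (univ.filter fun σ : Fin N ≃ E => ∀ i : Fin N, i.1 < m + 1 → σ i = ω i.1).card
        * (N - m) * N.descFactorial m := by ring
      _ ≤ Pm.card * N.descFactorial m := Nat.mul_le_mul_right _ hkey
      _ ≤ _ := ih'

theorem descFactorial_ge (N m : ℕ) (hm : m ≤ N) :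
    (N : ℝ) ^ m * (1 - (m : ℝ) ^ 2 / (2 * N)) ≤ (N.descFactorial m : ℝ) := by
  induction m with
  | zero => simp
  | succ m ih =>
    have ih' := ih (by omega)
    rw [Nat.descFactorial_succ]
    push_cast [Nat.cast_sub (show m ≤ N by omega)]
    have hN : (0 : ℝ) < N := by
      have : 0 < N := by omega
      exact_mod_cast this
    have hNm : (0 : ℝ) ≤ (N : ℝ) - m := by
      have : (m : ℝ) ≤ N := by exact_mod_cast (show m ≤ N by omega)
      linarith
    have h1 := mul_le_mul_of_nonneg_left ih' hNm
    refine le_trans ?_ h1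
    have h2 : (0 : ℝ) ≤ (N : ℝ) ^ m := by positivity
    have h3 : (N : ℝ) * (1 - ((m : ℝ) + 1) ^ 2 / (2 * N)) ≤
        ((N : ℝ) - m) * (1 - (m : ℝ) ^ 2 / (2 * N)) := by
      have h4 : (N : ℝ) * (1 - ((m : ℝ) + 1) ^ 2 / (2 * N)) = N - ((m : ℝ) + 1) ^ 2 / 2 := by
        field_simp
      have h5 : ((N : ℝ) - m) * (1 - (m : ℝ) ^ 2 / (2 * N))
          = N - m - (m : ℝ) ^ 2 / 2 + (m : ℝ) ^ 3 / (2 * N) := by
        field_simp
        ring
      rw [h4, h5]
      have h6 : 0 ≤ (m : ℝ) ^ 3 / (2 * N) := by positivity
      nlinarith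
    calc (N : ℝ) ^ (m + 1) * (1 - ((m : ℝ) + 1) ^ 2 / (2 * N))
        = (N : ℝ) ^ m * ((N : ℝ) * (1 - ((m : ℝ) + 1) ^ 2 / (2 * N))) := by ring
      _ ≤ (N : ℝ) ^ m * (((N : ℝ) - m) * (1 - (m : ℝ) ^ 2 / (2 * N))) :=
          mul_le_mul_of_nonneg_left h3 h2
      _ = _ := by ring

/-- Transfer: the beginning of a random ordering compared with independent uniform elements. -/
theorem transfer (m : ℕ) (hm : m ≤ N) (hm2 : (m : ℝ) ^ 2 ≤ N) (A : (Fin m → E) → Prop) :
    ((univ.filter fun σ : Fin N ≃ E => A fun i => σ (Fin.castLE hm i)).card : ℝ) * N ^ m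
      ≤ 2 * ((univ.filter A).card : ℝ) * (Fintype.card (Fin N ≃ E) : ℝ) := by
  by_cases hne : Nonempty E
  swap
  · rcases Nat.eq_zero_or_pos m with h0 | h0
    · subst h0
      rw [pow_zero, mul_one]
      by_cases hA : A fun i => i.elim0
      · have h1 : (univ.filter A).card = 1 := by
          rw [filter_true_of_mem]
          · rw [card_univ]; simp
          · intro ω _
            have h9 : ω = fun i => i.elim0 := by funext i; exact i.elim0
            rw [h9]
            exact hA
        rw [h1]
        have h2 : ((univ.filter fun σ : Fin N ≃ E => A fun i => σ (Fin.castLE hm i)).card : ℝ)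
            ≤ (Fintype.card (Fin N ≃ E) : ℝ) := by exact_mod_cast card_le_univ _
        have h3 : (0 : ℝ) ≤ (Fintype.card (Fin N ≃ E) : ℝ) := Nat.cast_nonneg _
        push_cast
        linarith
      · have h1 : (univ.filter fun σ : Fin N ≃ E => A fun i => σ (Fin.castLE hm i)) = ∅ := by
          rw [filter_eq_empty_iff]
          intro σ _ hc
          apply hA
          have h9 : (fun i : Fin 0 => (i.elim0 : E)) = fun i => σ (Fin.castLE hm i) := by
            funext i; exact i.elim0
          rw [h9]
          exact hc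
        have h2 : (0 : ℝ) ≤ 2 * ((univ.filter A).card : ℝ) * (Fintype.card (Fin N ≃ E) : ℝ) := by
          positivity
        rw [h1, card_empty, Nat.cast_zero]
        exact h2
    · have h1 : (univ : Finset (Fin N ≃ E)) = ∅ := by
        rw [univ_eq_empty_iff]
        refine ⟨fun σ => hne ⟨σ ⟨0, by omega⟩⟩⟩
      rw [h1, filter_empty, card_empty]
      have h2 : (0 : ℝ) ≤ 2 * ((univ.filter A).card : ℝ) * (Fintype.card (Fin N ≃ E) : ℝ) := by
        positivity
      simpa using h2
  · obtain ⟨e0⟩ := hne
    have hN0 : 0 ≤ (N : ℝ) := Nat.cast_nonneg _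
    -- fibres
    have h1 : (univ.filter fun σ : Fin N ≃ E => A fun i => σ (Fin.castLE hm i)).card
        = ∑ ω ∈ univ.filter A,
          (univ.filter fun σ : Fin N ≃ E => (fun i => σ (Fin.castLE hm i)) = ω).card := by
      rw [card_eq_sum_card_fiberwise (f := fun (σ : Fin N ≃ E) (i : Fin m) => σ (Fin.castLE hm i))
        (t := univ.filter A) (fun σ hσ => by
          rw [mem_coe, mem_filter] at hσ
          rw [mem_coe, mem_filter]
          exact ⟨mem_univ _, hσ.2⟩)]
      refine sum_congr rfl fun ω hω => ?_
      rw [mem_filter] at hω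
      congr 1
      ext σ
      rw [mem_filter, mem_filter, mem_filter]
      constructor
      · rintro ⟨⟨_, h2⟩, h3⟩; exact ⟨mem_univ _, h3⟩
      · rintro ⟨_, h3⟩; exact ⟨⟨mem_univ _, by rw [h3]; exact hω.2⟩, h3⟩
    have h2 : ∀ ω : Fin m → E,
        ((univ.filter fun σ : Fin N ≃ E => (fun i => σ (Fin.castLE hm i)) = ω).card : ℝ)
          * (N.descFactorial m : ℝ) ≤ (Fintype.card (Fin N ≃ E) : ℝ) := by
      intro ω
      have h3 := begin_le (N := N) (E := E) m hm (fun j => if h : j < m then ω ⟨j, h⟩ else e0)
      have h4 : (univ.filter fun σ : Fin N ≃ E => (fun i => σ (Fin.castLE hm i)) = ω)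
          = (univ.filter fun σ : Fin N ≃ E => ∀ i : Fin N, i.1 < m →
            σ i = if h : i.1 < m then ω ⟨i.1, h⟩ else e0) := by
        ext σ
        rw [mem_filter, mem_filter]
        constructor
        · rintro ⟨_, h⟩
          refine ⟨mem_univ _, fun i hi => ?_⟩
          rw [dif_pos hi, ← h]
          rfl
        · rintro ⟨_, h⟩
          refine ⟨mem_univ _, ?_⟩
          funext i
          have := h (Fin.castLE hm i) i.2
          rw [this, dif_pos (show (Fin.castLE hm i).1 < m from i.2)]
          rfl
      rw [h4]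
      exact_mod_cast h3
    have h3 : (N : ℝ) ^ m ≤ 2 * (N.descFactorial m : ℝ) := by
      have h4 := descFactorial_ge N m hm
      rcases Nat.eq_zero_or_pos N with h5 | h5
      · have : m = 0 := by omega
        subst this
        simp
      · have hN : (0 : ℝ) < N := by exact_mod_cast h5
        have h6 : (m : ℝ) ^ 2 / (2 * N) ≤ 1 / 2 := by
          rw [div_le_div_iff₀ (by positivity) (by norm_num)]
          linarith
        have h7 : (0 : ℝ) ≤ (N : ℝ) ^ m := by positivity
        nlinarith [mul_le_mul_of_nonneg_left h6 h7]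
    rw [h1]
    push_cast
    rw [sum_mul]
    have h4 : ∀ ω ∈ univ.filter A,
        ((univ.filter fun σ : Fin N ≃ E => (fun i => σ (Fin.castLE hm i)) = ω).card : ℝ)
          * (N : ℝ) ^ m ≤ 2 * (Fintype.card (Fin N ≃ E) : ℝ) := by
      intro ω _
      have h5 := h2 ω
      have h6 : (0 : ℝ) ≤ ((univ.filter fun σ : Fin N ≃ E =>
        (fun i => σ (Fin.castLE hm i)) = ω).card : ℝ) := Nat.cast_nonneg _
      have h7 := mul_le_mul_of_nonneg_left h3 h6
      linarith
    refine (sum_le_card_nsmul _ _ _ h4).trans ?_
    rw [nsmul_eq_mul]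
    linarith

end Pool.Agent.R980.PermSwap
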