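import Mathlib
import Pool.Agent.R980.BudgetNum
import Pool.Agent.R980.PermSwap

/-!
# The first `m` purchases are made among the first `2 m` edges
-/

set_option autoImplicit false
set_option linter.unusedSectionVars false

namespace Pool.Agent.R980.Budget

open Finset Filter Topology
open scoped Classical

variable {n : ℕ}

/-- the two edges share a vertex -/
def Share (e f : Edge n) : Prop := ∃ v, v ∈ e.1 ∧ v ∈ f.1

theorem card_share_le (e : Edge n) :
    ((univ : Finset (Edge n)).filter fun f => Share e f).card ≤ 2 * n := by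
  obtain ⟨a, b, hab, heq⟩ := exists_ends e
  have h1 : ((univ : Finset (Edge n)).filter fun f => Share e f) ⊆
      ((univ : Finset (Edge n)).filter fun f => a ∈ f.1) ∪
      ((univ : Finset (Edge n)).filter fun f => b ∈ f.1) := by
    intro f hf
    obtain ⟨v, hv, hv'⟩ := (mem_filter.1 hf).2
    rw [heq] at hv
    rw [mem_union, mem_filter, mem_filter]
    rcases Sym2.mem_iff.1 hv with rfl | rfl
    · exact Or.inl ⟨mem_univ _, hv'⟩
    · exact Or.inr ⟨mem_univ _, hv'⟩
  have h2 := (card_le_card h1).trans (card_union_le _ _)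
  have h3 : ∀ v : Fin n, ((univ : Finset (Edge n)).filter fun f => v ∈ f.1).card = n - 1 :=
    fun v => deg_univ v
  rw [h3, h3] at h2
  omega

/-- the number of pairs of positions with edges sharing a vertex -/
noncomputable def shares (a : ℕ) (ω : Fin a → Edge n) : ℕ :=
  ((univ : Finset (Fin a × Fin a)).filter fun x => x.1 < x.2 ∧ Share (ω x.1) (ω x.2)).card

theorem count_share (a : ℕ) (i j : Fin a) (hij : i < j) :
    ((univ : Finset (Fin a → Edge n)).filter fun ω => Share (ω i) (ω j)).card * n.choose 2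
      ≤ 2 * n * (n.choose 2) ^ a := by
  have h1 : ((univ : Finset (Fin a → Edge n)).filter fun ω => Share (ω i) (ω j)) ⊆
      (univ : Finset (Edge n)).biUnion fun e => Fintype.piFinset fun l : Fin a =>
        if l = i then {e} else if l = j then univ.filter fun f => Share e f else univ := by
    intro ω hω
    rw [mem_biUnion]
    refine ⟨ω i, mem_univ _, ?_⟩
    rw [Fintype.mem_piFinset]
    intro l
    by_cases hl : l = i
    · rw [if_pos hl, mem_singleton, hl]
    · rw [if_neg hl]
      by_cases hl' : l = j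
      · rw [if_pos hl', mem_filter, hl']
        exact ⟨mem_univ _, (mem_filter.1 hω).2⟩
      · rw [if_neg hl']; exact mem_univ _
  have h2 : ∀ e : Edge n, (Fintype.piFinset fun l : Fin a =>
        if l = i then ({e} : Finset (Edge n)) else if l = j then univ.filter fun f => Share e f
          else univ).card ≤ 2 * n * (n.choose 2) ^ (a - 2) := by
    intro e
    rw [Fintype.card_piFinset]
    have hne : i ≠ j := hij.ne
    rw [← mul_prod_erase univ _ (mem_univ i),
      ← mul_prod_erase (univ.erase i) _ (mem_erase.2 ⟨hne.symm, mem_univ j⟩)]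
    rw [if_pos rfl, if_neg hne.symm, if_pos rfl, card_singleton, one_mul]
    refine Nat.mul_le_mul (card_share_le e) ?_
    have h3 : ∀ l ∈ (univ.erase i).erase j, (if l = i then ({e} : Finset (Edge n)) else
        if l = j then univ.filter fun f => Share e f else univ).card = n.choose 2 := by
      intro l hl
      rw [mem_erase, mem_erase] at hl
      rw [if_neg hl.2.1, if_neg hl.1, card_univ, card_edges]
    rw [prod_congr rfl h3, prod_const, card_erase_of_mem (mem_erase.2 ⟨hne.symm, mem_univ j⟩),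
      card_erase_of_mem (mem_univ i), card_univ, Fintype.card_fin]
    apply le_of_eq
    congr 1
  have h3 := (card_le_card h1).trans card_biUnion_le
  have h4 : ∑ e : Edge n, (Fintype.piFinset fun l : Fin a =>
        if l = i then ({e} : Finset (Edge n)) else if l = j then univ.filter fun f => Share e f
          else univ).card ≤ n.choose 2 * (2 * n * (n.choose 2) ^ (a - 2)) := by
    refine (sum_le_card_nsmul _ _ _ fun e _ => h2 e).trans ?_
    rw [card_univ, card_edges, smul_eq_mul]
  have h5 := h3.trans h4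
  have ha : 2 ≤ a := by
    have h6 := i.2
    have h7 := j.2
    have h8 : i.1 < j.1 := hij
    omega
  obtain ⟨b, rfl⟩ : ∃ b, a = b + 2 := ⟨a - 2, by omega⟩
  have h6 := Nat.mul_le_mul_right (n.choose 2) h5
  refine h6.trans (le_of_eq ?_)
  rw [show b + 2 - 2 = b by omega]
  ring

theorem sum_shares (a : ℕ) :
    (∑ ω : Fin a → Edge n, shares a ω) * n.choose 2 ≤ a ^ 2 * (2 * n * (n.choose 2) ^ a) := by
  have h1 : ∑ ω : Fin a → Edge n, shares a ω = ∑ x : Fin a × Fin a,
      ((univ : Finset (Fin a → Edge n)).filter fun ω => x.1 < x.2 ∧ Share (ω x.1) (ω x.2)).card := by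
    unfold shares
    simp_rw [card_filter]
    rw [sum_comm]
  rw [h1, sum_mul]
  refine (sum_le_card_nsmul _ _ (2 * n * (n.choose 2) ^ a) ?_).trans ?_
  · intro x _
    by_cases hx : x.1 < x.2
    · refine le_trans (Nat.mul_le_mul_right _ (card_le_card ?_)) (count_share a x.1 x.2 hx)
      intro ω hω
      rw [mem_filter] at hω ⊢
      exact ⟨hω.1, hω.2.2⟩
    · have : ((univ : Finset (Fin a → Edge n)).filter fun ω =>
          x.1 < x.2 ∧ Share (ω x.1) (ω x.2)) = ∅ := by
        rw [filter_eq_empty_iff]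
        intro ω _ h
        exact hx h.1
      rw [this]
      simp
  · rw [card_univ, Fintype.card_prod, Fintype.card_fin, smul_eq_mul, sq]

/-- Markov's inequality -/
theorem shares_markov (a m : ℕ) (hn : 2 ≤ n) :
    (((univ : Finset (Fin a → Edge n)).filter fun ω => m < shares a ω).card : ℝ) * m
      ≤ (a : ℝ) ^ 2 * (2 * n) / ((n.choose 2 : ℕ) : ℝ) * (((n.choose 2 : ℕ) : ℝ)) ^ a := by
  have hD0 : (0 : ℝ) < ((n.choose 2 : ℕ) : ℝ) := by
    have : 0 < n.choose 2 := Nat.choose_pos hn
    exact_mod_cast this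
  have h1 : ((univ : Finset (Fin a → Edge n)).filter fun ω => m < shares a ω).card * m
      ≤ ∑ ω : Fin a → Edge n, shares a ω := by
    rw [← smul_eq_mul, ← sum_const]
    refine (sum_le_sum fun ω hω => ?_).trans (sum_le_sum_of_subset (filter_subset _ _))
    exact (mem_filter.1 hω).2.le
  have h2 := (Nat.mul_le_mul_right (n.choose 2) h1).trans (sum_shares a)
  have h3 : ((((univ : Finset (Fin a → Edge n)).filter fun ω => m < shares a ω).card * m *
      n.choose 2 : ℕ) : ℝ) ≤ ((a ^ 2 * (2 * n * (n.choose 2) ^ a) : ℕ) : ℝ) := by exact_mod_cast h2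
  push_cast at h3
  rw [div_mul_eq_mul_div, le_div_iff₀ hD0]
  linarith

/-- If fewer than `m` purchases are made among the first `2 m` edges, then many pairs of these
edges share a vertex. -/
theorem early_shares (k m : ℕ) (hk : 0 < k) (σ : Ordering n) (h2 : 2 * m ≤ n.choose 2)
    (h : (bought (rule k m) σ (2 * m)).card < m) :
    m < shares (2 * m) (fun i => σ (Fin.castLE h2 i)) := by
  set a := 2 * m with ha
  set Sk := (univ : Finset (Fin a)).filter fun t =>
    σ (Fin.castLE h2 t) ∉ bought (rule k m) σ a with hSk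
  have h1 : ((univ : Finset (Fin a)).filter fun t =>
      σ (Fin.castLE h2 t) ∈ bought (rule k m) σ a).card ≤ (bought (rule k m) σ a).card := by
    refine card_le_card_of_injOn (fun t => σ (Fin.castLE h2 t)) ?_ ?_
    · intro t ht
      rw [mem_coe, mem_filter] at ht
      exact ht.2
    · intro t _ t' _ htt
      exact Fin.castLE_injective h2 (σ.injective htt)
  have h3 := card_filter_add_card_filter_not (s := (univ : Finset (Fin a)))
    (fun t => σ (Fin.castLE h2 t) ∈ bought (rule k m) σ a)
  rw [card_univ, Fintype.card_fin] at h3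
  have h4 : m < Sk.card := by
    rw [hSk]
    omega
  have hex : ∀ t : Fin a, t ∈ Sk → ∃ i : Fin a, i < t ∧
      Share (σ (Fin.castLE h2 i)) (σ (Fin.castLE h2 t)) := by
    intro t ht
    have ht1 := (mem_filter.1 ht).2
    rw [mem_bought_iff _ _ _ h2] at ht1
    have ht2 : ¬ rule k m (σ (Fin.castLE h2 t)) (bought (rule k m) σ t.1) := fun hc =>
      ht1 ⟨t.2, hc⟩
    have hcard : (bought (rule k m) σ t.1).card < m :=
      (card_le_card (bought_mono _ σ t.2.le)).trans_lt h
    have ht3 : ¬ AllNew k (bought (rule k m) σ t.1) (σ (Fin.castLE h2 t)) := by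
      intro hall
      exact ht2 (Or.inl ⟨hcard, hall⟩)
    unfold AllNew at ht3
    push Not at ht3
    obtain ⟨v, hv, hdeg⟩ := ht3
    have hpos : 0 < deg (bought (rule k m) σ t.1) v := by omega
    unfold deg at hpos
    rw [card_pos] at hpos
    obtain ⟨e, he⟩ := hpos
    rw [mem_filter] at he
    have he2 := bought_subset _ σ _ he.1
    rw [mem_shown] at he2
    refine ⟨⟨(σ.symm e).1, he2.trans t.2⟩, he2, v, ?_, hv⟩
    have : Fin.castLE h2 ⟨(σ.symm e).1, he2.trans t.2⟩ = σ.symm e := Fin.ext rfl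
    rw [this, Equiv.apply_symm_apply]
    exact he.2
  choose! g hg using hex
  refine h4.trans_le ?_
  unfold shares
  refine card_le_card_of_injOn (fun t => (g t, t)) ?_ ?_
  · intro t ht
    rw [mem_coe, mem_filter]
    exact ⟨mem_univ _, (hg t ht).1, (hg t ht).2⟩
  · intro t _ t' _ htt
    exact (Prod.mk.inj htt).2

/-- With probability at least `1 - 64 / s`, the first `m = n / s` purchases are made among the
first `2 m` edges. -/
theorem early_limit (k s : ℕ) (hk : 0 < k) (hs : 4 ≤ s) :
    ∀ᶠ n : ℕ in atTop,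
      ((univ.filter fun σ : Ordering n =>
        (bought (rule k (n / s)) σ (2 * (n / s))).card < n / s).card : ℝ)
        ≤ 64 / s * (Fintype.card (Ordering n) : ℝ) := by
  filter_upwards [eventually_ge_atTop (s + 4)] with n hn
  have hs0 : 0 < s := by omega
  set m : ℕ := n / s with hm
  have hsm : s * m ≤ n := Nat.mul_div_le n s
  have hm0 : 0 < m := Nat.div_pos (by omega) hs0
  have hsR : (0 : ℝ) < s := by exact_mod_cast hs0
  have hmR : (0 : ℝ) < m := by exact_mod_cast hm0
  have hsmR : (s : ℝ) * m ≤ n := by exact_mod_cast hsm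
  have hnR : (4 : ℝ) < n := by exact_mod_cast (show 4 < n by omega)
  have hs4 : (4 : ℝ) ≤ s := by exact_mod_cast hs
  have h4m : 4 * (m : ℝ) ≤ n := by nlinarith
  have hN : ((n.choose 2 : ℕ) : ℝ) = n * (n - 1) / 2 := choose_two_real n
  have ha2 : (((2 * m : ℕ)) : ℝ) ^ 2 ≤ ((n.choose 2 : ℕ) : ℝ) := by
    rw [hN]; push_cast; nlinarith
  have ha : 2 * m ≤ n.choose 2 := by
    have h1 : ((2 * m : ℕ) : ℝ) ≤ ((n.choose 2 : ℕ) : ℝ) := by
      refine le_trans ?_ ha2
      have : (1 : ℝ) ≤ ((2 * m : ℕ) : ℝ) := by exact_mod_cast (show 1 ≤ 2 * m by omega)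
      nlinarith
    exact_mod_cast h1
  have hN0 : (0 : ℝ) < ((n.choose 2 : ℕ) : ℝ) := by rw [hN]; nlinarith
  have ht := PermSwap.transfer (E := Edge n) (2 * m) ha ha2 (fun ω => m < shares (2 * m) ω)
  have hmk := shares_markov (n := n) (2 * m) m (by omega)
  have hsub : ((univ.filter fun σ : Ordering n =>
        (bought (rule k m) σ (2 * m)).card < m).card : ℝ)
      ≤ ((univ.filter fun σ : Ordering n =>
        m < shares (2 * m) (fun i => σ (Fin.castLE ha i))).card : ℝ) := by
    refine Nat.cast_le.2 (card_le_card ?_)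
    intro σ hσ
    rw [mem_filter] at hσ ⊢
    exact ⟨hσ.1, early_shares k m hk σ ha hσ.2⟩
  refine hsub.trans ?_
  set X : ℝ := ((univ.filter fun σ : Ordering n =>
        m < shares (2 * m) (fun i => σ (Fin.castLE ha i))).card : ℝ) with hX
  set W : ℝ := (((univ : Finset (Fin (2 * m) → Edge n)).filter fun ω =>
    m < shares (2 * m) ω).card : ℝ) with hW
  set C : ℝ := (Fintype.card (Ordering n) : ℝ) with hC
  have hC0 : 0 ≤ C := Nat.cast_nonneg _
  have h1 : X * ((n.choose 2 : ℕ) : ℝ) ^ (2 * m) ≤ 2 * W * C := by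
    rw [hX, hW, hC]
    convert ht
  have h2 : W * m ≤ (32 * m / s) * (((n.choose 2 : ℕ) : ℝ)) ^ (2 * m) := by
    refine hmk.trans (mul_le_mul_of_nonneg_right ?_ (pow_nonneg hN0.le _))
    rw [div_le_div_iff₀ hN0 hsR, hN]
    push_cast
    have h3 : (m : ℝ) * ((s : ℝ) * m) ≤ m * n := mul_le_mul_of_nonneg_left hsmR hmR.le
    have h4 : (2 * (m : ℝ)) ^ 2 * (2 * n) * s = 8 * n * (m * (s * m)) := by ring
    have h5 : 32 * (m : ℝ) * (n * (n - 1) / 2) = 16 * m * n * (n - 1) := by ring
    rw [h4, h5]
    have h6 : 8 * (n : ℝ) * (m * (s * m)) ≤ 8 * n * (m * n) :=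
      mul_le_mul_of_nonneg_left h3 (by linarith)
    nlinarith [mul_pos hmR (show (0 : ℝ) < n by linarith)]
  have hP : 0 < ((n.choose 2 : ℕ) : ℝ) ^ (2 * m) := pow_pos hN0 _
  have h3 : W ≤ 32 / s * (((n.choose 2 : ℕ) : ℝ)) ^ (2 * m) := by
    have h4 : (32 * m / s) * (((n.choose 2 : ℕ) : ℝ)) ^ (2 * m)
        = (32 / s * (((n.choose 2 : ℕ) : ℝ)) ^ (2 * m)) * m := by ring
    rw [h4] at h2
    exact le_of_mul_le_mul_right h2 hmR
  have h4 : X * ((n.choose 2 : ℕ) : ℝ) ^ (2 * m)
      ≤ (64 / s * C) * ((n.choose 2 : ℕ) : ℝ) ^ (2 * m) := by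
    refine h1.trans ?_
    have h5 := mul_le_mul_of_nonneg_right h3 hC0
    calc 2 * W * C = 2 * (W * C) := by ring
      _ ≤ 2 * (32 / s * (((n.choose 2 : ℕ) : ℝ)) ^ (2 * m) * C) := by linarith
      _ = (64 / s * C) * ((n.choose 2 : ℕ) : ℝ) ^ (2 * m) := by ring
  exact le_of_mul_le_mul_right h4 hP

end Pool.Agent.R980.Budget
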