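import Mathlib
import Pool.Agent.R980.Budget
import Pool.Agent.R980.PermSwap

/-!
# The last vertex to be served rarely has an early edge
-/

set_option autoImplicit false

namespace Pool.Agent.R980.Budget

open Finset
open scoped Classical
open Pool.Agent.R980.PermSwap

variable {n : ℕ}

theorem post_swap (σ : Ordering n) (p q : Fin (n.choose 2)) (a t0 t : ℕ) (ht : t ≤ t0)
    (hp : p.1 < a ∨ t0 ≤ p.1) (hq : q.1 < a ∨ t0 ≤ q.1) (v : Fin n) :
    post (swapPos p q σ) a t v = post σ a t v := by
  unfold post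
  congr 1
  ext i
  rw [mem_filter, mem_filter]
  constructor
  · rintro ⟨_, h1, h2, h3⟩
    refine ⟨mem_univ _, h1, h2, ?_⟩
    rw [swapPos_apply, Equiv.swap_apply_of_ne_of_ne] at h3
    · exact h3
    · rintro rfl; omega
    · rintro rfl; omega
  · rintro ⟨_, h1, h2, h3⟩
    refine ⟨mem_univ _, h1, h2, ?_⟩
    rw [swapPos_apply, Equiv.swap_apply_of_ne_of_ne]
    · exact h3
    · rintro rfl; omega
    · rintro rfl; omega

/-- after time `a`, all vertices have seen `k` edges by time `t` -/
def Full (k a : ℕ) (σ : Ordering n) (t : ℕ) : Prop := ∀ v, k ≤ post σ a t v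

/-- a vertex which is served last (if `t` is the time when all vertices are served) -/
noncomputable def lastV (hn : 0 < n) (k a : ℕ) (σ : Ordering n) (t : ℕ) : Fin n :=
  @Classical.epsilon _ ⟨⟨0, hn⟩⟩ (fun v => ∀ s < t, post σ a s v < k)

/-- all vertices are served at time `t` for the first time, and `v` is served last -/
def Ev (hn : 0 < n) (k a : ℕ) (x : ℕ × Fin n) (σ : Ordering n) : Prop :=
  Full k a σ x.1 ∧ (∀ t < x.1, ¬ Full k a σ t) ∧ lastV hn k a σ x.1 = x.2

theorem ev_swap (hn : 0 < n) (k a : ℕ) (x : ℕ × Fin n) (σ : Ordering n)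
    (p q : Fin (n.choose 2)) (hp : p.1 < a ∨ x.1 ≤ p.1) (hq : q.1 < a ∨ x.1 ≤ q.1)
    (h : Ev hn k a x σ) : Ev hn k a x (swapPos p q σ) := by
  have hpost : ∀ t ≤ x.1, ∀ v, post (swapPos p q σ) a t v = post σ a t v :=
    fun t ht v => post_swap σ p q a x.1 t ht hp hq v
  refine ⟨fun v => ?_, fun t ht hf => h.2.1 t ht fun v => ?_, ?_⟩
  · rw [hpost _ le_rfl]; exact h.1 v
  · rw [← hpost t ht.le]; exact hf v
  · rw [← h.2.2]
    unfold lastV
    congr 1
    funext v
    apply propext
    constructor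
    · intro h1 s hs; rw [← hpost s hs.le]; exact h1 s hs
    · intro h1 s hs; rw [hpost s hs.le]; exact h1 s hs

theorem star_card (v : Fin n) : ((univ : Finset (Edge n)).filter fun e => v ∈ e.1).card = n - 1 :=
  deg_univ v

theorem ev_unique (hn : 0 < n) (k a : ℕ) (σ : Ordering n) (x y : ℕ × Fin n)
    (hx : Ev hn k a x σ) (hy : Ev hn k a y σ) : x = y := by
  have h1 : x.1 = y.1 := by
    rcases lt_trichotomy x.1 y.1 with h | h | h
    · exact absurd hx.1 (hy.2.1 _ h)
    · exact h
    · exact absurd hy.1 (hx.2.1 _ h)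
  refine Prod.ext h1 ?_
  rw [← hx.2.2, ← hy.2.2, h1]

theorem lastV_spec (hn : 0 < n) (k a : ℕ) (σ : Ordering n) (t : ℕ)
    (h : ∀ s < t, ¬ Full k a σ s) : ∀ s < t, post σ a s (lastV hn k a σ t) < k := by
  have hex : ∃ v : Fin n, ∀ s < t, post σ a s v < k := by
    rcases Nat.eq_zero_or_pos t with h0 | h0
    · exact ⟨⟨0, hn⟩, fun s hs => by omega⟩
    · have h1 := h (t - 1) (by omega)
      unfold Full at h1
      push Not at h1
      obtain ⟨v, hv⟩ := h1
      exact ⟨v, fun s hs => (post_mono σ a (show s ≤ t - 1 by omega) v).trans_lt hv⟩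
  exact Classical.epsilon_spec hex

theorem post_early (k a : ℕ) (hk : 0 < k) (σ : Ordering n) (hn : 0 < n) (t : ℕ)
    (h : Full k a σ t) : a < t := by
  by_contra hcon
  have h1 := h ⟨0, hn⟩
  have h2 : post σ a t ⟨0, hn⟩ = 0 := by
    unfold post
    rw [card_eq_zero, filter_eq_empty_iff]
    rintro i - ⟨h3, h4, _⟩
    omega
  omega

/-- The bad event: all vertices are served by time `h`, but the criterion of success fails. -/
def Bad2 (k a h : ℕ) (σ : Ordering n) : Prop :=
  (∃ t ≤ h, Full k a σ t) ∧ ¬ ∃ t', a ≤ t' ∧ (∀ v, k ≤ post σ a t' v) ∧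
    ∃ z : Fin n, ∀ t < t', post σ 0 t z < k

theorem bad2_count (hn : 0 < n) (k a h : ℕ) (hk : 0 < k) (hh : h ≤ n.choose 2) :
    (univ.filter fun σ : Ordering n => Bad2 k a h σ).card * (n.choose 2 - h)
      ≤ (n - 1) * a * Fintype.card (Ordering n) := by
  set X : Finset (ℕ × Fin n) := range (h + 1) ×ˢ univ with hX
  set U : ℕ × Fin n → Edge n → Finset (Ordering n) := fun x e =>
    univ.filter fun σ : Ordering n => Ev hn k a x σ ∧ (σ.symm e).1 < a with hU
  have hsub : (univ.filter fun σ : Ordering n => Bad2 k a h σ) ⊆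
      X.biUnion fun x => ((univ : Finset (Edge n)).filter fun e => x.2 ∈ e.1).biUnion (U x) := by
    intro σ hσ
    have hbad := (mem_filter.1 hσ).2
    obtain ⟨⟨t, hth, hft⟩, hno⟩ := hbad
    have hexF : ∃ t, Full k a σ t := ⟨t, hft⟩
    set t0 := Nat.find hexF with ht0
    have hF : Full k a σ t0 := Nat.find_spec hexF
    have hmin : ∀ s < t0, ¬ Full k a σ s := fun s hs => Nat.find_min hexF hs
    have ht0h : t0 ≤ h := (Nat.find_min' hexF hft).trans hth
    have hat0 := post_early k a hk σ hn t0 hF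
    set z := lastV hn k a σ t0 with hz
    have hlast := lastV_spec hn k a σ t0 hmin
    -- `z` has an early edge
    have hearly : ∃ e : Edge n, z ∈ e.1 ∧ (σ.symm e).1 < a := by
      by_contra hcon
      push Not at hcon
      apply hno
      refine ⟨t0, hat0.le, hF, z, fun s hs => ?_⟩
      have h1 := hlast s hs
      have h2 : post σ 0 s z = post σ a s z := by
        unfold post
        congr 1
        ext i
        rw [mem_filter, mem_filter]
        constructor
        · rintro ⟨_, _, h3, h4⟩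
          refine ⟨mem_univ _, ?_, h3, h4⟩
          have := hcon (σ i) h4
          rw [Equiv.symm_apply_apply] at this
          exact this
        · rintro ⟨_, _, h3, h4⟩
          exact ⟨mem_univ _, Nat.zero_le _, h3, h4⟩
      rw [h2]
      exact h1
    obtain ⟨e, hze, hea⟩ := hearly
    rw [mem_biUnion]
    refine ⟨(t0, z), ?_, ?_⟩
    · rw [hX, mem_product]
      exact ⟨mem_range.2 (by simp only; omega), mem_univ _⟩
    · rw [mem_biUnion]
      refine ⟨e, mem_filter.2 ⟨mem_univ _, hze⟩, ?_⟩
      rw [hU]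
      exact mem_filter.2 ⟨mem_univ _, ⟨hF, hmin, rfl⟩, hea⟩
  have h1 : ∀ x ∈ X, ∀ e : Edge n, (U x e).card * (n.choose 2 - h)
      ≤ a * (univ.filter fun σ : Ordering n => Ev hn k a x σ).card := by
    intro x hx e
    rw [hX, mem_product, mem_range] at hx
    by_cases hax : a ≤ x.1
    · have h2 := front_le (fun σ : Ordering n => Ev hn k a x σ) e a x.1 hax (by omega)
        (fun σ p q hp hq hσ => ev_swap hn k a x σ p q hp hq hσ)
      have h3 : (U x e).card * (n.choose 2 - h) ≤ (U x e).card * (n.choose 2 - x.1) :=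
        Nat.mul_le_mul_left _ (by omega)
      exact h3.trans h2
    · have h2 : U x e = ∅ := by
        rw [hU]
        simp only
        rw [filter_eq_empty_iff]
        rintro σ - ⟨hev, _⟩
        have := post_early k a hk σ hn x.1 hev.1
        omega
      rw [h2]; simp
  have h2 : ∑ x ∈ X, (univ.filter fun σ : Ordering n => Ev hn k a x σ).card
      ≤ Fintype.card (Ordering n) := by
    have h3 : ∀ x ∈ X, (univ.filter fun σ : Ordering n => Ev hn k a x σ).card
        = ∑ σ : Ordering n, if Ev hn k a x σ then 1 else 0 := fun x _ => by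
      rw [card_filter]
    rw [sum_congr rfl h3, sum_comm]
    have h4 : ∀ σ : Ordering n, σ ∈ (univ : Finset (Ordering n)) →
        (∑ x ∈ X, if Ev hn k a x σ then 1 else 0) ≤ 1 := by
      intro σ _
      rw [← card_filter]
      rw [card_le_one]
      intro x hx y hy
      exact ev_unique hn k a σ x y (mem_filter.1 hx).2 (mem_filter.1 hy).2
    refine (sum_le_card_nsmul _ _ _ h4).trans ?_
    rw [card_univ, smul_eq_mul, mul_one]
  have h3 : (univ.filter fun σ : Ordering n => Bad2 k a h σ).card * (n.choose 2 - h)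
      ≤ ∑ x ∈ X, ∑ e ∈ (univ : Finset (Edge n)).filter (fun e => x.2 ∈ e.1),
        (U x e).card * (n.choose 2 - h) := by
    have h4 : (univ.filter fun σ : Ordering n => Bad2 k a h σ).card
        ≤ ∑ x ∈ X, ∑ e ∈ (univ : Finset (Edge n)).filter (fun e => x.2 ∈ e.1), (U x e).card :=
      (card_le_card hsub).trans (card_biUnion_le.trans (sum_le_sum fun x _ => card_biUnion_le))
    refine (Nat.mul_le_mul_right _ h4).trans ?_
    rw [sum_mul]
    refine sum_le_sum fun x _ => ?_
    rw [sum_mul]
  refine h3.trans ?_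
  have h5 : ∀ x ∈ X, ∑ e ∈ (univ : Finset (Edge n)).filter (fun e => x.2 ∈ e.1),
        (U x e).card * (n.choose 2 - h)
      ≤ (n - 1) * a * (univ.filter fun σ : Ordering n => Ev hn k a x σ).card := by
    intro x hx
    refine (sum_le_card_nsmul _ _ _ fun e _ => h1 x hx e).trans ?_
    rw [star_card, smul_eq_mul, mul_assoc]
  refine (sum_le_sum h5).trans ?_
  rw [← mul_sum]
  exact Nat.mul_le_mul_left _ h2

/-- not all vertices are served by time `h` -/
def Bad1 (k a h : ℕ) (σ : Ordering n) : Prop := ∃ v, post σ a h v < k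

theorem bad1_count (k a h : ℕ) (hah : a ≤ h) (hk : 0 < k) (hkn : k ≤ n)
    (hh : h ≤ n.choose 2) :
    (n.choose 2) ^ (n - k) * (univ.filter fun σ : Ordering n => Bad1 k a h σ).card
      ≤ n * 2 ^ (n - 1) * ((n.choose 2 - (h - a)) ^ (n - k) * Fintype.card (Ordering n)) := by
  set A : Finset (Edge n) → Finset (Ordering n) := fun J =>
    univ.filter fun σ : Ordering n => ∀ e ∈ J, ¬ (a ≤ (σ.symm e).1 ∧ (σ.symm e).1 < h) with hA
  have hsub : (univ.filter fun σ : Ordering n => Bad1 k a h σ) ⊆
      (univ : Finset (Fin n)).biUnion fun v =>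
        (powersetCard (n - k) ((univ : Finset (Edge n)).filter fun e => v ∈ e.1)).biUnion A := by
    intro σ hσ
    obtain ⟨v, hv⟩ := (mem_filter.1 hσ).2
    set st := (univ : Finset (Edge n)).filter fun e => v ∈ e.1 with hst
    have hpost : post σ a h v = (st.filter fun e => a ≤ (σ.symm e).1 ∧ (σ.symm e).1 < h).card := by
      unfold post
      rw [← card_map σ.toEmbedding]
      congr 1
      ext e
      rw [mem_filter, mem_map, hst, mem_filter]
      constructor
      · rintro ⟨i, hi, rfl⟩
        rw [mem_filter] at hi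
        simp only [Equiv.coe_toEmbedding, Equiv.symm_apply_apply]
        exact ⟨⟨mem_univ _, hi.2.2.2⟩, hi.2.1, hi.2.2.1⟩
      · rintro ⟨⟨_, h1⟩, h2, h3⟩
        refine ⟨σ.symm e, ?_, by simp⟩
        rw [mem_filter, Equiv.apply_symm_apply]
        exact ⟨mem_univ _, h2, h3, h1⟩
    have hsum := card_filter_add_card_filter_not (s := st)
      (fun e => a ≤ (σ.symm e).1 ∧ (σ.symm e).1 < h)
    have hstc : st.card = n - 1 := star_card v
    have hge : n - k ≤ (st.filter fun e => ¬ (a ≤ (σ.symm e).1 ∧ (σ.symm e).1 < h)).card := by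
      omega
    obtain ⟨J, hJ, hJc⟩ := exists_subset_card_eq hge
    rw [mem_biUnion]
    refine ⟨v, mem_univ _, ?_⟩
    rw [mem_biUnion]
    refine ⟨J, ?_, ?_⟩
    · rw [mem_powersetCard]
      exact ⟨hJ.trans (filter_subset _ _), hJc⟩
    · rw [hA]
      exact mem_filter.2 ⟨mem_univ _, fun e he => (mem_filter.1 (hJ he)).2⟩
  have h1 : ∀ v : Fin n, ∀ J ∈ powersetCard (n - k)
      ((univ : Finset (Edge n)).filter fun e => v ∈ e.1),
      (n.choose 2) ^ (n - k) * (A J).card
        ≤ (n.choose 2 - (h - a)) ^ (n - k) * Fintype.card (Ordering n) := by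
    intro v J hJ
    rw [mem_powersetCard] at hJ
    have h2 := avoid_le (N := n.choose 2) (E := Edge n) a h hah hh J
    rw [hJ.2] at h2
    exact h2
  have h2 : (univ.filter fun σ : Ordering n => Bad1 k a h σ).card
      ≤ ∑ v : Fin n, ∑ J ∈ powersetCard (n - k)
        ((univ : Finset (Edge n)).filter fun e => v ∈ e.1), (A J).card :=
    (card_le_card hsub).trans (card_biUnion_le.trans (sum_le_sum fun x _ => card_biUnion_le))
  refine (Nat.mul_le_mul_left _ h2).trans ?_
  rw [mul_sum]
  have h3 : ∀ v ∈ (univ : Finset (Fin n)), (n.choose 2) ^ (n - k) * ∑ J ∈ powersetCard (n - k)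
        ((univ : Finset (Edge n)).filter fun e => v ∈ e.1), (A J).card
      ≤ 2 ^ (n - 1) * ((n.choose 2 - (h - a)) ^ (n - k) * Fintype.card (Ordering n)) := by
    intro v _
    rw [mul_sum]
    refine (sum_le_card_nsmul _ _ _ (h1 v)).trans ?_
    rw [smul_eq_mul, card_powersetCard, star_card]
    exact Nat.mul_le_mul_right _ (Nat.choose_le_two_pow _ _)
  refine (sum_le_card_nsmul _ _ _ h3).trans ?_
  rw [card_univ, Fintype.card_fin, smul_eq_mul, mul_assoc]

end Pool.Agent.R980.Budget
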