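import Mathlib
import Pool.Agent.R980.BudgetEarly
import Pool.Agent.R980.BudgetFail

/-!
# A strategy which saves linearly many edges
-/

set_option autoImplicit false
set_option linter.unusedSectionVars false

namespace Pool.Agent.R980.Budget

open Finset Filter Topology
open scoped Classical

/-- `o` is the constant `o_k`: for every `η > 0`, with probability tending to `1`, the number of
edges of the `k`-nearest neighbour graph differs from `o n` by at most `η n`. -/
def IsConst (k : ℕ) (o : ℝ) : Prop :=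
  ∀ η : ℝ, 0 < η → Tendsto (fun n : ℕ => prob n fun σ =>
    |((nearest k σ).card : ℝ) - o * n| ≤ η * n) atTop (𝓝 1)

theorem low_limit' (k s : ℕ) (hk : 0 < k) (hs : 8 * (2 * k + 2) ≤ s) (η : ℝ) (hη : 0 < η) :
    ∀ᶠ n : ℕ in atTop, ∀ hm : n / s ≤ n.choose 2,
      ((univ.filter fun σ : Ordering n =>
        (cntS k (n / (2 * k + 2)) ((n / s) / (2 * k + 1)) (n / s) (Nat.mul_div_le _ _)
          (Nat.mul_div_le _ _) hk (fun i => σ (Fin.castLE hm i)) : ℝ) < cst k s / 2 * n).card : ℝ)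
        ≤ η * (Fintype.card (Ordering n) : ℝ) := by
  filter_upwards [low_limit k s hk hs (η / 2) (by linarith), eventually_ge_atTop 4]
    with n hn hn4 hm
  set m : ℕ := n / s with hmdef
  have hs0 : 0 < s := by omega
  have hsm : s * m ≤ n := Nat.mul_div_le n s
  have hs4 : 4 ≤ s := by omega
  have h4m : 4 * m ≤ n := (Nat.mul_le_mul_right m hs4).trans hsm
  have h4mR : 4 * (m : ℝ) ≤ n := by exact_mod_cast h4m
  have hnR : (4 : ℝ) ≤ n := by exact_mod_cast hn4
  have hN : ((n.choose 2 : ℕ) : ℝ) = n * (n - 1) / 2 := choose_two_real n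
  have ha2 : (m : ℝ) ^ 2 ≤ ((n.choose 2 : ℕ) : ℝ) := by
    rw [hN]
    have : (0 : ℝ) ≤ m := Nat.cast_nonneg _
    nlinarith
  have hN0 : (0 : ℝ) < ((n.choose 2 : ℕ) : ℝ) := by rw [hN]; nlinarith
  have ht := PermSwap.transfer (E := Edge n) m hm ha2 (fun ω =>
    (cntS k (n / (2 * k + 2)) (m / (2 * k + 1)) m (Nat.mul_div_le _ _)
          (Nat.mul_div_le _ _) hk ω : ℝ) < cst k s / 2 * n)
  rw [card_seq] at hn
  have hP : 0 < ((n.choose 2 : ℕ) : ℝ) ^ m := pow_pos hN0 _
  refine le_of_mul_le_mul_right ?_ hP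
  refine le_trans (b := 2 * ((univ.filter fun ω : Fin m → Edge n =>
        (cntS k (n / (2 * k + 2)) (m / (2 * k + 1)) m (Nat.mul_div_le _ _)
          (Nat.mul_div_le _ _) hk ω : ℝ) < cst k s / 2 * n).card : ℝ) *
          (Fintype.card (Ordering n) : ℝ)) ?_ ?_
  · convert ht
  · have hC0 : (0 : ℝ) ≤ (Fintype.card (Ordering n) : ℝ) := Nat.cast_nonneg _
    have h5 := mul_le_mul_of_nonneg_right hn hC0
    linarith

theorem bad2_limit (k s : ℕ) (hk : 0 < k) (hs : 0 < s) :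
    ∀ᶠ n : ℕ in atTop,
      ((univ.filter fun σ : Ordering n =>
        Bad2 k (2 * (n / s)) (7 * n.choose 2 / 8) σ).card : ℝ)
        ≤ 32 / s * (Fintype.card (Ordering n) : ℝ) := by
  filter_upwards [eventually_ge_atTop 4] with n hn
  set m : ℕ := n / s with hmdef
  have hsm : s * m ≤ n := Nat.mul_div_le n s
  set h : ℕ := 7 * n.choose 2 / 8 with hh
  have hhN : h ≤ n.choose 2 := by omega
  have h8 : 8 * h ≤ 7 * n.choose 2 := Nat.mul_div_le _ _
  have hb := bad2_count (n := n) (by omega) k (2 * m) h hk hhN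
  have hsR : (0 : ℝ) < s := by exact_mod_cast hs
  have hsmR : (s : ℝ) * m ≤ n := by exact_mod_cast hsm
  have hnR : (4 : ℝ) ≤ n := by exact_mod_cast hn
  have hN : ((n.choose 2 : ℕ) : ℝ) = n * (n - 1) / 2 := choose_two_real n
  have hN0 : (0 : ℝ) < ((n.choose 2 : ℕ) : ℝ) := by rw [hN]; nlinarith
  have hmR : (0 : ℝ) ≤ m := Nat.cast_nonneg _
  have h8R : 8 * (h : ℝ) ≤ 7 * ((n.choose 2 : ℕ) : ℝ) := by exact_mod_cast h8
  set X : ℝ := ((univ.filter fun σ : Ordering n => Bad2 k (2 * m) h σ).card : ℝ) with hX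
  set C : ℝ := (Fintype.card (Ordering n) : ℝ) with hC
  have hC0 : 0 ≤ C := Nat.cast_nonneg _
  have hX0 : 0 ≤ X := Nat.cast_nonneg _
  have hbR : X * (((n.choose 2 : ℕ) : ℝ) - h) ≤ ((n : ℝ) - 1) * (2 * m) * C := by
    have h1 : (((univ.filter fun σ : Ordering n => Bad2 k (2 * m) h σ).card *
      (n.choose 2 - h) : ℕ) : ℝ) ≤ (((n - 1) * (2 * m) * Fintype.card (Ordering n) : ℕ) : ℝ) := by
      exact_mod_cast hb
    push_cast [Nat.cast_sub hhN, Nat.cast_sub (show 1 ≤ n by omega)] at h1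
    exact h1
  have h2 : X * (((n.choose 2 : ℕ) : ℝ) / 8) ≤ X * (((n.choose 2 : ℕ) : ℝ) - h) :=
    mul_le_mul_of_nonneg_left (by linarith) hX0
  have hpos : 0 < ((n.choose 2 : ℕ) : ℝ) / 8 := by linarith
  refine le_of_mul_le_mul_right ((h2.trans hbR).trans ?_) hpos
  rw [hN]
  have h3 : 32 / (s : ℝ) * C * (n * (n - 1) / 2 / 8) = ((n : ℝ) - 1) * (2 * (n / s)) * C := by
    field_simp
    ring
  rw [h3]
  have h4 : (m : ℝ) ≤ n / s := by rw [le_div_iff₀ hsR]; linarith
  have h5 : (0 : ℝ) ≤ (n : ℝ) - 1 := by linarith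
  refine mul_le_mul_of_nonneg_right ?_ hC0
  exact mul_le_mul_of_nonneg_left (by linarith) h5

theorem bad1_limit (k s : ℕ) (hk : 0 < k) (hs : 4 ≤ s) (η : ℝ) (hη : 0 < η) :
    ∀ᶠ n : ℕ in atTop,
      ((univ.filter fun σ : Ordering n =>
        Bad1 k (2 * (n / s)) (7 * n.choose 2 / 8) σ).card : ℝ)
        ≤ η * (Fintype.card (Ordering n) : ℝ) := by
  have hlim : Tendsto (fun n : ℕ => (n : ℝ) * (3 / 8 : ℝ) ^ n * (16 / 3 : ℝ) ^ k) atTop
      (𝓝 (0 * (16 / 3 : ℝ) ^ k)) :=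
    (tendsto_self_mul_const_pow_of_lt_one (by norm_num) (by norm_num)).mul_const _
  rw [zero_mul] at hlim
  filter_upwards [eventually_ge_atTop (64 + k), hlim.eventually_lt_const hη] with n hn hn2
  set m : ℕ := n / s with hmdef
  have hs0 : 0 < s := by omega
  have hsm : s * m ≤ n := Nat.mul_div_le n s
  have h4m : 4 * m ≤ n := (Nat.mul_le_mul_right m hs).trans hsm
  set h : ℕ := 7 * n.choose 2 / 8 with hh
  have hhN : h ≤ n.choose 2 := by omega
  have h8 : 7 * n.choose 2 < 8 * h + 8 := by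
    have := Nat.lt_mul_div_succ (7 * n.choose 2) (show 0 < 8 by norm_num)
    rw [hh]; omega
  have hnR : (64 : ℝ) ≤ n := by exact_mod_cast (show 64 ≤ n by omega)
  have hN : ((n.choose 2 : ℕ) : ℝ) = n * (n - 1) / 2 := choose_two_real n
  have hN0 : (0 : ℝ) < ((n.choose 2 : ℕ) : ℝ) := by rw [hN]; nlinarith
  have h4mR : 4 * (m : ℝ) ≤ n := by exact_mod_cast h4m
  have h8R : 7 * ((n.choose 2 : ℕ) : ℝ) < 8 * h + 8 := by exact_mod_cast h8
  have hmR : (0 : ℝ) ≤ m := Nat.cast_nonneg _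
  have hah : 2 * m ≤ h := by
    have h1 : ((2 * m : ℕ) : ℝ) ≤ h := by
      push_cast
      rw [hN] at h8R
      nlinarith
    exact_mod_cast h1
  have hb := bad1_count (n := n) k (2 * m) h hah hk (by omega) hhN
  set X : ℝ := ((univ.filter fun σ : Ordering n => Bad1 k (2 * m) h σ).card : ℝ) with hX
  set C : ℝ := (Fintype.card (Ordering n) : ℝ) with hC
  have hC0 : 0 ≤ C := Nat.cast_nonneg _
  set N : ℝ := ((n.choose 2 : ℕ) : ℝ) with hNdef
  have hbR : N ^ (n - k) * X ≤ n * 2 ^ (n - 1) * ((N - ((h : ℝ) - 2 * m)) ^ (n - k) * C) := by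
    have h1 : (((n.choose 2) ^ (n - k) * (univ.filter fun σ : Ordering n =>
        Bad1 k (2 * m) h σ).card : ℕ) : ℝ) ≤
        ((n * 2 ^ (n - 1) * ((n.choose 2 - (h - 2 * m)) ^ (n - k) *
          Fintype.card (Ordering n)) : ℕ) : ℝ) := by exact_mod_cast hb
    push_cast [Nat.cast_sub (show h - 2 * m ≤ n.choose 2 by omega), Nat.cast_sub hah] at h1
    exact h1
  have h1 : N - ((h : ℝ) - 2 * m) ≤ 3 / 16 * N := by
    rw [hN] at h8R ⊢
    nlinarith
  have h0 : 0 ≤ N - ((h : ℝ) - 2 * m) := by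
    have : (h : ℝ) ≤ N := by rw [hNdef]; exact_mod_cast hhN
    linarith
  have h2 : (N - ((h : ℝ) - 2 * m)) ^ (n - k) ≤ (3 / 16) ^ (n - k) * N ^ (n - k) := by
    rw [← mul_pow]
    exact pow_le_pow_left₀ h0 h1 _
  have hNp : 0 < N ^ (n - k) := pow_pos hN0 _
  refine le_of_mul_le_mul_left (a := N ^ (n - k)) (hbR.trans ?_) hNp
  have h3 : (n : ℝ) * 2 ^ (n - 1) * ((N - ((h : ℝ) - 2 * m)) ^ (n - k) * C)
      ≤ (n : ℝ) * 2 ^ (n - 1) * ((3 / 16) ^ (n - k) * N ^ (n - k) * C) := by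
    refine mul_le_mul_of_nonneg_left ?_ (by positivity)
    exact mul_le_mul_of_nonneg_right h2 hC0
  refine h3.trans ?_
  have h4 : (n : ℝ) * 2 ^ (n - 1) * (3 / 16) ^ (n - k) ≤ η := by
    refine le_trans ?_ hn2.le
    have h5 : (3 / 16 : ℝ) ^ (n - k) = (3 / 16 : ℝ) ^ n * (16 / 3 : ℝ) ^ k := by
      have h6 : (3 / 16 : ℝ) ^ n = (3 / 16 : ℝ) ^ (n - k) * (3 / 16 : ℝ) ^ k := by
        rw [← pow_add]; congr 1; omega
      rw [h6, mul_assoc, ← mul_pow]
      norm_num
    have h7 : (2 : ℝ) ^ (n - 1) ≤ 2 ^ n := pow_le_pow_right₀ (by norm_num) (by omega)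
    rw [h5]
    have h8 : (3 / 8 : ℝ) ^ n = 2 ^ n * (3 / 16 : ℝ) ^ n := by
      rw [← mul_pow]; norm_num
    rw [h8]
    have h9 : (0 : ℝ) ≤ (3 / 16 : ℝ) ^ n * (16 / 3 : ℝ) ^ k := by positivity
    have h10 : (0 : ℝ) ≤ (n : ℝ) := Nat.cast_nonneg _
    calc (n : ℝ) * 2 ^ (n - 1) * ((3 / 16 : ℝ) ^ n * (16 / 3 : ℝ) ^ k)
        ≤ (n : ℝ) * 2 ^ n * ((3 / 16 : ℝ) ^ n * (16 / 3 : ℝ) ^ k) :=
          mul_le_mul_of_nonneg_right (mul_le_mul_of_nonneg_left h7 h10) h9
      _ = (n : ℝ) * (2 ^ n * (3 / 16 : ℝ) ^ n) * (16 / 3 : ℝ) ^ k := by ring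
  calc (n : ℝ) * 2 ^ (n - 1) * ((3 / 16) ^ (n - k) * N ^ (n - k) * C)
      = ((n : ℝ) * 2 ^ (n - 1) * (3 / 16) ^ (n - k)) * (N ^ (n - k) * C) := by ring
    _ ≤ η * (N ^ (n - k) * C) := mul_le_mul_of_nonneg_right h4 (by positivity)
    _ = N ^ (n - k) * (η * C) := by ring

theorem prob_eq (n : ℕ) (A : Ordering n → Prop) [DecidablePred A] :
    prob n A = ((univ.filter A).card : ℝ) / (Fintype.card (Ordering n) : ℝ) := by
  unfold prob
  congr

/-- the complement of an event -/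
theorem prob_compl (n : ℕ) (A : Ordering n → Prop) (h : 0 < Fintype.card (Ordering n)) :
    prob n A = 1 - prob n fun σ => ¬ A σ := by
  rw [prob_eq n A, prob_eq n fun σ => ¬ A σ]
  have h1 := card_filter_add_card_filter_not (s := (univ : Finset (Ordering n))) A
  rw [card_univ] at h1
  have h2 : (0 : ℝ) < (Fintype.card (Ordering n) : ℝ) := by exact_mod_cast h
  have h3 : ((univ.filter A).card : ℝ) + ((univ.filter fun σ => ¬ A σ).card : ℝ)
      = (Fintype.card (Ordering n) : ℝ) := by exact_mod_cast h1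
  field_simp
  linarith

theorem card_union4 {α : Type} [DecidableEq α] (A B C D : Finset α) :
    (A ∪ B ∪ C ∪ D).card ≤ A.card + B.card + C.card + D.card := by
  have h2 := card_union_le (A ∪ B ∪ C) D
  have h3 := card_union_le (A ∪ B) C
  have h4 := card_union_le A B
  omega

theorem card_ordering_pos (n : ℕ) : 0 < Fintype.card (Ordering n) := by
  rw [Fintype.card_pos_iff]
  refine ⟨Fintype.equivOfCardEq ?_⟩
  rw [Fintype.card_fin, card_edges]

/-- The strategy `rule k (n / s)` succeeds and saves at least `c n` edges of the `k`-nearest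
neighbour graph, with probability at least `1 - δ`. -/
theorem good_event (k : ℕ) (hk : 0 < k) (δ : ℝ) (hδ : 0 < δ) :
    ∃ s : ℕ, ∃ c : ℝ, 0 < c ∧ ∀ᶠ n : ℕ in atTop, 1 - δ ≤ prob n fun σ : Ordering n =>
      ((bought (rule k (n / s)) σ (n.choose 2)).card : ℝ) + c * n ≤ (nearest k σ).card ∧
      MinDeg k (bought (rule k (n / s)) σ (tau k σ)) := by
  obtain ⟨s0, hs0⟩ := exists_nat_gt (200 / δ)
  set s : ℕ := max s0 (8 * (2 * k + 2)) with hs
  have hs1 : 8 * (2 * k + 2) ≤ s := le_max_right _ _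
  have hs4 : 4 ≤ s := by omega
  have hspos : 0 < s := by omega
  have hsR : (0 : ℝ) < s := by exact_mod_cast hspos
  have hsδ : 200 / δ < s := hs0.trans_le (by exact_mod_cast le_max_left _ _)
  have hs96 : 96 / (s : ℝ) ≤ δ / 2 := by
    rw [div_lt_iff₀ hδ] at hsδ
    rw [div_le_div_iff₀ hsR (by norm_num)]
    linarith
  set c : ℝ := cst k s / 2 with hc
  have hc0 : 0 < c := by rw [hc]; exact half_pos (cst_pos k s hspos)
  refine ⟨s, c, hc0, ?_⟩
  have hev : ∀ᶠ n : ℕ in atTop, k + 64 ≤ n ∧ n / s ≤ n.choose 2 := by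
    filter_upwards [eventually_ge_atTop (k + 64)] with n hn
    refine ⟨hn, (Nat.div_le_self n s).trans ?_⟩
    have hN : ((n.choose 2 : ℕ) : ℝ) = n * (n - 1) / 2 := choose_two_real n
    have hnR : (64 : ℝ) ≤ n := by exact_mod_cast (show 64 ≤ n by omega)
    have : (n : ℝ) ≤ ((n.choose 2 : ℕ) : ℝ) := by rw [hN]; nlinarith
    exact_mod_cast this
  have hE2 := low_limit' k s hk hs1 (δ / 16) (by linarith)
  have hE1 := early_limit k s hk hs4
  have hE4 := bad1_limit k s hk hs4 (δ / 16) (by linarith)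
  have hE5 := bad2_limit k s hk hspos
  filter_upwards [hev, hE1, hE2, hE4, hE5] with n hn h1 h2 h4 h5
  obtain ⟨hnk, hm⟩ := hn
  have h2' := h2 hm
  have hcard : (0 : ℝ) < (Fintype.card (Ordering n) : ℝ) := by
    exact_mod_cast card_ordering_pos n
  rw [prob_compl n _ (card_ordering_pos n)]
  have hsub : (univ.filter fun σ : Ordering n => ¬
      (((bought (rule k (n / s)) σ (n.choose 2)).card : ℝ) + c * n ≤ (nearest k σ).card ∧
      MinDeg k (bought (rule k (n / s)) σ (tau k σ)))) ⊆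
      ((((univ.filter fun σ : Ordering n =>
      (bought (rule k (n / s)) σ (2 * (n / s))).card < n / s)) ∪
      (univ.filter fun σ : Ordering n =>
      (cntS k (n / (2 * k + 2)) ((n / s) / (2 * k + 1)) (n / s) (Nat.mul_div_le _ _)
        (Nat.mul_div_le _ _) hk (fun i => σ (Fin.castLE hm i)) : ℝ) < cst k s / 2 * n)) ∪
      (univ.filter fun σ : Ordering n => Bad1 k (2 * (n / s)) (7 * n.choose 2 / 8) σ)) ∪
      (univ.filter fun σ : Ordering n => Bad2 k (2 * (n / s)) (7 * n.choose 2 / 8) σ) := by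
    intro σ hσ
    rw [mem_filter] at hσ
    by_contra hcon
    simp only [mem_union, mem_filter, mem_univ, true_and, not_or, not_lt] at hcon
    obtain ⟨⟨⟨g1, g2⟩, g4⟩, g5⟩ := hcon
    apply hσ.2
    have hsc := special_count_le k (n / (2 * k + 2)) ((n / s) / (2 * k + 1)) (n / s)
      (Nat.mul_div_le _ _) (Nat.mul_div_le _ _) hk σ hm (by omega)
    have hsc' : ((bought (rule k (n / s)) σ (n.choose 2)).card : ℝ) +
      (cntS k (n / (2 * k + 2)) ((n / s) / (2 * k + 1)) (n / s) (Nat.mul_div_le _ _)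
        (Nat.mul_div_le _ _) hk (fun i => σ (Fin.castLE hm i)) : ℝ)
        ≤ ((nearest k σ).card : ℝ) := by
      unfold cntS
      exact_mod_cast hsc
    rw [← hc] at g2
    refine ⟨by linarith, ?_⟩
    unfold Bad1 at g4
    push Not at g4
    unfold Bad2 at g5
    rw [not_and, not_not] at g5
    obtain ⟨t', ht', hF, z, hz⟩ := g5 ⟨_, le_rfl, g4⟩
    exact success k (n / s) (by omega) σ (2 * (n / s)) t' ht' g1 hF z hz
  have hcl := (card_le_card hsub).trans (card_union4 _ _ _ _)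
  rw [prob_eq]
  have hR : ((univ.filter fun σ : Ordering n => ¬
      (((bought (rule k (n / s)) σ (n.choose 2)).card : ℝ) + c * n ≤ (nearest k σ).card ∧
    MinDeg k (bought (rule k (n / s)) σ (tau k σ)))).card : ℝ)
      ≤ δ * (Fintype.card (Ordering n) : ℝ) := by
    refine (Nat.cast_le.2 hcl).trans ?_
    push_cast
    have h9 : 96 / (s : ℝ) * (Fintype.card (Ordering n) : ℝ)
        ≤ δ / 2 * (Fintype.card (Ordering n) : ℝ) :=
      mul_le_mul_of_nonneg_right hs96 hcard.le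
    have h10 : 96 / (s : ℝ) * (Fintype.card (Ordering n) : ℝ)
        = 64 / (s : ℝ) * (Fintype.card (Ordering n) : ℝ) +
          32 / (s : ℝ) * (Fintype.card (Ordering n) : ℝ) := by ring
    have hδc : 0 ≤ δ * (Fintype.card (Ordering n) : ℝ) := by positivity
    linarith
  have h11 := div_le_of_le_mul₀ hcard.le hδ.le hR
  linarith

theorem prob_mono (n : ℕ) (A B : Ordering n → Prop) (h : ∀ σ, A σ → B σ) :
    prob n A ≤ prob n B := by
  unfold prob
  refine div_le_div_of_nonneg_right ?_ (Nat.cast_nonneg _)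
  refine Nat.cast_le.2 (card_le_card ?_)
  intro σ hσ
  rw [mem_filter] at hσ ⊢
  exact ⟨mem_univ _, h σ hσ.2⟩

theorem prob_and (n : ℕ) (A B : Ordering n → Prop) :
    prob n A + prob n B - 1 ≤ prob n fun σ => A σ ∧ B σ := by
  have hcard : (0 : ℝ) < (Fintype.card (Ordering n) : ℝ) := by
    exact_mod_cast card_ordering_pos n
  have h1 := card_union_add_card_inter (univ.filter A) (univ.filter B)
  have h2 : (univ.filter A ∪ univ.filter B).card ≤ Fintype.card (Ordering n) := card_le_univ _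
  have h3 : (univ.filter A ∩ univ.filter B) = univ.filter fun σ => A σ ∧ B σ := by
    ext σ
    rw [mem_inter, mem_filter, mem_filter, mem_filter]
    exact ⟨fun h => ⟨mem_univ _, h.1.2, h.2.2⟩, fun h => ⟨⟨mem_univ _, h.2.1⟩, mem_univ _, h.2.2⟩⟩
  rw [h3] at h1
  rw [prob_eq, prob_eq, prob_eq]
  have h4 : ((univ.filter A).card : ℝ) + ((univ.filter B).card : ℝ)
      ≤ (Fintype.card (Ordering n) : ℝ) +
        ((univ.filter fun σ : Ordering n => A σ ∧ B σ).card : ℝ) := by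
    have h5 : (univ.filter A).card + (univ.filter B).card ≤ Fintype.card (Ordering n) +
        (univ.filter fun σ : Ordering n => A σ ∧ B σ).card := by omega
    exact_mod_cast h5
  rw [← add_div, sub_le_iff_le_add, div_add_one hcard.ne']
  refine div_le_div_of_nonneg_right ?_ hcard.le
  linarith

/-- For every `k ≥ 1` and `δ > 0`, there are `ε > 0` and strategies with budgets
`b n ≤ (o_k - ε) n` which succeed with probability at least `1 - δ`. -/
theorem main (k : ℕ) (hk : 0 < k) (o : ℝ) (ho : IsConst k o) (δ : ℝ) (hδ : 0 < δ) :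
    ∃ ε : ℝ, 0 < ε ∧ ∃ b : ℕ → ℕ, ∃ S : (n : ℕ) → Strategy n,
      (∀ n, (b n : ℝ) ≤ (o - ε) * n) ∧
      (∀ n (σ : Ordering n) (t : ℕ), (bought (S n) σ t).card ≤ b n) ∧
      ∀ᶠ n : ℕ in atTop, 1 - δ ≤ prob n fun σ => MinDeg k (bought (S n) σ (tau k σ)) := by
  obtain ⟨s, c, hc0, hgood⟩ := good_event k hk (min (δ / 2) (1 / 4)) (by positivity)
  have hE3 := ho (c / 2) (half_pos hc0)
  have hE3' : ∀ᶠ n : ℕ in atTop, 1 - min (δ / 2) (1 / 4) < prob n fun σ =>
      |((nearest k σ).card : ℝ) - o * n| ≤ (c / 2) * n :=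
    hE3.eventually_const_lt (by
      have : 0 < min (δ / 2) (1 / 4) := by positivity
      linarith)
  have hboth : ∀ᶠ n : ℕ in atTop, 1 - 2 * min (δ / 2) (1 / 4) ≤ prob n fun σ : Ordering n =>
      ((bought (rule k (n / s)) σ (n.choose 2)).card : ℝ) ≤ (o - c / 2) * n ∧
      MinDeg k (bought (rule k (n / s)) σ (tau k σ)) := by
    filter_upwards [hgood, hE3'] with n h1 h2
    refine le_trans (le_trans ?_ (prob_and n
      (fun σ => ((bought (rule k (n / s)) σ (n.choose 2)).card : ℝ) + c * n ≤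
        (nearest k σ).card ∧ MinDeg k (bought (rule k (n / s)) σ (tau k σ)))
      (fun σ => |((nearest k σ).card : ℝ) - o * n| ≤ (c / 2) * n))) (prob_mono n _ _ ?_)
    · linarith
    · rintro σ ⟨⟨h3, h4⟩, h5⟩
      rw [abs_le] at h5
      exact ⟨by linarith [h5.2], h4⟩
  have hoc : 0 ≤ o - c / 2 := by
    obtain ⟨n, hn1, hn2⟩ := (hboth.and (eventually_ge_atTop 1)).exists
    have h1 : 0 < prob n fun σ : Ordering n =>
      ((bought (rule k (n / s)) σ (n.choose 2)).card : ℝ) ≤ (o - c / 2) * n ∧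
      MinDeg k (bought (rule k (n / s)) σ (tau k σ)) := by
      have : min (δ / 2) (1 / 4) ≤ (1 / 4 : ℝ) := min_le_right _ _
      linarith
    have h2 : ∃ σ : Ordering n, ((bought (rule k (n / s)) σ (n.choose 2)).card : ℝ) ≤
        (o - c / 2) * n := by
      by_contra hcon
      push Not at hcon
      have h3 : prob n (fun σ : Ordering n =>
        ((bought (rule k (n / s)) σ (n.choose 2)).card : ℝ) ≤ (o - c / 2) * n ∧
        MinDeg k (bought (rule k (n / s)) σ (tau k σ))) = 0 := by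
        rw [prob_eq, filter_false_of_mem, card_empty]
        · simp
        · rintro σ - ⟨h4, _⟩
          exact absurd h4 (not_le.2 (hcon σ))
      linarith
    obtain ⟨σ, hσ⟩ := h2
    have h3 : (0 : ℝ) ≤ (o - c / 2) * n := le_trans (Nat.cast_nonneg _) hσ
    have h4 : (0 : ℝ) < n := by exact_mod_cast hn2
    exact nonneg_of_mul_nonneg_left h3 h4
  refine ⟨c / 2, half_pos hc0, fun n => ⌊(o - c / 2) * n⌋₊,
    fun n => cap k (n / s) ⌊(o - c / 2) * n⌋₊, fun n => Nat.floor_le (by positivity),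
    fun n σ t => cap_card_le _ _ _ σ t, ?_⟩
  filter_upwards [hboth] with n hn
  have hmin : min (δ / 2) (1 / 4) ≤ δ / 2 := min_le_left _ _
  refine le_trans (by linarith) (hn.trans (prob_mono n _ _ ?_))
  rintro σ ⟨h1, h2⟩
  rw [cap_eq k (n / s) ⌊(o - c / 2) * n⌋₊ σ (Nat.le_floor h1)]
  exact h2

end Pool.Agent.R980.Budget
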