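import Mathlib

/-!
# The censored walk on a monotone subset of the hypercube: a bottleneck
-/

set_option autoImplicit false

namespace Pool.Agent.R980.Censored

open Finset
open scoped Classical

/-- the points of the cube `{0,1}^n` -/
abbrev Cube (n : ℕ) : Type := Fin n → Bool

variable {n : ℕ}

/-- `A` is monotone (up-closed) -/
def UpClosed (A : Finset (Cube n)) : Prop :=
  ∀ x ∈ A, ∀ y : Cube n, (∀ i, x i = true → y i = true) → y ∈ A

/-- the point `x` with coordinate `i` flipped -/
def flip (x : Cube n) (i : Fin n) : Cube n := Function.update x i (!x i)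

/-- the point where the walk on `A` is after the proposal of coordinate `i` at the point `x` -/
noncomputable def move (A : Finset (Cube n)) (i : Fin n) (x : Cube n) : Cube n :=
  if flip x i ∈ A then flip x i else x

/-- The transition probabilities of the lazy censored walk on `A`: with probability `1/2` nothing
happens, otherwise a uniformly random coordinate is proposed. -/
noncomputable def K (A : Finset (Cube n)) (x y : Cube n) : ℝ :=
  (if y = x then 1 / 2 else 0) +
    ∑ i : Fin n, (if y = move A i x then 1 / (2 * (n : ℝ)) else 0)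

/-- the law of the walk on `A` started at `x`, after `t` steps -/
noncomputable def law (A : Finset (Cube n)) (x : Cube n) : ℕ → Cube n → ℝ
  | 0 => fun y => if y = x then 1 else 0
  | t + 1 => fun y => ∑ z, law A x t z * K A z y

/-- the uniform distribution on `A` -/
noncomputable def unif (A : Finset (Cube n)) (y : Cube n) : ℝ :=
  if y ∈ A then 1 / (A.card : ℝ) else 0

/-- total variation distance -/
noncomputable def tv (μ ν : Cube n → ℝ) : ℝ := (1 / 2) * ∑ y, |μ y - ν y|

/-- At time `t`, from every starting state in `A`, the law of the walk is within total variation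
distance `1/4` of the uniform distribution on `A` (the mixing time is the least such `t`). -/
def Mixed (A : Finset (Cube n)) (t : ℕ) : Prop := ∀ x ∈ A, tv (law A x t) (unif A) ≤ 1 / 4

theorem flip_flip (x : Cube n) (i : Fin n) : flip (flip x i) i = x := by
  unfold flip
  funext j
  by_cases h : j = i
  · subst h; simp
  · simp [h]

theorem move_mem (A : Finset (Cube n)) (i : Fin n) (x : Cube n) (hx : x ∈ A) :
    move A i x ∈ A := by
  unfold move
  split_ifs with h
  · exact h
  · exact hx

theorem move_move (A : Finset (Cube n)) (i : Fin n) (x : Cube n) (hx : x ∈ A) :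
    move A i (move A i x) = x := by
  unfold move
  by_cases h : flip x i ∈ A
  · rw [if_pos h, flip_flip, if_pos hx]
  · rw [if_neg h, if_neg h]

theorem K_nonneg (A : Finset (Cube n)) (x y : Cube n) : 0 ≤ K A x y := by
  unfold K
  refine add_nonneg (by split_ifs <;> norm_num) (sum_nonneg fun i _ => ?_)
  split_ifs
  · positivity
  · exact le_rfl

theorem K_row (A : Finset (Cube n)) (hn : 0 < n) (x : Cube n) : ∑ y, K A x y = 1 := by
  unfold K
  rw [sum_add_distrib, sum_comm, sum_ite_eq' univ x, if_pos (mem_univ _)]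
  have h : ∀ i ∈ (univ : Finset (Fin n)), ∑ y, (if y = move A i x then 1 / (2 * (n : ℝ)) else 0)
      = 1 / (2 * (n : ℝ)) := by
    intro i _
    rw [sum_ite_eq' univ (move A i x), if_pos (mem_univ _)]
  rw [sum_congr rfl h, sum_const, card_univ, Fintype.card_fin, nsmul_eq_mul]
  have hn' : (0 : ℝ) < n := by exact_mod_cast hn
  field_simp
  norm_num

theorem K_out (A : Finset (Cube n)) (x y : Cube n) (hx : x ∈ A) (hy : y ∉ A) : K A x y = 0 := by
  unfold K
  rw [if_neg (fun h : y = x => hy (by rw [h]; exact hx)), zero_add]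
  apply sum_eq_zero
  intro i _
  rw [if_neg (fun h : y = move A i x => hy (by rw [h]; exact move_mem A i x hx))]

/-- the columns -/
theorem K_col (A : Finset (Cube n)) (hn : 0 < n) (y : Cube n) : ∑ z ∈ A, K A z y ≤ 1 := by
  unfold K
  rw [sum_add_distrib, sum_comm]
  have h1 : ∑ z ∈ A, (if y = z then (1 : ℝ) / 2 else 0) ≤ 1 / 2 := by
    rw [sum_ite_eq]
    split_ifs <;> norm_num
  have h2 : ∀ i ∈ (univ : Finset (Fin n)),
      ∑ z ∈ A, (if y = move A i z then 1 / (2 * (n : ℝ)) else 0) ≤ 1 / (2 * (n : ℝ)) := by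
    intro i _
    rw [← sum_filter, sum_const, nsmul_eq_mul]
    have h3 : (A.filter fun z => y = move A i z).card ≤ 1 := by
      rw [card_le_one]
      intro a ha b hb
      rw [mem_filter] at ha hb
      rw [← move_move A i a ha.1, ← ha.2, hb.2, move_move A i b hb.1]
    have h4 : ((A.filter fun z => y = move A i z).card : ℝ) ≤ 1 := by exact_mod_cast h3
    have h5 : (0 : ℝ) ≤ 1 / (2 * (n : ℝ)) := by positivity
    nlinarith
  have h3 := sum_le_sum h2
  rw [sum_const, card_univ, Fintype.card_fin, nsmul_eq_mul] at h3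
  have hn' : (0 : ℝ) < n := by exact_mod_cast hn
  have h4 : (n : ℝ) * (1 / (2 * (n : ℝ))) = 1 / 2 := by field_simp
  rw [h4] at h3
  linarith

theorem law_nonneg (A : Finset (Cube n)) (x : Cube n) (t : ℕ) (y : Cube n) :
    0 ≤ law A x t y := by
  induction t generalizing y with
  | zero => unfold law; split_ifs <;> norm_num
  | succ t ih =>
    unfold law
    exact sum_nonneg fun z _ => mul_nonneg (ih z) (K_nonneg A z y)

theorem law_sum (A : Finset (Cube n)) (hn : 0 < n) (x : Cube n) (t : ℕ) :
    ∑ y, law A x t y = 1 := by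
  induction t with
  | zero =>
    unfold law
    rw [sum_ite_eq' univ x, if_pos (mem_univ _)]
  | succ t ih =>
    unfold law
    rw [sum_comm]
    simp_rw [← mul_sum, K_row A hn, mul_one]
    exact ih

theorem law_out (A : Finset (Cube n)) (x : Cube n) (hx : x ∈ A) (t : ℕ) (y : Cube n)
    (hy : y ∉ A) : law A x t y = 0 := by
  induction t generalizing y with
  | zero =>
    unfold law
    rw [if_neg (fun h : y = x => hy (by rw [h]; exact hx))]
  | succ t ih =>
    unfold law
    apply sum_eq_zero
    intro z _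
    by_cases hz : z ∈ A
    · rw [K_out A z y hz hy, mul_zero]
    · rw [ih z hz, zero_mul]

theorem unif_sum (A : Finset (Cube n)) (hA : A.Nonempty) : ∑ y, unif A y = 1 := by
  unfold unif
  rw [← sum_filter, filter_mem_eq_inter, univ_inter, sum_const, nsmul_eq_mul]
  have : (0 : ℝ) < A.card := by exact_mod_cast card_pos.2 hA
  field_simp

/-- the total variation distance bounds the difference of the measures of a set -/
theorem tv_bound (μ ν : Cube n → ℝ) (h : ∑ y, μ y = ∑ y, ν y) (S : Finset (Cube n)) :
    ∑ y ∈ S, ν y - ∑ y ∈ S, μ y ≤ tv μ ν := by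
  unfold tv
  have h1 : ∑ y ∈ S, (ν y - μ y) + ∑ y ∈ Sᶜ, (ν y - μ y) = 0 := by
    rw [sum_add_sum_compl, sum_sub_distrib, h, sub_self]
  have h2 : ∑ y, |μ y - ν y| = ∑ y ∈ S, |μ y - ν y| + ∑ y ∈ Sᶜ, |μ y - ν y| := by
    rw [sum_add_sum_compl]
  have h3 : ∑ y ∈ S, (ν y - μ y) ≤ ∑ y ∈ S, |μ y - ν y| :=
    sum_le_sum fun y _ => by rw [abs_sub_comm]; exact le_abs_self _
  have h4 : -∑ y ∈ Sᶜ, (ν y - μ y) ≤ ∑ y ∈ Sᶜ, |μ y - ν y| := by
    rw [← sum_neg_distrib]
    exact sum_le_sum fun y _ => by rw [abs_sub_comm]; exact neg_le_abs _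
  rw [h2, ← sum_sub_distrib]
  linarith

/-- the average law -/
noncomputable def avg (A B : Finset (Cube n)) (t : ℕ) (y : Cube n) : ℝ :=
  ∑ x ∈ B, law A x t y

theorem avg_succ (A B : Finset (Cube n)) (t : ℕ) (y : Cube n) :
    avg A B (t + 1) y = ∑ z, avg A B t z * K A z y := by
  unfold avg
  simp_rw [sum_mul]
  rw [sum_comm]
  rfl

theorem avg_le (A B : Finset (Cube n)) (hBA : B ⊆ A) (hn : 0 < n) (t : ℕ) (y : Cube n) :
    avg A B t y ≤ 1 := by
  induction t generalizing y with
  | zero =>
    unfold avg law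
    rw [sum_ite_eq]
    split_ifs <;> norm_num
  | succ t ih =>
    rw [avg_succ]
    have h1 : ∑ z, avg A B t z * K A z y = ∑ z ∈ A, avg A B t z * K A z y := by
      symm
      apply sum_subset (subset_univ _)
      intro z _ hz
      have : avg A B t z = 0 := by
        unfold avg
        exact sum_eq_zero fun x hx => law_out A x (hBA hx) t z hz
      rw [this, zero_mul]
    rw [h1]
    refine le_trans (sum_le_sum fun z _ => ?_) (K_col A hn y)
    exact mul_le_of_le_one_left (K_nonneg A z y) (ih z)

/-- the mass outside `B` grows slowly -/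
theorem avg_out (A B : Finset (Cube n)) (hBA : B ⊆ A) (hn : 0 < n) (t : ℕ) :
    ∑ y ∈ A \ B, avg A B t y ≤ t * ∑ z ∈ B, ∑ y ∈ A \ B, K A z y := by
  induction t with
  | zero =>
    have : ∑ y ∈ A \ B, avg A B 0 y = 0 := by
      apply sum_eq_zero
      intro y hy
      unfold avg law
      apply sum_eq_zero
      intro x hx
      rw [if_neg]
      rintro rfl
      exact (mem_sdiff.1 hy).2 hx
    rw [this]; simp
  | succ t ih =>
    have h1 : ∑ y ∈ A \ B, avg A B (t + 1) y
        = ∑ z ∈ B, avg A B t z * ∑ y ∈ A \ B, K A z y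
          + ∑ z ∈ A \ B, avg A B t z * ∑ y ∈ A \ B, K A z y := by
      simp_rw [avg_succ]
      rw [sum_comm]
      simp_rw [← mul_sum]
      rw [← sum_union (disjoint_sdiff), union_sdiff_of_subset hBA]
      symm
      apply sum_subset (subset_univ _)
      intro z _ hz
      have : avg A B t z = 0 := by
        unfold avg
        exact sum_eq_zero fun x hx => law_out A x (hBA hx) t z hz
      rw [this, zero_mul]
    have hav : ∀ z, 0 ≤ avg A B t z := fun z => sum_nonneg fun x _ => law_nonneg A x t z
    have h2 : ∑ z ∈ B, avg A B t z * ∑ y ∈ A \ B, K A z y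
        ≤ ∑ z ∈ B, ∑ y ∈ A \ B, K A z y := by
      refine sum_le_sum fun z _ => ?_
      exact mul_le_of_le_one_left (sum_nonneg fun y _ => K_nonneg A z y) (avg_le A B hBA hn t z)
    have h3 : ∑ z ∈ A \ B, avg A B t z * ∑ y ∈ A \ B, K A z y ≤ ∑ z ∈ A \ B, avg A B t z := by
      refine sum_le_sum fun z _ => ?_
      refine mul_le_of_le_one_right (hav z) ?_
      rw [← K_row A hn z]
      exact sum_le_sum_of_subset_of_nonneg (subset_univ _) fun y _ _ => K_nonneg A z y
    rw [h1]
    push_cast
    linarith

/-- the bottleneck bound -/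
theorem bottleneck (A B : Finset (Cube n)) (hBA : B ⊆ A) (hn : 0 < n) (hB : B.Nonempty)
    (hhalf : 2 * B.card ≤ A.card) (t : ℕ) (hmix : Mixed A t) :
    (B.card : ℝ) / 4 ≤ t * ∑ z ∈ B, ∑ y ∈ A \ B, K A z y := by
  refine le_trans ?_ (avg_out A B hBA hn t)
  have hA : A.Nonempty := hB.mono hBA
  have hApos : (0 : ℝ) < A.card := by exact_mod_cast card_pos.2 hA
  have h1 : ∑ y ∈ A \ B, unif A y ≥ 1 / 2 := by
    have h2 : ∑ y ∈ A \ B, unif A y = ((A \ B).card : ℝ) * (1 / A.card) := by
      rw [← nsmul_eq_mul, ← sum_const]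
      refine sum_congr rfl fun y hy => ?_
      unfold unif
      rw [if_pos (mem_sdiff.1 hy).1]
    have h3 : (A \ B).card = A.card - B.card := card_sdiff_of_subset hBA
    have h4 : (2 : ℝ) * ((A \ B).card : ℝ) ≥ A.card := by
      have : A.card ≤ 2 * (A \ B).card := by omega
      exact_mod_cast this
    rw [h2, ge_iff_le, mul_one_div, le_div_iff₀ hApos]
    linarith
  have h5 : ∀ x ∈ B, (1 : ℝ) / 4 ≤ ∑ y ∈ A \ B, law A x t y := by
    intro x hx
    have h6 := tv_bound (law A x t) (unif A) (by rw [law_sum A hn, unif_sum A hA]) (A \ B)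
    have h7 := hmix x (hBA hx)
    linarith
  unfold avg
  rw [sum_comm]
  have h8 := sum_le_sum h5
  rw [sum_const, nsmul_eq_mul] at h8
  linarith

section example_set

variable (n) in
/-- the points which are `1` on the set `T` -/
def ones (T : Finset (Fin n)) : Finset (Cube n) := univ.filter fun x => ∀ i ∈ T, x i = true

theorem mem_ones (T : Finset (Fin n)) (x : Cube n) : x ∈ ones n T ↔ ∀ i ∈ T, x i = true := by
  unfold ones
  rw [mem_filter]
  exact ⟨fun h => h.2, fun h => ⟨mem_univ _, h⟩⟩

theorem card_ones (T : Finset (Fin n)) : (ones n T).card = 2 ^ (n - T.card) := by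
  have h1 : ones n T = Fintype.piFinset fun i : Fin n => if i ∈ T then ({true} : Finset Bool)
      else univ := by
    ext x
    rw [mem_ones, Fintype.mem_piFinset]
    constructor
    · intro h i
      by_cases hi : i ∈ T
      · rw [if_pos hi, mem_singleton]; exact h i hi
      · rw [if_neg hi]; exact mem_univ _
    · intro h i hi
      have := h i
      rw [if_pos hi, mem_singleton] at this
      exact this
  rw [h1, Fintype.card_piFinset]
  have h2 : ∀ i ∈ (univ : Finset (Fin n)),
      (if i ∈ T then ({true} : Finset Bool) else univ).card = if i ∈ T then 1 else 2 := by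
    intro i _
    split_ifs <;> simp
  rw [prod_congr rfl h2, prod_ite, prod_const_one, one_mul, prod_const]
  congr 1
  rw [filter_not, filter_mem_eq_inter, univ_inter, ← compl_eq_univ_sdiff, card_compl,
    Fintype.card_fin]

theorem upClosed_union (I J : Finset (Fin n)) : UpClosed (ones n I ∪ ones n J) := by
  intro x hx y hy
  rw [mem_union, mem_ones, mem_ones] at hx ⊢
  rcases hx with h | h
  · exact Or.inl fun i hi => hy i (h i hi)
  · exact Or.inr fun i hi => hy i (h i hi)

/-- few edges leave the part `ones I \ ones J` -/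
theorem flow (I J : Finset (Fin n)) (hIJ : Disjoint I J) :
    ∑ z ∈ ones n I \ ones n J,
      ∑ y ∈ (ones n I ∪ ones n J) \ (ones n I \ ones n J), K (ones n I ∪ ones n J) z y
      ≤ J.card * 2 ^ (n - (I.card + J.card)) / (2 * (n : ℝ)) := by
  set A := ones n I ∪ ones n J with hA
  set B := ones n I \ ones n J with hB
  have h1 : ∀ z ∈ B, ∑ y ∈ A \ B, K A z y
      = ∑ i : Fin n, (if move A i z ∈ A \ B then 1 / (2 * (n : ℝ)) else 0) := by
    intro z hz
    unfold K
    rw [sum_add_distrib, sum_comm]
    have h2 : ∑ y ∈ A \ B, (if y = z then (1 : ℝ) / 2 else 0) = 0 := by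
      apply sum_eq_zero
      intro y hy
      rw [if_neg]
      rintro rfl
      exact (mem_sdiff.1 hy).2 hz
    rw [h2, zero_add]
    refine sum_congr rfl fun i _ => ?_
    rw [sum_ite_eq']
  rw [sum_congr rfl h1, ← sum_product' B univ fun z i =>
    (if move A i z ∈ A \ B then 1 / (2 * (n : ℝ)) else 0), ← sum_filter, sum_const, nsmul_eq_mul,
    mul_one_div]
  refine div_le_div_of_nonneg_right ?_ (by positivity)
  have h3 : ((B ×ˢ (univ : Finset (Fin n))).filter fun x => move A x.2 x.1 ∈ A \ B).card
      ≤ ((ones n (I ∪ J)) ×ˢ J).card := by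
    refine card_le_card_of_injOn (fun x => (flip x.1 x.2, x.2)) ?_ ?_
    · rintro ⟨z, i⟩ hzi
      rw [mem_coe, mem_filter, mem_product] at hzi
      obtain ⟨⟨hz, _⟩, hm⟩ := hzi
      dsimp only at hz hm
      rw [mem_coe, mem_product]
      have hzI : ∀ j ∈ I, z j = true := (mem_ones I z).1 (mem_sdiff.1 hz).1
      have hzJ : z ∉ ones n J := (mem_sdiff.1 hz).2
      have hmv : move A i z = flip z i := by
        unfold move at hm ⊢
        split_ifs at hm ⊢ with h
        · rfl
        · exact absurd hz (mem_sdiff.1 hm).2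
      rw [hmv] at hm
      have hfJ : flip z i ∈ ones n J := by
        by_contra hcon
        have h4 := (mem_sdiff.1 hm).1
        rw [hA, mem_union] at h4
        rcases h4 with h4 | h4
        · exact (mem_sdiff.1 hm).2 (mem_sdiff.2 ⟨h4, hcon⟩)
        · exact hcon h4
      have hiJ : i ∈ J := by
        by_contra hcon
        apply hzJ
        rw [mem_ones] at hfJ ⊢
        intro j hj
        have h5 := hfJ j hj
        have hne : j ≠ i := fun h => hcon (h ▸ hj)
        unfold flip at h5
        rw [Function.update_of_ne hne] at h5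
        exact h5
      refine ⟨?_, hiJ⟩
      rw [mem_ones]
      intro j hj
      rw [mem_union] at hj
      rcases hj with hj | hj
      · have hne : j ≠ i := by
          rintro rfl
          exact (Finset.disjoint_left.1 hIJ) hj hiJ
        show flip z i j = true
        unfold flip
        rw [Function.update_of_ne hne]
        exact hzI j hj
      · exact (mem_ones J _).1 hfJ j hj
    · rintro ⟨z, i⟩ _ ⟨z', i'⟩ _ h
      have h4 := (Prod.mk.inj h).2
      have h5 := (Prod.mk.inj h).1
      dsimp only at h4 h5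
      subst h4
      have h6 : z = z' := by rw [← flip_flip z i, h5, flip_flip]
      rw [h6]
  rw [card_product, card_ones, card_union_of_disjoint hIJ] at h3
  have h4 : ((((B ×ˢ (univ : Finset (Fin n))).filter fun x => move A x.2 x.1 ∈ A \ B).card : ℕ) : ℝ)
      ≤ ((2 ^ (n - (I.card + J.card)) * J.card : ℕ) : ℝ) := by exact_mod_cast h3
  push_cast at h4
  rw [mul_comm (J.card : ℝ)]
  exact h4

/-- the lower bound on the mixing time -/
theorem slow (k : ℕ) (hk : 0 < k) (hn : 2 * k ≤ n) :
    ∃ A : Finset (Cube n), A.Nonempty ∧ UpClosed A ∧ 2 ^ n ≤ 2 ^ k * A.card ∧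
      ∀ t : ℕ, Mixed A t → (n : ℝ) * (2 ^ k - 1) / (2 * k) ≤ t := by
  set I : Finset (Fin n) := univ.filter fun i => i.1 < k with hI
  set J : Finset (Fin n) := univ.filter fun i => k ≤ i.1 ∧ i.1 < 2 * k with hJ
  have hIc : I.card = k := by
    rw [← card_image_of_injective _ Fin.val_injective]
    have : I.image Fin.val = range k := by
      ext j
      rw [mem_image, mem_range]
      constructor
      · rintro ⟨i, hi, rfl⟩; exact (mem_filter.1 hi).2
      · intro hj; exact ⟨⟨j, by omega⟩, mem_filter.2 ⟨mem_univ _, hj⟩, rfl⟩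
    rw [this, card_range]
  have hJc : J.card = k := by
    rw [← card_image_of_injective _ Fin.val_injective]
    have : J.image Fin.val = Ico k (2 * k) := by
      ext j
      rw [mem_image, mem_Ico]
      constructor
      · rintro ⟨i, hi, rfl⟩; exact (mem_filter.1 hi).2
      · intro hj; exact ⟨⟨j, by omega⟩, mem_filter.2 ⟨mem_univ _, hj⟩, rfl⟩
    rw [this, Nat.card_Ico]; omega
  have hIJ : Disjoint I J := by
    rw [Finset.disjoint_left]
    intro i hi hj
    have h1 := (mem_filter.1 hi).2
    have h2 := (mem_filter.1 hj).2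
    omega
  have hn0 : 0 < n := by omega
  set A := ones n I ∪ ones n J with hA
  set B := ones n I \ ones n J with hB
  have hBA : B ⊆ A := sdiff_subset.trans subset_union_left
  have hIcard : (ones n I).card = 2 ^ (n - k) := by rw [card_ones, hIc]
  have hJcard : (ones n J).card = 2 ^ (n - k) := by rw [card_ones, hJc]
  have hinter : ones n I ∩ ones n J = ones n (I ∪ J) := by
    ext x
    rw [mem_inter, mem_ones, mem_ones, mem_ones]
    constructor
    · rintro ⟨h1, h2⟩ i hi
      rcases mem_union.1 hi with hi | hi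
      · exact h1 i hi
      · exact h2 i hi
    · intro h
      exact ⟨fun i hi => h i (mem_union_left _ hi), fun i hi => h i (mem_union_right _ hi)⟩
  have hcap : (ones n I ∩ ones n J).card = 2 ^ (n - (k + k)) := by
    rw [hinter, card_ones, card_union_of_disjoint hIJ, hIc, hJc]
  have hBc : B.card + 2 ^ (n - (k + k)) = 2 ^ (n - k) := by
    rw [← hcap, ← hIcard, hB]
    exact card_sdiff_add_card_inter _ _
  have hpow : 2 ^ (n - k) = 2 ^ k * 2 ^ (n - (k + k)) := by
    rw [← pow_add]; congr 1; omega
  have h2k : 2 ≤ 2 ^ k := by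
    calc 2 = 2 ^ 1 := by norm_num
      _ ≤ 2 ^ k := Nat.pow_le_pow_right (by norm_num) hk
  have hppos : 0 < 2 ^ (n - (k + k)) := by positivity
  have hBpos : 0 < B.card := by nlinarith
  have hAc : A.card = (ones n J).card + B.card := by
    have h1 : A = ones n J ∪ B := by
      rw [hA, hB, union_sdiff_self_eq_union, union_comm]
    rw [h1, card_union_of_disjoint disjoint_sdiff]
  refine ⟨A, ⟨fun _ => true, ?_⟩, upClosed_union I J, ?_, ?_⟩
  · rw [hA, mem_union, mem_ones]
    exact Or.inl fun i _ => rfl
  · have h1 : 2 ^ n = 2 ^ k * 2 ^ (n - k) := by rw [← pow_add]; congr 1; omega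
    rw [h1, hAc, hJcard]
    exact Nat.mul_le_mul_left _ (Nat.le_add_right _ _)
  · intro t ht
    have h1 := bottleneck A B hBA hn0 (card_pos.1 hBpos) (by rw [hAc]; omega) t ht
    have h2 := flow I J hIJ
    rw [hIc, hJc] at h2
    have ht0 : (0 : ℝ) ≤ t := Nat.cast_nonneg _
    have h3 := h1.trans (mul_le_mul_of_nonneg_left h2 ht0)
    have hBR : (B.card : ℝ) = (2 ^ k - 1) * 2 ^ (n - (k + k)) := by
      have h4 : ((B.card + 2 ^ (n - (k + k)) : ℕ) : ℝ) = ((2 ^ k * 2 ^ (n - (k + k)) : ℕ) : ℝ) := by
        rw [hBc, hpow]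
      push_cast at h4
      linarith
    rw [hBR] at h3
    have hP : (0 : ℝ) < 2 ^ (n - (k + k)) := by positivity
    have hkR : (0 : ℝ) < k := by exact_mod_cast hk
    have hnR : (0 : ℝ) < n := by exact_mod_cast hn0
    rw [div_le_iff₀ (by positivity)]
    have h5 : (t : ℝ) * (k * 2 ^ (n - (k + k)) / (2 * n))
        = (t * k / (2 * n)) * 2 ^ (n - (k + k)) := by ring
    rw [h5] at h3
    have h6 : ((2 : ℝ) ^ k - 1) / 4 ≤ t * k / (2 * n) := by
      have h7 : ((2 : ℝ) ^ k - 1) * 2 ^ (n - (k + k)) / 4
          = ((2 : ℝ) ^ k - 1) / 4 * 2 ^ (n - (k + k)) := by ring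
      rw [h7] at h3
      exact le_of_mul_le_mul_right h3 hP
    rw [div_le_div_iff₀ (by norm_num) (by positivity)] at h6
    nlinarith

end example_set

end Pool.Agent.R980.Censored
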