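import Mathlib

/-!
# The binomial random graph: product structure and a degree Chernoff bound
-/

set_option autoImplicit false

namespace Pool.Agent.R980

open Finset
open scoped Classical

/-- The probability that the binomial random graph `G(n,p)` has the property `A`. -/
noncomputable def gnp (n : ℕ) (p : ℝ) (A : SimpleGraph (Fin n) → Prop) : ℝ :=
  ∑ G : SimpleGraph (Fin n),
    if A G then p ^ G.edgeSet.ncard * (1 - p) ^ (n.choose 2 - G.edgeSet.ncard) else 0

/-- pairs of distinct vertices -/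
abbrev Edge (n : ℕ) : Type := {e : Sym2 (Fin n) // ¬ e.IsDiag}

/-- the graph with a given edge indicator -/
def ofBool {n : ℕ} (x : Edge n → Bool) : SimpleGraph (Fin n) where
  Adj u v := ∃ h : ¬ (s(u, v) : Sym2 (Fin n)).IsDiag, x ⟨s(u, v), h⟩ = true
  symm := ⟨by
    rintro u v ⟨h, hx⟩
    have h' : ¬ (s(v, u) : Sym2 (Fin n)).IsDiag := by rw [Sym2.eq_swap]; exact h
    refine ⟨h', ?_⟩
    have : (⟨s(v, u), h'⟩ : Edge n) = ⟨s(u, v), h⟩ := Subtype.ext Sym2.eq_swap
    rw [this]; exact hx⟩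
  loopless := ⟨by
    rintro u ⟨h, _⟩
    exact h (by simp)⟩

theorem mem_ofBool {n : ℕ} (x : Edge n → Bool) (e : Edge n) :
    e.1 ∈ (ofBool x).edgeSet ↔ x e = true := by
  obtain ⟨e, he⟩ := e
  induction e with
  | _ u v =>
  rw [SimpleGraph.mem_edgeSet]
  constructor
  · rintro ⟨h, hx⟩; exact hx
  · intro hx; exact ⟨he, hx⟩

/-- edge indicators are the same as graphs -/
noncomputable def boolEquiv (n : ℕ) : (Edge n → Bool) ≃ SimpleGraph (Fin n) where
  toFun := ofBool
  invFun G := fun e => decide (e.1 ∈ G.edgeSet)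
  left_inv x := by
    funext e
    have := mem_ofBool x e
    by_cases h : x e = true
    · rw [h]; simpa using this.2 h
    · have h2 : ¬ e.1 ∈ (ofBool x).edgeSet := fun h3 => h (this.1 h3)
      rw [Bool.not_eq_true] at h
      rw [h]; simpa using h2
  right_inv G := by
    rw [← SimpleGraph.edgeSet_inj]
    ext e
    constructor
    · intro he
      have hd : ¬ e.IsDiag := SimpleGraph.not_isDiag_of_mem_edgeSet _ he
      have := (mem_ofBool _ (⟨e, hd⟩ : Edge n)).1 he
      simpa using this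
    · intro he
      have hd : ¬ e.IsDiag := SimpleGraph.not_isDiag_of_mem_edgeSet _ he
      refine (mem_ofBool _ (⟨e, hd⟩ : Edge n)).2 ?_
      simpa using he

theorem card_Edge (n : ℕ) : Fintype.card (Edge n) = n.choose 2 := by
  have := Sym2.card_subtype_not_diag (α := Fin n)
  rw [Fintype.card_fin] at this
  rw [← this]

theorem ncard_ofBool {n : ℕ} (x : Edge n → Bool) :
    (ofBool x).edgeSet.ncard = (univ.filter fun e => x e = true).card := by
  have : (ofBool x).edgeSet = (fun e : Edge n => e.1) '' (↑(univ.filter fun e => x e = true) :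
      Set (Edge n)) := by
    ext e
    constructor
    · intro he
      have hd : ¬ e.IsDiag := SimpleGraph.not_isDiag_of_mem_edgeSet _ he
      refine ⟨⟨e, hd⟩, ?_, rfl⟩
      rw [Finset.coe_filter]
      exact ⟨mem_univ _, (mem_ofBool x ⟨e, hd⟩).1 he⟩
    · rintro ⟨e', he', rfl⟩
      rw [Finset.coe_filter] at he'
      exact (mem_ofBool x e').2 he'.2
  rw [this, Set.ncard_image_of_injective _ Subtype.val_injective, Set.ncard_coe_finset]

/-- product Bernoulli weight -/
noncomputable def bw {E : Type} [Fintype E] (p : ℝ) (x : E → Bool) : ℝ :=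
  ∏ e, if x e = true then p else 1 - p

theorem bw_nonneg {E : Type} [Fintype E] {p : ℝ} (h0 : 0 ≤ p) (h1 : p ≤ 1) (x : E → Bool) :
    0 ≤ bw p x := by
  refine prod_nonneg fun e _ => ?_
  split_ifs
  · exact h0
  · linarith

theorem bw_eq {n : ℕ} (p : ℝ) (x : Edge n → Bool) :
    bw p x = p ^ (ofBool x).edgeSet.ncard * (1 - p) ^ (n.choose 2 - (ofBool x).edgeSet.ncard) := by
  unfold bw
  rw [Finset.prod_ite, prod_const, prod_const, ncard_ofBool]
  congr 2
  have := Finset.card_filter_add_card_filter_not (s := (univ : Finset (Edge n)))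
    (fun e => x e = true)
  rw [card_univ, card_Edge] at this
  omega

/-- expectation in the product Bernoulli space -/
noncomputable def bex {E : Type} [Fintype E] [DecidableEq E] (p : ℝ) (f : (E → Bool) → ℝ) : ℝ :=
  ∑ x, bw p x * f x

theorem bex_prod {E : Type} [Fintype E] [DecidableEq E] (p : ℝ) (g : E → Bool → ℝ) :
    bex p (fun x => ∏ e, g e (x e)) = ∏ e, (p * g e true + (1 - p) * g e false) := by
  unfold bex bw
  have h := Finset.prod_univ_sum (fun _ : E => (univ : Finset Bool))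
    (fun e b => (if b = true then p else 1 - p) * g e b)
  rw [Fintype.piFinset_univ] at h
  have h2 : ∀ e : E, ∑ b : Bool, (if b = true then p else 1 - p) * g e b
      = p * g e true + (1 - p) * g e false := by
    intro e; rw [Fintype.sum_bool]; simp
  rw [← prod_congr rfl (fun e _ => h2 e), h]
  refine sum_congr rfl fun x _ => ?_
  rw [prod_mul_distrib]

theorem bex_const {E : Type} [Fintype E] [DecidableEq E] (p c : ℝ) : bex (E := E) p (fun _ => c) = c := by
  have h := bex_prod (E := E) p (fun _ _ => 1)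
  unfold bex at h ⊢
  simp only [prod_const_one, mul_one] at h
  rw [← sum_mul, h]
  have : ∀ e : E, p + (1 - p) = 1 := fun _ => by ring
  simp

theorem bex_mono {E : Type} [Fintype E] [DecidableEq E] {p : ℝ} (h0 : 0 ≤ p) (h1 : p ≤ 1)
    {f g : (E → Bool) → ℝ} (h : ∀ x, f x ≤ g x) : bex p f ≤ bex p g :=
  sum_le_sum fun x _ => mul_le_mul_of_nonneg_left (h x) (bw_nonneg h0 h1 x)

theorem bex_add {E : Type} [Fintype E] [DecidableEq E] (p : ℝ) (f g : (E → Bool) → ℝ) :
    bex p (fun x => f x + g x) = bex p f + bex p g := by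
  unfold bex; rw [← sum_add_distrib]; exact sum_congr rfl fun x _ => by ring

theorem bex_mul {E : Type} [Fintype E] [DecidableEq E] (p c : ℝ) (f : (E → Bool) → ℝ) :
    bex p (fun x => c * f x) = c * bex p f := by
  unfold bex; rw [mul_sum]; exact sum_congr rfl fun x _ => by ring

theorem gnp_eq_bex (n : ℕ) (p : ℝ) (A : SimpleGraph (Fin n) → Prop) :
    gnp n p A = bex p (fun x : Edge n → Bool => if A (ofBool x) then 1 else 0) := by
  unfold gnp bex
  rw [← (boolEquiv n).sum_comp]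
  refine sum_congr rfl fun x _ => ?_
  change (if A (ofBool x) then p ^ (ofBool x).edgeSet.ncard *
    (1 - p) ^ (n.choose 2 - (ofBool x).edgeSet.ncard) else 0) = _
  rw [← bw_eq]
  beta_reduce
  by_cases hA : A (ofBool x)
  · rw [if_pos hA, if_pos hA, mul_one]
  · rw [if_neg hA, if_neg hA, mul_zero]

section basic

variable {n : ℕ} {p : ℝ}

theorem gnp_nonneg (h0 : 0 ≤ p) (h1 : p ≤ 1) (A : SimpleGraph (Fin n) → Prop) :
    0 ≤ gnp n p A := by
  rw [gnp_eq_bex]
  refine sum_nonneg fun x _ => mul_nonneg (bw_nonneg h0 h1 x) ?_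
  beta_reduce
  split_ifs <;> norm_num

theorem gnp_mono (h0 : 0 ≤ p) (h1 : p ≤ 1) {A B : SimpleGraph (Fin n) → Prop}
    (h : ∀ G, A G → B G) : gnp n p A ≤ gnp n p B := by
  rw [gnp_eq_bex, gnp_eq_bex]
  refine bex_mono h0 h1 fun x => ?_
  by_cases hA : A (ofBool x)
  · rw [if_pos hA, if_pos (h _ hA)]
  · rw [if_neg hA]; split_ifs <;> norm_num

theorem gnp_true : gnp n p (fun _ => True) = 1 := by
  rw [gnp_eq_bex]
  simp only [if_true]
  exact bex_const p 1

theorem gnp_le_one (h0 : 0 ≤ p) (h1 : p ≤ 1) (A : SimpleGraph (Fin n) → Prop) :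
    gnp n p A ≤ 1 := by
  rw [← gnp_true (n := n) (p := p)]
  exact gnp_mono h0 h1 fun _ _ => trivial

theorem gnp_add_not (A : SimpleGraph (Fin n) → Prop) :
    gnp n p A + gnp n p (fun G => ¬ A G) = 1 := by
  rw [← gnp_true (n := n) (p := p)]
  unfold gnp
  rw [← sum_add_distrib]
  refine sum_congr rfl fun G _ => ?_
  by_cases h : A G <;> simp [h]

theorem gnp_or_le (h0 : 0 ≤ p) (h1 : p ≤ 1) (A B : SimpleGraph (Fin n) → Prop) :
    gnp n p (fun G => A G ∨ B G) ≤ gnp n p A + gnp n p B := by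
  rw [gnp_eq_bex, gnp_eq_bex, gnp_eq_bex, ← bex_add]
  refine bex_mono h0 h1 fun x => ?_
  by_cases hA : A (ofBool x) <;> by_cases hB : B (ofBool x) <;> simp [hA, hB]

theorem gnp_exists_le {ι : Type} [Fintype ι] (h0 : 0 ≤ p) (h1 : p ≤ 1)
    (A : ι → SimpleGraph (Fin n) → Prop) :
    gnp n p (fun G => ∃ i, A i G) ≤ ∑ i, gnp n p (A i) := by
  simp only [gnp_eq_bex]
  have : ∑ i, bex p (fun x : Edge n → Bool => if A i (ofBool x) then (1 : ℝ) else 0)
      = bex p (fun x => ∑ i, if A i (ofBool x) then (1 : ℝ) else 0) := by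
    unfold bex
    rw [sum_comm]
    exact sum_congr rfl fun x _ => by rw [mul_sum]
  rw [this]
  refine bex_mono h0 h1 fun x => ?_
  have hnn : ∀ i ∈ (univ : Finset ι), (0 : ℝ) ≤ if A i (ofBool x) then (1 : ℝ) else 0 :=
    fun i _ => by split_ifs <;> norm_num
  by_cases h : ∃ i, A i (ofBool x)
  · rw [if_pos h]
    obtain ⟨i, hi⟩ := h
    refine le_trans ?_ (single_le_sum hnn (mem_univ i))
    rw [if_pos hi]
  · rw [if_neg h]
    exact sum_nonneg hnn

end basic

/-- Markov's inequality -/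
theorem gnp_markov {n : ℕ} {p : ℝ} (h0 : 0 ≤ p) (h1 : p ≤ 1) (A : SimpleGraph (Fin n) → Prop)
    (f : (Edge n → Bool) → ℝ) (hf : ∀ x, 0 ≤ f x) (a : ℝ) (ha : 0 < a)
    (h : ∀ x, A (ofBool x) → a ≤ f x) : gnp n p A ≤ bex p f / a := by
  rw [gnp_eq_bex, le_div_iff₀ ha, mul_comm, ← bex_mul]
  refine bex_mono h0 h1 fun x => ?_
  by_cases hA : A (ofBool x)
  · rw [if_pos hA, mul_one]; exact h x hA
  · rw [if_neg hA, mul_zero]; exact hf x

theorem edges_at {n : ℕ} (v : Fin n) :
    (univ.filter fun e : Edge n => v ∈ e.1).card = n - 1 := by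
  have h := SimpleGraph.complete_graph_degree v
  rw [Fintype.card_fin, ← SimpleGraph.card_incidenceFinset_eq_degree] at h
  rw [← h]
  refine card_bij (fun e _ => e.1) ?_ ?_ ?_
  · intro e he
    rw [mem_filter] at he
    rw [SimpleGraph.mem_incidenceFinset]
    refine ⟨?_, he.2⟩
    rw [SimpleGraph.edgeSet_top]
    exact e.2
  · intro a _ b _ h; exact Subtype.ext h
  · intro e he
    rw [SimpleGraph.mem_incidenceFinset] at he
    have hd : ¬ e.IsDiag := SimpleGraph.not_isDiag_of_mem_edgeSet _ he.1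
    exact ⟨⟨e, hd⟩, by rw [mem_filter]; exact ⟨mem_univ _, he.2⟩, rfl⟩

theorem degree_ofBool {n : ℕ} (x : Edge n → Bool) (v : Fin n) :
    (ofBool x).degree v = (univ.filter fun e : Edge n => v ∈ e.1 ∧ x e = true).card := by
  rw [← SimpleGraph.card_incidenceFinset_eq_degree]
  symm
  refine card_bij (fun e _ => e.1) ?_ ?_ ?_
  · intro e he
    rw [mem_filter] at he
    rw [SimpleGraph.mem_incidenceFinset]
    exact ⟨(mem_ofBool x e).2 he.2.2, he.2.1⟩
  · intro a _ b _ h; exact Subtype.ext h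
  · intro e he
    rw [SimpleGraph.mem_incidenceFinset] at he
    have hd : ¬ e.IsDiag := SimpleGraph.not_isDiag_of_mem_edgeSet _ he.1
    refine ⟨⟨e, hd⟩, ?_, rfl⟩
    rw [mem_filter]
    exact ⟨mem_univ _, he.2, (mem_ofBool x ⟨e, hd⟩).1 he.1⟩

theorem mgf_degree {n : ℕ} (p t : ℝ) (v : Fin n) :
    bex p (fun x : Edge n → Bool => Real.exp (t * ((ofBool x).degree v : ℝ)))
      = (1 + p * (Real.exp t - 1)) ^ (n - 1) := by
  have h1 : (fun x : Edge n → Bool => Real.exp (t * ((ofBool x).degree v : ℝ)))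
      = fun x => ∏ e : Edge n, (fun (e : Edge n) (b : Bool) =>
          if v ∈ e.1 ∧ b = true then Real.exp t else 1) e (x e) := by
    funext x
    simp only
    rw [Finset.prod_ite, prod_const, prod_const_one, mul_one, degree_ofBool, mul_comm,
      Real.exp_nat_mul]
  rw [h1, bex_prod p (fun (e : Edge n) (b : Bool) =>
          if v ∈ e.1 ∧ b = true then Real.exp t else 1)]
  simp only [and_true, Bool.false_eq_true, and_false, if_false, mul_one]
  have h2 : ∀ e : Edge n, (p * (if v ∈ e.1 then Real.exp t else 1) + (1 - p))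
      = if v ∈ e.1 then 1 + p * (Real.exp t - 1) else 1 := by
    intro e; split_ifs <;> ring
  rw [prod_congr rfl fun e _ => h2 e, Finset.prod_ite, prod_const, prod_const_one, mul_one,
    edges_at]

theorem exp_sub_one_le {t : ℝ} (h : |t| ≤ 1) : Real.exp t - 1 ≤ t + t ^ 2 := by
  have := Real.abs_exp_sub_one_sub_id_le h
  have := abs_le.1 this
  linarith [this.2]

theorem mgf_bound {n : ℕ} {p : ℝ} (h0 : 0 ≤ p) (h1 : p ≤ 1) {t : ℝ} (ht : |t| ≤ 1) (hn : 1 ≤ n)
    (v : Fin n) :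
    bex p (fun x : Edge n → Bool => Real.exp (t * ((ofBool x).degree v : ℝ)))
      ≤ Real.exp (((n : ℝ) - 1) * p * (t + t ^ 2)) := by
  rw [mgf_degree]
  have h2 : 1 + p * (Real.exp t - 1) ≤ Real.exp (p * (t + t ^ 2)) := by
    have h3 := Real.add_one_le_exp (p * (t + t ^ 2))
    have h4 := mul_le_mul_of_nonneg_left (exp_sub_one_le ht) h0
    linarith
  have h5 : 0 ≤ 1 + p * (Real.exp t - 1) := by
    have : 0 ≤ p * Real.exp t := mul_nonneg h0 (Real.exp_pos t).le
    nlinarith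
  refine (pow_le_pow_left₀ h5 h2 _).trans_eq ?_
  rw [← Real.exp_nat_mul, Nat.cast_sub hn]
  congr 1
  push_cast
  ring

/-- upper tail of a degree -/
theorem degree_upper {n : ℕ} {p : ℝ} (h0 : 0 ≤ p) (h1 : p ≤ 1) (hn : 1 ≤ n) {ε : ℝ}
    (he0 : 0 < ε) (he1 : ε ≤ 1) (v : Fin n) :
    gnp n p (fun G => (1 + ε) * (((n : ℝ) - 1) * p) ≤ (G.degree v : ℝ))
      ≤ Real.exp (- (ε ^ 2 / 4) * (((n : ℝ) - 1) * p)) := by
  set μ : ℝ := ((n : ℝ) - 1) * p with hμ
  have ht : |ε / 2| ≤ 1 := by rw [abs_of_pos (by positivity)]; linarith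
  have h := gnp_markov h0 h1 (fun G => (1 + ε) * μ ≤ (G.degree v : ℝ))
    (fun x : Edge n → Bool => Real.exp (ε / 2 * ((ofBool x).degree v : ℝ)))
    (fun x => (Real.exp_pos _).le) (Real.exp (ε / 2 * ((1 + ε) * μ))) (Real.exp_pos _)
    (fun x hx => Real.exp_le_exp.2 (mul_le_mul_of_nonneg_left hx (by positivity)))
  refine h.trans ?_
  rw [div_le_iff₀ (Real.exp_pos _), ← Real.exp_add]
  refine (mgf_bound h0 h1 ht hn v).trans (Real.exp_le_exp.2 ?_)
  rw [← hμ]
  nlinarith

/-- lower tail of a degree -/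
theorem degree_lower {n : ℕ} {p : ℝ} (h0 : 0 ≤ p) (h1 : p ≤ 1) (hn : 1 ≤ n) {ε : ℝ}
    (he0 : 0 < ε) (he1 : ε ≤ 1) (v : Fin n) :
    gnp n p (fun G => (G.degree v : ℝ) ≤ (1 - ε) * (((n : ℝ) - 1) * p))
      ≤ Real.exp (- (ε ^ 2 / 4) * (((n : ℝ) - 1) * p)) := by
  set μ : ℝ := ((n : ℝ) - 1) * p with hμ
  have ht : |-(ε / 2)| ≤ 1 := by rw [abs_neg, abs_of_pos (by positivity)]; linarith
  have h := gnp_markov h0 h1 (fun G => (G.degree v : ℝ) ≤ (1 - ε) * μ)
    (fun x : Edge n → Bool => Real.exp (-(ε / 2) * ((ofBool x).degree v : ℝ)))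
    (fun x => (Real.exp_pos _).le) (Real.exp (-(ε / 2) * ((1 - ε) * μ))) (Real.exp_pos _)
    (fun x hx => Real.exp_le_exp.2 (mul_le_mul_of_nonpos_left hx (by linarith)))
  refine h.trans ?_
  rw [div_le_iff₀ (Real.exp_pos _), ← Real.exp_add]
  refine (mgf_bound h0 h1 ht hn v).trans (Real.exp_le_exp.2 ?_)
  rw [← hμ]
  nlinarith

/-- all degrees are close to the mean -/
theorem degrees_close {n : ℕ} {p : ℝ} (h0 : 0 ≤ p) (h1 : p ≤ 1) (hn : 1 ≤ n) {ε : ℝ}
    (he0 : 0 < ε) (he1 : ε ≤ 1) :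
    gnp n p (fun G => ∃ v : Fin n, (1 + ε) * (((n : ℝ) - 1) * p) ≤ (G.degree v : ℝ) ∨
        (G.degree v : ℝ) ≤ (1 - ε) * (((n : ℝ) - 1) * p))
      ≤ n * (2 * Real.exp (- (ε ^ 2 / 4) * (((n : ℝ) - 1) * p))) := by
  refine (gnp_exists_le h0 h1 _).trans ?_
  have : ∀ v ∈ (univ : Finset (Fin n)),
      gnp n p (fun G => (1 + ε) * (((n : ℝ) - 1) * p) ≤ (G.degree v : ℝ) ∨
        (G.degree v : ℝ) ≤ (1 - ε) * (((n : ℝ) - 1) * p))
      ≤ 2 * Real.exp (- (ε ^ 2 / 4) * (((n : ℝ) - 1) * p)) := by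
    intro v _
    refine (gnp_or_le h0 h1 _ _).trans ?_
    have a := degree_upper h0 h1 hn he0 he1 v
    have b := degree_lower h0 h1 hn he0 he1 v
    linarith
  refine (sum_le_card_nsmul _ _ _ this).trans_eq ?_
  rw [card_univ, Fintype.card_fin, nsmul_eq_mul]

end Pool.Agent.R980
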