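import Mathlib
import Pool.Agent.R980.Gnp

/-!
# Independence of disjoint blocks in the product Bernoulli space
-/

set_option autoImplicit false

namespace Pool.Agent.R980

open Finset
open scoped Classical

theorem bw_split {E : Type} [Fintype E] [DecidableEq E] (p : ℝ) (P : E → Prop) [DecidablePred P]
    (a : {e // P e} → Bool) (b : {e // ¬ P e} → Bool) :
    bw p ((Equiv.piEquivPiSubtypeProd P (fun _ => Bool)).symm (a, b)) = bw p a * bw p b := by
  unfold bw
  rw [← Fintype.prod_subtype_mul_prod_subtype P]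
  congr 1
  · refine prod_congr rfl fun e _ => ?_
    have h : (Equiv.piEquivPiSubtypeProd P (fun _ => Bool)).symm (a, b) e.1 = a e := by
      simp [Equiv.piEquivPiSubtypeProd, e.2]
    rw [h]
  · refine prod_congr rfl fun e _ => ?_
    have h : (Equiv.piEquivPiSubtypeProd P (fun _ => Bool)).symm (a, b) e.1 = b e := by
      simp [Equiv.piEquivPiSubtypeProd, e.2]
    rw [h]

theorem bex_split {E : Type} [Fintype E] [DecidableEq E] (p : ℝ) (P : E → Prop) [DecidablePred P]
    (f : (E → Bool) → ℝ) :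
    bex p f = ∑ a : {e // P e} → Bool, ∑ b : {e // ¬ P e} → Bool,
      bw p a * bw p b * f ((Equiv.piEquivPiSubtypeProd P (fun _ => Bool)).symm (a, b)) := by
  unfold bex
  rw [← (Equiv.piEquivPiSubtypeProd P (fun _ => Bool)).symm.sum_comp, Fintype.sum_prod_type]
  refine sum_congr rfl fun a _ => sum_congr rfl fun b _ => ?_
  rw [bw_split]

theorem bw_sum {E : Type} [Fintype E] [DecidableEq E] (p : ℝ) :
    ∑ x : E → Bool, bw p x = 1 := by
  have := bex_const (E := E) p 1
  unfold bex at this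
  simpa using this

/-- functions of complementary blocks are independent -/
theorem bex_block {E : Type} [Fintype E] [DecidableEq E] (p : ℝ) (P : E → Prop)
    (f g : (E → Bool) → ℝ)
    (hf : ∀ x y : E → Bool, (∀ e, P e → x e = y e) → f x = f y)
    (hg : ∀ x y : E → Bool, (∀ e, ¬ P e → x e = y e) → g x = g y) :
    bex p (fun x => f x * g x) = bex p f * bex p g := by
  set Q := Equiv.piEquivPiSubtypeProd P (fun _ => Bool) with hQ
  set a0 : {e // P e} → Bool := fun _ => false with ha0
  set b0 : {e // ¬ P e} → Bool := fun _ => false with hb0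
  have e1 : ∀ a b, f (Q.symm (a, b)) = f (Q.symm (a, b0)) := by
    intro a b
    refine hf _ _ fun e he => ?_
    simp [hQ, Equiv.piEquivPiSubtypeProd, he]
  have e2 : ∀ a b, g (Q.symm (a, b)) = g (Q.symm (a0, b)) := by
    intro a b
    refine hg _ _ fun e he => ?_
    simp [hQ, Equiv.piEquivPiSubtypeProd, he]
  have h1 : bex p f = ∑ a : {e // P e} → Bool, bw p a * f (Q.symm (a, b0)) := by
    rw [bex_split p P f]
    refine sum_congr rfl fun a _ => ?_
    have : ∀ b ∈ (univ : Finset ({e // ¬ P e} → Bool)), bw p a * bw p b * f (Q.symm (a, b))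
        = (bw p a * f (Q.symm (a, b0))) * bw p b := by
      intro b _; rw [e1]; ring
    rw [sum_congr rfl this, ← mul_sum, bw_sum, mul_one]
  have h2 : bex p g = ∑ b : {e // ¬ P e} → Bool, bw p b * g (Q.symm (a0, b)) := by
    rw [bex_split p P g, sum_comm]
    refine sum_congr rfl fun b _ => ?_
    have : ∀ a ∈ (univ : Finset ({e // P e} → Bool)), bw p a * bw p b * g (Q.symm (a, b))
        = (bw p b * g (Q.symm (a0, b))) * bw p a := by
      intro a _; rw [e2]; ring
    rw [sum_congr rfl this, ← mul_sum, bw_sum, mul_one]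
  rw [h1, h2, sum_mul_sum, bex_split p P]
  refine sum_congr rfl fun a _ => sum_congr rfl fun b _ => ?_
  rw [← hQ, e1 a b, e2 a b]
  ring

/-- functions of pairwise disjoint blocks are independent -/
theorem bex_prod_blocks {E ι : Type} [Fintype E] [DecidableEq E] (p : ℝ) (W : Finset ι)
    (B : ι → Set E) (H : ι → (E → Bool) → ℝ)
    (hdep : ∀ i ∈ W, ∀ x y : E → Bool, (∀ e ∈ B i, x e = y e) → H i x = H i y)
    (hdisj : ∀ i ∈ W, ∀ j ∈ W, i ≠ j → Disjoint (B i) (B j)) :
    bex p (fun x => ∏ i ∈ W, H i x) = ∏ i ∈ W, bex p (H i) := by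
  induction W using Finset.induction_on with
  | empty => simp only [prod_empty]; exact bex_const p 1
  | insert i W hi ih =>
    have h1 : (fun x : E → Bool => ∏ j ∈ insert i W, H j x)
        = fun x => H i x * ∏ j ∈ W, H j x := by
      funext x; rw [prod_insert hi]
    rw [h1, prod_insert hi, ← ih (fun j hj => hdep j (mem_insert_of_mem hj))
      (fun j hj k hk => hdisj j (mem_insert_of_mem hj) k (mem_insert_of_mem hk))]
    refine bex_block p (fun e => e ∈ B i) (H i) (fun x => ∏ j ∈ W, H j x)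
      (fun x y hxy => hdep i (mem_insert_self _ _) x y hxy) ?_
    intro x y hxy
    refine prod_congr rfl fun j hj => ?_
    refine hdep j (mem_insert_of_mem hj) x y fun e he => hxy e ?_
    have hd := hdisj i (mem_insert_self _ _) j (mem_insert_of_mem hj)
      (fun h => hi (h ▸ hj))
    exact fun h => Set.disjoint_left.1 hd h he

/-! ### non-adjacency to a set -/

section dom

variable {n : ℕ}

/-- `1` if `w` has no neighbour in `S`, otherwise `0` -/
noncomputable def NA (x : Edge n → Bool) (w : Fin n) (S : Finset (Fin n)) : ℝ :=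
  if ∃ s ∈ S, (ofBool x).Adj w s then 0 else 1

theorem NA_nonneg (x : Edge n → Bool) (w : Fin n) (S : Finset (Fin n)) : 0 ≤ NA x w S := by
  unfold NA; split_ifs <;> norm_num

theorem NA_le_one (x : Edge n → Bool) (w : Fin n) (S : Finset (Fin n)) : NA x w S ≤ 1 := by
  unfold NA; split_ifs <;> norm_num

theorem NA_union (x : Edge n → Bool) (w : Fin n) (S T : Finset (Fin n)) :
    NA x w (S ∪ T) = NA x w S * NA x w T := by
  unfold NA
  by_cases h1 : ∃ s ∈ S, (ofBool x).Adj w s
  · rw [if_pos h1, if_pos, zero_mul]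
    obtain ⟨s, hs, h⟩ := h1
    exact ⟨s, mem_union_left _ hs, h⟩
  · by_cases h2 : ∃ s ∈ T, (ofBool x).Adj w s
    · rw [if_pos h2, if_pos, mul_zero]
      obtain ⟨s, hs, h⟩ := h2
      exact ⟨s, mem_union_right _ hs, h⟩
    · rw [if_neg h1, if_neg h2, if_neg, mul_one]
      rintro ⟨s, hs, h⟩
      rcases mem_union.1 hs with h' | h'
      · exact h1 ⟨s, h', h⟩
      · exact h2 ⟨s, h', h⟩

/-- edges from `w` to `S` -/
def edgesTo (w : Fin n) (S : Finset (Fin n)) : Set (Edge n) := {e | ∃ s ∈ S, e.1 = s(w, s)}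

theorem adj_ofBool (x : Edge n → Bool) (w s : Fin n) :
    (ofBool x).Adj w s ↔ ∃ h : ¬ (s(w, s) : Sym2 (Fin n)).IsDiag, x ⟨s(w, s), h⟩ = true :=
  Iff.rfl

theorem NA_dep (w : Fin n) (S : Finset (Fin n)) (x y : Edge n → Bool)
    (h : ∀ e ∈ edgesTo w S, x e = y e) : NA x w S = NA y w S := by
  have h1 : (∃ s ∈ S, (ofBool x).Adj w s) ↔ ∃ s ∈ S, (ofBool y).Adj w s := by
    refine exists_congr fun s => and_congr_right fun hs => ?_
    rw [adj_ofBool, adj_ofBool]
    refine exists_congr fun hd => ?_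
    rw [h ⟨s(w, s), hd⟩ ⟨s, hs, rfl⟩]
  unfold NA
  by_cases h2 : ∃ s ∈ S, (ofBool x).Adj w s
  · rw [if_pos h2, if_pos (h1.1 h2)]
  · rw [if_neg h2, if_neg fun h3 => h2 (h1.2 h3)]

theorem NA_prod (x : Edge n → Bool) (w : Fin n) (S : Finset (Fin n)) :
    NA x w S = ∏ e : Edge n, (if e ∈ edgesTo w S then (if x e = true then (0 : ℝ) else 1)
      else 1) := by
  unfold NA
  by_cases h : ∃ s ∈ S, (ofBool x).Adj w s
  · rw [if_pos h]
    obtain ⟨s, hs, hd, hx⟩ := h
    symm
    refine prod_eq_zero (mem_univ ⟨s(w, s), hd⟩) ?_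
    rw [if_pos ⟨s, hs, rfl⟩, if_pos hx]
  · rw [if_neg h]
    symm
    refine prod_eq_one fun e _ => ?_
    by_cases he : e ∈ edgesTo w S
    · rw [if_pos he, if_neg]
      intro hx
      obtain ⟨s, hs, hes⟩ := he
      apply h
      refine ⟨s, hs, ?_⟩
      rw [adj_ofBool]
      have hd : ¬ (s(w, s) : Sym2 (Fin n)).IsDiag := hes ▸ e.2
      refine ⟨hd, ?_⟩
      have : (⟨s(w, s), hd⟩ : Edge n) = e := Subtype.ext hes.symm
      rw [this]
      exact hx
    · rw [if_neg he]

theorem card_edgesTo (w : Fin n) (S : Finset (Fin n)) (hw : w ∉ S) :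
    (univ.filter fun e : Edge n => e ∈ edgesTo w S).card = S.card := by
  symm
  refine card_bij (fun s hs => ⟨s(w, s), ?_⟩) ?_ ?_ ?_
  · intro hd
    rw [Sym2.mk_isDiag_iff] at hd
    exact hw (hd ▸ hs)
  · intro s hs
    rw [mem_filter]
    exact ⟨mem_univ _, s, hs, rfl⟩
  · intro s hs s' hs' h
    have := congrArg Subtype.val h
    simp only at this
    rw [Sym2.eq_iff] at this
    rcases this with ⟨_, h⟩ | ⟨h1, h2⟩
    · exact h
    · rw [← h1] at hs'
      exact absurd hs' hw
  · intro e he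
    rw [mem_filter] at he
    obtain ⟨-, s, hs, h⟩ := he
    exact ⟨s, hs, Subtype.ext h.symm⟩

theorem bex_NA (p : ℝ) (w : Fin n) (S : Finset (Fin n)) (hw : w ∉ S) :
    bex p (fun x => NA x w S) = (1 - p) ^ S.card := by
  have h : (fun x : Edge n → Bool => NA x w S) = fun x => ∏ e : Edge n,
      (fun (e : Edge n) (b : Bool) => if e ∈ edgesTo w S then (if b = true then (0 : ℝ) else 1)
        else 1) e (x e) := by
    funext x
    exact NA_prod x w S
  rw [h, bex_prod p (fun (e : Edge n) (b : Bool) => if e ∈ edgesTo w S then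
    (if b = true then (0 : ℝ) else 1) else 1)]
  simp only [if_true, Bool.false_eq_true, if_false]
  have h2 : ∀ e : Edge n, (p * (if e ∈ edgesTo w S then (0 : ℝ) else 1) +
      (1 - p) * (if e ∈ edgesTo w S then (1 : ℝ) else 1))
      = if e ∈ edgesTo w S then 1 - p else 1 := by
    intro e; split_ifs <;> ring
  rw [prod_congr rfl fun e _ => h2 e, Finset.prod_ite, prod_const, prod_const_one, mul_one,
    card_edgesTo w S hw]

theorem edgesTo_disj (U : Finset (Fin n)) (w w' : Fin n) (hw : w ∉ U) (hne : w ≠ w') :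
    Disjoint (edgesTo w U) (edgesTo w' U) := by
  rw [Set.disjoint_left]
  rintro e ⟨s, hs, h⟩ ⟨s', hs', h'⟩
  rw [h, Sym2.eq_iff] at h'
  rcases h' with ⟨h1, _⟩ | ⟨h1, _⟩
  · exact hne h1
  · exact hw (h1 ▸ hs')

end dom

end Pool.Agent.R980
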