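import Mathlib
import Pool.Agent.R980.Indep

/-!
# Dominating sets in the binomial random graph: first and second moments
-/

set_option autoImplicit false

namespace Pool.Agent.R980

open Finset
open scoped Classical

/-- `D` is a dominating set of `G`: every vertex outside `D` has a neighbour in `D`. -/
def Dominating {V : Type} (G : SimpleGraph V) (D : Finset V) : Prop :=
  ∀ w, w ∉ D → ∃ s ∈ D, G.Adj w s

theorem Dominating.mono {V : Type} {G : SimpleGraph V} {D D' : Finset V} (h : Dominating G D)
    (hD : D ⊆ D') : Dominating G D' := by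
  intro w hw
  obtain ⟨s, hs, ha⟩ := h w fun h' => hw (hD h')
  exact ⟨s, hD hs, ha⟩

/-- indicator of a proposition -/
noncomputable def ind (P : Prop) : ℝ := if P then 1 else 0

theorem ind_pos {P : Prop} (h : P) : ind P = 1 := if_pos h

theorem ind_neg {P : Prop} (h : ¬ P) : ind P = 0 := if_neg h

theorem gnp_eq_ind (n : ℕ) (p : ℝ) (A : SimpleGraph (Fin n) → Prop) :
    gnp n p A = bex p (fun x : Edge n → Bool => ind (A (ofBool x))) := by
  rw [gnp_eq_bex]
  rfl

section one

variable {n : ℕ} {p : ℝ}

theorem dom_ind (x : Edge n → Bool) (S : Finset (Fin n)) :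
    ind (Dominating (ofBool x) S) = ∏ w ∈ Sᶜ, (1 - NA x w S) := by
  by_cases h : Dominating (ofBool x) S
  · rw [ind_pos h]
    symm
    refine prod_eq_one fun w hw => ?_
    rw [mem_compl] at hw
    unfold NA
    rw [if_pos (h w hw), sub_zero]
  · rw [ind_neg h]
    unfold Dominating at h
    push Not at h
    obtain ⟨w, hw, h⟩ := h
    symm
    refine prod_eq_zero (mem_compl.2 hw) ?_
    unfold NA
    rw [if_neg, sub_self]
    push Not
    exact h

theorem bex_sub {E : Type} [Fintype E] [DecidableEq E] (p : ℝ) (f g : (E → Bool) → ℝ) :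
    bex p (fun x => f x - g x) = bex p f - bex p g := by
  unfold bex; rw [← sum_sub_distrib]; exact sum_congr rfl fun x _ => by ring

/-- the probability that a given set is dominating -/
theorem gnp_dom (p : ℝ) (S : Finset (Fin n)) :
    gnp n p (fun G => Dominating G S) = (1 - (1 - p) ^ S.card) ^ (n - S.card) := by
  rw [gnp_eq_ind]
  have h : (fun x : Edge n → Bool => ind (Dominating (ofBool x) S))
      = fun x => ∏ w ∈ Sᶜ, (fun (w : Fin n) (x : Edge n → Bool) => 1 - NA x w S) w x := by
    funext x; exact dom_ind x S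
  rw [h, bex_prod_blocks p Sᶜ (fun w => edgesTo w S)]
  · have h2 : ∀ w ∈ Sᶜ, bex p (fun x : Edge n → Bool => 1 - NA x w S) = 1 - (1 - p) ^ S.card := by
      intro w hw
      rw [mem_compl] at hw
      rw [bex_sub, bex_const, bex_NA p w S hw]
    rw [prod_congr rfl h2, prod_const, card_compl, Fintype.card_fin]
  · intro w _ x y hxy
    rw [NA_dep w S x y hxy]
  · intro w hw w' _ hne
    exact edgesTo_disj S w w' (mem_compl.1 hw) hne

/-- the probability that two given sets are both dominating -/
theorem gnp_dom_two (h0 : 0 ≤ p) (h1 : p ≤ 1) (S T : Finset (Fin n)) :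
    gnp n p (fun G => Dominating G S ∧ Dominating G T) ≤
      (1 - (1 - p) ^ S.card - (1 - p) ^ T.card + (1 - p) ^ (S ∪ T).card) ^
        (n - (S ∪ T).card) := by
  rw [gnp_eq_ind]
  have hle : bex p (fun x : Edge n → Bool =>
      ind (Dominating (ofBool x) S ∧ Dominating (ofBool x) T))
      ≤ bex p (fun x => ∏ w ∈ (S ∪ T)ᶜ,
        (fun (w : Fin n) (x : Edge n → Bool) => (1 - NA x w S) * (1 - NA x w T)) w x) := by
    refine bex_mono h0 h1 fun x => ?_
    by_cases h : Dominating (ofBool x) S ∧ Dominating (ofBool x) T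
    · rw [ind_pos h]
      refine le_of_eq (Eq.symm (prod_eq_one fun w hw => ?_))
      rw [mem_compl, mem_union, not_or] at hw
      unfold NA
      beta_reduce
      rw [if_pos (h.1 w hw.1), if_pos (h.2 w hw.2)]
      norm_num
    · rw [ind_neg h]
      refine prod_nonneg fun w _ => mul_nonneg ?_ ?_
      · linarith [NA_le_one x w S]
      · linarith [NA_le_one x w T]
  refine hle.trans_eq ?_
  rw [bex_prod_blocks p (S ∪ T)ᶜ (fun w => edgesTo w (S ∪ T))]
  · have h2 : ∀ w ∈ (S ∪ T)ᶜ, bex p (fun x : Edge n → Bool => (1 - NA x w S) * (1 - NA x w T))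
        = 1 - (1 - p) ^ S.card - (1 - p) ^ T.card + (1 - p) ^ (S ∪ T).card := by
      intro w hw
      have hw' := mem_compl.1 hw
      rw [mem_union, not_or] at hw'
      have h3 : (fun x : Edge n → Bool => (1 - NA x w S) * (1 - NA x w T))
          = fun x => ((1 - NA x w S) - NA x w T) + NA x w (S ∪ T) := by
        funext x; rw [NA_union]; ring
      rw [h3, bex_add, bex_sub, bex_sub, bex_const, bex_NA p w S hw'.1, bex_NA p w T hw'.2,
        bex_NA p w (S ∪ T) (mem_compl.1 hw)]
    rw [prod_congr rfl h2, prod_const, card_compl, Fintype.card_fin]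
  · intro w _ x y hxy
    beta_reduce
    rw [NA_dep w S x y fun e he => hxy e ?_, NA_dep w T x y fun e he => hxy e ?_]
    · obtain ⟨s, hs, h⟩ := he
      exact ⟨s, mem_union_right _ hs, h⟩
    · obtain ⟨s, hs, h⟩ := he
      exact ⟨s, mem_union_left _ hs, h⟩
  · intro w hw w' _ hne
    exact edgesTo_disj _ w w' (mem_compl.1 hw) hne

/-- dominating sets of size `t` -/
noncomputable def fam (G : SimpleGraph (Fin n)) (t : ℕ) : Finset (Finset (Fin n)) :=
  (powersetCard t (univ : Finset (Fin n))).filter fun S => Dominating G S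

theorem mem_fam (G : SimpleGraph (Fin n)) (t : ℕ) (S : Finset (Fin n)) :
    S ∈ fam G t ↔ S.card = t ∧ Dominating G S := by
  unfold fam
  rw [mem_filter, mem_powersetCard_univ]

theorem bex_sum {E ι : Type} [Fintype E] [DecidableEq E] (p : ℝ) (s : Finset ι)
    (f : ι → (E → Bool) → ℝ) :
    bex p (fun x => ∑ i ∈ s, f i x) = ∑ i ∈ s, bex p (f i) := by
  unfold bex
  rw [sum_comm]
  exact sum_congr rfl fun x _ => by rw [mul_sum]

/-- the expected number of dominating sets of size `t` -/
theorem bex_card_fam (p : ℝ) (t : ℕ) :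
    bex p (fun x : Edge n → Bool => ((fam (ofBool x) t).card : ℝ))
      = (n.choose t : ℝ) * (1 - (1 - p) ^ t) ^ (n - t) := by
  have h : (fun x : Edge n → Bool => ((fam (ofBool x) t).card : ℝ))
      = fun x => ∑ S ∈ powersetCard t (univ : Finset (Fin n)),
        (fun (S : Finset (Fin n)) (x : Edge n → Bool) =>
          ind (Dominating (ofBool x) S)) S x := by
    funext x
    unfold fam ind
    rw [← sum_filter]
    simp
  rw [h, bex_sum]
  have h2 : ∀ S ∈ powersetCard t (univ : Finset (Fin n)),
      bex p (fun x : Edge n → Bool => ind (Dominating (ofBool x) S))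
        = (1 - (1 - p) ^ t) ^ (n - t) := by
    intro S hS
    rw [mem_powersetCard_univ] at hS
    rw [← gnp_eq_ind n p (fun G => Dominating G S), gnp_dom, hS]
  rw [sum_congr rfl h2, sum_const, card_powersetCard, card_univ, Fintype.card_fin, nsmul_eq_mul]

/-- expectation of a sum over pairs of dominating sets -/
theorem bex_pairs (h0 : 0 ≤ p) (h1 : p ≤ 1) (t : ℕ) (φ : ℕ → ℝ) (hφ : ∀ l, 0 ≤ φ l) :
    bex p (fun x : Edge n → Bool => ∑ S ∈ fam (ofBool x) t, ∑ T ∈ fam (ofBool x) t,
        φ (S ∩ T).card)
      ≤ ∑ S ∈ powersetCard t (univ : Finset (Fin n)), ∑ T ∈ powersetCard t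
          (univ : Finset (Fin n)), φ (S ∩ T).card *
        (1 - 2 * (1 - p) ^ t + (1 - p) ^ (2 * t - (S ∩ T).card)) ^
          (n - (2 * t - (S ∩ T).card)) := by
  have h : (fun x : Edge n → Bool => ∑ S ∈ fam (ofBool x) t, ∑ T ∈ fam (ofBool x) t,
        φ (S ∩ T).card)
      = fun x => ∑ S ∈ powersetCard t (univ : Finset (Fin n)),
        (fun (S : Finset (Fin n)) (x : Edge n → Bool) =>
          ∑ T ∈ powersetCard t (univ : Finset (Fin n)), φ (S ∩ T).card *
          ind (Dominating (ofBool x) S ∧ Dominating (ofBool x) T)) S x := by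
    funext x
    unfold fam
    rw [sum_filter]
    refine sum_congr rfl fun S _ => ?_
    by_cases hS : Dominating (ofBool x) S
    · rw [if_pos hS, sum_filter]
      refine sum_congr rfl fun T _ => ?_
      by_cases hT : Dominating (ofBool x) T
      · rw [if_pos hT, ind_pos ⟨hS, hT⟩, mul_one]
      · rw [if_neg hT, ind_neg (fun h => hT h.2), mul_zero]
    · rw [if_neg hS]
      symm
      refine sum_eq_zero fun T _ => ?_
      rw [ind_neg (fun h => hS h.1), mul_zero]
  rw [h, bex_sum]
  refine sum_le_sum fun S hS => ?_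
  rw [bex_sum p (powersetCard t (univ : Finset (Fin n)))
    (fun (T : Finset (Fin n)) (x : Edge n → Bool) => φ (S ∩ T).card *
          ind (Dominating (ofBool x) S ∧ Dominating (ofBool x) T))]
  refine sum_le_sum fun T hT => ?_
  rw [mem_powersetCard_univ] at hS hT
  rw [bex_mul, ← gnp_eq_ind n p (fun G => Dominating G S ∧ Dominating G T)]
  refine mul_le_mul_of_nonneg_left ?_ (hφ _)
  have h2 := gnp_dom_two h0 h1 S T
  have h3 : (S ∪ T).card = 2 * t - (S ∩ T).card := by
    have := card_union_add_card_inter S T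
    omega
  rw [h3, hS, hT] at h2
  refine h2.trans_eq ?_
  congr 1
  ring

/-- the number of `t`-sets containing a given `l`-set -/
theorem card_super (t : ℕ) (L : Finset (Fin n)) :
    ((powersetCard t (univ : Finset (Fin n))).filter fun T => L ⊆ T).card
      ≤ (n - L.card).choose (t - L.card) := by
  have h1 : (powersetCard (t - L.card) Lᶜ).card = (n - L.card).choose (t - L.card) := by
    rw [card_powersetCard, card_compl, Fintype.card_fin]
  rw [← h1]
  refine card_le_card_of_injOn (fun T => T \ L) ?_ ?_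
  · intro T hT
    rw [mem_coe, mem_filter, mem_powersetCard_univ] at hT
    rw [mem_coe, mem_powersetCard]
    refine ⟨?_, ?_⟩
    · intro v hv
      rw [mem_sdiff] at hv
      exact mem_compl.2 hv.2
    · rw [card_sdiff_of_subset hT.2, hT.1]
  · intro T hT T' hT' h
    rw [mem_coe, mem_filter] at hT hT'
    simp only at h
    rw [← sdiff_union_of_subset hT.2, ← sdiff_union_of_subset hT'.2, h]

theorem card_inter_eq (t l : ℕ) (S : Finset (Fin n)) (hS : S.card = t) :
    ((powersetCard t (univ : Finset (Fin n))).filter fun T => (S ∩ T).card = l).card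
      ≤ t.choose l * (n - l).choose (t - l) := by
  have h1 : ((powersetCard t (univ : Finset (Fin n))).filter fun T => (S ∩ T).card = l)
      ⊆ (powersetCard l S).biUnion fun L =>
        (powersetCard t (univ : Finset (Fin n))).filter fun T => L ⊆ T := by
    intro T hT
    rw [mem_filter] at hT
    rw [mem_biUnion]
    refine ⟨S ∩ T, ?_, ?_⟩
    · rw [mem_powersetCard]
      exact ⟨inter_subset_left, hT.2⟩
    · rw [mem_filter]
      exact ⟨hT.1, inter_subset_right⟩
  refine (card_le_card h1).trans (card_biUnion_le.trans ?_)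
  have h2 : ∀ L ∈ powersetCard l S,
      ((powersetCard t (univ : Finset (Fin n))).filter fun T => L ⊆ T).card
        ≤ (n - l).choose (t - l) := by
    intro L hL
    rw [mem_powersetCard] at hL
    have := card_super t L
    rw [hL.2] at this
    exact this
  refine (sum_le_card_nsmul _ _ _ h2).trans_eq ?_
  rw [card_powersetCard, hS, smul_eq_mul]

/-- `C(n-l,t-l) ≤ C(n,t) (t/n)^l` -/
theorem choose_ratio (n t l : ℕ) (hl : l ≤ t) (ht : t ≤ n) (hn : 0 < n) :
    ((n - l).choose (t - l) : ℝ) ≤ (n.choose t : ℝ) * ((t : ℝ) / n) ^ l := by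
  induction l with
  | zero => simp
  | succ l ih =>
    have h1 := ih (by omega)
    -- (n-l) C(n-l-1,t-l-1) = (t-l) C(n-l,t-l)
    have h2 : (n - l) * (n - (l + 1)).choose (t - (l + 1)) = (n - l).choose (t - l) * (t - l) := by
      have := Nat.add_one_mul_choose_eq (n - (l + 1)) (t - (l + 1))
      have e1 : n - (l + 1) + 1 = n - l := by omega
      have e2 : t - (l + 1) + 1 = t - l := by omega
      rw [e1, e2] at this
      exact this
    have h3 : ((n : ℝ) - l) * ((n - (l + 1)).choose (t - (l + 1)) : ℝ)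
        = ((n - l).choose (t - l) : ℝ) * ((t : ℝ) - l) := by
      have := congrArg (Nat.cast (R := ℝ)) h2
      push_cast at this
      rw [Nat.cast_sub (by omega : l ≤ n), Nat.cast_sub (by omega : l ≤ t)] at this
      exact this
    have hln : (l : ℝ) < (n : ℝ) := by
      have : l < n := by omega
      exact_mod_cast this
    have hlt : (l : ℝ) + 1 ≤ (t : ℝ) := by exact_mod_cast hl
    have htn : (t : ℝ) ≤ (n : ℝ) := by exact_mod_cast ht
    have hn0 : (0 : ℝ) < (n : ℝ) := by exact_mod_cast hn
    have h4 : ((n - (l + 1)).choose (t - (l + 1)) : ℝ)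
        ≤ ((n - l).choose (t - l) : ℝ) * ((t : ℝ) / n) := by
      have h5 : ((n - (l + 1)).choose (t - (l + 1)) : ℝ)
          = ((n - l).choose (t - l) : ℝ) * ((t : ℝ) - l) / ((n : ℝ) - l) := by
        rw [← h3]
        field_simp [(sub_pos.2 hln).ne']
      rw [h5, mul_div_assoc]
      refine mul_le_mul_of_nonneg_left ?_ (Nat.cast_nonneg _)
      rw [div_le_div_iff₀ (sub_pos.2 hln) hn0]
      have hl0 : (0 : ℝ) ≤ (l : ℝ) := Nat.cast_nonneg _
      nlinarith
    refine h4.trans ?_
    rw [pow_succ, ← mul_assoc]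
    exact mul_le_mul_of_nonneg_right h1 (by positivity)

/-- regrouping the pair sum by intersection size -/
theorem sum_pairs_le (t : ℕ) (ht : t ≤ n) (hn : 0 < n) (ψ : ℕ → ℝ) (hψ : ∀ l, 0 ≤ ψ l) :
    ∑ S ∈ powersetCard t (univ : Finset (Fin n)), ∑ T ∈ powersetCard t (univ : Finset (Fin n)),
        ψ (S ∩ T).card
      ≤ (n.choose t : ℝ) ^ 2 * ∑ l ∈ range (t + 1), ((t : ℝ) ^ 2 / n) ^ l * ψ l := by
  have hS : ∀ S ∈ powersetCard t (univ : Finset (Fin n)),
      ∑ T ∈ powersetCard t (univ : Finset (Fin n)), ψ (S ∩ T).card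
        ≤ (n.choose t : ℝ) * ∑ l ∈ range (t + 1), ((t : ℝ) ^ 2 / n) ^ l * ψ l := by
    intro S hS
    rw [mem_powersetCard_univ] at hS
    rw [← sum_fiberwise_of_maps_to (s := powersetCard t (univ : Finset (Fin n)))
      (t := range (t + 1)) (g := fun T => (S ∩ T).card)]
    · rw [mul_sum]
      refine sum_le_sum fun l hl => ?_
      rw [mem_range] at hl
      have h1 : ∀ T ∈ (powersetCard t (univ : Finset (Fin n))).filter
          (fun T => (S ∩ T).card = l), ψ (S ∩ T).card = ψ l := by
        intro T hT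
        rw [mem_filter] at hT
        rw [hT.2]
      rw [sum_congr rfl h1, sum_const, nsmul_eq_mul, ← mul_assoc]
      refine mul_le_mul_of_nonneg_right ?_ (hψ l)
      have h2 : ((((powersetCard t (univ : Finset (Fin n))).filter
          (fun T => (S ∩ T).card = l)).card : ℕ) : ℝ)
          ≤ ((t.choose l * (n - l).choose (t - l) : ℕ) : ℝ) :=
        Nat.cast_le.2 (card_inter_eq t l S hS)
      refine h2.trans ?_
      push_cast
      have h3 := choose_ratio n t l (by omega) ht hn
      have h4 : (t.choose l : ℝ) ≤ (t : ℝ) ^ l := by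
        have := Nat.choose_le_pow t l
        exact_mod_cast this
      calc (t.choose l : ℝ) * ((n - l).choose (t - l) : ℝ)
          ≤ (t : ℝ) ^ l * ((n.choose t : ℝ) * ((t : ℝ) / n) ^ l) :=
            mul_le_mul h4 h3 (Nat.cast_nonneg _) (by positivity)
        _ = (n.choose t : ℝ) * ((t : ℝ) ^ 2 / n) ^ l := by
            rw [div_pow, div_pow, ← pow_mul, mul_comm 2 l, pow_mul]
            rw [sq]
            ring
    · intro T hT
      rw [mem_range]
      have h1 := card_le_card (inter_subset_left (s₁ := S) (s₂ := T))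
      omega
  refine (sum_le_card_nsmul _ _ _ hS).trans_eq ?_
  rw [card_powersetCard, card_univ, Fintype.card_fin, nsmul_eq_mul]
  ring

end one

end Pool.Agent.R980
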