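import Mathlib
import Pool.Agent.R980.DomProb

/-!
# Locally dependent random graphs
-/

set_option autoImplicit false

namespace Pool.Agent.R980

open Finset
open scoped Classical

/-- A probability distribution on the graphs with vertex set `Fin n`. -/
structure GraphDist (n : ℕ) where
  /-- the probability of a graph -/
  w : SimpleGraph (Fin n) → ℝ
  nonneg : ∀ G, 0 ≤ w G
  sum_one : ∑ G, w G = 1

namespace GraphDist

variable {n : ℕ}

/-- the probability of an event -/
noncomputable def prob (μ : GraphDist n) (A : SimpleGraph (Fin n) → Prop) : ℝ :=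
  ∑ G, if A G then μ.w G else 0

/-- the expectation of a random variable -/
noncomputable def ex (μ : GraphDist n) (f : SimpleGraph (Fin n) → ℝ) : ℝ := ∑ G, μ.w G * f G

theorem prob_eq (μ : GraphDist n) (A : SimpleGraph (Fin n) → Prop) :
    μ.prob A = μ.ex fun G => ind (A G) := by
  unfold prob ex
  refine sum_congr rfl fun G _ => ?_
  beta_reduce
  by_cases h : A G
  · rw [if_pos h, ind_pos h, mul_one]
  · rw [if_neg h, ind_neg h, mul_zero]

theorem ex_mono (μ : GraphDist n) {f g : SimpleGraph (Fin n) → ℝ} (h : ∀ G, f G ≤ g G) :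
    μ.ex f ≤ μ.ex g :=
  sum_le_sum fun G _ => mul_le_mul_of_nonneg_left (h G) (μ.nonneg G)

theorem ex_const (μ : GraphDist n) (c : ℝ) : μ.ex (fun _ => c) = c := by
  unfold ex; rw [← sum_mul, μ.sum_one, one_mul]

theorem ex_add (μ : GraphDist n) (f g : SimpleGraph (Fin n) → ℝ) :
    μ.ex (fun G => f G + g G) = μ.ex f + μ.ex g := by
  unfold ex; rw [← sum_add_distrib]; exact sum_congr rfl fun G _ => by ring

theorem ex_sub (μ : GraphDist n) (f g : SimpleGraph (Fin n) → ℝ) :
    μ.ex (fun G => f G - g G) = μ.ex f - μ.ex g := by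
  unfold ex; rw [← sum_sub_distrib]; exact sum_congr rfl fun G _ => by ring

theorem ex_mul (μ : GraphDist n) (c : ℝ) (f : SimpleGraph (Fin n) → ℝ) :
    μ.ex (fun G => c * f G) = c * μ.ex f := by
  unfold ex; rw [mul_sum]; exact sum_congr rfl fun G _ => by ring

theorem ex_sum {ι : Type} (μ : GraphDist n) (s : Finset ι) (f : ι → SimpleGraph (Fin n) → ℝ) :
    μ.ex (fun G => ∑ i ∈ s, f i G) = ∑ i ∈ s, μ.ex (f i) := by
  unfold ex
  rw [sum_comm]
  exact sum_congr rfl fun G _ => by rw [mul_sum]

theorem ind_nonneg (P : Prop) : 0 ≤ ind P := by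
  by_cases h : P
  · rw [ind_pos h]; norm_num
  · rw [ind_neg h]

theorem ind_le_one (P : Prop) : ind P ≤ 1 := by
  by_cases h : P
  · rw [ind_pos h]
  · rw [ind_neg h]; norm_num

theorem prob_nonneg (μ : GraphDist n) (A : SimpleGraph (Fin n) → Prop) : 0 ≤ μ.prob A := by
  rw [prob_eq]
  exact sum_nonneg fun G _ => mul_nonneg (μ.nonneg G) (ind_nonneg _)

theorem prob_le_one (μ : GraphDist n) (A : SimpleGraph (Fin n) → Prop) : μ.prob A ≤ 1 := by
  rw [prob_eq]
  exact (μ.ex_mono fun G => ind_le_one _).trans_eq (μ.ex_const 1)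

theorem prob_mono (μ : GraphDist n) {A B : SimpleGraph (Fin n) → Prop} (h : ∀ G, A G → B G) :
    μ.prob A ≤ μ.prob B := by
  rw [prob_eq, prob_eq]
  refine μ.ex_mono fun G => ?_
  by_cases hA : A G
  · rw [ind_pos hA, ind_pos (h G hA)]
  · rw [ind_neg hA]; exact ind_nonneg _

theorem prob_add_not (μ : GraphDist n) (A : SimpleGraph (Fin n) → Prop) :
    μ.prob A + μ.prob (fun G => ¬ A G) = 1 := by
  rw [prob_eq, prob_eq, ← ex_add, ← μ.ex_const 1]
  congr 1
  funext G
  by_cases hA : A G
  · rw [ind_pos hA, ind_neg (not_not.2 hA), add_zero]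
  · rw [ind_neg hA, ind_pos hA, zero_add]

theorem prob_or_le (μ : GraphDist n) (A B : SimpleGraph (Fin n) → Prop) :
    μ.prob (fun G => A G ∨ B G) ≤ μ.prob A + μ.prob B := by
  rw [prob_eq, prob_eq, prob_eq, ← ex_add]
  refine μ.ex_mono fun G => ?_
  by_cases hA : A G
  · rw [ind_pos hA, ind_pos (Or.inl hA)]
    linarith [ind_nonneg (B G)]
  · by_cases hB : B G
    · rw [ind_pos hB, ind_pos (Or.inr hB)]
      linarith [ind_nonneg (A G)]
    · rw [ind_neg (not_or.2 ⟨hA, hB⟩)]
      linarith [ind_nonneg (A G), ind_nonneg (B G)]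

theorem prob_exists_le {ι : Type} (μ : GraphDist n) (s : Finset ι)
    (A : ι → SimpleGraph (Fin n) → Prop) :
    μ.prob (fun G => ∃ i ∈ s, A i G) ≤ ∑ i ∈ s, μ.prob (A i) := by
  simp only [prob_eq]
  rw [← ex_sum μ s (fun i G => ind (A i G))]
  refine μ.ex_mono fun G => ?_
  by_cases h : ∃ i ∈ s, A i G
  · rw [ind_pos h]
    obtain ⟨i, hi, hA⟩ := h
    refine le_trans ?_ (single_le_sum (f := fun i => ind (A i G)) (fun i _ => ind_nonneg _) hi)
    rw [ind_pos hA]
  · rw [ind_neg h]
    exact sum_nonneg fun i _ => ind_nonneg _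

theorem markov (μ : GraphDist n) (A : SimpleGraph (Fin n) → Prop)
    (f : SimpleGraph (Fin n) → ℝ) (hf : ∀ G, 0 ≤ f G) (a : ℝ) (ha : 0 < a)
    (h : ∀ G, A G → a ≤ f G) : μ.prob A ≤ μ.ex f / a := by
  rw [prob_eq, le_div_iff₀ ha, mul_comm, ← ex_mul]
  refine μ.ex_mono fun G => ?_
  by_cases hA : A G
  · rw [ind_pos hA, mul_one]; exact h G hA
  · rw [ind_neg hA, mul_zero]; exact hf G

end GraphDist

/-- the edge `e` is present in `G` -/
def present {n : ℕ} (e : Edge n) (G : SimpleGraph (Fin n)) : Prop := e.1 ∈ G.edgeSet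

/-- `μ` is (the law of) a `d`-dependent random graph with edge probability `p`: every edge is
present with probability exactly `p`, and there is a dependency graph `D` on the set of pairs, of
maximum degree at most `d`, such that for every pair `e` the indicator of `e` is independent of the
family of the indicators of all pairs `f ≠ e` not adjacent to `e` in `D` (i.e. of every event `T`
which is determined by this family). -/
def IsDependent {n : ℕ} (μ : GraphDist n) (p : ℝ) (d : ℕ) : Prop :=
  (∀ e : Edge n, μ.prob (present e) = p) ∧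
  ∃ D : SimpleGraph (Edge n), (∀ e : Edge n, (univ.filter fun f => D.Adj e f).card ≤ d) ∧
    ∀ (e : Edge n) (T : SimpleGraph (Fin n) → Prop),
      (∀ G H : SimpleGraph (Fin n),
        (∀ f : Edge n, f ≠ e → ¬ D.Adj e f → (present f G ↔ present f H)) → (T G ↔ T H)) →
      μ.prob (fun G => present e G ∧ T G) = μ.prob (present e) * μ.prob T

theorem IsDependent.mono {n : ℕ} {μ : GraphDist n} {p : ℝ} {d d' : ℕ} (h : IsDependent μ p d)
    (hd : d ≤ d') : IsDependent μ p d' := by
  obtain ⟨h1, D, h2, h3⟩ := h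
  exact ⟨h1, D, fun e => (h2 e).trans hd, h3⟩

section edges

variable {n : ℕ}

/-- number of edges -/
noncomputable def numEdges (G : SimpleGraph (Fin n)) : ℕ := G.edgeSet.ncard

theorem numEdges_eq (G : SimpleGraph (Fin n)) :
    (numEdges G : ℝ) = ∑ e : Edge n, ind (present e G) := by
  obtain ⟨x, rfl⟩ := (boolEquiv n).surjective G
  change (((ofBool x).edgeSet.ncard : ℕ) : ℝ) = ∑ e : Edge n, ind (e.1 ∈ (ofBool x).edgeSet)
  rw [ncard_ofBool, card_filter]
  push_cast
  refine sum_congr rfl fun e _ => ?_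
  by_cases h : x e = true
  · rw [if_pos h, ind_pos ((mem_ofBool x e).2 h)]
  · rw [if_neg h, ind_neg fun h' => h ((mem_ofBool x e).1 h')]

theorem ex_numEdges {μ : GraphDist n} {p : ℝ} {d : ℕ} (h : IsDependent μ p d) :
    μ.ex (fun G => (numEdges G : ℝ)) = (n.choose 2 : ℝ) * p := by
  simp only [numEdges_eq]
  rw [GraphDist.ex_sum μ univ (fun e G => ind (present e G))]
  have : ∀ e ∈ (univ : Finset (Edge n)), μ.ex (fun G => ind (present e G)) = p := by
    intro e _
    rw [← GraphDist.prob_eq]
    exact h.1 e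
  rw [sum_congr rfl this, sum_const, card_univ, card_Edge, nsmul_eq_mul]

theorem prob_pair_le {μ : GraphDist n} {p : ℝ} {d : ℕ} (h : IsDependent μ p d) (e f : Edge n) :
    μ.prob (fun G => present e G ∧ present f G) ≤ p := by
  rw [← h.1 e]
  exact μ.prob_mono fun G hG => hG.1

theorem card_dep {D : SimpleGraph (Edge n)} {d : ℕ}
    (hD : ∀ e : Edge n, (univ.filter fun f => D.Adj e f).card ≤ d) (e : Edge n) :
    (univ.filter fun f => f = e ∨ D.Adj e f).card ≤ d + 1 := by
  have h1 : (univ.filter fun f => f = e ∨ D.Adj e f) ⊆ insert e (univ.filter fun f => D.Adj e f) := by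
    intro f hf
    rw [mem_filter] at hf
    rw [mem_insert, mem_filter]
    rcases hf.2 with h | h
    · exact Or.inl h
    · exact Or.inr ⟨mem_univ _, h⟩
  exact (card_le_card h1).trans ((card_insert_le _ _).trans (Nat.add_le_add_right (hD e) 1))

/-- the number of edges is concentrated -/
theorem few_edges {μ : GraphDist n} {p : ℝ} {d : ℕ} (h : IsDependent μ p d)
    (hp : 0 < p) (hN : 0 < n.choose 2) :
    μ.prob (fun G => (numEdges G : ℝ) < (n.choose 2 : ℝ) * p / 2)
      ≤ 4 * ((d : ℝ) + 1) / ((n.choose 2 : ℝ) * p) := by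
  have hN0 : (0 : ℝ) < (n.choose 2 : ℝ) := by exact_mod_cast hN
  set N : ℝ := (n.choose 2 : ℝ) with hNdef
  obtain ⟨h1, D, hD, hind⟩ := h
  have hvar : μ.ex (fun G => ((numEdges G : ℝ) - N * p) ^ 2) ≤ N * ((d + 1) * p) := by
    have e1 : (fun G : SimpleGraph (Fin n) => ((numEdges G : ℝ) - N * p) ^ 2)
        = fun G => (∑ e : Edge n, ∑ f : Edge n, ind (present e G ∧ present f G))
            + ((N * p) ^ 2 - (2 * (N * p)) * (numEdges G : ℝ)) := by
      funext G
      have e2 : (∑ e : Edge n, ∑ f : Edge n, ind (present e G ∧ present f G))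
          = (numEdges G : ℝ) ^ 2 := by
        rw [numEdges_eq, sq, sum_mul_sum]
        refine sum_congr rfl fun e _ => sum_congr rfl fun f _ => ?_
        by_cases h1 : present e G
        · by_cases h2 : present f G
          · rw [ind_pos h1, ind_pos h2, ind_pos ⟨h1, h2⟩, mul_one]
          · rw [ind_neg h2, ind_neg (fun h => h2 h.2), mul_zero]
        · rw [ind_neg h1, ind_neg (fun h => h1 h.1), zero_mul]
      rw [e2]
      ring
    rw [e1, GraphDist.ex_add, GraphDist.ex_sub, GraphDist.ex_const, GraphDist.ex_mul,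
      ex_numEdges ⟨h1, D, hD, hind⟩, ← hNdef]
    have e3 : μ.ex (fun G => ∑ e : Edge n, ∑ f : Edge n, ind (present e G ∧ present f G))
        ≤ ∑ e : Edge n, (N * p ^ 2 + (d + 1) * p) := by
      rw [GraphDist.ex_sum μ univ (fun e G => ∑ f : Edge n, ind (present e G ∧ present f G))]
      refine sum_le_sum fun e _ => ?_
      rw [GraphDist.ex_sum μ univ (fun f G => ind (present e G ∧ present f G))]
      have e4 : ∀ f ∈ (univ : Finset (Edge n)), μ.ex (fun G => ind (present e G ∧ present f G))
          ≤ p ^ 2 + (if f = e ∨ D.Adj e f then p else 0) := by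
        intro f _
        rw [← GraphDist.prob_eq μ (fun G => present e G ∧ present f G)]
        by_cases hf : f = e ∨ D.Adj e f
        · rw [if_pos hf]
          have := prob_pair_le (μ := μ) (p := p) (d := d) ⟨h1, D, hD, hind⟩ e f
          nlinarith [sq_nonneg p]
        · rw [if_neg hf, add_zero]
          rw [not_or] at hf
          have := hind e (present f) (fun G H hGH => hGH f hf.1 hf.2)
          rw [this, h1, h1]
          exact le_of_eq (by ring)
      refine (sum_le_sum e4).trans ?_
      rw [sum_add_distrib, sum_const, card_univ, card_Edge, nsmul_eq_mul, ← hNdef, ← sum_filter,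
        sum_const, nsmul_eq_mul]
      refine add_le_add le_rfl (mul_le_mul_of_nonneg_right ?_ hp.le)
      have := card_dep hD e
      exact_mod_cast this
    rw [sum_const, card_univ, card_Edge, nsmul_eq_mul, ← hNdef] at e3
    nlinarith
  have h2 := μ.markov (fun G => (numEdges G : ℝ) < N * p / 2)
    (fun G => ((numEdges G : ℝ) - N * p) ^ 2) (fun G => sq_nonneg _) ((N * p / 2) ^ 2)
    (by positivity) (fun G hG => by
      have h3 : 0 < N * p := mul_pos hN0 hp
      nlinarith)
  refine h2.trans ((div_le_div_of_nonneg_right hvar (by positivity)).trans_eq ?_)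
  field_simp
  ring

/-- Markov for the number of edges -/
theorem many_edges {μ : GraphDist n} {p : ℝ} {d : ℕ} (h : IsDependent μ p d) (s : ℕ)
    (hs : 1 ≤ s) :
    μ.prob (fun G => s ≤ numEdges G) ≤ (n.choose 2 : ℝ) * p / s := by
  have h2 := μ.markov (fun G => s ≤ numEdges G)
    (fun G => (numEdges G : ℝ)) (fun G => Nat.cast_nonneg _) (s : ℝ)
    (by exact_mod_cast hs) (fun G hG => by exact_mod_cast hG)
  rwa [ex_numEdges h] at h2

/-- two adjacent edges -/
def HasCherry (G : SimpleGraph (Fin n)) : Prop := ∃ v a b, a ≠ b ∧ G.Adj v a ∧ G.Adj v b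

/-- for `d = 0` two adjacent edges are unlikely when `n³p²` is small -/
theorem cherry_prob {μ : GraphDist n} {p : ℝ} (h : IsDependent μ p 0) :
    μ.prob HasCherry ≤ (n : ℝ) ^ 3 * p ^ 2 := by
  have h1 : μ.prob HasCherry ≤ μ.prob (fun G => ∃ z ∈ (univ : Finset (Fin n × Fin n × Fin n)),
      z.2.1 ≠ z.2.2 ∧ G.Adj z.1 z.2.1 ∧ G.Adj z.1 z.2.2) := by
    refine μ.prob_mono fun G hG => ?_
    obtain ⟨v, a, b, h1, h2, h3⟩ := hG
    exact ⟨(v, a, b), mem_univ _, h1, h2, h3⟩
  refine h1.trans ((μ.prob_exists_le univ (fun (z : Fin n × Fin n × Fin n)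
    (G : SimpleGraph (Fin n)) => z.2.1 ≠ z.2.2 ∧ G.Adj z.1 z.2.1 ∧ G.Adj z.1 z.2.2)).trans ?_)
  obtain ⟨hm, D, hD, hind⟩ := h
  have h2 : ∀ z ∈ (univ : Finset (Fin n × Fin n × Fin n)),
      μ.prob (fun G => z.2.1 ≠ z.2.2 ∧ G.Adj z.1 z.2.1 ∧ G.Adj z.1 z.2.2) ≤ p ^ 2 := by
    intro z _
    obtain ⟨v, a, b⟩ := z
    simp only
    by_cases hz : a ≠ b ∧ v ≠ a ∧ v ≠ b
    · obtain ⟨hab, hva, hvb⟩ := hz
      set e : Edge n := ⟨s(v, a), by simpa using hva⟩ with he
      set f : Edge n := ⟨s(v, b), by simpa using hvb⟩ with hf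
      have hne : f ≠ e := by
        intro h
        have h' := congrArg Subtype.val h
        rw [he, hf] at h'
        simp only at h'
        rw [Sym2.eq_iff] at h'
        rcases h' with ⟨_, h'⟩ | ⟨h', _⟩
        · exact hab h'.symm
        · exact hva h'
      have hnadj : ¬ D.Adj e f := by
        intro hadj
        have h0 := hD e
        rw [Nat.le_zero, card_eq_zero, filter_eq_empty_iff] at h0
        exact h0 (mem_univ f) hadj
      have h3 := hind e (present f) (fun G H hGH => hGH f hne hnadj)
      rw [hm, hm] at h3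
      refine le_trans (μ.prob_mono fun G hG => ?_) (le_of_eq (h3.trans (by ring)))
      exact ⟨hG.2.1, hG.2.2⟩
    · have h4 : μ.prob (fun G => a ≠ b ∧ G.Adj v a ∧ G.Adj v b) ≤ 0 := by
        unfold GraphDist.prob
        refine le_of_eq (sum_eq_zero fun G _ => if_neg ?_)
        rintro ⟨h1, h2, h3⟩
        exact hz ⟨h1, h2.ne, h3.ne⟩
      exact h4.trans (sq_nonneg p)
  refine (sum_le_card_nsmul _ _ _ h2).trans_eq ?_
  rw [card_univ, Fintype.card_prod, Fintype.card_prod, Fintype.card_fin, nsmul_eq_mul]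
  push_cast
  ring

end edges

/-! ### Cluster distributions -/

section cluster

variable {n : ℕ} {K : Type} [Fintype K] [DecidableEq K]

/-- The random graph in which the pair `e` is an edge iff `y (c e)` holds, for independent
Bernoulli(`p`) variables `y k`. -/
noncomputable def clusterDist (c : Edge n → K) (p : ℝ) (h0 : 0 ≤ p) (h1 : p ≤ 1) :
    GraphDist n where
  w G := bex p (fun y : K → Bool => ind (ofBool (fun e => y (c e)) = G))
  nonneg G := sum_nonneg fun y _ => mul_nonneg (bw_nonneg h0 h1 y) (GraphDist.ind_nonneg _)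
  sum_one := by
    rw [← bex_sum p univ (fun (G : SimpleGraph (Fin n)) (y : K → Bool) =>
      ind (ofBool (fun e => y (c e)) = G))]
    have : (fun y : K → Bool => ∑ G : SimpleGraph (Fin n), ind (ofBool (fun e => y (c e)) = G))
        = fun _ => 1 := by
      funext y
      rw [sum_eq_single (ofBool fun e => y (c e))]
      · exact ind_pos rfl
      · intro G _ hG; exact ind_neg fun h => hG h.symm
      · intro h; exact absurd (mem_univ _) h
    rw [this, bex_const]

theorem cluster_prob (c : Edge n → K) (p : ℝ) (h0 : 0 ≤ p) (h1 : p ≤ 1)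
    (A : SimpleGraph (Fin n) → Prop) :
    (clusterDist c p h0 h1).prob A
      = bex p (fun y : K → Bool => ind (A (ofBool fun e => y (c e)))) := by
  unfold GraphDist.prob
  change (∑ G, if A G then bex p (fun y : K → Bool => ind (ofBool (fun e => y (c e)) = G)) else 0)
    = _
  have e1 : ∀ G ∈ (univ : Finset (SimpleGraph (Fin n))),
      (if A G then bex p (fun y : K → Bool => ind (ofBool (fun e => y (c e)) = G)) else 0)
      = bex p (fun y : K → Bool => ind (A G) * ind (ofBool (fun e => y (c e)) = G)) := by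
    intro G _
    rw [bex_mul]
    by_cases h : A G
    · rw [if_pos h, ind_pos h, one_mul]
    · rw [if_neg h, ind_neg h, zero_mul]
  rw [sum_congr rfl e1, ← bex_sum p univ (fun (G : SimpleGraph (Fin n)) (y : K → Bool) =>
    ind (A G) * ind (ofBool (fun e => y (c e)) = G))]
  congr 1
  funext y
  rw [sum_eq_single (ofBool fun e => y (c e))]
  · rw [ind_pos (P := ofBool (fun e => y (c e)) = ofBool fun e => y (c e)) rfl, mul_one]
  · intro G _ hG
    rw [ind_neg (P := ofBool (fun e => y (c e)) = G) (fun h => hG h.symm), mul_zero]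
  · intro h; exact absurd (mem_univ _) h

theorem present_ofBool (x : Edge n → Bool) (e : Edge n) : present e (ofBool x) ↔ x e = true :=
  mem_ofBool x e

theorem bex_one_coord (p : ℝ) (k : K) :
    bex p (fun y : K → Bool => ind (y k = true)) = p := by
  have h : (fun y : K → Bool => ind (y k = true)) = fun y => ∏ j : K,
      (fun (j : K) (b : Bool) => if j = k then (if b = true then (1 : ℝ) else 0) else 1) j (y j) := by
    funext y
    rw [prod_eq_single k]
    · by_cases hk : y k = true
      · rw [ind_pos hk]; simp [hk]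
      · rw [ind_neg hk]; simp [hk]
    · intro j _ hj; simp [hj]
    · intro h; exact absurd (mem_univ _) h
  rw [h, bex_prod p (fun (j : K) (b : Bool) =>
    if j = k then (if b = true then (1 : ℝ) else 0) else 1)]
  rw [prod_eq_single k]
  · simp
  · intro j _ hj; simp [hj]
  · intro h; exact absurd (mem_univ _) h

/-- the probability that no cluster variable in `S` holds -/
theorem bex_none (p : ℝ) (S : Finset K) :
    bex p (fun y : K → Bool => ind (∀ k ∈ S, y k = false)) = (1 - p) ^ S.card := by
  have h : (fun y : K → Bool => ind (∀ k ∈ S, y k = false)) = fun y => ∏ j : K,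
      (fun (j : K) (b : Bool) => if j ∈ S then (if b = true then (0 : ℝ) else 1) else 1) j (y j) := by
    funext y
    by_cases hk : ∀ k ∈ S, y k = false
    · rw [ind_pos hk]
      symm
      refine prod_eq_one fun j _ => ?_
      by_cases hj : j ∈ S
      · simp [hk j hj]
      · simp [hj]
    · rw [ind_neg hk]
      push Not at hk
      obtain ⟨k, hkS, hk⟩ := hk
      symm
      refine prod_eq_zero (mem_univ k) ?_
      rw [Bool.ne_false_iff] at hk
      simp [hkS, hk]
  rw [h, bex_prod p (fun (j : K) (b : Bool) =>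
    if j ∈ S then (if b = true then (0 : ℝ) else 1) else 1)]
  simp only [if_true, Bool.false_eq_true, if_false]
  have h2 : ∀ j : K, (p * (if j ∈ S then (0 : ℝ) else 1) +
      (1 - p) * (if j ∈ S then (1 : ℝ) else 1))
      = if j ∈ S then 1 - p else 1 := by
    intro j; split_ifs <;> ring
  rw [prod_congr rfl fun j _ => h2 j, Finset.prod_ite, prod_const, prod_const_one, mul_one]
  congr 2
  ext j
  simp

/-- cluster distributions are locally dependent -/
theorem cluster_dep (c : Edge n → K) (p : ℝ) (h0 : 0 ≤ p) (h1 : p ≤ 1) (d : ℕ)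
    (hc : ∀ k, (univ.filter fun e => c e = k).card ≤ d + 1) :
    IsDependent (clusterDist c p h0 h1) p d := by
  have hm : ∀ e : Edge n, (clusterDist c p h0 h1).prob (present e) = p := by
    intro e
    rw [cluster_prob]
    have : (fun y : K → Bool => ind (present e (ofBool fun e => y (c e))))
        = fun y => ind (y (c e) = true) := by
      funext y
      rw [present_ofBool]
    rw [this, bex_one_coord]
  obtain ⟨D, hDadj⟩ : ∃ D : SimpleGraph (Edge n), ∀ e f, D.Adj e f ↔ (e ≠ f ∧ c e = c f) :=
    ⟨{ Adj := fun e f => e ≠ f ∧ c e = c f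
       symm := ⟨fun _ _ h => ⟨h.1.symm, h.2.symm⟩⟩
       loopless := ⟨fun _ h => h.1 rfl⟩ }, fun _ _ => Iff.rfl⟩
  refine ⟨hm, D, ?_, ?_⟩
  · intro e
    have h2 : (univ.filter fun f => D.Adj e f) ⊆
        (univ.filter fun f => c f = c e).erase e := by
      intro f hf
      rw [mem_filter, hDadj] at hf
      rw [mem_erase, mem_filter]
      exact ⟨hf.2.1.symm, mem_univ _, hf.2.2.symm⟩
    have h3 := card_le_card h2
    rw [card_erase_of_mem (by rw [mem_filter]; exact ⟨mem_univ _, rfl⟩)] at h3
    have h4 := hc (c e)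
    omega
  · intro e T hT
    rw [hm, cluster_prob, cluster_prob]
    have h2 : (fun y : K → Bool => ind (present e (ofBool fun e => y (c e)) ∧
        T (ofBool fun e => y (c e))))
        = fun y => ind (y (c e) = true) * ind (T (ofBool fun e => y (c e))) := by
      funext y
      rw [present_ofBool]
      by_cases h3 : y (c e) = true
      · by_cases h4 : T (ofBool fun e => y (c e))
        · rw [ind_pos ⟨h3, h4⟩, ind_pos h3, ind_pos h4, mul_one]
        · rw [ind_neg (fun h => h4 h.2), ind_neg h4, mul_zero]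
      · rw [ind_neg (fun h => h3 h.1), ind_neg h3, zero_mul]
    rw [h2, bex_block p (fun k => k = c e) (fun y => ind (y (c e) = true))
      (fun y => ind (T (ofBool fun e => y (c e)))), bex_one_coord]
    · intro x y hxy
      rw [hxy (c e) rfl]
    · intro x y hxy
      have : T (ofBool fun e => x (c e)) ↔ T (ofBool fun e => y (c e)) := by
        refine hT _ _ fun f hfe hnadj => ?_
        rw [present_ofBool, present_ofBool]
        have hcf : c f ≠ c e := by
          intro h
          exact hnadj ((hDadj e f).2 ⟨hfe.symm, h.symm⟩)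
        rw [hxy (c f) hcf]
      by_cases h3 : T (ofBool fun e => x (c e))
      · rw [ind_pos h3, ind_pos (this.1 h3)]
      · rw [ind_neg h3, ind_neg fun h4 => h3 (this.2 h4)]

end cluster

end Pool.Agent.R980
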