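import Mathlib
import Pool.Agent.R980.Dep

/-!
# A connected locally dependent random graph
-/

set_option autoImplicit false

namespace Pool.Agent.R980.Conn

open Finset
open scoped Classical
open Pool.Agent.R980

/-- cluster label of the pair `{lo, hi}`, `lo < hi` -/
def lab (q lo hi : ℕ) : ℕ × ℕ × ℕ :=
  (lo / q, hi / q, if lo / q = hi / q then min (hi % q - lo % q) (q - (hi % q - lo % q))
    else (hi % q + (q - lo % q)) % q)

variable {n q : ℕ}

theorem lab_lt (hq : 0 < q) (lo hi : ℕ) : (lab q lo hi).2.2 < q := by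
  unfold lab
  have h1 := Nat.mod_lt hi hq
  have h2 := Nat.mod_lt lo hq
  have h3 := Nat.mod_lt (hi % q + (q - lo % q)) hq
  simp only
  split_ifs
  · omega
  · exact h3

/-- cluster map -/
def cl (n q : ℕ) (hq : 0 < q) (e : Edge n) : Fin (n + 1) × Fin (n + 1) × Fin q :=
  (⟨e.1.inf.1 / q, by
      have := e.1.inf.2
      have h2 := Nat.div_le_self e.1.inf.1 q
      omega⟩,
   ⟨e.1.sup.1 / q, by
      have := e.1.sup.2
      have h2 := Nat.div_le_self e.1.sup.1 q
      omega⟩,
   ⟨(lab q e.1.inf.1 e.1.sup.1).2.2, lab_lt hq _ _⟩)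

theorem divmod (hq : 0 < q) (i x : ℕ) (hx : x < q) : (i * q + x) / q = i ∧ (i * q + x) % q = x := by
  constructor
  · rw [mul_comm, Nat.mul_add_div hq, Nat.div_eq_of_lt hx, add_zero]
  · rw [mul_comm, Nat.mul_add_mod, Nat.mod_eq_of_lt hx]

theorem shift_sub (x s : ℕ) (hx : x < q) (hs : s < q) : ((x + s) % q + (q - x)) % q = s := by
  rcases Nat.lt_or_ge (x + s) q with h | h
  · rw [Nat.mod_eq_of_lt h]
    have : x + s + (q - x) = s + q := by omega
    rw [this, Nat.add_mod_right, Nat.mod_eq_of_lt hs]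
  · have h2 : (x + s) % q = x + s - q := by
      rw [Nat.mod_eq_sub_mod h, Nat.mod_eq_of_lt (by omega)]
    rw [h2]
    have : x + s - q + (q - x) = s := by omega
    rw [this, Nat.mod_eq_of_lt hs]

/-- each cluster has at most `q` edges -/
theorem cl_card (hq : 0 < q) (k : Fin (n + 1) × Fin (n + 1) × Fin q) :
    (univ.filter fun e => cl n q hq e = k).card ≤ q := by
  obtain ⟨i, j, s⟩ := k
  have h1 : (univ.filter fun e => cl n q hq e = (i, j, s)).card
      ≤ ((range q).image fun x => (s(i.1 * q + x, j.1 * q + (x + s.1) % q) : Sym2 ℕ)).card := by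
    refine card_le_card_of_injOn (fun e => e.1.map Fin.val) ?_ ?_
    · intro e he
      rw [mem_coe, mem_filter] at he
      obtain ⟨-, he⟩ := he
      rw [mem_coe, mem_image]
      obtain ⟨e, hd⟩ := e
      induction e with
      | _ u v =>
      wlog huv : u < v generalizing u v with H
      · have hvu : v < u := by
          rcases lt_trichotomy u v with h | h | h
          · exact absurd h huv
          · exact absurd (by rw [h]; exact Sym2.mk_isDiag_iff.2 rfl) hd
          · exact h
        have hswap : (s(u, v) : Sym2 (Fin n)) = s(v, u) := Sym2.eq_swap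
        have hd' : ¬ (s(v, u) : Sym2 (Fin n)).IsDiag := hswap ▸ hd
        have heq : (⟨s(u, v), hd⟩ : Edge n) = ⟨s(v, u), hd'⟩ := Subtype.ext hswap
        rw [heq] at he ⊢
        exact H v u hd' he hvu
      have e1 := congrArg (fun z => z.1.1) he
      have e2 := congrArg (fun z => z.2.1.1) he
      have e3 := congrArg (fun z => z.2.2.1) he
      unfold cl at e1 e2 e3
      simp only [Sym2.inf_mk, Sym2.sup_mk, inf_eq_left.2 huv.le, sup_eq_right.2 huv.le] at e1 e2 e3
      have m1 := Nat.div_add_mod u.1 q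
      have m2 := Nat.div_add_mod v.1 q
      have l1 := Nat.mod_lt u.1 hq
      have l2 := Nat.mod_lt v.1 hq
      have hs := s.2
      have huv' : u.1 < v.1 := huv
      rw [e1, mul_comm] at m1
      rw [e2, mul_comm] at m2
      unfold lab at e3
      simp only [e1, e2] at e3
      simp only [Sym2.map_mk]
      split_ifs at e3 with hij
      · rw [hij] at m1 ⊢
        have hlt : u.1 % q < v.1 % q := by omega
        by_cases hc : v.1 % q - u.1 % q ≤ q - (v.1 % q - u.1 % q)
        · rw [min_eq_left hc] at e3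
          refine ⟨u.1 % q, mem_range.2 l1, ?_⟩
          have : (u.1 % q + s.1) % q = v.1 % q := by
            rw [Nat.mod_eq_of_lt (by omega)]; omega
          rw [this, m1, m2]
        · rw [min_eq_right (by omega)] at e3
          refine ⟨v.1 % q, mem_range.2 l2, ?_⟩
          have : (v.1 % q + s.1) % q = u.1 % q := by
            have : v.1 % q + s.1 = u.1 % q + q := by omega
            rw [this, Nat.add_mod_right, Nat.mod_mod]
          rw [this, m1, m2, Sym2.eq_swap]
      · refine ⟨u.1 % q, mem_range.2 l1, ?_⟩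
        have : (u.1 % q + s.1) % q = v.1 % q := by
          rw [← e3, Nat.add_mod_mod]
          have : u.1 % q + (v.1 % q + (q - u.1 % q)) = v.1 % q + q := by omega
          rw [this, Nat.add_mod_right, Nat.mod_mod]
        rw [this, m1, m2]
    · intro a _ b _ h
      exact Subtype.ext (Sym2.map.injective Fin.val_injective h)
  exact h1.trans (card_image_le.trans_eq (card_range q))

/-! ### adjacency -/

/-- the graph of a configuration -/
def gr (hq : 0 < q) (y : Fin (n + 1) × Fin (n + 1) × Fin q → Bool) : SimpleGraph (Fin n) :=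
  ofBool fun e => y (cl n q hq e)

theorem gr_adj_lt (hq : 0 < q) (y : Fin (n + 1) × Fin (n + 1) × Fin q → Bool) (u v : Fin n)
    (huv : u.1 < v.1) (i j : Fin (n + 1)) (s : Fin q)
    (h : lab q u.1 v.1 = (i.1, j.1, s.1)) (hy : y (i, j, s) = true) : (gr hq y).Adj u v := by
  unfold gr
  rw [adj_ofBool]
  have hne : u ≠ v := fun h => by rw [h] at huv; exact lt_irrefl _ huv
  refine ⟨by rw [Sym2.mk_isDiag_iff]; exact hne, ?_⟩
  have huv' : u ≤ v := huv.le
  have : cl n q hq ⟨s(u, v), by rw [Sym2.mk_isDiag_iff]; exact hne⟩ = (i, j, s) := by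
    unfold cl
    simp only [Sym2.inf_mk, Sym2.sup_mk, inf_eq_left.2 huv', sup_eq_right.2 huv']
    have h1 := congrArg (fun z => z.1) h
    have h2 := congrArg (fun z => z.2.1) h
    have h3 := congrArg (fun z => z.2.2) h
    unfold lab at h1 h2
    simp only at h1 h2 h3
    exact Prod.ext (Fin.ext h1) (Prod.ext (Fin.ext h2) (Fin.ext h3))
  rw [this]
  exact hy

/-- edges between two different groups -/
theorem adj_cross (hq : 0 < q) (y : Fin (n + 1) × Fin (n + 1) × Fin q → Bool) (u v : Fin n)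
    (i j : Fin (n + 1)) (s : Fin q) (x : ℕ) (hx : x < q) (hij : i.1 < j.1)
    (hu : u.1 = i.1 * q + x) (hv : v.1 = j.1 * q + (x + s.1) % q) (hy : y (i, j, s) = true) :
    (gr hq y).Adj u v := by
  have h1 := Nat.mod_lt (x + s.1) hq
  have hlt : u.1 < v.1 := by
    have : (i.1 + 1) * q ≤ j.1 * q := Nat.mul_le_mul_right _ hij
    rw [add_mul, one_mul] at this
    omega
  refine gr_adj_lt hq y u v hlt i j s ?_ hy
  unfold lab
  rw [hu, hv, (divmod hq i.1 x hx).1, (divmod hq i.1 x hx).2, (divmod hq j.1 _ h1).1,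
    (divmod hq j.1 _ h1).2, if_neg (by omega), shift_sub x s.1 hx s.2]

/-- edges inside a group -/
theorem adj_inner (hq : 0 < q) (y : Fin (n + 1) × Fin (n + 1) × Fin q → Bool) (u v : Fin n)
    (i : Fin (n + 1)) (s : Fin q) (x : ℕ) (hx : x < q) (hs1 : 1 ≤ s.1) (hs2 : 2 * s.1 < q)
    (hu : u.1 = i.1 * q + x) (hv : v.1 = i.1 * q + (x + s.1) % q) (hy : y (i, i, s) = true) :
    (gr hq y).Adj u v := by
  rcases Nat.lt_or_ge (x + s.1) q with h | h
  · have e : (x + s.1) % q = x + s.1 := Nat.mod_eq_of_lt h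
    rw [e] at hv
    refine gr_adj_lt hq y u v (by omega) i i s ?_ hy
    unfold lab
    rw [hu, hv, (divmod hq i.1 x hx).1, (divmod hq i.1 x hx).2, (divmod hq i.1 _ h).1,
      (divmod hq i.1 _ h).2, if_pos rfl]
    have e1 : x + s.1 - x = s.1 := by omega
    rw [e1, min_eq_left (by omega)]
  · have e : (x + s.1) % q = x + s.1 - q := by
      rw [Nat.mod_eq_sub_mod h, Nat.mod_eq_of_lt (by omega)]
    rw [e] at hv
    refine (gr_adj_lt hq y v u (by omega) i i s ?_ hy).symm
    unfold lab
    have h5 : x + s.1 - q < q := by omega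
    rw [hu, hv, (divmod hq i.1 x hx).1, (divmod hq i.1 x hx).2, (divmod hq i.1 _ h5).1,
      (divmod hq i.1 _ h5).2, if_pos rfl]
    have e1 : x - (x + s.1 - q) = q - s.1 := by omega
    have e2 : q - (q - s.1) = s.1 := by omega
    rw [e1, e2, min_eq_right (by omega)]

/-- groups `i` and `l` are joined -/
def Joined (y : Fin (n + 1) × Fin (n + 1) × Fin q → Bool) (i l : Fin (n + 1)) : Prop :=
  ∃ s : Fin q, y (min i l, max i l, s) = true

theorem Joined.symm {y : Fin (n + 1) × Fin (n + 1) × Fin q → Bool} {i l : Fin (n + 1)}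
    (h : Joined y i l) : Joined y l i := by
  obtain ⟨s, hs⟩ := h
  exact ⟨s, by rw [min_comm, max_comm]; exact hs⟩

/-- every vertex of group `i` has a neighbour in the full group `l` -/
theorem cross_step (hq : 0 < q) (y : Fin (n + 1) × Fin (n + 1) × Fin q → Bool)
    (i l : Fin (n + 1)) (hne : i ≠ l) (hl : (l.1 + 1) * q ≤ n) (hJ : Joined y i l) (v : Fin n)
    (hv : v.1 / q = i.1) : ∃ w : Fin n, w.1 / q = l.1 ∧ (gr hq y).Adj v w := by
  obtain ⟨s, hs⟩ := hJ
  have hx := Nat.mod_lt v.1 hq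
  have hv' : v.1 = i.1 * q + v.1 % q := by
    have := Nat.div_add_mod v.1 q
    rw [hv, mul_comm] at this
    exact this.symm
  rw [add_mul, one_mul] at hl
  rcases lt_or_gt_of_ne hne with h | h
  · rw [min_eq_left h.le, max_eq_right h.le] at hs
    have h1 := Nat.mod_lt (v.1 % q + s.1) hq
    refine ⟨⟨l.1 * q + (v.1 % q + s.1) % q, by omega⟩, (divmod hq l.1 _ h1).1, ?_⟩
    exact adj_cross hq y v _ i l s (v.1 % q) hx h hv' rfl hs
  · rw [min_eq_right h.le, max_eq_left h.le] at hs
    set x := (v.1 % q + (q - s.1)) % q with hxdef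
    have h1 : x < q := Nat.mod_lt _ hq
    have hs2 := s.2
    have h2 : (x + s.1) % q = v.1 % q := by
      rw [hxdef, Nat.mod_add_mod]
      have : v.1 % q + (q - s.1) + s.1 = v.1 % q + q := by omega
      rw [this, Nat.add_mod_right, Nat.mod_mod]
    refine ⟨⟨l.1 * q + x, by omega⟩, (divmod hq l.1 _ h1).1, ?_⟩
    refine (adj_cross hq y _ v l i s x h1 h rfl ?_ hs).symm
    rw [h2]
    exact hv'

/-- a group with an internal shift is connected -/
theorem inner_conn (hq : q.Prime) (y : Fin (n + 1) × Fin (n + 1) × Fin q → Bool)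
    (i : Fin (n + 1)) (hi : (i.1 + 1) * q ≤ n) (s : Fin q) (hs1 : 1 ≤ s.1) (hs2 : 2 * s.1 < q)
    (hy : y (i, i, s) = true) (v w : Fin n) (hv : v.1 / q = i.1) (hw : w.1 / q = i.1) :
    (gr hq.pos y).Reachable v w := by
  have hq0 := hq.pos
  rw [add_mul, one_mul] at hi
  have hv' : v.1 = i.1 * q + v.1 % q := by
    have := Nat.div_add_mod v.1 q
    rw [hv, mul_comm] at this
    exact this.symm
  have hw' : w.1 = i.1 * q + w.1 % q := by
    have := Nat.div_add_mod w.1 q
    rw [hw, mul_comm] at this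
    exact this.symm
  have key : ∀ t : ℕ, ∀ z : Fin n, z.1 = i.1 * q + (v.1 % q + t * s.1) % q →
      (gr hq0 y).Reachable v z := by
    intro t
    induction t with
    | zero =>
      intro z hz
      rw [zero_mul, add_zero, Nat.mod_mod, ← hv'] at hz
      rw [Fin.ext hz]
    | succ t ih =>
      intro z hz
      have h1 : (v.1 % q + t * s.1) % q < q := Nat.mod_lt _ hq0
      have hz0 : i.1 * q + (v.1 % q + t * s.1) % q < n := by omega
      have h2 := ih ⟨_, hz0⟩ rfl
      refine h2.trans (SimpleGraph.Adj.reachable ?_)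
      refine adj_inner hq0 y _ z i s _ h1 hs1 hs2 rfl ?_ hy
      have e : ((v.1 % q + t * s.1) % q + s.1) % q = (v.1 % q + (t + 1) * s.1) % q := by
        rw [Nat.mod_add_mod (v.1 % q + t * s.1) q s.1]
        congr 1
        ring
      rw [hz, e]
  -- find t with v%q + t s ≡ w%q
  have hcop : Nat.Coprime s.1 q := by
    rw [Nat.coprime_comm, Nat.Prime.coprime_iff_not_dvd hq]
    intro hd
    have := Nat.le_of_dvd (by omega) hd
    omega
  obtain ⟨t, ht⟩ : ∃ t : ℕ, (t * s.1) ≡ (w.1 % q + (q - v.1 % q)) [MOD q] := by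
    obtain ⟨m, hm⟩ := Nat.exists_mul_mod_eq_one_of_coprime hcop (by
      have := hq.one_lt; exact this)
    refine ⟨(w.1 % q + (q - v.1 % q)) * m, ?_⟩
    have h3 : s.1 * m ≡ 1 [MOD q] := by
      unfold Nat.ModEq
      rw [Nat.mod_eq_of_lt hq.one_lt]
      exact hm.2
    calc (w.1 % q + (q - v.1 % q)) * m * s.1 = (w.1 % q + (q - v.1 % q)) * (s.1 * m) := by ring
      _ ≡ (w.1 % q + (q - v.1 % q)) * 1 [MOD q] := Nat.ModEq.mul_left _ h3
      _ = w.1 % q + (q - v.1 % q) := mul_one _
  refine key t w ?_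
  rw [hw']
  congr 1
  have hlt := Nat.mod_lt v.1 hq0
  have h4 : v.1 % q + t * s.1 ≡ w.1 % q [MOD q] := by
    calc v.1 % q + t * s.1 ≡ v.1 % q + (w.1 % q + (q - v.1 % q)) [MOD q] :=
          Nat.ModEq.add_left _ ht
      _ = w.1 % q + q := by omega
      _ ≡ w.1 % q [MOD q] := by unfold Nat.ModEq; rw [Nat.add_mod_right]
  unfold Nat.ModEq at h4
  rw [h4, Nat.mod_mod]

/-- the deterministic connectivity criterion -/
theorem connected_of (hq : q.Prime) (y : Fin (n + 1) × Fin (n + 1) × Fin q → Bool)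
    (hA : ∃ i : Fin (n + 1), (i.1 + 1) * q ≤ n ∧ ∃ s : Fin q, 1 ≤ s.1 ∧ 2 * s.1 < q ∧
      y (i, i, s) = true)
    (hB : ∀ i j : Fin (n + 1), i.1 ≤ n / q → j.1 ≤ n / q → i ≠ j → ∃ l : Fin (n + 1),
      (l.1 + 1) * q ≤ n ∧ l ≠ i ∧ l ≠ j ∧ Joined y i l ∧ Joined y j l) :
    (gr hq.pos y).Connected := by
  have hq0 := hq.pos
  obtain ⟨i0, hi0, s, hs1, hs2, hy⟩ := hA
  have hi0' : i0.1 ≤ n / q := by
    rw [Nat.le_div_iff_mul_le hq0]
    rw [add_mul, one_mul] at hi0
    omega
  -- the base vertex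
  have hbase : i0.1 * q < n := by
    rw [add_mul, one_mul] at hi0
    omega
  set b : Fin n := ⟨i0.1 * q, hbase⟩ with hb
  have hbi : b.1 / q = i0.1 := by
    have := (divmod hq0 i0.1 0 hq0).1
    rw [add_zero] at this
    exact this
  have key : ∀ v : Fin n, (gr hq0 y).Reachable v b := by
    intro v
    by_cases hv : v.1 / q = i0.1
    · exact inner_conn hq y i0 hi0 s hs1 hs2 hy v b hv hbi
    · have hvle : v.1 / q ≤ n / q := Nat.div_le_div_right v.2.le
      have hvn : v.1 / q < n + 1 := by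
        have := Nat.div_le_self v.1 q
        have := v.2
        omega
      obtain ⟨l, hl, hli, hlj, hJ1, hJ2⟩ := hB ⟨v.1 / q, hvn⟩ i0 hvle hi0'
        (fun h => hv (congrArg Fin.val h))
      obtain ⟨w, hw, hvw⟩ := cross_step hq0 y ⟨v.1 / q, hvn⟩ l (Ne.symm hli) hl hJ1 v rfl
      obtain ⟨w', hw', hww'⟩ := cross_step hq0 y l i0 hlj hi0 hJ2.symm w hw
      exact hvw.reachable.trans (hww'.reachable.trans
        (inner_conn hq y i0 hi0 s hs1 hs2 hy w' b hw' hbi))
  have : Nonempty (Fin n) := ⟨b⟩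
  exact ⟨fun u v => (key u).trans (key v).symm⟩

end Pool.Agent.R980.Conn
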