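import Mathlib
import Pool.Agent.R980.Conn

/-!
# Probability estimates for the connected locally dependent random graph
-/

set_option autoImplicit false

namespace Pool.Agent.R980.Conn

open Finset
open scoped Classical
open Pool.Agent.R980

theorem bex_exists_le {E ι : Type} [Fintype E] [DecidableEq E] {p : ℝ} (h0 : 0 ≤ p) (h1 : p ≤ 1)
    (s : Finset ι) (A : ι → (E → Bool) → Prop) :
    bex p (fun y => ind (∃ i ∈ s, A i y)) ≤ ∑ i ∈ s, bex p (fun y => ind (A i y)) := by
  rw [← bex_sum p s (fun i y => ind (A i y))]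
  refine bex_mono h0 h1 fun y => ?_
  by_cases h : ∃ i ∈ s, A i y
  · rw [ind_pos h]
    obtain ⟨i, hi, hA⟩ := h
    refine le_trans ?_ (single_le_sum (f := fun i => ind (A i y))
      (fun i _ => GraphDist.ind_nonneg _) hi)
    rw [ind_pos hA]
  · rw [ind_neg h]
    exact sum_nonneg fun i _ => GraphDist.ind_nonneg _

variable {n q : ℕ}

/-- all cluster labels joining two groups -/
noncomputable def SJ (q : ℕ) (i l : Fin (n + 1)) : Finset (Fin (n + 1) × Fin (n + 1) × Fin q) :=
  univ.image fun s : Fin q => (min i l, max i l, s)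

theorem SJ_card (i l : Fin (n + 1)) : (SJ q i l).card = q := by
  unfold SJ
  rw [card_image_of_injective, card_univ, Fintype.card_fin]
  intro a b h
  have := congrArg (fun z => z.2.2) h
  exact this

theorem mem_SJ (i l : Fin (n + 1)) (z : Fin (n + 1) × Fin (n + 1) × Fin q) :
    z ∈ SJ q i l ↔ z.1 = min i l ∧ z.2.1 = max i l := by
  unfold SJ
  rw [mem_image]
  constructor
  · rintro ⟨s, -, rfl⟩; exact ⟨rfl, rfl⟩
  · rintro ⟨h1, h2⟩
    exact ⟨z.2.2, mem_univ _, Prod.ext h1.symm (Prod.ext h2.symm rfl)⟩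

theorem minmax_eq {i l j m : Fin (n + 1)} (h1 : min i l = min j m) (h2 : max i l = max j m) :
    (i = j ∧ l = m) ∨ (i = m ∧ l = j) := by
  rcases le_total i l with h | h <;> rcases le_total j m with h' | h'
  · rw [min_eq_left h, min_eq_left h'] at h1
    rw [max_eq_right h, max_eq_right h'] at h2
    exact Or.inl ⟨h1, h2⟩
  · rw [min_eq_left h, min_eq_right h'] at h1
    rw [max_eq_right h, max_eq_left h'] at h2
    exact Or.inr ⟨h1, h2⟩
  · rw [min_eq_right h, min_eq_left h'] at h1
    rw [max_eq_left h, max_eq_right h'] at h2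
    exact Or.inr ⟨h2, h1⟩
  · rw [min_eq_right h, min_eq_right h'] at h1
    rw [max_eq_left h, max_eq_left h'] at h2
    exact Or.inl ⟨h2, h1⟩

theorem not_joined_iff (y : Fin (n + 1) × Fin (n + 1) × Fin q → Bool) (i l : Fin (n + 1)) :
    ¬ Joined y i l ↔ ∀ k ∈ SJ q i l, y k = false := by
  unfold Joined
  push Not
  constructor
  · intro h k hk
    rw [mem_SJ] at hk
    have := h k.2.2
    rw [← hk.1, ← hk.2] at this
    simpa using this
  · intro h s
    have := h (min i l, max i l, s) (by rw [mem_SJ]; exact ⟨rfl, rfl⟩)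
    rw [this]
    simp

/-- the probability that no group joins `i` and `j` -/
theorem no_common {p : ℝ} (h0 : 0 ≤ p) (h1 : p ≤ 1) (i j : Fin (n + 1)) (hij : i ≠ j)
    (W : Finset (Fin (n + 1))) (hW : ∀ l ∈ W, l ≠ i ∧ l ≠ j) :
    bex p (fun y : Fin (n + 1) × Fin (n + 1) × Fin q → Bool =>
      ind (∀ l ∈ W, ¬ (Joined y i l ∧ Joined y j l)))
      ≤ (1 - (1 - (1 - p) ^ q) ^ 2) ^ W.card := by
  set H : Fin (n + 1) → (Fin (n + 1) × Fin (n + 1) × Fin q → Bool) → ℝ := fun l y =>
    ind (∀ k ∈ SJ q i l, y k = false) + ind (∀ k ∈ SJ q j l, y k = false)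
      - ind (∀ k ∈ SJ q i l ∪ SJ q j l, y k = false) with hH
  have hHval : ∀ l y, (¬ (Joined y i l ∧ Joined y j l) → H l y = 1) ∧ 0 ≤ H l y := by
    intro l y
    have hu : (∀ k ∈ SJ q i l ∪ SJ q j l, y k = false) ↔
        (∀ k ∈ SJ q i l, y k = false) ∧ (∀ k ∈ SJ q j l, y k = false) := by
      constructor
      · intro h
        exact ⟨fun k hk => h k (mem_union_left _ hk), fun k hk => h k (mem_union_right _ hk)⟩
      · rintro ⟨h, h'⟩ k hk
        rcases mem_union.1 hk with hk | hk
        · exact h k hk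
        · exact h' k hk
    rw [hH]
    simp only
    by_cases a : ∀ k ∈ SJ q i l, y k = false
    · by_cases b : ∀ k ∈ SJ q j l, y k = false
      · rw [ind_pos a, ind_pos b, ind_pos (hu.2 ⟨a, b⟩)]
        norm_num
      · rw [ind_pos a, ind_neg b, ind_neg (fun h => b (hu.1 h).2)]
        norm_num
    · by_cases b : ∀ k ∈ SJ q j l, y k = false
      · rw [ind_neg a, ind_pos b, ind_neg (fun h => a (hu.1 h).1)]
        norm_num
      · rw [ind_neg a, ind_neg b, ind_neg (fun h => a (hu.1 h).1)]
        refine ⟨fun h => ?_, by norm_num⟩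
        exfalso
        apply h
        rw [← not_joined_iff, not_not] at a b
        exact ⟨a, b⟩
  have hle : bex p (fun y : Fin (n + 1) × Fin (n + 1) × Fin q → Bool =>
      ind (∀ l ∈ W, ¬ (Joined y i l ∧ Joined y j l)))
      ≤ bex p (fun y => ∏ l ∈ W, H l y) := by
    refine bex_mono h0 h1 fun y => ?_
    by_cases h : ∀ l ∈ W, ¬ (Joined y i l ∧ Joined y j l)
    · rw [ind_pos h]
      exact le_of_eq (Eq.symm (prod_eq_one fun l hl => (hHval l y).1 (h l hl)))
    · rw [ind_neg h]
      exact prod_nonneg fun l _ => (hHval l y).2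
  refine hle.trans_eq ?_
  rw [bex_prod_blocks p W (fun l => {k | k ∈ SJ q i l ∪ SJ q j l})]
  · have h2 : ∀ l ∈ W, bex p (H l) = 1 - (1 - (1 - p) ^ q) ^ 2 := by
      intro l hl
      have hdisj : Disjoint (SJ q i l) (SJ q j l) := by
        rw [disjoint_left]
        intro k hk hk'
        rw [mem_SJ] at hk hk'
        rcases minmax_eq (hk.1.symm.trans hk'.1) (hk.2.symm.trans hk'.2) with h | h
        · exact hij h.1
        · exact (hW l hl).1 h.1.symm
      rw [hH]
      simp only
      rw [bex_sub, bex_add, bex_none, bex_none, bex_none, card_union_of_disjoint hdisj, SJ_card,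
        SJ_card]
      ring
    rw [prod_congr rfl h2, prod_const]
  · intro l _ x y hxy
    have e1 : ∀ S : Finset (Fin (n + 1) × Fin (n + 1) × Fin q), S ⊆ SJ q i l ∪ SJ q j l →
        ind (∀ k ∈ S, x k = false) = ind (∀ k ∈ S, y k = false) := by
      intro S hS
      have : (∀ k ∈ S, x k = false) ↔ (∀ k ∈ S, y k = false) := by
        refine forall_congr' fun k => forall_congr' fun hk => ?_
        rw [hxy k (hS hk)]
      by_cases h : ∀ k ∈ S, x k = false
      · rw [ind_pos h, ind_pos (this.1 h)]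
      · rw [ind_neg h, ind_neg fun h' => h (this.2 h')]
    rw [hH]
    simp only
    rw [e1 _ subset_union_left, e1 _ subset_union_right, e1 _ subset_rfl]
  · intro l hl l' hl' hne
    rw [Set.disjoint_left]
    intro k hk hk'
    simp only [Set.mem_ofPred_eq, mem_union, mem_SJ] at hk hk'
    rcases hk with hk | hk <;> rcases hk' with hk' | hk'
    · rcases minmax_eq (hk.1.symm.trans hk'.1) (hk.2.symm.trans hk'.2) with h | h
      · exact hne h.2
      · exact (hW l' hl').1 h.1.symm
    · rcases minmax_eq (hk.1.symm.trans hk'.1) (hk.2.symm.trans hk'.2) with h | h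
      · exact hij h.1
      · exact (hW l' hl').1 h.1.symm
    · rcases minmax_eq (hk.1.symm.trans hk'.1) (hk.2.symm.trans hk'.2) with h | h
      · exact hij h.1.symm
      · exact (hW l' hl').2 h.1.symm
    · rcases minmax_eq (hk.1.symm.trans hk'.1) (hk.2.symm.trans hk'.2) with h | h
      · exact hne h.2
      · exact (hW l' hl').2 h.1.symm

/-- the random graph -/
noncomputable def cdist (n q : ℕ) (hq : 0 < q) (p : ℝ) (h0 : 0 ≤ p) (h1 : p ≤ 1) : GraphDist n :=
  clusterDist (cl n q hq) p h0 h1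

theorem cdist_dep (n q : ℕ) (hq : 0 < q) (p : ℝ) (h0 : 0 ≤ p) (h1 : p ≤ 1) :
    IsDependent (cdist n q hq p h0 h1) p (q - 1) := by
  refine cluster_dep (cl n q hq) p h0 h1 (q - 1) fun k => ?_
  have := cl_card hq k
  omega

/-- the basic estimate -/
theorem not_conn_le (hq : q.Prime) (hn : 1 ≤ n) {p : ℝ} (h0 : 0 ≤ p) (h1 : p ≤ 1) :
    (cdist n q hq.pos p h0 h1).prob (fun G => ¬ G.Connected)
      ≤ (1 - p) ^ (n / q * ((q - 1) / 2)) +
        ((n / q : ℕ) + 1 : ℝ) ^ 2 * (1 - (1 - (1 - p) ^ q) ^ 2) ^ (n / q - 2) := by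
  have hq0 := hq.pos
  have hq2 := hq.two_le
  set k := n / q with hk
  have hkq : k * q ≤ n := Nat.div_mul_le_self n q
  have hkn : k ≤ n := Nat.div_le_self n q
  -- labels of the internal clusters
  set SA : Finset (Fin (n + 1) × Fin (n + 1) × Fin q) :=
    (univ : Finset (Fin k × Fin ((q - 1) / 2))).image (fun z =>
      (⟨z.1.1, by have := z.1.2; omega⟩, ⟨z.1.1, by have := z.1.2; omega⟩,
        ⟨z.2.1 + 1, by have := z.2.2; omega⟩)) with hSA
  have hSAcard : SA.card = k * ((q - 1) / 2) := by
    rw [hSA, card_image_of_injective, card_univ, Fintype.card_prod, Fintype.card_fin,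
      Fintype.card_fin]
    intro a b h
    have e1 := congrArg (fun z => z.1.1) h
    have e2 := congrArg (fun z => z.2.2.1) h
    simp only at e1 e2
    exact Prod.ext (Fin.ext e1) (Fin.ext (by omega))
  set I : Finset (Fin (n + 1) × Fin (n + 1)) :=
    (univ.filter fun z : Fin (n + 1) × Fin (n + 1) => z.1.1 ≤ k ∧ z.2.1 ≤ k ∧ z.1 ≠ z.2) with hI
  set W : Fin (n + 1) → Fin (n + 1) → Finset (Fin (n + 1)) := fun i j =>
    univ.filter fun l => l.1 < k ∧ l ≠ i ∧ l ≠ j with hW
  have hWcard : ∀ i j, k - 2 ≤ (W i j).card := by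
    intro i j
    have h2 : (univ.filter fun l : Fin (n + 1) => l.1 < k).card = k := by
      have h3 : (univ.filter fun l : Fin (n + 1) => l.1 < k)
          = (univ : Finset (Fin k)).image (fun l => (⟨l.1, by have := l.2; omega⟩ : Fin (n + 1))) := by
        ext l
        rw [mem_filter, mem_image]
        constructor
        · rintro ⟨-, h⟩; exact ⟨⟨l.1, h⟩, mem_univ _, rfl⟩
        · rintro ⟨l', -, rfl⟩; exact ⟨mem_univ _, l'.2⟩
      rw [h3, card_image_of_injective, card_univ, Fintype.card_fin]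
      intro a b h
      simp only [Fin.mk.injEq] at h
      exact Fin.ext h
    have h4 : ((univ.filter fun l : Fin (n + 1) => l.1 < k).erase i).erase j ⊆ W i j := by
      intro l hl
      rw [mem_erase, mem_erase, mem_filter] at hl
      rw [hW]
      simp only
      rw [mem_filter]
      exact ⟨mem_univ _, hl.2.2.2, hl.2.1, hl.1⟩
    have h5 := card_le_card h4
    have h6 := pred_card_le_card_erase (s := (univ.filter fun l : Fin (n + 1) => l.1 < k)) (a := i)
    have h7 := pred_card_le_card_erase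
      (s := (univ.filter fun l : Fin (n + 1) => l.1 < k).erase i) (a := j)
    omega
  unfold cdist
  rw [cluster_prob]
  have hle : bex p (fun y : Fin (n + 1) × Fin (n + 1) × Fin q → Bool =>
      ind (¬ (ofBool fun e => y (cl n q hq0 e)).Connected))
      ≤ bex p (fun y => ind (∀ z ∈ SA, y z = false) +
        ind (∃ z ∈ I, ∀ l ∈ W z.1 z.2, ¬ (Joined y z.1 l ∧ Joined y z.2 l))) := by
    refine bex_mono h0 h1 fun y => ?_
    by_cases hc : (ofBool fun e => y (cl n q hq0 e)).Connected
    · rw [ind_neg (not_not.2 hc)]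
      exact add_nonneg (GraphDist.ind_nonneg _) (GraphDist.ind_nonneg _)
    · rw [ind_pos hc]
      by_cases ha : ∀ z ∈ SA, y z = false
      · rw [ind_pos ha]
        linarith [GraphDist.ind_nonneg (∃ z ∈ I, ∀ l ∈ W z.1 z.2,
          ¬ (Joined y z.1 l ∧ Joined y z.2 l))]
      · by_cases hb : ∃ z ∈ I, ∀ l ∈ W z.1 z.2, ¬ (Joined y z.1 l ∧ Joined y z.2 l)
        · rw [ind_pos hb]
          linarith [GraphDist.ind_nonneg (∀ z ∈ SA, y z = false)]
        · exfalso
          apply hc
          refine connected_of hq y ?_ ?_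
          · push Not at ha
            obtain ⟨z, hz, hyz⟩ := ha
            rw [hSA, mem_image] at hz
            obtain ⟨⟨i, s⟩, -, rfl⟩ := hz
            rw [Bool.ne_false_iff] at hyz
            refine ⟨_, ?_, _, ?_, ?_, hyz⟩
            · have h3 : (i.1 + 1) * q ≤ k * q := Nat.mul_le_mul_right _ i.2
              simp only
              omega
            · simp only; omega
            · have := s.2
              simp only
              omega
          · intro i j hi hj hij
            by_contra hcon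
            apply hb
            refine ⟨(i, j), ?_, ?_⟩
            · rw [hI, mem_filter]
              exact ⟨mem_univ _, hi, hj, hij⟩
            · intro l hl hJ
              rw [hW] at hl
              simp only at hl
              rw [mem_filter] at hl
              apply hcon
              refine ⟨l, ?_, hl.2.2.1, hl.2.2.2, hJ.1, hJ.2⟩
              have h3 : (l.1 + 1) * q ≤ k * q := Nat.mul_le_mul_right _ hl.2.1
              omega
  refine hle.trans ?_
  rw [bex_add, bex_none, hSAcard]
  refine add_le_add le_rfl ?_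
  refine (bex_exists_le h0 h1 I (fun z y => ∀ l ∈ W z.1 z.2,
    ¬ (Joined y z.1 l ∧ Joined y z.2 l))).trans ?_
  have hr0 : 0 ≤ (1 - p) ^ q := pow_nonneg (by linarith) _
  have hr1 : (1 - p) ^ q ≤ 1 := pow_le_one₀ (by linarith) (by linarith)
  have hb0 : 0 ≤ 1 - (1 - (1 - p) ^ q) ^ 2 := by nlinarith
  have hb1 : 1 - (1 - (1 - p) ^ q) ^ 2 ≤ 1 := by nlinarith [sq_nonneg (1 - (1 - p) ^ q)]
  have h3 : ∀ z ∈ I, bex p (fun y : Fin (n + 1) × Fin (n + 1) × Fin q → Bool =>
      ind (∀ l ∈ W z.1 z.2, ¬ (Joined y z.1 l ∧ Joined y z.2 l)))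
      ≤ (1 - (1 - (1 - p) ^ q) ^ 2) ^ (k - 2) := by
    intro z hz
    rw [hI, mem_filter] at hz
    refine (no_common h0 h1 z.1 z.2 hz.2.2.2 (W z.1 z.2) ?_).trans ?_
    · intro l hl
      rw [hW] at hl
      simp only at hl
      rw [mem_filter] at hl
      exact hl.2.2
    · exact pow_le_pow_of_le_one hb0 hb1 (hWcard _ _)
  refine (sum_le_card_nsmul _ _ _ h3).trans ?_
  rw [nsmul_eq_mul]
  refine mul_le_mul_of_nonneg_right ?_ (pow_nonneg hb0 _)
  have h4 : I.card ≤ (k + 1) ^ 2 := by
    have h5 : I ⊆ (univ : Finset (Fin (k + 1) × Fin (k + 1))).image (fun z =>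
        ((⟨z.1.1, by have := z.1.2; omega⟩ : Fin (n + 1)),
          (⟨z.2.1, by have := z.2.2; omega⟩ : Fin (n + 1)))) := by
      intro z hz
      rw [hI, mem_filter] at hz
      rw [mem_image]
      exact ⟨(⟨z.1.1, by omega⟩, ⟨z.2.1, by omega⟩), mem_univ _, rfl⟩
    refine (card_le_card h5).trans (card_image_le.trans ?_)
    rw [card_univ, Fintype.card_prod, Fintype.card_fin, sq]
  exact_mod_cast h4

end Pool.Agent.R980.Conn
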