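import Mathlib

/-!
# The mean of the square root of the number of invariant two-colourings of a random permutation
-/

set_option autoImplicit false

namespace Pool.Agent.R980

open Finset Equiv

/-- number of functions to `Bool` invariant under `π` -/
noncomputable def NI {n : ℕ} (π : Perm (Fin n)) : ℕ :=
  Nat.card {g : Fin n → Bool // ∀ x, g (π x) = g x}

theorem NI_dec_zero {n : ℕ} (e : Perm (Fin n)) :
    NI (Equiv.Perm.decomposeFin.symm ((0 : Fin (n + 1)), e)) ≤ 2 * NI e := by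
  classical
  unfold NI
  have h2 : 2 * Nat.card {g : Fin n → Bool // ∀ x, g (e x) = g x} =
      Nat.card (Bool × {g : Fin n → Bool // ∀ x, g (e x) = g x}) := by
    rw [Nat.card_prod]; simp
  rw [h2]
  apply Nat.card_le_card_of_injective
    (fun g : {g : Fin (n + 1) → Bool //
        ∀ x, g (Equiv.Perm.decomposeFin.symm ((0 : Fin (n + 1)), e) x) = g x} =>
      ((g.1 0, ⟨fun x => g.1 x.succ, fun x => by
        have := g.2 x.succ
        rw [Equiv.Perm.decomposeFin_symm_apply_succ] at this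
        simpa using this⟩) : Bool × {g : Fin n → Bool // ∀ x, g (e x) = g x}))
  intro g g' h
  apply Subtype.ext
  funext x
  simp only [Prod.mk.injEq, Subtype.mk.injEq] at h
  refine Fin.cases h.1 (fun y => ?_) x
  exact congrFun h.2 y

theorem NI_dec_succ {n : ℕ} (p : Fin (n + 1)) (hp : p ≠ 0) (e : Perm (Fin n)) :
    NI (Equiv.Perm.decomposeFin.symm (p, e)) ≤ NI e := by
  classical
  unfold NI
  have h0 : ∀ g : {g : Fin (n + 1) → Bool //
        ∀ x, g (Equiv.Perm.decomposeFin.symm (p, e) x) = g x}, g.1 p = g.1 0 := by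
    intro g
    have := g.2 0
    rwa [Equiv.Perm.decomposeFin_symm_apply_zero] at this
  apply Nat.card_le_card_of_injective
    (fun g : {g : Fin (n + 1) → Bool //
        ∀ x, g (Equiv.Perm.decomposeFin.symm (p, e) x) = g x} =>
      (⟨fun x => g.1 x.succ, fun x => by
        have h1 := g.2 x.succ
        rw [Equiv.Perm.decomposeFin_symm_apply_succ] at h1
        show g.1 (e x).succ = g.1 x.succ
        by_cases hx : (e x).succ = p
        · rw [hx, Equiv.swap_apply_right] at h1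
          rw [hx, h0 g, h1]
        · rw [Equiv.swap_apply_of_ne_of_ne (Fin.succ_ne_zero _) hx] at h1
          exact h1⟩ : {g : Fin n → Bool // ∀ x, g (e x) = g x}))
  intro g g' h
  apply Subtype.ext
  funext x
  simp only [Subtype.mk.injEq] at h
  have hs : ∀ y : Fin n, g.1 y.succ = g'.1 y.succ := fun y => congrFun h y
  refine Fin.cases ?_ hs x
  obtain ⟨q, rfl⟩ := Fin.exists_succ_eq.2 hp
  rw [← h0 g, ← h0 g', hs q]

/-- the sum of the square roots -/
noncomputable def SR (n : ℕ) : ℝ := ∑ π : Perm (Fin n), Real.sqrt (NI π)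

theorem SR_zero : SR 0 = 1 := by
  unfold SR NI
  have : Nat.card {g : Fin 0 → Bool // ∀ x, g ((1 : Perm (Fin 0)) x) = g x} = 1 := by
    rw [Nat.card_eq_one_iff_unique]
    exact ⟨⟨fun a b => Subtype.ext (funext fun x => x.elim0)⟩, ⟨⟨fun x => x.elim0, fun x => x.elim0⟩⟩⟩
  rw [Fintype.sum_eq_single (1 : Perm (Fin 0)) (fun x hx => absurd (Subsingleton.elim _ _) hx), this]
  simp

theorem SR_succ (n : ℕ) : SR (n + 1) ≤ (Real.sqrt 2 + n) * SR n := by
  unfold SR
  rw [← Equiv.sum_comp (Equiv.Perm.decomposeFin (n := n)).symm, Fintype.sum_prod_type,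
    Fin.sum_univ_succ]
  have h1 : ∑ e : Perm (Fin n), Real.sqrt (NI (Equiv.Perm.decomposeFin.symm ((0 : Fin (n + 1)), e)))
      ≤ Real.sqrt 2 * ∑ e : Perm (Fin n), Real.sqrt (NI e) := by
    rw [Finset.mul_sum]
    refine Finset.sum_le_sum fun e _ => ?_
    rw [← Real.sqrt_mul (by norm_num)]
    apply Real.sqrt_le_sqrt
    exact_mod_cast NI_dec_zero e
  have h2 : ∀ p : Fin n, ∑ e : Perm (Fin n), Real.sqrt (NI (Equiv.Perm.decomposeFin.symm (p.succ, e)))
      ≤ ∑ e : Perm (Fin n), Real.sqrt (NI e) := by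
    intro p
    refine Finset.sum_le_sum fun e _ => ?_
    apply Real.sqrt_le_sqrt
    exact_mod_cast NI_dec_succ p.succ (Fin.succ_ne_zero p) e
  have h3 : ∑ p : Fin n, ∑ e : Perm (Fin n),
      Real.sqrt (NI (Equiv.Perm.decomposeFin.symm (p.succ, e))) ≤
      n * ∑ e : Perm (Fin n), Real.sqrt (NI e) := by
    refine (Finset.sum_le_sum fun p _ => h2 p).trans ?_
    rw [Finset.sum_const, Finset.card_univ, Fintype.card_fin, nsmul_eq_mul]
  linarith

/-- `E √(NI π) ≤ √2 n ^ (√2 - 1)` -/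
theorem SR_le (n : ℕ) : SR (n + 1) ≤
    (n + 1).factorial * (Real.sqrt 2 * ((n : ℝ) + 1) ^ (Real.sqrt 2 - 1)) := by
  have hs1 : 1 ≤ Real.sqrt 2 := by
    rw [Real.one_le_sqrt]; norm_num
  have hs2 : Real.sqrt 2 ≤ 2 := by
    rw [Real.sqrt_le_left (by norm_num)]; norm_num
  induction n with
  | zero =>
    have := SR_succ 0
    rw [SR_zero] at this
    simp at this ⊢
    linarith
  | succ n ih =>
    refine (SR_succ (n + 1)).trans ?_
    have hn : (0 : ℝ) < (n : ℝ) + 1 := by positivity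
    have hpos : 0 ≤ Real.sqrt 2 + ((n + 1 : ℕ) : ℝ) := by positivity
    refine (mul_le_mul_of_nonneg_left ih hpos).trans ?_
    have hf : ((n + 1 + 1).factorial : ℝ) = ((n : ℝ) + 2) * ((n + 1).factorial : ℝ) := by
      rw [Nat.factorial_succ]; push_cast; ring
    rw [hf]
    have key : (Real.sqrt 2 + ((n : ℝ) + 1)) * ((n : ℝ) + 1) ^ (Real.sqrt 2 - 1) ≤
        ((n : ℝ) + 2) * ((n : ℝ) + 1 + 1) ^ (Real.sqrt 2 - 1) := by
      have h1 : ((n : ℝ) + 1 + 1) = ((n : ℝ) + 1) * (1 + 1 / ((n : ℝ) + 1)) := by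
        field_simp
      have h2 : (1 : ℝ) + (Real.sqrt 2 - 1) / ((n : ℝ) + 2) ≤
          (1 + 1 / ((n : ℝ) + 1)) ^ (Real.sqrt 2 - 1) := by
        have h3 : 0 < 1 + 1 / ((n : ℝ) + 1) := by positivity
        rw [Real.rpow_def_of_pos h3]
        have h4 : 1 / ((n : ℝ) + 2) ≤ Real.log (1 + 1 / ((n : ℝ) + 1)) := by
          have h5 := Real.one_sub_inv_le_log_of_pos h3
          have h6 : 1 - (1 + 1 / ((n : ℝ) + 1))⁻¹ = 1 / ((n : ℝ) + 2) := by
            field_simp
            ring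
          linarith
        have h7 := Real.add_one_le_exp (Real.log (1 + 1 / ((n : ℝ) + 1)) * (Real.sqrt 2 - 1))
        have h8 : (Real.sqrt 2 - 1) / ((n : ℝ) + 2) ≤
            Real.log (1 + 1 / ((n : ℝ) + 1)) * (Real.sqrt 2 - 1) := by
          calc (Real.sqrt 2 - 1) / ((n : ℝ) + 2) = 1 / ((n : ℝ) + 2) * (Real.sqrt 2 - 1) := by ring
            _ ≤ _ := mul_le_mul_of_nonneg_right h4 (by linarith)
        linarith
      have h9 : 0 ≤ ((n : ℝ) + 1) ^ (Real.sqrt 2 - 1) := by positivity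
      rw [h1, Real.mul_rpow hn.le (by positivity)]
      have h10 : Real.sqrt 2 + ((n : ℝ) + 1) = ((n : ℝ) + 2) * (1 + (Real.sqrt 2 - 1) / ((n : ℝ) + 2)) := by
        field_simp
        ring
      rw [h10]
      calc ((n : ℝ) + 2) * (1 + (Real.sqrt 2 - 1) / ((n : ℝ) + 2)) * ((n : ℝ) + 1) ^ (Real.sqrt 2 - 1)
          ≤ ((n : ℝ) + 2) * (1 + 1 / ((n : ℝ) + 1)) ^ (Real.sqrt 2 - 1) *
            ((n : ℝ) + 1) ^ (Real.sqrt 2 - 1) := by gcongr
        _ = _ := by ring
    push_cast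
    have hfac : (0 : ℝ) ≤ ((n + 1).factorial : ℝ) := by positivity
    calc (Real.sqrt 2 + ((n : ℝ) + 1)) * (((n + 1).factorial : ℝ) *
          (Real.sqrt 2 * ((n : ℝ) + 1) ^ (Real.sqrt 2 - 1)))
        = ((n + 1).factorial : ℝ) * Real.sqrt 2 *
          ((Real.sqrt 2 + ((n : ℝ) + 1)) * ((n : ℝ) + 1) ^ (Real.sqrt 2 - 1)) := by ring
      _ ≤ ((n + 1).factorial : ℝ) * Real.sqrt 2 *
          (((n : ℝ) + 2) * ((n : ℝ) + 1 + 1) ^ (Real.sqrt 2 - 1)) := by gcongr
      _ = _ := by ring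

end Pool.Agent.R980
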