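import Mathlib
import Pool.Agent.R980.DomProb

/-!
# Maker-Breaker domination games: a blocking strategy and a potential strategy
-/

set_option autoImplicit false
set_option linter.unusedSectionVars false

namespace Pool.Agent.R980

open Finset
open scoped Classical

variable {V : Type} [DecidableEq V]

/-- The `(1 : b)` game in which Dominator is to move; `D` and `S` are the vertices claimed so far
by Dominator and by Staller.  `Force b W k D S`: within at most `k` further rounds Dominator can
force that the set of vertices she has claimed satisfies `W` at some point.  In each round Dominator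
claims one unclaimed vertex and then Staller claims up to `b` unclaimed vertices. -/
def Force (b : ℕ) (W : Finset V → Prop) : ℕ → Finset V → Finset V → Prop
  | 0, D, _ => W D
  | k + 1, D, S => W D ∨ ∃ v, v ∉ D ∧ v ∉ S ∧
      ∀ Y : Finset V, Y.card ≤ b → Disjoint Y (insert v D ∪ S) →
        Force b W k (insert v D) (S ∪ Y)

/-- The `b`-biased game in which Dominator is to move: in each round Dominator claims up to `b`
unclaimed vertices and then Staller claims up to one.  `ForceD b W k D S`: within at most `k`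
further rounds Dominator can force that her claimed set satisfies `W` at some point. -/
def ForceD (b : ℕ) (W : Finset V → Prop) : ℕ → Finset V → Finset V → Prop
  | 0, D, _ => W D
  | k + 1, D, S => W D ∨ ∃ X : Finset V, X.card ≤ b ∧ Disjoint X (D ∪ S) ∧
      ∀ Y : Finset V, Y.card ≤ 1 → Disjoint Y (D ∪ X ∪ S) → ForceD b W k (D ∪ X) (S ∪ Y)

/-- The same game with Staller to move first in each round. -/
def ForceS (b : ℕ) (W : Finset V → Prop) : ℕ → Finset V → Finset V → Prop
  | 0, D, _ => W D
  | k + 1, D, S => W D ∨ ∀ Y : Finset V, Y.card ≤ 1 → Disjoint Y (D ∪ S) →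
      ∃ X : Finset V, X.card ≤ b ∧ Disjoint X (D ∪ S ∪ Y) ∧ ForceS b W k (D ∪ X) (S ∪ Y)

theorem Force.toD {W : Finset V → Prop} {k : ℕ} {D S : Finset V} (h : Force 1 W k D S) :
    ForceD 1 W k D S := by
  induction k generalizing D S with
  | zero => exact h
  | succ k ih =>
    rcases h with h | ⟨v, hvD, hvS, h⟩
    · exact Or.inl h
    · right
      refine ⟨{v}, by simp, ?_, ?_⟩
      · rw [disjoint_singleton_left, mem_union, not_or]
        exact ⟨hvD, hvS⟩
      · intro Y hY hd
        have e : D ∪ {v} = insert v D := by rw [union_comm, ← insert_eq]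
        rw [e] at hd ⊢
        exact ih (h Y hY hd)

theorem Force.mono {b : ℕ} {W W' : Finset V → Prop} (hW : ∀ D, W D → W' D) {k : ℕ}
    {D S : Finset V} (h : Force b W k D S) : Force b W' k D S := by
  induction k generalizing D S with
  | zero => exact hW _ h
  | succ k ih =>
    rcases h with h | ⟨v, hvD, hvS, h⟩
    · exact Or.inl (hW _ h)
    · exact Or.inr ⟨v, hvD, hvS, fun Y hY hd => ih (h Y hY hd)⟩

/-- Staller blocks the last free completion. -/
theorem staller_blocks (G : SimpleGraph V) (t : ℕ)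
    (H1 : ∀ A : Finset V, A.card < t → ¬ Dominating G A)
    (H2 : ∀ A B : Finset V, A.card = t → B.card = t → (A ∩ B).card + 1 = t →
      Dominating G A → ¬ Dominating G B)
    (k : ℕ) (D S : Finset V) (hk : D.card + k ≤ t)
    (hD : ¬ Dominating G D) (hfree : ∀ v, v ∉ D → v ∉ S → ¬ Dominating G (insert v D)) :
    ¬ ForceD 1 (Dominating G) k D S := by
  induction k generalizing D S with
  | zero => exact hD
  | succ k ih =>
    rintro (h | ⟨X, hX, hXd, h⟩)
    · exact hD h
    have hD' : ¬ Dominating G (D ∪ X) := by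
      rcases Nat.le_one_iff_eq_zero_or_eq_one.1 hX with h0 | h1
      · rw [card_eq_zero.1 h0, union_empty]
        exact hD
      · obtain ⟨v, rfl⟩ := card_eq_one.1 h1
        rw [disjoint_singleton_left, mem_union, not_or] at hXd
        rw [union_comm, ← insert_eq]
        exact hfree v hXd.1 hXd.2
    have hc : (D ∪ X).card + k ≤ t := by
      have := card_union_le D X
      omega
    cases k with
    | zero =>
      exact hD' (h ∅ (by simp) (by simp))
    | succ k =>
      by_cases hex : ∃ v', v' ∉ D ∪ X ∧ v' ∉ S ∧ Dominating G (insert v' (D ∪ X))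
      · obtain ⟨v', h1, h2, h3⟩ := hex
        refine ih (D ∪ X) (S ∪ {v'}) hc hD' ?_ (h {v'} (by simp) ?_)
        · intro v'' hv1 hv2 hdom
          rw [mem_union, mem_singleton, not_or] at hv2
          have c1 : (insert v' (D ∪ X)).card = (D ∪ X).card + 1 := card_insert_of_notMem h1
          have c2 : (insert v'' (D ∪ X)).card = (D ∪ X).card + 1 := card_insert_of_notMem hv1
          have c3 : t ≤ (insert v' (D ∪ X)).card := by
            by_contra hlt
            exact H1 _ (by omega) h3
          have c4 : insert v' (D ∪ X) ∩ insert v'' (D ∪ X) = D ∪ X := by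
            ext z
            simp only [mem_inter, mem_insert]
            constructor
            · rintro ⟨hz | hz, hz' | hz'⟩
              · exact absurd (hz'.symm.trans hz) hv2.2
              · exact hz'
              · exact hz
              · exact hz
            · intro hz; exact ⟨Or.inr hz, Or.inr hz⟩
          refine H2 _ _ (by omega) (by omega) ?_ h3 hdom
          rw [c4]
          omega
        · rw [disjoint_singleton_left, mem_union, not_or]
          exact ⟨h1, h2⟩
      · refine ih (D ∪ X) (S ∪ ∅) hc hD' ?_ (h ∅ (by simp) (by simp))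
        intro v' hv1 hv2 hdom
        rw [union_empty] at hv2
        exact hex ⟨v', hv1, hv2, hdom⟩

/-- Consequence for the whole game. -/
theorem no_win [Fintype V] (G : SimpleGraph V) (t : ℕ) (ht : 2 ≤ t)
    (hn : t + 1 ≤ Fintype.card V)
    (H2 : ∀ A B : Finset V, A.card = t → B.card = t → (A ∩ B).card + 1 = t →
      Dominating G A → ¬ Dominating G B) :
    (∀ A : Finset V, A.card < t → ¬ Dominating G A) ∧
      ∀ k ≤ t, ¬ ForceD 1 (Dominating G) k ∅ ∅ := by
  have H1 : ∀ A : Finset V, A.card < t → ¬ Dominating G A := by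
    intro A hA hdom
    obtain ⟨A', hAA', hA'⟩ := Finset.exists_superset_card_eq (s := A) (n := t - 1)
      (by omega) (by omega)
    have hcomp : 1 < A'ᶜ.card := by
      rw [card_compl, hA']
      omega
    obtain ⟨u, hu, v, hv, huv⟩ := one_lt_card.1 hcomp
    rw [mem_compl] at hu hv
    have c1 : (insert u A').card = A'.card + 1 := card_insert_of_notMem hu
    have c2 : (insert v A').card = A'.card + 1 := card_insert_of_notMem hv
    have c4 : insert u A' ∩ insert v A' = A' := by
      ext z
      simp only [mem_inter, mem_insert]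
      constructor
      · rintro ⟨hz | hz, hz' | hz'⟩
        · exact absurd (hz.symm.trans hz') huv
        · exact hz'
        · exact hz
        · exact hz
      · intro hz; exact ⟨Or.inr hz, Or.inr hz⟩
    refine H2 (insert u A') (insert v A') (by omega) (by omega) ?_
      (hdom.mono (hAA'.trans (subset_insert _ _))) (hdom.mono (hAA'.trans (subset_insert _ _)))
    rw [c4]
    omega
  refine ⟨H1, fun k hk => ?_⟩
  refine staller_blocks G t H1 H2 k ∅ ∅ (by simpa using hk) (H1 _ (by simp; omega)) ?_
  intro v _ _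
  exact H1 _ (by simp; omega)

/-! ### The potential strategy -/

section beck

variable [Fintype V]

/-- pair degree -/
noncomputable def pd (F : Finset (Finset V)) (x y : V) : ℝ :=
  ((F.filter fun A => x ∈ A ∧ y ∈ A).card : ℝ)

theorem pd_nonneg (F : Finset (Finset V)) (x y : V) : 0 ≤ pd F x y := Nat.cast_nonneg _

noncomputable def pot (F : Finset (Finset V)) (D S : Finset V) : ℝ :=
  ∑ A ∈ F.filter (fun A => Disjoint A S), (2 : ℝ) ^ (A ∩ D).card

noncomputable def wt (F : Finset (Finset V)) (D S : Finset V) (v : V) : ℝ :=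
  ∑ A ∈ F.filter (fun A => Disjoint A S ∧ v ∈ A), (2 : ℝ) ^ (A ∩ D).card

noncomputable def cost (F : Finset (Finset V)) (a b : ℝ) (U : Finset V) : ℝ :=
  a * U.card + b * ∑ z ∈ U.offDiag, (pd F z.1 z.2) ^ 2

theorem pot_insert (F : Finset (Finset V)) (D S : Finset V) (v : V) (hv : v ∉ D) :
    pot F (insert v D) S = pot F D S + wt F D S v := by
  unfold pot wt
  rw [← filter_filter, sum_filter (s := F.filter fun A => Disjoint A S), ← sum_add_distrib]
  refine sum_congr rfl fun A _ => ?_
  by_cases h : v ∈ A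
  · rw [if_pos h]
    have : A ∩ insert v D = insert v (A ∩ D) := inter_insert_of_mem h
    rw [this, card_insert_of_notMem (fun h' => hv (mem_inter.1 h').2), pow_succ]
    ring
  · rw [if_neg h, inter_insert_of_notMem h, add_zero]

theorem pot_union (F : Finset (Finset V)) (D S : Finset V) (y : V) :
    pot F D (S ∪ {y}) = pot F D S - wt F D S y := by
  unfold pot wt
  rw [← filter_filter, eq_sub_iff_add_eq, ← sum_filter_add_sum_filter_not
    (F.filter fun A => Disjoint A S) (fun A => y ∈ A), add_comm]
  congr 1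
  refine sum_congr ?_ fun _ _ => rfl
  ext A
  rw [mem_filter, mem_filter, mem_filter, disjoint_union_right, disjoint_singleton_right, and_assoc]

theorem wt_insert (F : Finset (Finset V)) (t : ℕ) (hF : ∀ A ∈ F, A.card = t) (D S : Finset V)
    (v y : V) (hv : v ∉ D) (hy : y ∉ D) (hvy : v ≠ y) :
    wt F (insert v D) S y ≤ wt F D S y + 2 ^ t / 4 * pd F v y := by
  unfold wt
  have h1 : ∑ A ∈ F.filter (fun A => Disjoint A S ∧ y ∈ A), (2 : ℝ) ^ (A ∩ insert v D).card
      = ∑ A ∈ F.filter (fun A => Disjoint A S ∧ y ∈ A), (2 : ℝ) ^ (A ∩ D).card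
        + ∑ A ∈ (F.filter (fun A => Disjoint A S ∧ y ∈ A)).filter (fun A => v ∈ A),
          (2 : ℝ) ^ (A ∩ D).card := by
    rw [sum_filter (s := F.filter (fun A => Disjoint A S ∧ y ∈ A)), ← sum_add_distrib]
    refine sum_congr rfl fun A _ => ?_
    by_cases h : v ∈ A
    · rw [if_pos h]
      have : A ∩ insert v D = insert v (A ∩ D) := inter_insert_of_mem h
      rw [this, card_insert_of_notMem (fun h' => hv (mem_inter.1 h').2), pow_succ]
      ring
    · rw [if_neg h, inter_insert_of_notMem h, add_zero]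
  rw [h1]
  refine add_le_add le_rfl ?_
  have h2 : ∀ A ∈ (F.filter (fun A => Disjoint A S ∧ y ∈ A)).filter (fun A => v ∈ A),
      (2 : ℝ) ^ (A ∩ D).card ≤ 2 ^ t / 4 := by
    intro A hA
    rw [mem_filter, mem_filter] at hA
    obtain ⟨⟨hAF, _, hyA⟩, hvA⟩ := hA
    have h3 : insert v (insert y (A ∩ D)) ⊆ A := by
      intro z hz
      rw [mem_insert, mem_insert, mem_inter] at hz
      rcases hz with rfl | rfl | hz
      · exact hvA
      · exact hyA
      · exact hz.1
    have h4 := card_le_card h3
    rw [card_insert_of_notMem, card_insert_of_notMem, hF A hAF] at h4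
    · rw [le_div_iff₀ (by norm_num)]
      calc (2 : ℝ) ^ (A ∩ D).card * 4 = 2 ^ ((A ∩ D).card + 1 + 1) := by ring
        _ ≤ 2 ^ t := pow_le_pow_right₀ (by norm_num) h4
    · exact fun h => hy (mem_inter.1 h).2
    · rw [mem_insert, not_or]
      exact ⟨hvy, fun h => hv (mem_inter.1 h).2⟩
  refine (sum_le_card_nsmul _ _ _ h2).trans ?_
  rw [nsmul_eq_mul, mul_comm]
  refine mul_le_mul_of_nonneg_left ?_ (by positivity)
  unfold pd
  refine Nat.cast_le.2 (card_le_card ?_)
  intro A hA
  rw [mem_filter, mem_filter] at hA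
  rw [mem_filter]
  exact ⟨hA.1.1, hA.2, hA.1.2.2⟩

theorem cost_mono (F : Finset (Finset V)) (a b : ℝ) (ha : 0 ≤ a) (hb : 0 ≤ b) {U U' : Finset V}
    (h : U' ⊆ U) : cost F a b U' ≤ cost F a b U := by
  unfold cost
  refine add_le_add (mul_le_mul_of_nonneg_left (Nat.cast_le.2 (card_le_card h)) ha)
    (mul_le_mul_of_nonneg_left (sum_le_sum_of_subset_of_nonneg ?_ fun _ _ _ => sq_nonneg _) hb)
  exact offDiag_mono h

theorem pd_comm (F : Finset (Finset V)) (x y : V) : pd F x y = pd F y x := by
  unfold pd
  congr 2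
  ext A
  rw [mem_filter, mem_filter, and_comm (a := x ∈ A)]

theorem cost_pair (F : Finset (Finset V)) (a b : ℝ) (hb : 0 ≤ b) (U : Finset V)
    (v y : V) (hv : v ∈ U) (hy : y ∈ U) (hvy : v ≠ y) :
    cost F a b ((U.erase v).erase y) + (2 * a + 2 * b * (pd F v y) ^ 2) ≤ cost F a b U := by
  unfold cost
  have hc : (((U.erase v).erase y).card : ℝ) = U.card - 2 := by
    have h1 : ((U.erase v).erase y).card = U.card - 1 - 1 := by
      rw [card_erase_of_mem (mem_erase.2 ⟨hvy.symm, hy⟩), card_erase_of_mem hv]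
    have h2 : 1 < U.card := one_lt_card.2 ⟨v, hv, y, hy, hvy⟩
    rw [h1, Nat.cast_sub (by omega), Nat.cast_sub (by omega)]
    push_cast
    ring
  rw [hc]
  have hsub : insert (v, y) (insert (y, v) ((U.erase v).erase y).offDiag) ⊆ U.offDiag := by
    intro z hz
    rw [mem_insert, mem_insert] at hz
    rcases hz with rfl | rfl | hz
    · rw [mem_offDiag]; exact ⟨hv, hy, hvy⟩
    · rw [mem_offDiag]; exact ⟨hy, hv, hvy.symm⟩
    · refine offDiag_mono ?_ hz
      exact (erase_subset _ _).trans (erase_subset _ _)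
  have h3 := sum_le_sum_of_subset_of_nonneg (f := fun z : V × V => (pd F z.1 z.2) ^ 2) hsub
    (fun _ _ _ => sq_nonneg _)
  rw [sum_insert, sum_insert] at h3
  · simp only at h3
    rw [pd_comm F y v] at h3
    nlinarith
  · rw [mem_offDiag]
    rintro ⟨h, _⟩
    simp at h
  · rw [mem_insert, not_or]
    refine ⟨?_, ?_⟩
    · intro h
      exact hvy (congrArg Prod.fst h)
    · rw [mem_offDiag]
      rintro ⟨h, _⟩
      simp at h

/-- The potential strategy. -/
theorem beck_aux (F : Finset (Finset V)) (t : ℕ) (hF : ∀ A ∈ F, A.card = t) (a b : ℝ)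
    (ha : 0 ≤ a) (hb : 0 ≤ b) (hab : ∀ d : ℝ, 0 ≤ d → 2 ^ t / 4 * d ≤ 2 * a + 2 * b * d ^ 2)
    (k : ℕ) (D S : Finset V) (hU : (D ∪ S)ᶜ.card ≤ k)
    (hpos : cost F a b (D ∪ S)ᶜ < pot F D S) :
    Force 1 (fun D => ∃ A ∈ F, A ⊆ D) k D S := by
  have hend : ∀ D S : Finset V, (D ∪ S)ᶜ = ∅ → cost F a b (D ∪ S)ᶜ < pot F D S →
      ∃ A ∈ F, A ⊆ D := by
    intro D S hemp hpos
    rw [hemp] at hpos
    have h0 : cost F a b ∅ = 0 := by unfold cost; simp
    rw [h0] at hpos
    have hne : (F.filter fun A => Disjoint A S).Nonempty := by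
      by_contra hcon
      rw [not_nonempty_iff_eq_empty] at hcon
      unfold pot at hpos
      rw [hcon, sum_empty] at hpos
      exact lt_irrefl _ hpos
    obtain ⟨A, hA⟩ := hne
    rw [mem_filter] at hA
    refine ⟨A, hA.1, fun z hz => ?_⟩
    have hz' : z ∉ S := disjoint_left.1 hA.2 hz
    have : z ∈ D ∪ S := by
      by_contra hcon
      have h5 := mem_compl.2 hcon
      rw [hemp] at h5
      exact absurd h5 (notMem_empty z)
    exact (mem_union.1 this).resolve_right hz'
  induction k generalizing D S with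
  | zero => exact hend D S (card_eq_zero.1 (Nat.le_zero.1 hU)) hpos
  | succ k ih =>
    by_cases hemp : (D ∪ S)ᶜ = ∅
    · exact Or.inl (hend D S hemp hpos)
    · right
      obtain ⟨v, hvU, hmax⟩ := exists_max_image (D ∪ S)ᶜ (wt F D S)
        (nonempty_iff_ne_empty.2 hemp)
      have hv := mem_compl.1 hvU
      rw [mem_union, not_or] at hv
      refine ⟨v, hv.1, hv.2, fun Y hY hYd => ?_⟩
      rcases Nat.le_one_iff_eq_zero_or_eq_one.1 hY with h0 | h1
      · have hY0 := card_eq_zero.1 h0
        subst hY0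
        rw [union_empty]
        have hsub : (insert v D ∪ S)ᶜ ⊆ (D ∪ S)ᶜ.erase v := by
          intro z hz
          rw [mem_compl, mem_union, mem_insert, not_or, not_or] at hz
          rw [mem_erase, mem_compl, mem_union, not_or]
          exact ⟨hz.1.1, hz.1.2, hz.2⟩
        refine ih _ _ ?_ ?_
        · have := card_le_card hsub
          rw [card_erase_of_mem hvU] at this
          omega
        · have h2 := cost_mono F a b ha hb (hsub.trans (erase_subset _ _))
          rw [pot_insert F D S v hv.1]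
          have h3 : 0 ≤ wt F D S v := by
            unfold wt
            exact sum_nonneg fun _ _ => by positivity
          linarith
      · obtain ⟨y, rfl⟩ := card_eq_one.1 h1
        rw [disjoint_singleton_left, mem_union, mem_insert, not_or, not_or] at hYd
        obtain ⟨⟨hyv, hyD⟩, hyS⟩ := hYd
        have hyU : y ∈ (D ∪ S)ᶜ := by
          rw [mem_compl, mem_union, not_or]; exact ⟨hyD, hyS⟩
        have hsub : (insert v D ∪ (S ∪ {y}))ᶜ ⊆ ((D ∪ S)ᶜ.erase v).erase y := by
          intro z hz
          rw [mem_compl, mem_union, mem_union, mem_insert, mem_singleton, not_or, not_or,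
            not_or] at hz
          rw [mem_erase, mem_erase, mem_compl, mem_union, not_or]
          exact ⟨hz.2.2, hz.1.1, hz.1.2, hz.2.1⟩
        refine ih _ _ ?_ ?_
        · have := card_le_card (hsub.trans (erase_subset _ _))
          rw [card_erase_of_mem hvU] at this
          omega
        · have h2 := cost_mono F a b ha hb hsub
          have h3 := cost_pair F a b hb (D ∪ S)ᶜ v y hvU hyU (Ne.symm hyv)
          have h4 := hab (pd F v y) (pd_nonneg F v y)
          have h5 := wt_insert F t hF D S v y hv.1 hyD (Ne.symm hyv)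
          have h6 := hmax y hyU
          rw [pot_union, pot_insert F D S v hv.1]
          linarith

theorem beck (F : Finset (Finset V)) (t : ℕ) (hF : ∀ A ∈ F, A.card = t) (a b : ℝ)
    (ha : 0 ≤ a) (hb : 0 ≤ b) (hab : ∀ d : ℝ, 0 ≤ d → 2 ^ t / 4 * d ≤ 2 * a + 2 * b * d ^ 2)
    (h : a * (Fintype.card V : ℝ) +
      b * ∑ z ∈ (univ : Finset V).offDiag, (pd F z.1 z.2) ^ 2 < (F.card : ℝ)) :
    ∃ k, Force 1 (fun D => ∃ A ∈ F, A ⊆ D) k ∅ ∅ := by
  refine ⟨Fintype.card V, beck_aux F t hF a b ha hb hab _ ∅ ∅ ?_ ?_⟩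
  · exact card_le_univ _
  · have h1 : ((∅ : Finset V) ∪ ∅)ᶜ = univ := by simp
    rw [h1]
    have h2 : pot F ∅ ∅ = F.card := by
      unfold pot
      simp
    rw [h2]
    unfold cost
    rw [card_univ]
    exact h

/-- the squared pair degrees as a sum over pairs of members -/
theorem sum_pd_sq (F : Finset (Finset V)) :
    ∑ z ∈ (univ : Finset V).offDiag, (pd F z.1 z.2) ^ 2
      = ∑ A ∈ F, ∑ B ∈ F, (((A ∩ B).card * (A ∩ B).card - (A ∩ B).card : ℕ) : ℝ) := by
  have h1 : ∀ z : V × V, (pd F z.1 z.2) ^ 2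
      = ∑ A ∈ F, ∑ B ∈ F, (if z.1 ∈ A ∩ B ∧ z.2 ∈ A ∩ B then (1 : ℝ) else 0) := by
    intro z
    have h2 : pd F z.1 z.2 = ∑ A ∈ F, (if z.1 ∈ A ∧ z.2 ∈ A then (1 : ℝ) else 0) := by
      unfold pd
      rw [← sum_filter]
      simp
    rw [h2, sq, sum_mul_sum]
    refine sum_congr rfl fun A _ => sum_congr rfl fun B _ => ?_
    by_cases hA : z.1 ∈ A ∧ z.2 ∈ A
    · by_cases hB : z.1 ∈ B ∧ z.2 ∈ B
      · rw [if_pos hA, if_pos hB, if_pos, mul_one]
        rw [mem_inter, mem_inter]
        exact ⟨⟨hA.1, hB.1⟩, hA.2, hB.2⟩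
      · rw [if_pos hA, if_neg hB, if_neg, mul_zero]
        rw [mem_inter, mem_inter]
        exact fun h => hB ⟨h.1.2, h.2.2⟩
    · have hAB : ¬ (z.1 ∈ A ∩ B ∧ z.2 ∈ A ∩ B) := by
        rw [mem_inter, mem_inter]
        exact fun h => hA ⟨h.1.1, h.2.1⟩
      rw [if_neg hA, if_neg hAB, zero_mul]
  rw [sum_congr rfl fun z _ => h1 z, sum_comm]
  refine sum_congr rfl fun A _ => ?_
  rw [sum_comm]
  refine sum_congr rfl fun B _ => ?_
  rw [← offDiag_card, ← sum_filter]
  simp only [sum_const, nsmul_eq_mul, mul_one]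
  congr 2
  ext z
  rw [mem_filter, mem_offDiag, mem_offDiag]
  constructor
  · rintro ⟨⟨_, _, h⟩, h1, h2⟩; exact ⟨h1, h2, h⟩
  · rintro ⟨h1, h2, h⟩; exact ⟨⟨mem_univ _, mem_univ _, h⟩, h1, h2⟩

end beck

end Pool.Agent.R980
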