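import Mathlib
import Pool.Agent.R980.DomGame

/-!
# Dominating sets of size `t` in `G(n, 15/16)` for `n = 2 t² 16^t`
-/

set_option autoImplicit false

namespace Pool.Agent.R980

open Finset Filter Topology
open scoped Classical

/-- the number of vertices -/
def Nt (t : ℕ) : ℕ := 2 * t ^ 2 * 16 ^ t

theorem Nt_mul (t : ℕ) : (Nt t : ℝ) * (1 / 16) ^ t = 2 * (t : ℝ) ^ 2 := by
  unfold Nt
  push_cast
  rw [mul_assoc, ← mul_pow]
  norm_num

theorem Nt_ge (t : ℕ) (ht : 1 ≤ t) : 2 * t + 1 ≤ Nt t := by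
  unfold Nt
  have h1 : 16 ≤ 16 ^ t := by
    calc 16 = 16 ^ 1 := by norm_num
      _ ≤ 16 ^ t := Nat.pow_le_pow_right (by norm_num) ht
  have h2 : t ≤ t ^ 2 := by nlinarith
  nlinarith

theorem one_sub_ge {q : ℝ} (h0 : 0 ≤ q) (h1 : q ≤ 1 / 2) :
    Real.exp (-(q + 2 * q ^ 2)) ≤ 1 - q := by
  have h2 := Real.add_one_le_exp (q + 2 * q ^ 2)
  have h3 : 0 < Real.exp (q + 2 * q ^ 2) := Real.exp_pos _
  rw [Real.exp_neg]
  rw [inv_le_comm₀ h3 (by linarith)]
  refine le_trans ?_ h2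
  rw [inv_le_comm₀ (by linarith) (by positivity)]
  rw [inv_le_iff_one_le_mul₀ (by positivity)]
  have : (1 - q) * (q + 2 * q ^ 2 + 1) = 1 + q ^ 2 * (1 - 2 * q) := by ring
  rw [this]
  nlinarith [mul_nonneg (sq_nonneg q) (by linarith : (0 : ℝ) ≤ 1 - 2 * q)]

/-- lower bound for the probability that a `t`-set is dominating -/
theorem E1_ge (t : ℕ) (ht : 1 ≤ t) :
    Real.exp (-(2 * (t : ℝ) ^ 2) - 4 * (t : ℝ) ^ 2 * (1 / 16) ^ t)
      ≤ (1 - (1 / 16 : ℝ) ^ t) ^ (Nt t - t) := by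
  set q : ℝ := (1 / 16 : ℝ) ^ t with hq
  have hq0 : 0 ≤ q := by positivity
  have hq1 : q ≤ 1 / 16 := by
    calc q ≤ (1 / 16 : ℝ) ^ 1 := pow_le_pow_of_le_one (by norm_num) (by norm_num) ht
      _ = 1 / 16 := by norm_num
  have h1 := one_sub_ge hq0 (by linarith)
  have h2 : (1 - q) ^ Nt t ≤ (1 - q) ^ (Nt t - t) :=
    pow_le_pow_of_le_one (by linarith) (by linarith) (Nat.sub_le _ _)
  refine le_trans ?_ h2
  refine le_trans ?_ (pow_le_pow_left₀ (Real.exp_pos _).le h1 _)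
  rw [← Real.exp_nat_mul]
  apply Real.exp_le_exp.2
  have h3 := Nt_mul t
  rw [← hq] at h3
  have h4 : (Nt t : ℝ) * -(q + 2 * q ^ 2) = -((Nt t : ℝ) * q) - 2 * ((Nt t : ℝ) * q) * q := by ring
  rw [h4, h3]
  linarith [mul_nonneg (sq_nonneg (t : ℝ)) hq0]

/-- upper bound for the probability that two `t`-sets meeting in `l` points are dominating -/
theorem beta_le (t l : ℕ) (ht : 1 ≤ t) (hl : l ≤ t) :
    (1 - 2 * (1 / 16 : ℝ) ^ t + (1 / 16) ^ (2 * t - l)) ^ (Nt t - (2 * t - l)) ≤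
      Real.exp (-(4 * (t : ℝ) ^ 2) + 4 * t * (1 / 16) ^ t + 2 * (t : ℝ) ^ 2 * (1 / 16) ^ (t - l)) := by
  set q : ℝ := (1 / 16 : ℝ) ^ t with hq
  set s : ℝ := (1 / 16 : ℝ) ^ (t - l) with hs
  have hq0 : 0 ≤ q := by positivity
  have hs0 : 0 ≤ s := by positivity
  have hs1 : s ≤ 1 := pow_le_one₀ (by norm_num) (by norm_num)
  have hq1 : q ≤ 1 / 16 := by
    calc q ≤ (1 / 16 : ℝ) ^ 1 := pow_le_pow_of_le_one (by norm_num) (by norm_num) ht
      _ = 1 / 16 := by norm_num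
  have e1 : (1 / 16 : ℝ) ^ (2 * t - l) = q * s := by
    rw [hq, hs, ← pow_add]; congr 1; omega
  rw [e1]
  have hb : 1 - 2 * q + q * s ≤ Real.exp (-(2 * q - q * s)) := by
    have := Real.add_one_le_exp (-(2 * q - q * s))
    linarith
  have hb0 : 0 ≤ 1 - 2 * q + q * s := by
    have : 0 ≤ q * s := mul_nonneg hq0 hs0
    linarith
  refine (pow_le_pow_left₀ hb0 hb _).trans ?_
  rw [← Real.exp_nat_mul]
  apply Real.exp_le_exp.2
  have hN := Nt_ge t ht
  rw [Nat.cast_sub (by omega)]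
  have hc : ((2 * t - l : ℕ) : ℝ) ≤ 2 * (t : ℝ) := by
    have : (2 * t - l : ℕ) ≤ 2 * t := Nat.sub_le _ _
    exact_mod_cast this
  have h3 := Nt_mul t
  rw [← hq] at h3
  have hqs : 0 ≤ 2 * q - q * s := by nlinarith
  have h4 : ((2 * t - l : ℕ) : ℝ) * (2 * q - q * s) ≤ 2 * (t : ℝ) * (2 * q - q * s) :=
    mul_le_mul_of_nonneg_right hc hqs
  have h5 : ((Nt t : ℝ) - ((2 * t - l : ℕ) : ℝ)) * -(2 * q - q * s)
      = -2 * ((Nt t : ℝ) * q) + ((Nt t : ℝ) * q) * s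
        + ((2 * t - l : ℕ) : ℝ) * (2 * q - q * s) := by ring
  rw [h5, h3]
  have h6 : 0 ≤ 2 * (t : ℝ) * (q * s) := by positivity
  nlinarith

/-- the main weight -/
noncomputable def tau (t l : ℕ) : ℝ :=
  ((1 / 16 : ℝ) ^ t) ^ l * Real.exp (2 * (t : ℝ) ^ 2 * (1 / 16) ^ (t - l))

theorem tau_le (t l : ℕ) (h4 : 2 * (t : ℝ) ^ 2 * (1 / 4) ^ t ≤ 1) (hl : l ≤ t) :
    tau t l ≤ 3 * ((1 / 16 : ℝ) ^ t) ^ l + (1 / 2) ^ (t ^ 2) := by
  unfold tau
  by_cases h1 : 2 * l ≤ t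
  · have e1 : (1 / 16 : ℝ) ^ (t - l) ≤ (1 / 4) ^ t := by
      have : (1 / 16 : ℝ) = (1 / 4) ^ 2 := by norm_num
      rw [this, ← pow_mul]
      exact pow_le_pow_of_le_one (by norm_num) (by norm_num) (by omega)
    have e2 : Real.exp (2 * (t : ℝ) ^ 2 * (1 / 16) ^ (t - l)) ≤ 3 := by
      have e3 : 2 * (t : ℝ) ^ 2 * (1 / 16) ^ (t - l) ≤ 1 :=
        (mul_le_mul_of_nonneg_left e1 (by positivity)).trans h4
      refine (Real.exp_le_exp.2 e3).trans ?_
      exact Real.exp_one_lt_d9.le.trans (by norm_num)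
    have e4 : ((1 / 16 : ℝ) ^ t) ^ l * Real.exp (2 * (t : ℝ) ^ 2 * (1 / 16) ^ (t - l))
        ≤ ((1 / 16 : ℝ) ^ t) ^ l * 3 := mul_le_mul_of_nonneg_left e2 (by positivity)
    have e5 : (0 : ℝ) ≤ (1 / 2) ^ (t ^ 2) := by positivity
    linarith
  · have e5 : (0 : ℝ) ≤ 3 * ((1 / 16 : ℝ) ^ t) ^ l := by positivity
    suffices h : ((1 / 16 : ℝ) ^ t) ^ l * Real.exp (2 * (t : ℝ) ^ 2 * (1 / 16) ^ (t - l))
        ≤ (1 / 2) ^ (t ^ 2) by linarith
    rcases Nat.lt_or_ge l t with h2 | h2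
    · have e1 : (1 / 16 : ℝ) ^ (t - l) ≤ 1 / 16 := by
        calc (1 / 16 : ℝ) ^ (t - l) ≤ (1 / 16 : ℝ) ^ 1 :=
              pow_le_pow_of_le_one (by norm_num) (by norm_num) (by omega)
          _ = 1 / 16 := by norm_num
      have e2 : Real.exp (2 * (t : ℝ) ^ 2 * (1 / 16) ^ (t - l)) ≤ 2 ^ (t ^ 2) := by
        have e3 : 2 * (t : ℝ) ^ 2 * (1 / 16) ^ (t - l) ≤ ((t ^ 2 : ℕ) : ℝ) * (1 / 2) := by
          push_cast
          nlinarith [sq_nonneg (t : ℝ)]
        refine (Real.exp_le_exp.2 e3).trans ?_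
        rw [Real.exp_nat_mul]
        refine pow_le_pow_left₀ (Real.exp_pos _).le ?_ _
        have h7 : Real.exp (1 / 2) ^ 2 = Real.exp 1 := by
          rw [← Real.exp_nat_mul]; norm_num
        have h8 := Real.exp_one_lt_d9
        have h9 := Real.exp_pos (1 / 2)
        nlinarith
      have e3 : ((1 / 16 : ℝ) ^ t) ^ l ≤ (1 / 4) ^ (t ^ 2) := by
        have : (1 / 16 : ℝ) = (1 / 4) ^ 2 := by norm_num
        rw [this, ← pow_mul, ← pow_mul]
        refine pow_le_pow_of_le_one (by norm_num) (by norm_num) ?_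
        nlinarith
      calc ((1 / 16 : ℝ) ^ t) ^ l * Real.exp (2 * (t : ℝ) ^ 2 * (1 / 16) ^ (t - l))
          ≤ (1 / 4) ^ (t ^ 2) * 2 ^ (t ^ 2) := mul_le_mul e3 e2 (Real.exp_pos _).le (by positivity)
        _ = (1 / 2) ^ (t ^ 2) := by rw [← mul_pow]; norm_num
    · have h3 : l = t := le_antisymm hl h2
      subst h3
      have e1 : ((1 / 16 : ℝ) ^ l) ^ l = (1 / 16) ^ (l ^ 2) := by rw [← pow_mul, sq]
      have e2 : Real.exp (2 * (l : ℝ) ^ 2 * (1 / 16) ^ (l - l)) = (Real.exp 2) ^ (l ^ 2) := by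
        rw [Nat.sub_self, pow_zero, mul_one, ← Real.exp_nat_mul]
        congr 1
        push_cast
        ring
      rw [e1, e2, ← mul_pow]
      refine pow_le_pow_left₀ (by positivity) ?_ _
      have h7 : Real.exp 1 ^ 2 = Real.exp 2 := by
        rw [← Real.exp_nat_mul]; norm_num
      have h8 := Real.exp_one_lt_d9
      have h9 := Real.exp_pos 1
      nlinarith

theorem half_pow_le (t : ℕ) (ht : 8 ≤ t) : (1 / 2 : ℝ) ^ (t ^ 2) ≤ ((1 / 16 : ℝ) ^ t) ^ 2 := by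
  have : (1 / 16 : ℝ) = (1 / 2) ^ 4 := by norm_num
  rw [this, ← pow_mul, ← pow_mul]
  refine pow_le_pow_of_le_one (by norm_num) (by norm_num) ?_
  nlinarith

/-- expected number of dominating `t`-sets -/
noncomputable def EX (t : ℕ) : ℝ := ((Nt t).choose t : ℝ) * (1 - (1 / 16 : ℝ) ^ t) ^ (Nt t - t)

theorem EX_pos (t : ℕ) (ht : 1 ≤ t) : 0 < EX t := by
  unfold EX
  have hN := Nt_ge t ht
  have h1 : 0 < (Nt t).choose t := Nat.choose_pos (by omega)
  refine mul_pos (by exact_mod_cast h1) (pow_pos ?_ _)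
  have : (1 / 16 : ℝ) ^ t < 1 := pow_lt_one₀ (by norm_num) (by norm_num) (by omega)
  linarith

theorem one_sub_p : (1 : ℝ) - 15 / 16 = 1 / 16 := by norm_num

/-- general second moment bound -/
theorem pairs_bound (t : ℕ) (ht : 1 ≤ t) (φ : ℕ → ℝ) (hφ : ∀ l, 0 ≤ φ l) :
    bex (15 / 16) (fun x : Edge (Nt t) → Bool => ∑ S ∈ fam (ofBool x) t,
        ∑ T ∈ fam (ofBool x) t, φ (S ∩ T).card)
      ≤ (EX t) ^ 2 * (Real.exp (12 * (t : ℝ) ^ 2 * (1 / 16) ^ t) *
          ∑ l ∈ range (t + 1), φ l * tau t l) := by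
  have hN := Nt_ge t ht
  refine (bex_pairs (by norm_num) (by norm_num) t φ hφ).trans ?_
  rw [one_sub_p]
  refine (sum_pairs_le t (by omega) (by omega) (fun l => φ l *
    (1 - 2 * (1 / 16 : ℝ) ^ t + (1 / 16) ^ (2 * t - l)) ^ (Nt t - (2 * t - l))) ?_).trans ?_
  · intro l
    refine mul_nonneg (hφ l) (pow_nonneg ?_ _)
    have h1 : (1 / 16 : ℝ) ^ t ≤ 1 / 16 := by
      calc (1 / 16 : ℝ) ^ t ≤ (1 / 16 : ℝ) ^ 1 :=
            pow_le_pow_of_le_one (by norm_num) (by norm_num) ht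
        _ = 1 / 16 := by norm_num
    have h2 : (0 : ℝ) ≤ (1 / 16) ^ (2 * t - l) := by positivity
    linarith
  · unfold EX
    rw [mul_pow, mul_assoc]
    refine mul_le_mul_of_nonneg_left ?_ (by positivity)
    rw [mul_sum, mul_sum]
    refine sum_le_sum fun l hl => ?_
    rw [mem_range] at hl
    have hlt : l ≤ t := by omega
    set q : ℝ := (1 / 16 : ℝ) ^ t with hq
    have hq0 : 0 ≤ q := by positivity
    have hq1 : q ≤ 1 := pow_le_one₀ (by norm_num) (by norm_num)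
    -- (t^2/n)^l ≤ q^l
    have h1 : ((t : ℝ) ^ 2 / (Nt t : ℝ)) ^ l ≤ q ^ l := by
      refine pow_le_pow_left₀ (by positivity) ?_ _
      have hNpos : (0 : ℝ) < Nt t := by
        have : 0 < Nt t := by omega
        exact_mod_cast this
      rw [div_le_iff₀ hNpos, mul_comm, Nt_mul]
      nlinarith [sq_nonneg (t : ℝ)]
    have h2 := beta_le t l ht hlt
    have h3 := E1_ge t ht
    rw [← hq] at h2 h3
    have h4 : Real.exp (-(4 * (t : ℝ) ^ 2) + 4 * t * q + 2 * (t : ℝ) ^ 2 * (1 / 16) ^ (t - l))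
        ≤ ((1 - q) ^ (Nt t - t)) ^ 2 * (Real.exp (12 * (t : ℝ) ^ 2 * q) *
          Real.exp (2 * (t : ℝ) ^ 2 * (1 / 16) ^ (t - l))) := by
      have h5 : (Real.exp (-(2 * (t : ℝ) ^ 2) - 4 * (t : ℝ) ^ 2 * q)) ^ 2
          ≤ ((1 - q) ^ (Nt t - t)) ^ 2 := pow_le_pow_left₀ (Real.exp_pos _).le h3 2
      refine le_trans ?_ (mul_le_mul_of_nonneg_right h5 (by positivity))
      rw [← Real.exp_nat_mul, ← Real.exp_add, ← Real.exp_add]
      apply Real.exp_le_exp.2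
      push_cast
      have ht1 : (1 : ℝ) ≤ (t : ℝ) := by exact_mod_cast ht
      have : (t : ℝ) * q ≤ (t : ℝ) ^ 2 * q := mul_le_mul_of_nonneg_right (by nlinarith) hq0
      nlinarith
    calc ((t : ℝ) ^ 2 / (Nt t : ℝ)) ^ l * (φ l *
          (1 - 2 * q + (1 / 16) ^ (2 * t - l)) ^ (Nt t - (2 * t - l)))
        ≤ q ^ l * (φ l * (((1 - q) ^ (Nt t - t)) ^ 2 * (Real.exp (12 * (t : ℝ) ^ 2 * q) *
          Real.exp (2 * (t : ℝ) ^ 2 * (1 / 16) ^ (t - l))))) := by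
          refine mul_le_mul h1 (mul_le_mul_of_nonneg_left (h2.trans h4) (hφ l)) ?_ (by positivity)
          refine mul_nonneg (hφ l) (pow_nonneg ?_ _)
          have h1' : q ≤ 1 / 16 := by
            calc q ≤ (1 / 16 : ℝ) ^ 1 :=
                  pow_le_pow_of_le_one (by norm_num) (by norm_num) ht
              _ = 1 / 16 := by norm_num
          have h2' : (0 : ℝ) ≤ (1 / 16) ^ (2 * t - l) := by positivity
          linarith
      _ = ((1 - q) ^ (Nt t - t)) ^ 2 * (Real.exp (12 * (t : ℝ) ^ 2 * q) *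
            (φ l * tau t l)) := by
          unfold tau
          ring

/-- the second moment of the number of dominating `t`-sets -/
theorem second_moment (t : ℕ) (ht : 8 ≤ t) (h4 : 2 * (t : ℝ) ^ 2 * (1 / 4) ^ t ≤ 1) :
    bex (15 / 16) (fun x : Edge (Nt t) → Bool => ((fam (ofBool x) t).card : ℝ) ^ 2)
      ≤ (EX t) ^ 2 * (Real.exp (12 * (t : ℝ) ^ 2 * (1 / 16) ^ t) *
          (Real.exp (2 * (t : ℝ) ^ 2 * (1 / 16) ^ t) + 4 * t * (1 / 16) ^ t)) := by
  have h1 := pairs_bound t (by omega) (fun _ => 1) (fun _ => zero_le_one)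
  have h2 : (fun x : Edge (Nt t) → Bool => ∑ S ∈ fam (ofBool x) t,
      ∑ T ∈ fam (ofBool x) t, (fun _ : ℕ => (1 : ℝ)) (S ∩ T).card)
      = fun x => ((fam (ofBool x) t).card : ℝ) ^ 2 := by
    funext x
    simp only [sum_const, nsmul_eq_mul, mul_one]
    rw [sq]
  rw [h2] at h1
  refine h1.trans (mul_le_mul_of_nonneg_left (mul_le_mul_of_nonneg_left ?_ (Real.exp_pos _).le)
    (sq_nonneg _))
  rw [sum_range_succ']
  have h0 : (1 : ℝ) * tau t 0 = Real.exp (2 * (t : ℝ) ^ 2 * (1 / 16) ^ t) := by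
    unfold tau; simp
  rw [h0, add_comm]
  refine add_le_add le_rfl ?_
  set q : ℝ := (1 / 16 : ℝ) ^ t with hq
  have hq0 : 0 ≤ q := by positivity
  have hq1 : q ≤ 1 := pow_le_one₀ (by norm_num) (by norm_num)
  have h5 : ∀ l ∈ range t, (1 : ℝ) * tau t (l + 1) ≤ 4 * q := by
    intro l hl
    rw [mem_range] at hl
    have h6 := tau_le t (l + 1) h4 (by omega)
    rw [← hq] at h6
    have h7 : q ^ (l + 1) ≤ q := by
      calc q ^ (l + 1) ≤ q ^ 1 := pow_le_pow_of_le_one hq0 hq1 (by omega)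
        _ = q := pow_one q
    have h8 := half_pow_le t ht
    rw [← hq] at h8
    nlinarith
  refine (sum_le_card_nsmul _ _ _ h5).trans_eq ?_
  rw [card_range, nsmul_eq_mul]
  ring

/-- the second factorial moment of the intersections -/
theorem pair_moment (t : ℕ) (ht : 8 ≤ t) (h4 : 2 * (t : ℝ) ^ 2 * (1 / 4) ^ t ≤ 1) :
    bex (15 / 16) (fun x : Edge (Nt t) → Bool => ∑ S ∈ fam (ofBool x) t,
        ∑ T ∈ fam (ofBool x) t,
          (((S ∩ T).card * (S ∩ T).card - (S ∩ T).card : ℕ) : ℝ))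
      ≤ (EX t) ^ 2 * (Real.exp (12 * (t : ℝ) ^ 2 * (1 / 16) ^ t) *
          (8 * (t : ℝ) ^ 3 * ((1 / 16) ^ t) ^ 2)) := by
  have h1 := pairs_bound t (by omega) (fun l => ((l * l - l : ℕ) : ℝ)) (fun _ => Nat.cast_nonneg _)
  refine h1.trans (mul_le_mul_of_nonneg_left (mul_le_mul_of_nonneg_left ?_ (Real.exp_pos _).le)
    (sq_nonneg _))
  set q : ℝ := (1 / 16 : ℝ) ^ t with hq
  have hq0 : 0 ≤ q := by positivity
  have hq1 : q ≤ 1 := pow_le_one₀ (by norm_num) (by norm_num)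
  have ht1 : (1 : ℝ) ≤ (t : ℝ) := by
    have : 1 ≤ t := by omega
    exact_mod_cast this
  have h5 : ∀ l ∈ range (t + 1), ((l * l - l : ℕ) : ℝ) * tau t l ≤ (t : ℝ) ^ 2 * (4 * q ^ 2) := by
    intro l hl
    rw [mem_range] at hl
    have hlt : (l : ℝ) ≤ (t : ℝ) := by
      have : l ≤ t := by omega
      exact_mod_cast this
    by_cases h2 : 2 ≤ l
    · have h6 := tau_le t l h4 (by omega)
      rw [← hq] at h6
      have h7 : q ^ l ≤ q ^ 2 := pow_le_pow_of_le_one hq0 hq1 h2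
      have h8 := half_pow_le t ht
      rw [← hq] at h8
      have h9 : ((l * l - l : ℕ) : ℝ) ≤ (t : ℝ) ^ 2 := by
        have h10 : l * l - l ≤ t * t := (Nat.sub_le _ _).trans (Nat.mul_le_mul (by omega) (by omega))
        have h11 : ((l * l - l : ℕ) : ℝ) ≤ ((t * t : ℕ) : ℝ) := Nat.cast_le.2 h10
        refine h11.trans_eq ?_
        push_cast; ring
      have h12 : 0 ≤ tau t l := by unfold tau; positivity
      refine mul_le_mul h9 (by linarith) h12 (by positivity)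
    · have h3 : l * l - l = 0 := by
        have : l = 0 ∨ l = 1 := by omega
        rcases this with rfl | rfl <;> rfl
      rw [h3]
      push_cast
      rw [zero_mul]
      positivity
  refine (sum_le_card_nsmul _ _ _ h5).trans ?_
  rw [card_range, nsmul_eq_mul]
  push_cast
  have : ((t : ℝ) + 1) * ((t : ℝ) ^ 2 * (4 * q ^ 2)) ≤ (2 * (t : ℝ)) * ((t : ℝ) ^ 2 * (4 * q ^ 2)) :=
    mul_le_mul_of_nonneg_right (by linarith) (by positivity)
  refine this.trans_eq ?_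
  ring

/-- few dominating sets is unlikely -/
theorem few_bound (t : ℕ) (ht : 8 ≤ t) (h4 : 2 * (t : ℝ) ^ 2 * (1 / 4) ^ t ≤ 1) :
    gnp (Nt t) (15 / 16) (fun G => ((fam G t).card : ℝ) < EX t / 2)
      ≤ 4 * (Real.exp (12 * (t : ℝ) ^ 2 * (1 / 16) ^ t) *
          (Real.exp (2 * (t : ℝ) ^ 2 * (1 / 16) ^ t) + 4 * t * (1 / 16) ^ t) - 1) := by
  have hE := EX_pos t (by omega)
  have h1 := gnp_markov (p := 15 / 16) (by norm_num) (by norm_num)
    (fun G : SimpleGraph (Fin (Nt t)) => ((fam G t).card : ℝ) < EX t / 2)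
    (fun x => (((fam (ofBool x) t).card : ℝ) - EX t) ^ 2) (fun x => sq_nonneg _)
    ((EX t) ^ 2 / 4) (by positivity) (fun x hx => by nlinarith)
  refine h1.trans ?_
  rw [div_le_iff₀ (by positivity)]
  have h2 : (fun x : Edge (Nt t) → Bool => (((fam (ofBool x) t).card : ℝ) - EX t) ^ 2)
      = fun x => ((((fam (ofBool x) t).card : ℝ) ^ 2 - (2 * EX t) *
          ((fam (ofBool x) t).card : ℝ)) + (EX t) ^ 2) := by
    funext x; ring
  rw [h2, bex_add, bex_sub, bex_mul, bex_const, bex_card_fam, one_sub_p]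
  have h3 := second_moment t ht h4
  have h5 : ((Nt t).choose t : ℝ) * (1 - (1 / 16 : ℝ) ^ t) ^ (Nt t - t) = EX t := rfl
  rw [h5]
  nlinarith

/-- a large second moment of the pair degrees is unlikely -/
theorem pair_bound' (t : ℕ) (ht : 8 ≤ t) (h4 : 2 * (t : ℝ) ^ 2 * (1 / 4) ^ t ≤ 1) :
    gnp (Nt t) (15 / 16) (fun G => (EX t) ^ 2 * ((t : ℝ) ^ 4 * ((1 / 16) ^ t) ^ 2) ≤
        ∑ S ∈ fam G t, ∑ T ∈ fam G t, (((S ∩ T).card * (S ∩ T).card - (S ∩ T).card : ℕ) : ℝ))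
      ≤ Real.exp (12 * (t : ℝ) ^ 2 * (1 / 16) ^ t) * (8 / t) := by
  have hE := EX_pos t (by omega)
  have ht0 : (0 : ℝ) < (t : ℝ) := by
    have : 0 < t := by omega
    exact_mod_cast this
  have h1 := gnp_markov (p := 15 / 16) (by norm_num) (by norm_num)
    (fun G : SimpleGraph (Fin (Nt t)) => (EX t) ^ 2 * ((t : ℝ) ^ 4 * ((1 / 16) ^ t) ^ 2) ≤
        ∑ S ∈ fam G t, ∑ T ∈ fam G t, (((S ∩ T).card * (S ∩ T).card - (S ∩ T).card : ℕ) : ℝ))
    (fun x => ∑ S ∈ fam (ofBool x) t, ∑ T ∈ fam (ofBool x) t,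
      (((S ∩ T).card * (S ∩ T).card - (S ∩ T).card : ℕ) : ℝ))
    (fun x => sum_nonneg fun _ _ => sum_nonneg fun _ _ => Nat.cast_nonneg _)
    ((EX t) ^ 2 * ((t : ℝ) ^ 4 * ((1 / 16) ^ t) ^ 2)) (by positivity) (fun x hx => hx)
  refine h1.trans ?_
  rw [div_le_iff₀ (by positivity)]
  refine (pair_moment t ht h4).trans_eq ?_
  field_simp

/-- two adjacent dominating `t`-sets are unlikely -/
theorem adj_bound (t : ℕ) (ht : 8 ≤ t) (h16 : 2 * (t : ℝ) ^ 2 ≤ Real.exp (t / 16)) :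
    gnp (Nt t) (15 / 16) (fun G => ∃ A B : Finset (Fin (Nt t)), A.card = t ∧ B.card = t ∧
        (A ∩ B).card + 1 = t ∧ Dominating G A ∧ Dominating G B)
      ≤ Real.exp (-(t : ℝ) / 2) := by
  have hN := Nt_ge t (by omega)
  set φ : ℕ → ℝ := fun l => if l + 1 = t then 1 else 0 with hφd
  have hφ : ∀ l, 0 ≤ φ l := fun l => by rw [hφd]; simp only; split_ifs <;> norm_num
  have h1 := gnp_markov (p := 15 / 16) (by norm_num) (by norm_num)
    (fun G : SimpleGraph (Fin (Nt t)) => ∃ A B : Finset (Fin (Nt t)), A.card = t ∧ B.card = t ∧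
        (A ∩ B).card + 1 = t ∧ Dominating G A ∧ Dominating G B)
    (fun x => ∑ S ∈ fam (ofBool x) t, ∑ T ∈ fam (ofBool x) t, φ (S ∩ T).card)
    (fun x => sum_nonneg fun _ _ => sum_nonneg fun _ _ => hφ _) 1 one_pos
    (fun x hx => by
      obtain ⟨A, B, hA, hB, hAB, hdA, hdB⟩ := hx
      have hA' : A ∈ fam (ofBool x) t := (mem_fam _ _ _).2 ⟨hA, hdA⟩
      have hB' : B ∈ fam (ofBool x) t := (mem_fam _ _ _).2 ⟨hB, hdB⟩
      have e1 : (1 : ℝ) = φ (A ∩ B).card := by rw [hφd]; simp only; rw [if_pos hAB]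
      calc (1 : ℝ) = φ (A ∩ B).card := e1
        _ ≤ ∑ T ∈ fam (ofBool x) t, φ (A ∩ T).card :=
            single_le_sum (f := fun T => φ (A ∩ T).card) (fun _ _ => hφ _) hB'
        _ ≤ _ := single_le_sum (f := fun S => ∑ T ∈ fam (ofBool x) t, φ (S ∩ T).card)
            (fun _ _ => sum_nonneg fun _ _ => hφ _) hA')
  refine h1.trans ?_
  rw [div_one]
  refine (bex_pairs (by norm_num) (by norm_num) t φ hφ).trans ?_
  rw [one_sub_p]
  have hq1 : (1 / 16 : ℝ) ^ t ≤ 1 / 16 := by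
    calc (1 / 16 : ℝ) ^ t ≤ (1 / 16 : ℝ) ^ 1 :=
          pow_le_pow_of_le_one (by norm_num) (by norm_num) (by omega)
      _ = 1 / 16 := by norm_num
  refine (sum_pairs_le t (by omega) (by omega) (fun l => φ l *
    (1 - 2 * (1 / 16 : ℝ) ^ t + (1 / 16) ^ (2 * t - l)) ^ (Nt t - (2 * t - l))) ?_).trans ?_
  · intro l
    refine mul_nonneg (hφ l) (pow_nonneg ?_ _)
    have h2 : (0 : ℝ) ≤ (1 / 16) ^ (2 * t - l) := by positivity
    linarith
  · rw [sum_eq_single (t - 1)]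
    · have e1 : φ (t - 1) = 1 := by
        rw [hφd]; simp only; rw [if_pos (by omega)]
      rw [e1, one_mul]
      have h2 := beta_le t (t - 1) (by omega) (by omega)
      have e2 : t - (t - 1) = 1 := by omega
      rw [e2, pow_one] at h2
      have ht8 : (8 : ℝ) ≤ (t : ℝ) := by exact_mod_cast ht
      have hNpos : (0 : ℝ) < Nt t := by
        have : 0 < Nt t := by omega
        exact_mod_cast this
      have h3 : (((Nt t).choose t : ℕ) : ℝ) ≤ (Nt t : ℝ) ^ t := by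
        have := Nat.choose_le_pow (Nt t) t
        exact_mod_cast this
      -- n ≤ exp(t/16 + 3t)
      have h5 : (Nt t : ℝ) ≤ Real.exp (t / 16 + 3 * t) := by
        have e3 : (Nt t : ℝ) = 2 * (t : ℝ) ^ 2 * 16 ^ t := by unfold Nt; push_cast; ring
        rw [e3, Real.exp_add]
        refine mul_le_mul h16 ?_ (by positivity) (Real.exp_pos _).le
        have e4 : Real.exp (3 * t) = (Real.exp 3) ^ t := by
          rw [← Real.exp_nat_mul]; congr 1; ring
        rw [e4]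
        refine pow_le_pow_left₀ (by norm_num) ?_ _
        have e5 : Real.exp 3 = Real.exp 1 ^ 3 := by rw [← Real.exp_nat_mul]; norm_num
        rw [e5]
        have e6 := Real.exp_one_gt_d9
        have e7 : (2.7 : ℝ) ^ 3 ≤ Real.exp 1 ^ 3 := pow_le_pow_left₀ (by norm_num) (by linarith) 3
        refine le_trans ?_ e7
        norm_num
      have h6 : (((Nt t).choose t : ℕ) : ℝ) ^ 2 * ((t : ℝ) ^ 2 / (Nt t : ℝ)) ^ (t - 1)
          ≤ (Nt t : ℝ) ^ (t + 1) * ((t : ℝ) ^ 2) ^ (t - 1) := by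
        rw [div_pow]
        have e3 : (((Nt t).choose t : ℕ) : ℝ) ^ 2 ≤ ((Nt t : ℝ) ^ t) ^ 2 :=
          pow_le_pow_left₀ (Nat.cast_nonneg _) h3 2
        have e4 : ((Nt t : ℝ) ^ t) ^ 2 = (Nt t : ℝ) ^ (t + 1) * (Nt t : ℝ) ^ (t - 1) := by
          rw [← pow_mul, ← pow_add]; congr 1; omega
        rw [e4] at e3
        rw [← mul_div_assoc, div_le_iff₀ (by positivity)]
        calc (((Nt t).choose t : ℕ) : ℝ) ^ 2 * ((t : ℝ) ^ 2) ^ (t - 1)
            ≤ ((Nt t : ℝ) ^ (t + 1) * (Nt t : ℝ) ^ (t - 1)) * ((t : ℝ) ^ 2) ^ (t - 1) :=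
              mul_le_mul_of_nonneg_right e3 (by positivity)
          _ = _ := by ring
      have h7 : (Nt t : ℝ) ^ (t + 1) ≤ Real.exp ((t + 1) * (t / 16 + 3 * t)) := by
        refine (pow_le_pow_left₀ hNpos.le h5 _).trans_eq ?_
        rw [← Real.exp_nat_mul]
        congr 1
        push_cast
        ring
      have h8 : ((t : ℝ) ^ 2) ^ (t - 1) ≤ Real.exp (t * (t / 16)) := by
        have e3 : (t : ℝ) ^ 2 ≤ Real.exp (t / 16) := by nlinarith [sq_nonneg (t : ℝ)]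
        have e4 : (1 : ℝ) ≤ Real.exp (t / 16) := Real.one_le_exp (by positivity)
        calc ((t : ℝ) ^ 2) ^ (t - 1) ≤ (Real.exp (t / 16)) ^ (t - 1) :=
              pow_le_pow_left₀ (by positivity) e3 _
          _ ≤ (Real.exp (t / 16)) ^ t := pow_le_pow_right₀ e4 (by omega)
          _ = Real.exp (t * (t / 16)) := by rw [← Real.exp_nat_mul]
      calc (((Nt t).choose t : ℕ) : ℝ) ^ 2 * (((t : ℝ) ^ 2 / (Nt t : ℝ)) ^ (t - 1) *
            (1 - 2 * (1 / 16 : ℝ) ^ t + (1 / 16) ^ (2 * t - (t - 1))) ^ (Nt t - (2 * t - (t - 1))))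
          = ((((Nt t).choose t : ℕ) : ℝ) ^ 2 * ((t : ℝ) ^ 2 / (Nt t : ℝ)) ^ (t - 1)) *
            (1 - 2 * (1 / 16 : ℝ) ^ t + (1 / 16) ^ (2 * t - (t - 1))) ^
              (Nt t - (2 * t - (t - 1))) := by ring
        _ ≤ (Real.exp ((t + 1) * (t / 16 + 3 * t)) * Real.exp (t * (t / 16))) *
            Real.exp (-(4 * (t : ℝ) ^ 2) + 4 * t * (1 / 16) ^ t + 2 * (t : ℝ) ^ 2 * (1 / 16)) := by
            refine mul_le_mul (h6.trans (mul_le_mul h7 h8 (by positivity) (Real.exp_pos _).le)) h2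
              (pow_nonneg ?_ _) (by positivity)
            have h2 : (0 : ℝ) ≤ (1 / 16) ^ (2 * t - (t - 1)) := by positivity
            linarith
        _ ≤ Real.exp (-(t : ℝ) / 2) := by
            rw [← Real.exp_add, ← Real.exp_add]
            apply Real.exp_le_exp.2
            have e5 : 4 * (t : ℝ) * (1 / 16) ^ t ≤ 4 * (t : ℝ) * (1 / 16) :=
              mul_le_mul_of_nonneg_left hq1 (by positivity)
            nlinarith
    · intro l _ hl
      have : φ l = 0 := by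
        rw [hφd]; simp only; rw [if_neg (by omega)]
      rw [this]; ring
    · intro h
      exact absurd (mem_range.2 (by omega)) h

end Pool.Agent.R980
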