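import Mathlib
import Pool.Agent.R980.DomAsym

/-!
# The typical dense random graph along `n = 2 t² 16^t`
-/

set_option autoImplicit false

namespace Pool.Agent.R980

open Finset Filter Topology
open scoped Classical

/-- the deterministic conclusion about a graph on `Nt t` vertices -/
def Good (t : ℕ) (G : SimpleGraph (Fin (Nt t))) : Prop :=
  (∀ A : Finset (Fin (Nt t)), A.card < t → ¬ Dominating G A) ∧
  (∀ k ≤ t, ¬ ForceD 1 (Dominating G) k ∅ ∅) ∧
  (∃ k, Force 1 (fun D => ∃ D' ⊆ D, D'.card ≤ t ∧ Dominating G D') k ∅ ∅) ∧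
  ∃ A : Finset (Fin (Nt t)), A.card = t ∧ Dominating G A

theorem good_of (t : ℕ) (ht : 8 ≤ t) (h6 : (t : ℝ) ^ 6 * (1 / 4) ^ t ≤ 2)
    (G : SimpleGraph (Fin (Nt t)))
    (hX : EX t / 2 ≤ ((fam G t).card : ℝ))
    (hP : ∑ S ∈ fam G t, ∑ T ∈ fam G t, (((S ∩ T).card * (S ∩ T).card - (S ∩ T).card : ℕ) : ℝ)
      < (EX t) ^ 2 * ((t : ℝ) ^ 4 * ((1 / 16) ^ t) ^ 2))
    (hA : ¬ ∃ A B : Finset (Fin (Nt t)), A.card = t ∧ B.card = t ∧
        (A ∩ B).card + 1 = t ∧ Dominating G A ∧ Dominating G B) : Good t G := by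
  have hN := Nt_ge t (by omega)
  have hE := EX_pos t (by omega)
  have hNpos : (0 : ℝ) < Nt t := by
    have : 0 < Nt t := by omega
    exact_mod_cast this
  obtain ⟨g1, g2⟩ := no_win G t (by omega) (by rw [Fintype.card_fin]; omega)
    (fun A B h1 h2 h3 h4 h5 => hA ⟨A, B, h1, h2, h3, h4, h5⟩)
  refine ⟨g1, g2, ?_, ?_⟩
  · set a : ℝ := EX t / (8 * Nt t) with ha
    set b : ℝ := 4 ^ t * Nt t / (32 * EX t) with hb
    have ha0 : 0 < a := by rw [ha]; positivity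
    have hb0 : 0 < b := by rw [hb]; positivity
    have hab : a * b = 4 ^ t / 256 := by
      rw [ha, hb]; field_simp; norm_num
    obtain ⟨k, hk⟩ := beck (fam G t) t (fun A hA => ((mem_fam G t A).1 hA).1) a b ha0.le hb0.le
      (by
        intro d hd
        have h2 : (2 : ℝ) ^ t * 2 ^ t = 4 ^ t := by rw [← mul_pow]; norm_num
        -- (2^t/4 d)^2 ≤ (2a + 2b d^2)^2
        have h3 : (2 ^ t / 4 * d) ^ 2 ≤ (2 * a + 2 * b * d ^ 2) ^ 2 := by
          have h4 : (2 * a + 2 * b * d ^ 2) ^ 2 = (2 * a - 2 * b * d ^ 2) ^ 2 +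
            16 * (a * b) * d ^ 2 := by ring
          rw [h4, hab]
          have h5 : (2 ^ t / 4 * d) ^ 2 = (2 ^ t * 2 ^ t) / 16 * d ^ 2 := by ring
          rw [h5, h2]
          nlinarith [sq_nonneg (2 * a - 2 * b * d ^ 2)]
        exact (pow_le_pow_iff_left₀ (by positivity) (by positivity) two_ne_zero).1 h3)
      (by
        rw [sum_pd_sq, Fintype.card_fin]
        have h3 : a * (Nt t : ℝ) = EX t / 8 := by
          rw [ha]; field_simp
        have h4 : b * ∑ S ∈ fam G t, ∑ T ∈ fam G t,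
            (((S ∩ T).card * (S ∩ T).card - (S ∩ T).card : ℕ) : ℝ)
            < b * ((EX t) ^ 2 * ((t : ℝ) ^ 4 * ((1 / 16) ^ t) ^ 2)) :=
          mul_lt_mul_of_pos_left hP hb0
        have h5 : b * ((EX t) ^ 2 * ((t : ℝ) ^ 4 * ((1 / 16) ^ t) ^ 2))
            = EX t * (t : ℝ) ^ 6 * (1 / 4) ^ t / 16 := by
          have e1 : b * ((EX t) ^ 2 * ((t : ℝ) ^ 4 * ((1 / 16) ^ t) ^ 2))
              = EX t * (t : ℝ) ^ 4 * (4 ^ t * (1 / 16) ^ t) * (Nt t * (1 / 16) ^ t) / 32 := by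
            rw [hb]; field_simp
          rw [e1, Nt_mul, ← mul_pow]
          norm_num
          ring
        have h6' : EX t * ((t : ℝ) ^ 6 * (1 / 4) ^ t) ≤ EX t * 2 :=
          mul_le_mul_of_nonneg_left h6 hE.le
        rw [h3]
        nlinarith)
    refine ⟨k, hk.mono ?_⟩
    rintro D ⟨A, hAF, hAD⟩
    have := (mem_fam G t A).1 hAF
    exact ⟨A, hAD, this.1.le, this.2⟩
  · have hpos : 0 < (fam G t).card := by
      have : (0 : ℝ) < ((fam G t).card : ℝ) := lt_of_lt_of_le (by positivity) hX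
      exact_mod_cast this
    obtain ⟨A, hAF⟩ := card_pos.1 hpos
    exact ⟨A, (mem_fam G t A).1 hAF⟩

theorem good_prob (t : ℕ) (ht : 8 ≤ t) (h4 : 2 * (t : ℝ) ^ 2 * (1 / 4) ^ t ≤ 1)
    (h6 : (t : ℝ) ^ 6 * (1 / 4) ^ t ≤ 2) (h16 : 2 * (t : ℝ) ^ 2 ≤ Real.exp (t / 16)) :
    1 - (4 * (Real.exp (12 * (t : ℝ) ^ 2 * (1 / 16) ^ t) *
          (Real.exp (2 * (t : ℝ) ^ 2 * (1 / 16) ^ t) + 4 * t * (1 / 16) ^ t) - 1)
        + Real.exp (12 * (t : ℝ) ^ 2 * (1 / 16) ^ t) * (8 / t) + Real.exp (-(t : ℝ) / 2))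
      ≤ gnp (Nt t) (15 / 16) (Good t) := by
  have hp0 : (0 : ℝ) ≤ 15 / 16 := by norm_num
  have hp1 : (15 / 16 : ℝ) ≤ 1 := by norm_num
  set A1 : SimpleGraph (Fin (Nt t)) → Prop := fun G => ((fam G t).card : ℝ) < EX t / 2 with hA1
  set A2 : SimpleGraph (Fin (Nt t)) → Prop := fun G =>
    (EX t) ^ 2 * ((t : ℝ) ^ 4 * ((1 / 16) ^ t) ^ 2) ≤
        ∑ S ∈ fam G t, ∑ T ∈ fam G t, (((S ∩ T).card * (S ∩ T).card - (S ∩ T).card : ℕ) : ℝ)
    with hA2
  set A3 : SimpleGraph (Fin (Nt t)) → Prop := fun G =>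
    ∃ A B : Finset (Fin (Nt t)), A.card = t ∧ B.card = t ∧
        (A ∩ B).card + 1 = t ∧ Dominating G A ∧ Dominating G B with hA3
  have h1 : gnp (Nt t) (15 / 16) A1 ≤ _ := few_bound t ht h4
  have h2 : gnp (Nt t) (15 / 16) A2 ≤ _ := pair_bound' t ht h4
  have h3 : gnp (Nt t) (15 / 16) A3 ≤ _ := adj_bound t ht h16
  have h5 := gnp_or_le (n := Nt t) hp0 hp1 (fun G => A1 G ∨ A2 G) A3
  have h7 := gnp_or_le (n := Nt t) hp0 hp1 A1 A2
  have h8 := gnp_add_not (n := Nt t) (p := 15 / 16) (fun G => (A1 G ∨ A2 G) ∨ A3 G)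
  have h9 : gnp (Nt t) (15 / 16) (fun G => ¬ ((A1 G ∨ A2 G) ∨ A3 G))
      ≤ gnp (Nt t) (15 / 16) (Good t) := by
    refine gnp_mono hp0 hp1 fun G hG => ?_
    rw [not_or, not_or] at hG
    exact good_of t ht h6 G (not_lt.1 hG.1.1) (not_le.1 hG.1.2) hG.2
  linarith

theorem tendsto_pow_mul_geom (k : ℕ) (c : ℝ) (hc0 : 0 ≤ c) (hc1 : c < 1) :
    Tendsto (fun t : ℕ => (t : ℝ) ^ k * c ^ t) atTop (𝓝 0) :=
  tendsto_pow_const_mul_const_pow_of_lt_one k hc0 hc1

/-- With high probability (as `t → ∞`) the graph is good. -/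
theorem good_tendsto : Tendsto (fun t : ℕ => gnp (Nt t) (15 / 16) (Good t)) atTop (𝓝 1) := by
  have e1 : Tendsto (fun t : ℕ => 12 * (t : ℝ) ^ 2 * (1 / 16) ^ t) atTop (𝓝 0) := by
    have := (tendsto_pow_mul_geom 2 (1 / 16) (by norm_num) (by norm_num)).const_mul 12
    simpa [mul_assoc] using this
  have e2 : Tendsto (fun t : ℕ => 2 * (t : ℝ) ^ 2 * (1 / 16) ^ t) atTop (𝓝 0) := by
    have := (tendsto_pow_mul_geom 2 (1 / 16) (by norm_num) (by norm_num)).const_mul 2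
    simpa [mul_assoc] using this
  have e3 : Tendsto (fun t : ℕ => 4 * (t : ℝ) * (1 / 16) ^ t) atTop (𝓝 0) := by
    have := (tendsto_pow_mul_geom 1 (1 / 16) (by norm_num) (by norm_num)).const_mul 4
    simpa [mul_assoc] using this
  have e4 : Tendsto (fun t : ℕ => Real.exp (12 * (t : ℝ) ^ 2 * (1 / 16) ^ t)) atTop (𝓝 1) := by
    have := (Real.continuous_exp.tendsto 0).comp e1
    rw [Real.exp_zero] at this
    exact this
  have e5 : Tendsto (fun t : ℕ => Real.exp (2 * (t : ℝ) ^ 2 * (1 / 16) ^ t)) atTop (𝓝 1) := by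
    have := (Real.continuous_exp.tendsto 0).comp e2
    rw [Real.exp_zero] at this
    exact this
  have e6 : Tendsto (fun t : ℕ => (8 : ℝ) / t) atTop (𝓝 0) :=
    tendsto_const_div_atTop_nhds_zero_nat 8
  have e7 : Tendsto (fun t : ℕ => Real.exp (-(t : ℝ) / 2)) atTop (𝓝 0) := by
    have h1 : Tendsto (fun t : ℕ => -(t : ℝ) / 2) atTop atBot := by
      have : Tendsto (fun t : ℕ => (t : ℝ) / 2) atTop atTop :=
        tendsto_natCast_atTop_atTop.atTop_div_const (by norm_num)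
      have h2 := tendsto_neg_atTop_atBot.comp this
      refine h2.congr fun t => ?_
      simp only [Function.comp]
      ring
    exact Real.tendsto_exp_atBot.comp h1
  have hlow : Tendsto (fun t : ℕ => 1 - (4 * (Real.exp (12 * (t : ℝ) ^ 2 * (1 / 16) ^ t) *
          (Real.exp (2 * (t : ℝ) ^ 2 * (1 / 16) ^ t) + 4 * t * (1 / 16) ^ t) - 1)
        + Real.exp (12 * (t : ℝ) ^ 2 * (1 / 16) ^ t) * (8 / t) + Real.exp (-(t : ℝ) / 2)))
      atTop (𝓝 1) := by
    have := (((((e4.mul (e5.add e3)).sub_const 1).const_mul 4).add (e4.mul e6)).add e7).const_sub 1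
    norm_num at this
    exact this
  have c4 : ∀ᶠ t : ℕ in atTop, 2 * (t : ℝ) ^ 2 * (1 / 4) ^ t ≤ 1 := by
    have h := (tendsto_pow_mul_geom 2 (1 / 4) (by norm_num) (by norm_num)).const_mul 2
    rw [mul_zero] at h
    filter_upwards [h.eventually (gt_mem_nhds one_pos)] with t ht
    rw [mul_assoc]; exact ht.le
  have c6 : ∀ᶠ t : ℕ in atTop, (t : ℝ) ^ 6 * (1 / 4) ^ t ≤ 2 := by
    have h := tendsto_pow_mul_geom 6 (1 / 4) (by norm_num) (by norm_num)
    filter_upwards [h.eventually (gt_mem_nhds two_pos)] with t ht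
    exact ht.le
  have c16 : ∀ᶠ t : ℕ in atTop, 2 * (t : ℝ) ^ 2 ≤ Real.exp (t / 16) := by
    have hc1 : Real.exp (-(1 / 16)) < 1 := by
      rw [Real.exp_lt_one_iff]; norm_num
    have h := (tendsto_pow_mul_geom 2 (Real.exp (-(1 / 16))) (Real.exp_pos _).le hc1).const_mul 2
    rw [mul_zero] at h
    filter_upwards [h.eventually (gt_mem_nhds one_pos)] with t ht
    rw [← Real.exp_nat_mul] at ht
    have h2 : (t : ℝ) * -(1 / 16) = -(t / 16) := by ring
    rw [h2, Real.exp_neg] at ht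
    have h3 := Real.exp_pos ((t : ℝ) / 16)
    have h4 : 2 * ((t : ℝ) ^ 2 * (Real.exp ((t : ℝ) / 16))⁻¹) * Real.exp ((t : ℝ) / 16)
        ≤ 1 * Real.exp ((t : ℝ) / 16) := mul_le_mul_of_nonneg_right ht.le h3.le
    have h5 : 2 * ((t : ℝ) ^ 2 * (Real.exp ((t : ℝ) / 16))⁻¹) * Real.exp ((t : ℝ) / 16)
        = 2 * (t : ℝ) ^ 2 := by field_simp
    rw [h5, one_mul] at h4
    exact h4
  refine tendsto_of_tendsto_of_tendsto_of_le_of_le' hlow tendsto_const_nhds ?_ ?_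
  · filter_upwards [c4, c6, c16, eventually_ge_atTop 8] with t h4 h6 h16 ht
    exact good_prob t ht h4 h6 h16
  · exact Eventually.of_forall fun t => gnp_le_one (by norm_num) (by norm_num) _

theorem Nt_tendsto : Tendsto Nt atTop atTop := by
  refine tendsto_atTop_mono (f := fun t : ℕ => t) (fun t => ?_) tendsto_id
  by_cases ht : 1 ≤ t
  · have := Nt_ge t ht
    omega
  · have : t = 0 := by omega
    rw [this]; exact Nat.zero_le _

/-- transfer of limits along the subsequence -/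
theorem not_tendsto_one (A : (n : ℕ) → SimpleGraph (Fin n) → Prop)
    (h : Tendsto (fun t : ℕ => gnp (Nt t) (15 / 16) (A (Nt t))) atTop (𝓝 0)) :
    ¬ Tendsto (fun n : ℕ => gnp n (15 / 16) (A n)) atTop (𝓝 1) := by
  intro h1
  have h2 := h1.comp Nt_tendsto
  exact zero_ne_one (tendsto_nhds_unique h h2)

theorem prob_zero (A : (n : ℕ) → SimpleGraph (Fin n) → Prop)
    (h : ∀ t G, Good t G → ¬ A (Nt t) G) :
    Tendsto (fun t : ℕ => gnp (Nt t) (15 / 16) (A (Nt t))) atTop (𝓝 0) := by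
  have h1 : Tendsto (fun t : ℕ => 1 - gnp (Nt t) (15 / 16) (Good t)) atTop (𝓝 0) := by
    have := good_tendsto.const_sub 1
    simpa using this
  refine squeeze_zero (fun t => gnp_nonneg (by norm_num) (by norm_num) _) (fun t => ?_) h1
  have h2 := gnp_add_not (n := Nt t) (p := 15 / 16) (Good t)
  have h3 : gnp (Nt t) (15 / 16) (A (Nt t)) ≤ gnp (Nt t) (15 / 16) (fun G => ¬ Good t G) :=
    gnp_mono (by norm_num) (by norm_num) fun G hG hg => h t G hg hG
  linarith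

end Pool.Agent.R980
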