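import Mathlib

set_option autoImplicit false

open scoped ENNReal
open Filter Topology

namespace Pool.Agent.R980.GW

mutual
/-- Finite rooted plane trees: a root together with the ordered forest of the subtrees hanging
from it. -/
inductive PTree : Type
  | node : Forest → PTree
/-- Ordered finite forests of plane trees. -/
inductive Forest : Type
  | nil : Forest
  | cons : PTree → Forest → Forest
end

/-- Number of trees of a forest. -/
def numTrees : Forest → ℕ
  | .nil => 0
  | .cons _ l => 1 + numTrees l

mutual
/-- Number of vertices of a tree. -/
def size : PTree → ℕ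
  | .node l => 1 + forestSize l
/-- Number of vertices of a forest. -/
def forestSize : Forest → ℕ
  | .nil => 0
  | .cons t l => size t + forestSize l
end

mutual
/-- Height of a tree: the largest distance from the root to a vertex. -/
def height : PTree → ℕ
  | .node l => forestHeight l
/-- `0` for the empty forest, and otherwise one more than the largest height of a tree. -/
def forestHeight : Forest → ℕ
  | .nil => 0
  | .cons t l => max (height t + 1) (forestHeight l)
end

mutual
/-- The product, over the vertices `v` of the tree, of `μ (number of children of v)`. -/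
noncomputable def weight (μ : PMF ℕ) : PTree → ℝ≥0∞
  | .node l => μ (numTrees l) * forestWeight μ l
/-- The product of the weights of the trees of a forest. -/
noncomputable def forestWeight (μ : PMF ℕ) : Forest → ℝ≥0∞
  | .nil => 1
  | .cons t l => weight μ t * forestWeight μ l
end

/-- `P(|T| = n)` for the Galton-Watson tree `T` with offspring distribution `μ`. -/
noncomputable def sizeProb (μ : PMF ℕ) (n : ℕ) : ℝ≥0∞ :=
  ∑' t : PTree, if size t = n then weight μ t else 0

open Classical in
/-- `P(T_n ∈ A) = P(T ∈ A, |T| = n) / P(|T| = n)`: the law of the conditioned tree `T_n`. -/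
noncomputable def condProb (μ : PMF ℕ) (n : ℕ) (A : PTree → Prop) : ℝ≥0∞ :=
  (∑' t : PTree, if size t = n ∧ A t then weight μ t else 0) / sizeProb μ n

/-- Critical offspring distribution, the trivial case `μ 1 = 1` excluded. -/
def Critical (μ : PMF ℕ) : Prop :=
  ∑' k : ℕ, (k : ℝ≥0∞) * μ k = 1 ∧ μ 1 ≠ 1

/-! ### Sums over lists -/

/-- Decomposition of lists. -/
def listEquiv (α : Type) : Unit ⊕ (α × List α) ≃ List α where
  toFun := fun s => match s with
    | .inl _ => []
    | .inr p => p.1 :: p.2
  invFun := fun l => match l with
    | [] => .inl ()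
    | a :: l => .inr (a, l)
  left_inv := by rintro (⟨⟩ | ⟨a, l⟩) <;> rfl
  right_inv := by rintro (_ | ⟨a, l⟩) <;> rfl

lemma tsum_list {α : Type} (g : List α → ℝ≥0∞) :
    ∑' l, g l = g [] + ∑' a, ∑' l, g (a :: l) := by
  rw [← (listEquiv α).tsum_eq g, ENNReal.summable.tsum_sum ENNReal.summable, ENNReal.tsum_prod']
  simp [listEquiv]

/-- Sum of products over lists of given length. -/
lemma tsum_list_prod {α : Type} (φ : α → ℝ≥0∞) (k : ℕ) :
    ∑' l : List α, (if l.length = k then (l.map φ).prod else 0) = (∑' a, φ a) ^ k := by
  induction k with
  | zero =>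
    rw [tsum_list]
    simp
  | succ k ih =>
    rw [tsum_list]
    simp only [List.length_nil, List.length_cons, List.map_cons, List.prod_cons,
      Nat.add_right_cancel_iff]
    rw [if_neg (by omega), zero_add]
    have : ∀ a : α, (∑' l : List α, if l.length = k then φ a * (l.map φ).prod else 0) =
        φ a * (∑' a, φ a) ^ k := by
      intro a
      rw [← ih, ← ENNReal.tsum_mul_left]
      congr 1
      funext l
      split_ifs <;> simp
    simp_rw [this]
    rw [ENNReal.tsum_mul_right, pow_succ, mul_comm]

lemma tsum_list_weighted {α : Type} (m : ℕ → ℝ≥0∞) (φ : α → ℝ≥0∞) :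
    ∑' l : List α, m l.length * (l.map φ).prod = ∑' k, m k * (∑' a, φ a) ^ k := by
  have h1 : ∀ l : List α, m l.length * (l.map φ).prod =
      ∑' k, m k * (if l.length = k then (l.map φ).prod else 0) := by
    intro l
    rw [tsum_eq_single l.length]
    · simp
    · intro k hk
      rw [if_neg (Ne.symm hk), mul_zero]
  simp_rw [h1]
  rw [ENNReal.tsum_comm]
  congr 1
  funext k
  rw [ENNReal.tsum_mul_left, tsum_list_prod]

/-- The forest with a given list of trees. -/
def ofList : List PTree → Forest
  | [] => .nil
  | t :: l => .cons t (ofList l)

/-- The list of trees of a forest. -/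
def toList : Forest → List PTree
  | .nil => []
  | .cons t l => t :: toList l

lemma toList_ofList (l : List PTree) : toList (ofList l) = l := by
  induction l with
  | nil => rfl
  | cons t l ih => simp [ofList, toList, ih]

lemma ofList_toList : ∀ f : Forest, ofList (toList f) = f
  | .nil => rfl
  | .cons t l => by
    have := ofList_toList l
    simp [ofList, toList, this]

/-- The tree with a given list of subtrees at the root. -/
def mk (l : List PTree) : PTree := .node (ofList l)

/-- Number of vertices of a list of trees. -/
def sizeF (l : List PTree) : ℕ := forestSize (ofList l)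

/-- Height function of lists of trees. -/
def heightF (l : List PTree) : ℕ := forestHeight (ofList l)

/-- Weight of lists of trees. -/
noncomputable def weightF (μ : PMF ℕ) (l : List PTree) : ℝ≥0∞ := forestWeight μ (ofList l)

lemma numTrees_ofList (l : List PTree) : numTrees (ofList l) = l.length := by
  induction l with
  | nil => rfl
  | cons t l ih =>
    simp only [ofList, numTrees, List.length_cons, ih]
    omega

lemma sizeF_nil : sizeF [] = 0 := by simp [sizeF, ofList, forestSize]

lemma sizeF_cons (t : PTree) (l : List PTree) : sizeF (t :: l) = size t + sizeF l := by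
  simp [sizeF, ofList, forestSize]

lemma heightF_nil : heightF [] = 0 := by simp [heightF, ofList, forestHeight]

lemma heightF_cons (t : PTree) (l : List PTree) :
    heightF (t :: l) = max (height t + 1) (heightF l) := by
  simp [heightF, ofList, forestHeight]

lemma weightF_nil (μ : PMF ℕ) : weightF μ [] = 1 := by simp [weightF, ofList, forestWeight]

lemma weightF_cons (μ : PMF ℕ) (t : PTree) (l : List PTree) :
    weightF μ (t :: l) = weight μ t * weightF μ l := by
  simp [weightF, ofList, forestWeight]

lemma size_mk (l : List PTree) : size (mk l) = 1 + sizeF l := by simp [mk, size, sizeF]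

lemma height_mk (l : List PTree) : height (mk l) = heightF l := by simp [mk, height, heightF]

lemma weight_mk (μ : PMF ℕ) (l : List PTree) :
    weight μ (mk l) = μ l.length * weightF μ l := by
  simp [mk, weight, weightF, numTrees_ofList]

lemma mk_toList (f : Forest) : mk (toList f) = .node f := by
  rw [mk, ofList_toList]

mutual
theorem induct_aux {p : PTree → Prop} {q : List PTree → Prop} (h1 : ∀ l, q l → p (mk l))
    (h2 : q []) (h3 : ∀ t l, p t → q l → q (t :: l)) : ∀ t : PTree, p t
  | .node f => by
    have := induct_auxF h1 h2 h3 f
    have h := h1 _ this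
    rwa [mk_toList] at h
theorem induct_auxF {p : PTree → Prop} {q : List PTree → Prop} (h1 : ∀ l, q l → p (mk l))
    (h2 : q []) (h3 : ∀ t l, p t → q l → q (t :: l)) : ∀ f : Forest, q (toList f)
  | .nil => h2
  | .cons t f => h3 t _ (induct_aux h1 h2 h3 t) (induct_auxF h1 h2 h3 f)
end

/-- Simultaneous induction on trees and lists of trees. -/
theorem tree_induct {p : PTree → Prop} {q : List PTree → Prop} (h1 : ∀ l, q l → p (mk l))
    (h2 : q []) (h3 : ∀ t l, p t → q l → q (t :: l)) : (∀ t, p t) ∧ ∀ l, q l := by
  refine ⟨induct_aux h1 h2 h3, fun l => ?_⟩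
  have := induct_auxF h1 h2 h3 (ofList l)
  rwa [toList_ofList] at this

/-- Trees are lists of trees. -/
def nodeEquiv : List PTree ≃ PTree where
  toFun := mk
  invFun := fun t => match t with | .node f => toList f
  left_inv := fun l => toList_ofList l
  right_inv := by rintro ⟨f⟩; exact mk_toList f

lemma tsum_tree (g : PTree → ℝ≥0∞) : ∑' t, g t = ∑' l : List PTree, g (mk l) := by
  rw [← nodeEquiv.tsum_eq g]
  rfl

lemma one_le_size (t : PTree) : 1 ≤ size t := by
  cases t with
  | node l => simp [size]

lemma length_le_sizeF (l : List PTree) : l.length ≤ sizeF l := by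
  induction l with
  | nil => simp
  | cons t l ih =>
    have := one_le_size t
    simp only [List.length_cons, sizeF_cons]
    omega

end Pool.Agent.R980.GW
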