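import Pool.Agent.R980.GWHeight

set_option autoImplicit false

open scoped ENNReal
open Filter Topology

namespace Pool.Agent.R980.GW

mutual
/-- Depth-first code of a tree. -/
def code : PTree → List ℕ
  | .node l => numTrees l :: codeFo l
/-- Depth-first code of a forest. -/
def codeFo : Forest → List ℕ
  | .nil => []
  | .cons t l => code t ++ codeFo l
end

/-- Depth-first code of a list of trees. -/
def codeF (l : List PTree) : List ℕ := codeFo (ofList l)

lemma codeF_nil : codeF [] = [] := by simp [codeF, ofList, codeFo]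

lemma codeF_cons (t : PTree) (l : List PTree) : codeF (t :: l) = code t ++ codeF l := by
  simp [codeF, ofList, codeFo]

lemma code_mk (l : List PTree) : code (mk l) = l.length :: codeF l := by
  simp [mk, code, codeF, numTrees_ofList]

lemma length_codeF (l : List PTree) : (codeF l).length = sizeF l := by
  refine (tree_induct (p := fun t => (code t).length = size t)
    (q := fun l => (codeF l).length = sizeF l) ?_ ?_ ?_).2 l
  · intro l hl
    rw [code_mk, size_mk, List.length_cons, hl]
    omega
  · simp [codeF_nil, sizeF_nil]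
  · intro t l h1 h2
    rw [codeF_cons, sizeF_cons, List.length_append, h1, h2]

/-- Product of the offspring weights along a list. -/
noncomputable def wl (μ : PMF ℕ) (x : List ℕ) : ℝ≥0∞ := (x.map μ).prod

lemma wl_append (μ : PMF ℕ) (x y : List ℕ) : wl μ (x ++ y) = wl μ x * wl μ y := by
  simp [wl]

lemma weight_codeF (μ : PMF ℕ) (l : List PTree) : weightF μ l = wl μ (codeF l) := by
  refine (tree_induct (p := fun t => weight μ t = wl μ (code t))
    (q := fun l => weightF μ l = wl μ (codeF l)) ?_ ?_ ?_).2 l
  · intro l hl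
    rw [code_mk, weight_mk, hl]
    simp [wl]
  · simp [codeF_nil, weightF_nil, wl]
  · intro t l h1 h2
    rw [codeF_cons, weightF_cons, wl_append, h1, h2]

lemma codeF_append (l l' : List PTree) : codeF (l ++ l') = codeF l ++ codeF l' := by
  induction l with
  | nil => simp [codeF_nil]
  | cons t l ih => simp [codeF_cons, ih]

/-- Codes of forests of `k` trees. -/
def Luk : ℕ → List ℕ → Prop
  | k, [] => k = 0
  | 0, _ :: _ => False
  | k + 1, a :: x => Luk (k + a) x

lemma exists_forest (x : List ℕ) : ∀ k, Luk k x → ∃ l : List PTree, l.length = k ∧ codeF l = x := by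
  induction x with
  | nil =>
    intro k hk
    cases k with
    | zero => exact ⟨[], rfl, by simp [codeF_nil]⟩
    | succ k => simp [Luk] at hk
  | cons a x ih =>
    intro k hk
    cases k with
    | zero => simp [Luk] at hk
    | succ k =>
      simp only [Luk] at hk
      obtain ⟨l, hl, hc⟩ := ih _ hk
      refine ⟨mk (l.take a) :: l.drop a, ?_, ?_⟩
      · simp only [List.length_cons, List.length_drop]
        omega
      · rw [codeF_cons, code_mk, List.cons_append, ← codeF_append, List.take_append_drop, hc, List.length_take]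
        congr 1
        omega

lemma luk_of_prefix (x : List ℕ) : ∀ k, x.length = k + x.sum →
    (∀ j < x.length, j < k + (x.take j).sum) → Luk k x := by
  induction x with
  | nil =>
    intro k hk _
    simp only [List.length_nil, List.sum_nil, add_zero] at hk
    simp [Luk, ← hk]
  | cons a x ih =>
    intro k hk hj
    cases k with
    | zero =>
      have := hj 0 (by simp)
      simp at this
    | succ k =>
      simp only [Luk]
      apply ih
      · simp only [List.length_cons, List.sum_cons] at hk
        omega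
      · intro j hj'
        have := hj (j + 1) (by simpa using hj')
        simp only [List.take_succ_cons, List.sum_cons] at this
        omega

/-- The cycle lemma, existence part. -/
lemma exists_rotate (x : List ℕ) (hm : 1 ≤ x.length) (hx : x.sum < x.length) :
    ∃ p < x.length, ∃ k, Luk k (x.rotate (p + 1)) := by
  set m := x.length with hmdef
  let D : ℕ → ℤ := fun i => ((x.take i).sum : ℤ) - i
  obtain ⟨p, hp, hmin⟩ := Finset.exists_min_image (Finset.Icc 1 m)
    (fun i => (m + 1 : ℤ) * D i + i) ⟨1, by simp [hm]⟩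
  rw [Finset.mem_Icc] at hp
  have hle : ∀ i, 1 ≤ i → i ≤ m → D p ≤ D i := by
    intro i h1 h2
    have h3 : (m + 1 : ℤ) * D p + p ≤ (m + 1 : ℤ) * D i + i :=
      hmin i (by rw [Finset.mem_Icc]; exact ⟨h1, h2⟩)
    by_contra hcon
    push Not at hcon
    have h4 : D i + 1 ≤ D p := hcon
    have h5 : (m + 1 : ℤ) * (D i + 1) ≤ (m + 1) * D p :=
      mul_le_mul_of_nonneg_left h4 (by positivity)
    have h6 : (i : ℤ) ≤ m := by exact_mod_cast h2
    have h7 : (1 : ℤ) ≤ p := by exact_mod_cast hp.1
    linarith
  have hlt : ∀ i, 1 ≤ i → i < p → D p < D i := by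
    intro i h1 h2
    have h3 : (m + 1 : ℤ) * D p + p ≤ (m + 1 : ℤ) * D i + i :=
      hmin i (by rw [Finset.mem_Icc]; omega)
    have h4 := hle i h1 (by omega)
    rcases h4.lt_or_eq with h5 | h5
    · exact h5
    · exfalso
      rw [h5] at h3
      have : (p : ℤ) ≤ i := by linarith
      have : p ≤ i := by exact_mod_cast this
      omega
  refine ⟨p - 1, by omega, m - x.sum, ?_⟩
  have hp1 : p - 1 + 1 = p := by omega
  rw [hp1, List.rotate_eq_drop_append_take (by omega)]
  have hT : (x.drop p).sum + (x.take p).sum = x.sum := by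
    have := congrArg List.sum (List.take_append_drop p x)
    rw [List.sum_append] at this
    omega
  apply luk_of_prefix
  · simp only [List.length_append, List.length_drop, List.length_take, List.sum_append, hT]
    omega
  · intro j hj
    simp only [List.length_append, List.length_drop, List.length_take] at hj
    have hjm : j < m := by omega
    rcases le_or_gt j (m - p) with h1 | h1
    · rw [List.take_append_of_le_length (by rw [List.length_drop]; omega)]
      have h2 : ((x.drop p).take j).sum + (x.take p).sum = (x.take (p + j)).sum := by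
        rw [List.take_add, List.sum_append]
        omega
      have h3 := hle (p + j) (by omega) (by omega)
      simp only [D] at h3
      omega
    · have hlen : (x.drop p).length = m - p := by rw [List.length_drop]
      obtain ⟨i, hi⟩ : ∃ i, j = (x.drop p).length + i := ⟨j - (m - p), by omega⟩
      have hi1 : 1 ≤ i := by omega
      have hi2 : i < p := by omega
      rw [hi, List.take_length_add_append, List.sum_append, List.take_take,
        min_eq_left (by omega), hlen]
      have h3 := hlt i hi1 hi2
      simp only [D] at h3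
      omega

lemma tsum_length (μ : PMF ℕ) (m : ℕ) :
    ∑' x : List ℕ, (if x.length = m then wl μ x else 0) = 1 := by
  have := tsum_list_prod (fun k => μ k) m
  rw [μ.tsum_coe, one_pow] at this
  exact this

lemma tsum_length_sum (μ : PMF ℕ) (g : ℕ → ℝ≥0∞) (m : ℕ) :
    ∑' x : List ℕ, (if x.length = m then wl μ x * (x.map g).sum else 0) =
      m * ∑' a, μ a * g a := by
  induction m with
  | zero =>
    rw [tsum_list]
    simp
  | succ m ih =>
    rw [tsum_list]
    simp only [List.length_nil, List.length_cons, Nat.add_right_cancel_iff, List.map_cons,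
      List.sum_cons]
    rw [if_neg (by omega), zero_add]
    have h1 : ∀ a : ℕ, (∑' l : List ℕ,
        if l.length = m then wl μ (a :: l) * (g a + (l.map g).sum) else 0) =
        μ a * g a + μ a * (m * ∑' a, μ a * g a) := by
      intro a
      have h2 : ∀ l : List ℕ, (if l.length = m then wl μ (a :: l) * (g a + (l.map g).sum) else 0) =
          μ a * g a * (if l.length = m then wl μ l else 0) +
          μ a * (if l.length = m then wl μ l * (l.map g).sum else 0) := by
        intro l
        split_ifs
        · simp only [wl, List.map_cons, List.prod_cons]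
          ring
        · simp
      simp_rw [h2]
      rw [ENNReal.tsum_add, ENNReal.tsum_mul_left, ENNReal.tsum_mul_left, tsum_length, ih, mul_one]
    simp_rw [h1]
    rw [ENNReal.tsum_add, ENNReal.tsum_mul_right, μ.tsum_coe]
    push_cast
    ring

/-- `E (X - m)^+` in the extended reals. -/
lemma ofReal_Lf (μ : PMF ℕ) (hm : ∑' k : ℕ, (k : ℝ≥0∞) * μ k = 1) (m : ℕ) :
    ENNReal.ofReal (Lf μ m) = ∑' a : ℕ, μ a * ((a - m : ℕ) : ℝ≥0∞) := by
  have h1 : ∑' a : ℕ, μ a * ((a - m : ℕ) : ℝ≥0∞) ≤ 1 := by
    rw [← hm]
    apply ENNReal.tsum_le_tsum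
    intro a
    rw [mul_comm]
    gcongr
    exact Nat.sub_le a m
  rw [← ENNReal.ofReal_toReal (ne_top_of_le_ne_top ENNReal.one_ne_top h1)]
  congr 1
  rw [Lf, ENNReal.tsum_toReal_eq]
  · congr 1
    funext a
    rw [ENNReal.toReal_mul]
    congr 1
    rcases le_total a m with h2 | h2
    · rw [Nat.sub_eq_zero_of_le h2, max_eq_right]
      · simp
      · have : (a : ℝ) ≤ m := by exact_mod_cast h2
        linarith
    · rw [max_eq_left]
      · rw [ENNReal.toReal_natCast, Nat.cast_sub h2]
      · have : (m : ℝ) ≤ a := by exact_mod_cast h2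
        linarith
  · intro a
    exact ENNReal.mul_ne_top (μ.apply_ne_top a) (by simp)

/-- `P(X_1 + ... + X_m < m) ≥ E (X - m)^+`. -/
lemma small_sum (μ : PMF ℕ) (hm : ∑' k : ℕ, (k : ℝ≥0∞) * μ k = 1) (m : ℕ) (hm1 : 1 ≤ m) :
    ENNReal.ofReal (Lf μ m) ≤
      ∑' x : List ℕ, (if x.length = m ∧ x.sum < m then wl μ x else 0) := by
  set P := ∑' x : List ℕ, (if x.length = m ∧ x.sum < m then wl μ x else 0) with hP
  set Q := ∑' x : List ℕ, (if x.length = m ∧ m ≤ x.sum then wl μ x else 0) with hQ
  have hPQ : P + Q = 1 := by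
    rw [hP, hQ, ← ENNReal.tsum_add, ← tsum_length μ m]
    congr 1
    funext x
    by_cases h1 : x.length = m
    · by_cases h2 : x.sum < m
      · rw [if_pos ⟨h1, h2⟩, if_neg (by omega), if_pos h1, add_zero]
      · rw [if_neg (by omega), if_pos ⟨h1, by omega⟩, if_pos h1, zero_add]
    · rw [if_neg (by tauto), if_neg (by tauto), if_neg h1, add_zero]
  have hM : (m : ℝ≥0∞) * Q ≤ m * ∑' a : ℕ, μ a * ((min a m : ℕ) : ℝ≥0∞) := by
    rw [← tsum_length_sum μ (fun a => ((min a m : ℕ) : ℝ≥0∞)) m, hQ, ← ENNReal.tsum_mul_left]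
    apply ENNReal.tsum_le_tsum
    intro x
    by_cases h1 : x.length = m ∧ m ≤ x.sum
    · rw [if_pos h1, if_pos h1.1, mul_comm]
      gcongr
      have h2 : m ≤ (x.map fun a => min a m).sum := by
        have h3 : ∀ y : List ℕ, min y.sum m ≤ (y.map fun a => min a m).sum := by
          intro y
          induction y with
          | nil => simp
          | cons a y ih =>
            simp only [List.sum_cons, List.map_cons]
            omega
        have := h3 x
        rw [min_eq_right h1.2] at this
        exact this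
      have h4 : ((x.map fun a => ((min a m : ℕ) : ℝ≥0∞)).sum) =
          (((x.map fun a => min a m).sum : ℕ) : ℝ≥0∞) := by
        rw [Nat.cast_list_sum, List.map_map]
        rfl
      rw [h4]
      exact_mod_cast h2
    · rw [if_neg h1, mul_zero]
      exact zero_le
  have hQM : Q ≤ ∑' a : ℕ, μ a * ((min a m : ℕ) : ℝ≥0∞) := by
    have hm0 : (m : ℝ≥0∞) ≠ 0 := by
      have : m ≠ 0 := by omega
      exact_mod_cast this
    exact (ENNReal.mul_le_mul_iff_right hm0 (by simp)).mp hM
  have hsum : ∑' a : ℕ, μ a * ((min a m : ℕ) : ℝ≥0∞) + ENNReal.ofReal (Lf μ m) = 1 := by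
    rw [ofReal_Lf μ hm, ← ENNReal.tsum_add, ← hm]
    congr 1
    funext a
    rw [← mul_add, mul_comm]
    congr 1
    have : min a m + (a - m) = a := by omega
    exact_mod_cast this
  have hQ1 : Q ≠ ∞ := by
    refine ne_top_of_le_ne_top ENNReal.one_ne_top ?_
    rw [← hPQ]
    exact le_add_self
  have h5 : Q + ENNReal.ofReal (Lf μ m) ≤ Q + P := by
    rw [add_comm Q P, hPQ, ← hsum]
    gcongr
  exact (ENNReal.add_le_add_iff_left hQ1).mp h5

open Classical in
lemma cyc_ineq (μ : PMF ℕ) (m : ℕ) (hm1 : 1 ≤ m) :
    ∑' x : List ℕ, (if x.length = m ∧ x.sum < m then wl μ x else 0) ≤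
      m * ∑' x : List ℕ, (if x.length = m ∧ ∃ k, Luk k x then wl μ x else 0) := by
  set C := ∑' x : List ℕ, (if x.length = m ∧ ∃ k, Luk k x then wl μ x else 0) with hC
  have h1 : ∀ x : List ℕ, (if x.length = m ∧ x.sum < m then wl μ x else 0) ≤
      ∑ p ∈ Finset.range m, (if (x.rotate (p + 1)).length = m ∧ ∃ k, Luk k (x.rotate (p + 1))
        then wl μ (x.rotate (p + 1)) else 0) := by
    intro x
    by_cases h2 : x.length = m ∧ x.sum < m
    · rw [if_pos h2]
      obtain ⟨p, hp, hk⟩ := exists_rotate x (by omega) (by omega)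
      have h3 : wl μ x = (if (x.rotate (p + 1)).length = m ∧ ∃ k, Luk k (x.rotate (p + 1))
        then wl μ (x.rotate (p + 1)) else 0) := by
        rw [if_pos ⟨by rw [List.length_rotate]; exact h2.1, hk⟩]
        simp only [wl]
        exact (((List.rotate_perm x (p + 1)).map μ).prod_eq).symm
      rw [h3]
      exact Finset.single_le_sum (f := fun p => (if (x.rotate (p + 1)).length = m ∧
        ∃ k, Luk k (x.rotate (p + 1)) then wl μ (x.rotate (p + 1)) else 0))
        (fun _ _ => zero_le) (Finset.mem_range.mpr (by omega))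
    · rw [if_neg h2]
      exact zero_le
  calc ∑' x : List ℕ, (if x.length = m ∧ x.sum < m then wl μ x else 0)
      ≤ ∑' x : List ℕ, ∑ p ∈ Finset.range m,
        (if (x.rotate (p + 1)).length = m ∧ ∃ k, Luk k (x.rotate (p + 1))
        then wl μ (x.rotate (p + 1)) else 0) := ENNReal.tsum_le_tsum h1
    _ = ∑ p ∈ Finset.range m, ∑' x : List ℕ,
        (if (x.rotate (p + 1)).length = m ∧ ∃ k, Luk k (x.rotate (p + 1))
        then wl μ (x.rotate (p + 1)) else 0) := by
        rw [Summable.tsum_finsetSum]
        intro _ _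
        exact ENNReal.summable
    _ ≤ ∑ p ∈ Finset.range m, C := by
        apply Finset.sum_le_sum
        intro p _
        exact ENNReal.tsum_comp_le_tsum_of_injective (List.rotate_injective (p + 1))
          (fun y : List ℕ => if y.length = m ∧ ∃ k, Luk k y then wl μ y else 0)
    _ = m * C := by simp

open Classical in
lemma forest_ge (μ : PMF ℕ) (m : ℕ) :
    ∑' x : List ℕ, (if x.length = m ∧ ∃ k, Luk k x then wl μ x else 0) ≤
      ∑' l : List PTree, (if sizeF l = m then weightF μ l else 0) := by
  have hex : ∀ x : {x : List ℕ // x.length = m ∧ ∃ k, Luk k x}, ∃ l : List PTree,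
      codeF l = x.1 := by
    rintro ⟨x, _, k, hk⟩
    obtain ⟨l, _, hl⟩ := exists_forest x k hk
    exact ⟨l, hl⟩
  choose dec hdec using hex
  have hinj : Function.Injective dec := by
    intro x y hxy
    apply Subtype.ext
    rw [← hdec x, ← hdec y, hxy]
  have h1 : ∑' x : List ℕ, (if x.length = m ∧ ∃ k, Luk k x then wl μ x else 0) =
      ∑' x : {x : List ℕ // x.length = m ∧ ∃ k, Luk k x}, wl μ x.1 := by
    have := tsum_subtype {x : List ℕ | x.length = m ∧ ∃ k, Luk k x} (wl μ)
    rw [show (∑' x : {x : List ℕ // x.length = m ∧ ∃ k, Luk k x}, wl μ x.1) =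
      ∑' x : {x : List ℕ | x.length = m ∧ ∃ k, Luk k x}, wl μ x from rfl, this]
    congr 1
    funext x
    by_cases h2 : x.length = m ∧ ∃ k, Luk k x
    · rw [if_pos h2, Set.indicator_of_mem (by exact h2)]
    · rw [if_neg h2, Set.indicator_of_notMem (by exact h2)]
  rw [h1]
  calc ∑' x : {x : List ℕ // x.length = m ∧ ∃ k, Luk k x}, wl μ x.1
      = ∑' x : {x : List ℕ // x.length = m ∧ ∃ k, Luk k x},
        (fun l => if sizeF l = m then weightF μ l else 0) (dec x) := by
        congr 1
        funext x
        simp only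
        rw [weight_codeF, hdec x, if_pos]
        rw [← length_codeF, hdec x]
        exact x.2.1
    _ ≤ _ := ENNReal.tsum_comp_le_tsum_of_injective hinj _

lemma sizeProb_ge (μ : PMF ℕ) (m : ℕ) (hm1 : 1 ≤ m) (c : ℝ≥0∞)
    (hc : ∀ k, 1 ≤ k → k ≤ m → c ≤ μ k) :
    c * ∑' l : List PTree, (if sizeF l = m then weightF μ l else 0) ≤ sizeProb μ (m + 1) := by
  unfold sizeProb
  rw [tsum_tree, ← ENNReal.tsum_mul_left]
  apply ENNReal.tsum_le_tsum
  intro l
  have e1 : weight μ (mk l) = μ l.length * weightF μ l := weight_mk μ l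
  have e2 : size (mk l) = 1 + sizeF l := size_mk l
  rw [e1, e2]
  by_cases h1 : sizeF l = m
  · rw [if_pos h1, if_pos (by omega)]
    gcongr
    apply hc
    · cases l with
      | nil => rw [sizeF_nil] at h1; omega
      | cons t l => simp
    · rw [← h1]
      exact length_le_sizeF l
  · rw [if_neg h1, mul_zero]
    exact zero_le

/-- Lower bound for `P(|T| = m + 1)`. -/
lemma sizeProb_lower (μ : PMF ℕ) (hm : ∑' k : ℕ, (k : ℝ≥0∞) * μ k = 1) (m : ℕ) (hm1 : 1 ≤ m)
    (c : ℝ≥0∞) (hc : ∀ k, 1 ≤ k → k ≤ m → c ≤ μ k) :
    c * ENNReal.ofReal (Lf μ m) ≤ m * sizeProb μ (m + 1) := by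
  classical
  calc c * ENNReal.ofReal (Lf μ m)
      ≤ c * (m * ∑' l : List PTree, (if sizeF l = m then weightF μ l else 0)) := by
        gcongr
        refine (small_sum μ hm m hm1).trans ((cyc_ineq μ m hm1).trans ?_)
        gcongr
        exact forest_ge μ m
    _ = m * (c * ∑' l : List PTree, (if sizeF l = m then weightF μ l else 0)) := by ring
    _ ≤ m * sizeProb μ (m + 1) := by
        gcongr
        exact sizeProb_ge μ m hm1 c hc

end Pool.Agent.R980.GW
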