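import Pool.Agent.R980.GWDefs

set_option autoImplicit false

open scoped ENNReal
open Filter Topology

namespace Pool.Agent.R980.GW

/-- `E[z^{|T|}; H(T) < h]`. -/
noncomputable def Ah (μ : PMF ℕ) (z : ℝ≥0∞) (h : ℕ) : ℝ≥0∞ :=
  ∑' t : PTree, if height t < h then weight μ t * z ^ size t else 0

lemma prod_phi (μ : PMF ℕ) (z : ℝ≥0∞) (h : ℕ) (l : List PTree) :
    (l.map fun t => if height t < h then weight μ t * z ^ size t else 0).prod =
      if heightF l < h + 1 then weightF μ l * z ^ sizeF l else 0 := by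
  induction l with
  | nil => simp [heightF_nil, weightF_nil, sizeF_nil]
  | cons t l ih =>
    rw [List.map_cons, List.prod_cons, ih, heightF_cons, weightF_cons, sizeF_cons]
    by_cases h1 : height t < h
    · by_cases h2 : heightF l < h + 1
      · rw [if_pos h1, if_pos h2, if_pos]
        · simp only [pow_add]
          ring
        · omega
      · rw [if_neg h2, mul_zero, if_neg]
        omega
    · rw [if_neg h1, zero_mul, if_neg]
      omega

lemma Ah_zero (μ : PMF ℕ) (z : ℝ≥0∞) : Ah μ z 0 = 0 := by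
  simp [Ah]

lemma Ah_succ (μ : PMF ℕ) (z : ℝ≥0∞) (h : ℕ) :
    Ah μ z (h + 1) = z * ∑' k, μ k * (Ah μ z h) ^ k := by
  unfold Ah
  rw [tsum_tree, ← tsum_list_weighted, ← ENNReal.tsum_mul_left]
  congr 1
  funext l
  rw [prod_phi]
  have e1 : weight μ (mk l) = μ l.length * weightF μ l := weight_mk μ l
  have e2 : size (mk l) = 1 + sizeF l := size_mk l
  by_cases h1 : heightF l < h + 1
  · have h2 : height (mk l) < h + 1 := by rw [height_mk]; exact h1
    rw [if_pos h1, if_pos h2, e1, e2, pow_add, pow_one]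
    ring
  · have h2 : ¬ height (mk l) < h + 1 := by rw [height_mk]; exact h1
    rw [if_neg h1, if_neg h2]
    simp

lemma Ah_one_le (μ : PMF ℕ) (h : ℕ) : Ah μ 1 h ≤ 1 := by
  induction h with
  | zero => simp [Ah_zero]
  | succ h ih =>
    rw [Ah_succ, one_mul]
    calc ∑' k, μ k * (Ah μ 1 h) ^ k ≤ ∑' k, μ k * 1 := by
          apply ENNReal.tsum_le_tsum
          intro k
          gcongr
          exact pow_le_one₀ (zero_le) ih
      _ = 1 := by simp [μ.tsum_coe]

lemma tsum_weight_le (μ : PMF ℕ) : ∑' t : PTree, weight μ t ≤ 1 := by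
  rw [ENNReal.tsum_eq_iSup_sum]
  apply iSup_le
  intro s
  obtain ⟨h, hh⟩ : ∃ h : ℕ, ∀ t ∈ s, height t < h := by
    refine ⟨s.sup height + 1, fun t ht => ?_⟩
    have := Finset.le_sup (f := height) ht
    omega
  calc ∑ t ∈ s, weight μ t = ∑ t ∈ s, if height t < h then weight μ t * 1 ^ size t else 0 := by
        apply Finset.sum_congr rfl
        intro t ht
        rw [if_pos (hh t ht), one_pow, mul_one]
    _ ≤ Ah μ 1 h := ENNReal.sum_le_tsum s
    _ ≤ 1 := Ah_one_le μ h

lemma tall_le (μ : PMF ℕ) (h : ℕ) :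
    (∑' t : PTree, if h ≤ height t then weight μ t else 0) + Ah μ 1 h ≤ 1 := by
  unfold Ah
  rw [← ENNReal.tsum_add]
  refine le_trans (le_of_eq ?_) (tsum_weight_le μ)
  congr 1
  funext t
  by_cases h1 : height t < h
  · rw [if_pos h1, if_neg (by omega)]
    simp
  · rw [if_neg h1, if_pos (by omega)]
    simp

/-! ### Real versions -/

lemma toReal_hasSum (μ : PMF ℕ) : HasSum (fun k => (μ k).toReal) 1 := by
  have h1 := ENNReal.hasSum_toReal (f := μ) (by rw [μ.tsum_coe]; simp)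
  have h2 : ∑' k, (μ k).toReal = 1 := by
    rw [← ENNReal.tsum_toReal_eq (fun k => μ.apply_ne_top k), μ.tsum_coe]
    simp
  rwa [h2] at h1

lemma toReal_mean_hasSum (μ : PMF ℕ) (hm : ∑' k : ℕ, (k : ℝ≥0∞) * μ k = 1) :
    HasSum (fun k : ℕ => (k : ℝ) * (μ k).toReal) 1 := by
  have h1 := ENNReal.hasSum_toReal (f := fun k : ℕ => (k : ℝ≥0∞) * μ k) (by rw [hm]; simp)
  have h2 : ∑' k : ℕ, ((k : ℝ≥0∞) * μ k).toReal = 1 := by
    rw [← ENNReal.tsum_toReal_eq, hm]
    · simp
    · intro k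
      exact ENNReal.mul_ne_top (by simp) (μ.apply_ne_top k)
  rw [h2] at h1
  simpa [ENNReal.toReal_mul] using h1

/-- The generating function. -/
noncomputable def Gf (μ : PMF ℕ) (a : ℝ) : ℝ := ∑' k, (μ k).toReal * a ^ k

lemma Gf_hasSum (μ : PMF ℕ) (a : ℝ) (h0 : 0 ≤ a) (h1 : a ≤ 1) :
    HasSum (fun k => (μ k).toReal * a ^ k) (Gf μ a) := by
  apply Summable.hasSum
  refine Summable.of_nonneg_of_le (fun k => by positivity) (fun k => ?_) (toReal_hasSum μ).summable
  exact mul_le_of_le_one_right ENNReal.toReal_nonneg (pow_le_one₀ h0 h1)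

/-- The excess function `E (X - K)^+`. -/
noncomputable def Lf (μ : PMF ℕ) (K : ℝ) : ℝ := ∑' k : ℕ, (μ k).toReal * max ((k : ℝ) - K) 0

lemma Lf_hasSum (μ : PMF ℕ) (hm : ∑' k : ℕ, (k : ℝ≥0∞) * μ k = 1) (K : ℝ) (hK : 0 ≤ K) :
    HasSum (fun k : ℕ => (μ k).toReal * max ((k : ℝ) - K) 0) (Lf μ K) := by
  apply Summable.hasSum
  refine Summable.of_nonneg_of_le (fun k => by positivity) (fun k => ?_)
    (toReal_mean_hasSum μ hm).summable
  rw [mul_comm (k : ℝ)]
  apply mul_le_mul_of_nonneg_left _ ENNReal.toReal_nonneg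
  apply max_le
  · linarith
  · positivity

lemma Lf_nonneg (μ : PMF ℕ) (K : ℝ) : 0 ≤ Lf μ K := by
  apply tsum_nonneg
  intro k
  positivity

lemma Lf_le_one (μ : PMF ℕ) (hm : ∑' k : ℕ, (k : ℝ≥0∞) * μ k = 1) (K : ℝ) (hK : 0 ≤ K) :
    Lf μ K ≤ 1 := by
  refine hasSum_le (fun k => ?_) (Lf_hasSum μ hm K hK) (toReal_mean_hasSum μ hm)
  rw [mul_comm (k : ℝ)]
  apply mul_le_mul_of_nonneg_left _ ENNReal.toReal_nonneg
  apply max_le
  · linarith
  · positivity

/-- `1 - G(1 - q) ≤ q (1 - L(K))` if `K q ≥ 1`. -/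
lemma Gf_lower (μ : PMF ℕ) (hm : ∑' k : ℕ, (k : ℝ≥0∞) * μ k = 1) (q K : ℝ) (hq0 : 0 ≤ q)
    (hq1 : q ≤ 1) (hK : 0 ≤ K) (hKq : 1 ≤ K * q) :
    1 - q + q * Lf μ K ≤ Gf μ (1 - q) := by
  have h1 := toReal_hasSum μ
  have h2 := (toReal_mean_hasSum μ hm).mul_left q
  have h3 := (Lf_hasSum μ hm K hK).mul_left q
  have h4 := (h1.sub h2).add h3
  rw [mul_one] at h4
  refine hasSum_le (fun k => ?_) h4 (Gf_hasSum μ (1 - q) (by linarith) (by linarith))
  have hμ : 0 ≤ (μ k).toReal := ENNReal.toReal_nonneg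
  have hb : 1 - q * k + q * max ((k : ℝ) - K) 0 ≤ (1 - q) ^ k := by
    rcases le_total (k : ℝ) K with hk | hk
    · rw [max_eq_right (by linarith)]
      have := one_add_mul_le_pow (a := -q) (by linarith) k
      have e : 1 + (k : ℝ) * -q = 1 - q * k + q * 0 := by ring
      rw [← e]
      simpa [sub_eq_add_neg] using this
    · rw [max_eq_left (by linarith)]
      have : 0 ≤ (1 - q) ^ k := pow_nonneg (by linarith) k
      nlinarith
  nlinarith

/-- `G(1 - q) ≥ 1 - q`. -/
lemma Gf_lower' (μ : PMF ℕ) (hm : ∑' k : ℕ, (k : ℝ≥0∞) * μ k = 1) (q : ℝ) (hq0 : 0 ≤ q)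
    (hq1 : q ≤ 1) : 1 - q ≤ Gf μ (1 - q) := by
  have h1 := toReal_hasSum μ
  have h2 := (toReal_mean_hasSum μ hm).mul_left q
  have h4 := h1.sub h2
  rw [mul_one] at h4
  refine hasSum_le (fun k => ?_) h4 (Gf_hasSum μ (1 - q) (by linarith) (by linarith))
  have hμ : 0 ≤ (μ k).toReal := ENNReal.toReal_nonneg
  have hb : 1 - q * k ≤ (1 - q) ^ k := by
    have := one_add_mul_le_pow (a := -q) (by linarith) k
    have e : 1 + (k : ℝ) * -q = 1 - q * k := by ring
    rw [← e]
    simpa [sub_eq_add_neg] using this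
  nlinarith

lemma Ah_toReal_succ (μ : PMF ℕ) (z : ℝ≥0∞) (h : ℕ) (hA : Ah μ z h ≤ 1) :
    (Ah μ z (h + 1)).toReal = z.toReal * Gf μ (Ah μ z h).toReal := by
  have hne : Ah μ z h ≠ ∞ := ne_top_of_le_ne_top ENNReal.one_ne_top hA
  rw [Ah_succ, ENNReal.toReal_mul, Gf, ENNReal.tsum_toReal_eq]
  · congr 2
    funext k
    rw [ENNReal.toReal_mul, ENNReal.toReal_pow]
  · intro k
    exact ENNReal.mul_ne_top (μ.apply_ne_top k) (ENNReal.pow_ne_top hne)

/-- Decay of the probability that the tree is tall. -/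
lemma tall_decay (μ : PMF ℕ) (hm : ∑' k : ℕ, (k : ℝ≥0∞) * μ k = 1) (K : ℝ) (hK : 0 < K) (h : ℕ) :
    1 - (Ah μ 1 h).toReal ≤ max ((1 - Lf μ K) ^ h) (1 / K) := by
  induction h with
  | zero => simp [Ah_zero]
  | succ h ih =>
    have hA := Ah_one_le μ h
    have hne : Ah μ 1 h ≠ ∞ := ne_top_of_le_ne_top ENNReal.one_ne_top hA
    set a := (Ah μ 1 h).toReal with ha
    have ha0 : 0 ≤ a := ENNReal.toReal_nonneg
    have ha1 : a ≤ 1 := by
      have := ENNReal.toReal_mono ENNReal.one_ne_top hA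
      simpa using this
    rw [Ah_toReal_succ μ 1 h hA, ENNReal.toReal_one, one_mul, ← ha]
    have hL1 := Lf_le_one μ hm K hK.le
    have hL0 := Lf_nonneg μ K
    rcases le_total (1 - a) (1 / K) with hc | hc
    · have := Gf_lower' μ hm (1 - a) (by linarith) (by linarith)
      rw [sub_sub_cancel] at this
      exact le_trans (by linarith) (le_max_right _ _)
    · have h1 : 1 ≤ K * (1 - a) := by
        have := mul_le_mul_of_nonneg_left hc hK.le
        rwa [mul_one_div_cancel hK.ne'] at this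
      have h2 := Gf_lower μ hm (1 - a) K (by linarith) (by linarith) hK.le h1
      rw [sub_sub_cancel] at h2
      have h3 : 1 - Gf μ a ≤ (1 - a) * (1 - Lf μ K) := by linarith
      rcases le_total ((1 - Lf μ K) ^ h) (1 / K) with hd | hd
      · rw [max_eq_right hd] at ih
        have h4 : (1 - a) * (1 - Lf μ K) ≤ 1 / K := by
          calc (1 - a) * (1 - Lf μ K) ≤ (1 - a) * 1 :=
                mul_le_mul_of_nonneg_left (by linarith) (by linarith)
            _ ≤ 1 / K := by linarith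
        exact le_trans (h3.trans h4) (le_max_right _ _)
      · rw [max_eq_left hd] at ih
        refine le_trans h3 (le_trans ?_ (le_max_left _ _))
        rw [pow_succ]
        exact mul_le_mul_of_nonneg_right ih (by linarith)

/-- The tall trees of a given size. -/
lemma tall_size_le (μ : PMF ℕ) (hm : ∑' k : ℕ, (k : ℝ≥0∞) * μ k = 1) (K : ℝ) (hK : 0 < K)
    (n h : ℕ) :
    (∑' t : PTree, if size t = n ∧ h ≤ height t then weight μ t else 0) ≤
      ENNReal.ofReal (max ((1 - Lf μ K) ^ h) (1 / K)) := by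
  have h1 := tall_le μ h
  have hA := Ah_one_le μ h
  have hne : Ah μ 1 h ≠ ∞ := ne_top_of_le_ne_top ENNReal.one_ne_top hA
  have h2 : (∑' t : PTree, if h ≤ height t then weight μ t else 0) ≤ 1 - Ah μ 1 h :=
    ENNReal.le_sub_of_add_le_right hne h1
  have h3 : 1 - Ah μ 1 h = ENNReal.ofReal (1 - (Ah μ 1 h).toReal) := by
    rw [ENNReal.ofReal_sub _ ENNReal.toReal_nonneg, ENNReal.ofReal_one, ENNReal.ofReal_toReal hne]
  calc (∑' t : PTree, if size t = n ∧ h ≤ height t then weight μ t else 0)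
      ≤ ∑' t : PTree, if h ≤ height t then weight μ t else 0 := by
        apply ENNReal.tsum_le_tsum
        intro t
        by_cases h4 : h ≤ height t
        · rw [if_pos h4]
          split_ifs <;> simp
        · rw [if_neg h4, if_neg (fun h5 => h4 h5.2)]
    _ ≤ 1 - Ah μ 1 h := h2
    _ = ENNReal.ofReal (1 - (Ah μ 1 h).toReal) := h3
    _ ≤ _ := ENNReal.ofReal_le_ofReal (tall_decay μ hm K hK h)

/-! ### Short trees -/

/-- `1 - G(1 - q) ≥ q (1 - L(K) - q K / 2)`. -/
lemma Gf_upper (μ : PMF ℕ) (hm : ∑' k : ℕ, (k : ℝ≥0∞) * μ k = 1) (q K : ℝ) (hq0 : 0 ≤ q)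
    (hq1 : q ≤ 1) (hK : 0 ≤ K) :
    Gf μ (1 - q) ≤ 1 - q + q * Lf μ K + q ^ 2 * K := by
  have h1 := toReal_hasSum μ
  have h2 := (toReal_mean_hasSum μ hm).mul_left q
  have h3 := (Lf_hasSum μ hm K hK).mul_left q
  have h4 := ((h1.sub h2).add h3).add ((toReal_mean_hasSum μ hm).mul_left (q ^ 2 * K))
  rw [mul_one, mul_one] at h4
  refine hasSum_le (fun k => ?_) (Gf_hasSum μ (1 - q) (by linarith) (by linarith)) h4
  have hμ : 0 ≤ (μ k).toReal := ENNReal.toReal_nonneg
  have hb : (1 - q) ^ k ≤ 1 - q * k + q * max ((k : ℝ) - K) 0 + q ^ 2 * K * k := by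
    -- (1-q)^k ≤ 1 - q k + q² k² for all k, and monotonicity beyond K
    have hsq : ∀ j : ℕ, (1 - q) ^ j ≤ 1 - q * j + q ^ 2 * j ^ 2 := by
      intro j
      induction j with
      | zero => simp
      | succ j ih =>
        rw [pow_succ]
        have h5 : (1 - q) ^ j * (1 - q) ≤ (1 - q * j + q ^ 2 * j ^ 2) * (1 - q) :=
          mul_le_mul_of_nonneg_right ih (by linarith)
        refine h5.trans ?_
        push_cast
        have hj : (0 : ℝ) ≤ j := Nat.cast_nonneg j
        nlinarith [mul_nonneg (mul_nonneg (pow_nonneg hq0 2) hj) hj,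
          mul_nonneg (pow_nonneg hq0 3) (mul_nonneg hj hj), mul_nonneg (pow_nonneg hq0 2) hj]
    rcases le_total (k : ℝ) K with hk | hk
    · rw [max_eq_right (by linarith)]
      refine (hsq k).trans ?_
      have hk0 : (0 : ℝ) ≤ k := Nat.cast_nonneg k
      nlinarith [mul_nonneg (mul_nonneg (pow_nonneg hq0 2) hk0) (sub_nonneg.mpr hk)]
    · rw [max_eq_left (by linarith)]
      -- now need (1-q)^k ≤ 1 - q K + q² K k; use j = ⌈K⌉ ≤ k
      have hle1 : (1 - q) ^ k ≤ 1 := pow_le_one₀ (by linarith) (by linarith)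
      rcases le_total 1 (q * k) with h6 | h6
      · -- q k ≥ 1: 1 - q K + q K (q k) ≥ 1
        have : q * K ≤ q * K * (q * k) := by
          have := mul_le_mul_of_nonneg_left h6 (mul_nonneg hq0 hK)
          linarith
        nlinarith
      · -- q k ≤ 1: 1 - qk + q²k² ≤ 1 - qK + q² K k as (qk - qK)(1 - qk) ≥ 0
        refine (hsq k).trans ?_
        have h7 : 0 ≤ (q * k - q * K) * (1 - q * k) :=
          mul_nonneg (by nlinarith) (by linarith)
        nlinarith
  nlinarith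

/-- `1 - G(1 - q) ≥ q (1 - μ 0)`. -/
lemma Gf_upper' (μ : PMF ℕ) (q : ℝ) (hq0 : 0 ≤ q) (hq1 : q ≤ 1) :
    Gf μ (1 - q) ≤ 1 - q * (1 - (μ 0).toReal) := by
  have h1 := (toReal_hasSum μ).mul_left (1 - q)
  have h2 : HasSum (fun k => if k = 0 then q * (μ 0).toReal else 0) (q * (μ 0).toReal) := by
    have := hasSum_ite_eq (0 : ℕ) (q * (μ 0).toReal)
    simpa using this
  have h3 := h1.add h2
  rw [mul_one] at h3
  have e : 1 - q * (1 - (μ 0).toReal) = 1 - q + q * (μ 0).toReal := by ring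
  rw [e]
  refine hasSum_le (fun k => ?_) (Gf_hasSum μ (1 - q) (by linarith) (by linarith)) h3
  have hμ : 0 ≤ (μ k).toReal := ENNReal.toReal_nonneg
  rcases Nat.eq_zero_or_pos k with hk | hk
  · subst hk
    simp only [pow_zero, mul_one, if_true]
    linarith
  · rw [if_neg (by omega), add_zero, mul_comm]
    apply mul_le_mul_of_nonneg_right _ hμ
    calc (1 - q) ^ k ≤ (1 - q) ^ 1 := pow_le_pow_of_le_one (by linarith) (by linarith) hk
      _ = 1 - q := pow_one _

/-- Lower bound for the gap `1 - E[z^{|T|}; H(T) < h]`. -/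
lemma short_gap (μ : PMF ℕ) (hm : ∑' k : ℕ, (k : ℝ≥0∞) * μ k = 1) (η K α β c Λ : ℝ)
    (hη : 0 ≤ η) (hK : 0 ≤ K) (hα0 : 0 < α) (hα1 : α ≤ 1) (hβ : 0 ≤ β) (hc0 : 0 ≤ c) (hc1 : c ≤ 1)
    (hc : c * α ≤ α * (1 - (μ 0).toReal) - η)
    (hΛ0 : 0 ≤ Λ) (hΛ1 : Λ ≤ 1) (hΛ : Lf μ K + α * K + η / β ≤ Λ) (hβ' : 0 < β)
    (N : ℕ) (hN : β ≤ c * α * (1 - Λ) ^ N) (h : ℕ) (hh : h ≤ N) :
    Ah μ (ENNReal.ofReal (1 + η)) h ≤ 1 ∧
      c * α * (1 - Λ) ^ h ≤ 1 - (Ah μ (ENNReal.ofReal (1 + η)) h).toReal := by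
  have hpow : ∀ j, j ≤ N → β ≤ c * α * (1 - Λ) ^ j := by
    intro j hj
    refine hN.trans (mul_le_mul_of_nonneg_left ?_ (mul_nonneg hc0 hα0.le))
    exact pow_le_pow_of_le_one (by linarith) (by linarith) hj
  induction h with
  | zero =>
    constructor
    · simp [Ah_zero]
    · simp only [Ah_zero, pow_zero, mul_one, ENNReal.toReal_zero, sub_zero]
      exact mul_le_one₀ hc1 hα0.le hα1
  | succ h ih =>
    obtain ⟨ih1, ih2⟩ := ih (by omega)
    set z := ENNReal.ofReal (1 + η) with hz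
    set a := (Ah μ z h).toReal with ha
    have ha0 : 0 ≤ a := ENNReal.toReal_nonneg
    have ha1 : a ≤ 1 := by
      have := ENNReal.toReal_mono ENNReal.one_ne_top ih1
      simpa using this
    have hzr : z.toReal = 1 + η := ENNReal.toReal_ofReal (by linarith)
    have hr : c * α * (1 - Λ) ^ (h + 1) ≤ 1 - (Ah μ z (h + 1)).toReal := by
      rw [Ah_toReal_succ μ z h ih1, hzr, ← ha]
      have hG1 : Gf μ a ≤ 1 := by
        have := Gf_upper' μ (1 - a) (by linarith) (by linarith)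
        rw [sub_sub_cancel] at this
        have h0 : (μ 0).toReal ≤ 1 := by
          have := ENNReal.toReal_mono ENNReal.one_ne_top (μ.coe_le_one 0)
          simpa using this
        nlinarith
      have hG0 : 0 ≤ Gf μ a := by
        apply tsum_nonneg
        intro k
        positivity
      have hbase : 1 - Gf μ a - η ≤ 1 - (1 + η) * Gf μ a := by nlinarith
      rcases le_total (1 - a) α with h5 | h5
      · -- small gap
        have h6 := Gf_upper μ hm (1 - a) K (by linarith) (by linarith) hK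
        rw [sub_sub_cancel] at h6
        have h7 : β ≤ 1 - a := (hpow h (by omega)).trans ih2
        have h8 : η ≤ (1 - a) * (η / β) := by
          have h9 : η = β * (η / β) := by field_simp
          calc η = β * (η / β) := h9
            _ ≤ (1 - a) * (η / β) := mul_le_mul_of_nonneg_right h7 (by positivity)
        have h10 : (1 - a) ^ 2 * K ≤ (1 - a) * (α * K) := by
          have : (1 - a) * K ≤ α * K := mul_le_mul_of_nonneg_right h5 hK
          nlinarith
        have h11 : (1 - a) * (1 - Λ) ≤ 1 - Gf μ a - η := by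
          nlinarith
        calc c * α * (1 - Λ) ^ (h + 1) = c * α * (1 - Λ) ^ h * (1 - Λ) := by ring
          _ ≤ (1 - a) * (1 - Λ) := mul_le_mul_of_nonneg_right ih2 (by linarith)
          _ ≤ _ := h11.trans hbase
      · have h6 := Gf_upper' μ (1 - a) (by linarith) (by linarith)
        rw [sub_sub_cancel] at h6
        have h0 : (μ 0).toReal ≤ 1 := by
          have := ENNReal.toReal_mono ENNReal.one_ne_top (μ.coe_le_one 0)
          simpa using this
        have h7 : α * (1 - (μ 0).toReal) ≤ (1 - a) * (1 - (μ 0).toReal) :=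
          mul_le_mul_of_nonneg_right h5 (by linarith)
        have h8 : c * α * (1 - Λ) ^ (h + 1) ≤ c * α :=
          mul_le_of_le_one_right (mul_nonneg hc0 hα0.le) (pow_le_one₀ (by linarith) (by linarith))
        linarith
    refine ⟨?_, hr⟩
    have hpos := hpow (h + 1) hh
    have hlt : (Ah μ z (h + 1)).toReal ≤ 1 := by linarith
    have hfin : Ah μ z (h + 1) ≠ ∞ := by
      rw [Ah_succ]
      apply ENNReal.mul_ne_top ENNReal.ofReal_ne_top
      refine ne_top_of_le_ne_top ENNReal.one_ne_top ?_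
      calc ∑' k, μ k * (Ah μ z h) ^ k ≤ ∑' k, μ k * 1 := by
            apply ENNReal.tsum_le_tsum
            intro k
            gcongr
            exact pow_le_one₀ (zero_le) ih1
        _ = 1 := by simp [μ.tsum_coe]
    rw [← ENNReal.ofReal_toReal hfin, ← ENNReal.ofReal_one]
    exact ENNReal.ofReal_le_ofReal hlt

/-- The short trees of a given size. -/
lemma short_size_le (μ : PMF ℕ) (z : ℝ≥0∞) (hz0 : z ≠ 0) (hz : z ≠ ∞) (n h : ℕ)
    (hA : Ah μ z h ≤ 1) :
    (∑' t : PTree, if size t = n ∧ height t < h then weight μ t else 0) ≤ (z ^ n)⁻¹ := by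
  rw [ENNReal.le_inv_iff_mul_le, ← ENNReal.tsum_mul_right]
  refine le_trans (ENNReal.tsum_le_tsum fun t => ?_) hA
  by_cases h1 : size t = n ∧ height t < h
  · rw [if_pos h1, if_pos h1.2, h1.1]
  · rw [if_neg h1, zero_mul]
    exact zero_le

end Pool.Agent.R980.GW
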