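import Pool.Agent.R980.GWForest

set_option autoImplicit false

open scoped ENNReal
open Filter Topology

namespace Pool.Agent.R980.GW

/-- A profile: `V 1 = 1`, decreasing to `0`. The size-biased offspring law has tails `V`. -/
structure Profile where
  V : ℕ → ℝ
  one : V 1 = 1
  anti : ∀ k, 1 ≤ k → V (k + 1) ≤ V k
  lim : Tendsto V atTop (𝓝 0)

namespace Profile

variable (P : Profile)

/-- The atoms for `k ≥ 1`. -/
noncomputable def a (k : ℕ) : ℝ := (P.V k - P.V (k + 1)) / k

lemma a_nonneg (k : ℕ) : 0 ≤ P.a k := by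
  rcases Nat.eq_zero_or_pos k with h | h
  · subst h; simp [a]
  · have := P.anti k h
    unfold a
    apply div_nonneg (by linarith) (by positivity)

lemma antitone (j k : ℕ) (hj : 1 ≤ j) (hjk : j ≤ k) : P.V k ≤ P.V j := by
  induction k, hjk using Nat.le_induction with
  | base => exact le_rfl
  | succ k hk ih => exact (P.anti k (by omega)).trans ih

lemma tail_hasSum (N : ℕ) (hN : 1 ≤ N) :
    HasSum (fun k => if N ≤ k then P.V k - P.V (k + 1) else 0) (P.V N) := by
  rw [hasSum_iff_tendsto_nat_of_nonneg]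
  · have h1 : ∀ n, N ≤ n → ∑ k ∈ Finset.range n, (if N ≤ k then P.V k - P.V (k + 1) else 0) =
        P.V N - P.V n := by
      intro n hn
      induction n, hn using Nat.le_induction with
      | base =>
        rw [sub_self]
        apply Finset.sum_eq_zero
        intro k hk
        rw [Finset.mem_range] at hk
        rw [if_neg (by omega)]
      | succ n hn ih =>
        rw [Finset.sum_range_succ, ih, if_pos hn]
        ring
    have h2 : Tendsto (fun n => P.V N - P.V n) atTop (𝓝 (P.V N - 0)) :=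
      tendsto_const_nhds.sub P.lim
    rw [sub_zero] at h2
    refine h2.congr' ?_
    filter_upwards [eventually_ge_atTop N] with n hn
    exact (h1 n hn).symm
  · intro k
    split_ifs with h
    · have := P.anti k (by omega)
      linarith
    · exact le_rfl

lemma nonneg (k : ℕ) (hk : 1 ≤ k) : 0 ≤ P.V k :=
  (P.tail_hasSum k hk).nonneg (fun j => by
    split_ifs with h
    · have := P.anti j (by omega)
      linarith
    · exact le_rfl)

lemma mul_a (k : ℕ) (hk : 1 ≤ k) : (k : ℝ) * P.a k = P.V k - P.V (k + 1) := by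
  unfold a
  have : (k : ℝ) ≠ 0 := by positivity
  field_simp

lemma mean_a : HasSum (fun k : ℕ => (k : ℝ) * P.a k) 1 := by
  have h := P.tail_hasSum 1 le_rfl
  rw [P.one] at h
  refine h.congr_fun ?_ |> id
  intro k
  split_ifs with h1
  · exact (P.mul_a k h1)
  · have : k = 0 := by omega
    subst this
    simp

lemma summable_a : Summable P.a := by
  refine Summable.of_nonneg_of_le P.a_nonneg (fun k => ?_) P.mean_a.summable
  rcases Nat.eq_zero_or_pos k with h | h
  · subst h; simp [a]
  · have h1 : (1 : ℝ) ≤ k := by exact_mod_cast h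
    have := P.a_nonneg k
    nlinarith

lemma tsum_a_le : ∑' k, P.a k ≤ 1 := by
  refine hasSum_le (fun k => ?_) P.summable_a.hasSum P.mean_a
  rcases Nat.eq_zero_or_pos k with h | h
  · subst h; simp [a]
  · have h1 : (1 : ℝ) ≤ k := by exact_mod_cast h
    have := P.a_nonneg k
    nlinarith

/-- All atoms. -/
noncomputable def m (k : ℕ) : ℝ := if k = 0 then 1 - ∑' k, P.a k else P.a k

lemma m_nonneg (k : ℕ) : 0 ≤ P.m k := by
  unfold m
  split_ifs
  · have := P.tsum_a_le
    linarith
  · exact P.a_nonneg k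

lemma m_hasSum : HasSum P.m 1 := by
  have h1 : HasSum (fun k : ℕ => if k = 0 then 1 - ∑' k, P.a k else 0) (1 - ∑' k, P.a k) := by
    simpa using hasSum_ite_eq (0 : ℕ) (1 - ∑' k, P.a k)
  have h2 := h1.add P.summable_a.hasSum
  rw [sub_add_cancel] at h2
  refine h2.congr_fun ?_ |> id
  intro k
  unfold m
  split_ifs with h
  · subst h; simp [a]
  · simp

/-- The offspring distribution. -/
noncomputable def law : PMF ℕ :=
  ⟨fun k => ENNReal.ofReal (P.m k), by
    rw [ENNReal.summable.hasSum_iff, ← ENNReal.ofReal_tsum_of_nonneg P.m_nonneg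
      P.m_hasSum.summable, P.m_hasSum.tsum_eq, ENNReal.ofReal_one]⟩

lemma law_apply (k : ℕ) : P.law k = ENNReal.ofReal (P.m k) := rfl

lemma law_toReal (k : ℕ) : (P.law k).toReal = P.m k := by
  rw [law_apply, ENNReal.toReal_ofReal (P.m_nonneg k)]

lemma law_toReal' (k : ℕ) (hk : 1 ≤ k) : (P.law k).toReal = P.a k := by
  rw [law_toReal, m, if_neg (by omega)]

lemma law_mean : ∑' k : ℕ, (k : ℝ≥0∞) * P.law k = 1 := by
  have h1 : ∀ k : ℕ, (k : ℝ≥0∞) * P.law k = ENNReal.ofReal ((k : ℝ) * P.a k) := by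
    intro k
    rcases Nat.eq_zero_or_pos k with h | h
    · subst h; simp
    · rw [law_apply, m, if_neg (by omega), ENNReal.ofReal_mul (by positivity),
        ENNReal.ofReal_natCast]
  simp_rw [h1]
  rw [← ENNReal.ofReal_tsum_of_nonneg _ P.mean_a.summable, P.mean_a.tsum_eq, ENNReal.ofReal_one]
  intro k
  have := P.a_nonneg k
  positivity

lemma Lf_ge (K : ℝ) (hK : 0 ≤ K) (N : ℕ) (hN : 1 ≤ N) (h : 2 * K ≤ N) :
    P.V N / 2 ≤ Lf P.law K := by
  have h1 := (P.tail_hasSum N hN).div_const 2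
  refine hasSum_le (fun k => ?_) h1 (Lf_hasSum P.law P.law_mean K hK)
  split_ifs with hk
  · rw [P.law_toReal' k (by omega), ← P.mul_a k (by omega)]
    have h2 : (N : ℝ) ≤ k := by exact_mod_cast hk
    have h3 : (k : ℝ) / 2 ≤ max ((k : ℝ) - K) 0 := le_max_of_le_left (by linarith)
    have h4 := P.a_nonneg k
    nlinarith
  · rw [zero_div]
    positivity

lemma Lf_le (K : ℝ) (hK : 0 ≤ K) (N : ℕ) (hN : 1 ≤ N) (h : (N : ℝ) ≤ K + 1) :
    Lf P.law K ≤ P.V N := by
  refine hasSum_le (fun k => ?_) (Lf_hasSum P.law P.law_mean K hK) (P.tail_hasSum N hN)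
  split_ifs with hk
  · rw [P.law_toReal' k (by omega), ← P.mul_a k (by omega), mul_comm (k : ℝ)]
    apply mul_le_mul_of_nonneg_left _ (P.a_nonneg k)
    apply max_le
    · linarith
    · positivity
  · have h2 : (k : ℝ) + 1 ≤ N := by exact_mod_cast (by omega : k + 1 ≤ N)
    rw [max_eq_right (by linarith), mul_zero]

end Profile

/-- The profile `(1 / k + F 1 / F k) / 2`. -/
noncomputable def profile (F : ℕ → ℝ) (hpos : ∀ k, 1 ≤ k → 0 < F k)
    (hmono : ∀ j k, 1 ≤ j → j ≤ k → F j ≤ F k) (hlim : Tendsto F atTop atTop) : Profile where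
  V := fun k => (1 / (k : ℝ) + F 1 / F k) / 2
  one := by
    have := (hpos 1 le_rfl).ne'
    simp [div_self this]
  anti := by
    intro k hk
    have h1 : 1 / ((k + 1 : ℕ) : ℝ) ≤ 1 / (k : ℝ) := by
      apply one_div_le_one_div_of_le (by positivity)
      push_cast; linarith
    have h2 : F 1 / F (k + 1) ≤ F 1 / F k :=
      div_le_div_of_nonneg_left (hpos 1 le_rfl).le (hpos k hk) (hmono k (k + 1) hk (by omega))
    have := add_le_add h1 h2
    linarith
  lim := by
    have h1 : Tendsto (fun k : ℕ => 1 / (k : ℝ)) atTop (𝓝 0) := tendsto_one_div_atTop_nhds_zero_nat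
    have h2 : Tendsto (fun k : ℕ => F 1 / F k) atTop (𝓝 0) := hlim.const_div_atTop _
    have h3 := (h1.add h2).div_const 2
    simpa using h3

section Bounds

variable (F : ℕ → ℝ) (hpos : ∀ k, 1 ≤ k → 0 < F k)
    (hmono : ∀ j k, 1 ≤ j → j ≤ k → F j ≤ F k) (hlim : Tendsto F atTop atTop)

lemma atom_lower (k : ℕ) (hk : 1 ≤ k) :
    1 / (2 * (k : ℝ) ^ 2 * (k + 1)) ≤ ((profile F hpos hmono hlim).law k).toReal := by
  rw [Profile.law_toReal' _ k hk, Profile.a]
  have hk0 : (0 : ℝ) < k := by positivity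
  rw [le_div_iff₀ hk0]
  have h2 : F 1 / F (k + 1) ≤ F 1 / F k :=
    div_le_div_of_nonneg_left (hpos 1 le_rfl).le (hpos k hk) (hmono k (k + 1) hk (by omega))
  have h3 : 1 / (2 * (k : ℝ) ^ 2 * (k + 1)) * k = (1 / (k : ℝ) - 1 / ((k + 1 : ℕ) : ℝ)) / 2 := by
    push_cast
    field_simp
    ring
  rw [h3]
  simp only [profile]
  linarith

/-- `P(|T| = n) ≥ 1 / (16 n^5)`. -/
lemma sizeProb_poly (n : ℕ) (hn : 2 ≤ n) :
    ENNReal.ofReal (1 / (16 * (n : ℝ) ^ 5)) ≤ sizeProb (profile F hpos hmono hlim).law n := by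
  set P := profile F hpos hmono hlim with hP
  obtain ⟨m, rfl⟩ : ∃ m, n = m + 1 := ⟨n - 1, by omega⟩
  have hm1 : 1 ≤ m := by omega
  have hm0 : (0 : ℝ) < m := by positivity
  have h1 := sizeProb_lower P.law P.law_mean m hm1
    (ENNReal.ofReal (1 / (2 * (m : ℝ) ^ 2 * (m + 1)))) (by
      intro k hk1 hkm
      rw [← ENNReal.ofReal_toReal (P.law.apply_ne_top k)]
      apply ENNReal.ofReal_le_ofReal
      refine le_trans ?_ (atom_lower F hpos hmono hlim k hk1)
      have hk0 : (0 : ℝ) < k := by positivity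
      have hkm' : (k : ℝ) ≤ m := by exact_mod_cast hkm
      apply one_div_le_one_div_of_le (by positivity)
      gcongr)
  have h2 : 1 / (8 * (m : ℝ)) ≤ Lf P.law m := by
    refine le_trans ?_ (P.Lf_ge m hm0.le (2 * m) (by omega) (by push_cast; linarith))
    have h3 : 0 ≤ F 1 / F (2 * m) := div_nonneg (hpos 1 le_rfl).le (hpos _ (by omega)).le
    have h4 : 1 / (8 * (m : ℝ)) = (1 / ((2 * m : ℕ) : ℝ)) / 2 / 2 := by
      push_cast
      field_simp
      norm_num
    rw [h4, hP]
    simp only [profile]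
    linarith
  have h5 : ENNReal.ofReal (1 / (2 * (m : ℝ) ^ 2 * (m + 1))) * ENNReal.ofReal (1 / (8 * (m : ℝ))) ≤
      m * sizeProb P.law (m + 1) := by
    refine le_trans ?_ h1
    gcongr
  have h6 : ENNReal.ofReal (1 / (16 * ((m + 1 : ℕ) : ℝ) ^ 5)) * m ≤
      sizeProb P.law (m + 1) * m := by
    rw [mul_comm (sizeProb P.law (m + 1))]
    refine le_trans ?_ h5
    rw [← ENNReal.ofReal_natCast m, ← ENNReal.ofReal_mul (by positivity),
      ← ENNReal.ofReal_mul (by positivity)]
    apply ENNReal.ofReal_le_ofReal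
    have e1 : 1 / (2 * (m : ℝ) ^ 2 * (m + 1)) * (1 / (8 * (m : ℝ))) =
        1 / (16 * (m : ℝ) ^ 4 * (m + 1)) * m := by
      field_simp
      norm_num
    rw [e1]
    apply mul_le_mul_of_nonneg_right _ hm0.le
    apply one_div_le_one_div_of_le (by positivity)
    push_cast
    have : (m : ℝ) ^ 4 ≤ (m + 1) ^ 4 := by gcongr; linarith
    calc 16 * (m : ℝ) ^ 4 * (m + 1) ≤ 16 * (m + 1) ^ 4 * (m + 1) := by gcongr
      _ = 16 * ((m : ℝ) + 1) ^ 5 := by ring
  have hm' : (m : ℝ≥0∞) ≠ 0 := by
    have : m ≠ 0 := by omega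
    exact_mod_cast this
  exact (ENNReal.mul_le_mul_iff_left hm' (by simp)).mp h6

open Classical in
/-- From a bound on the numerator to a bound on the conditional probability. -/
lemma condProb_le_of (n : ℕ) (hn : 2 ≤ n) (A : PTree → Prop) (x : ℝ) (hx : 0 ≤ x)
    (hA : (∑' t : PTree, if size t = n ∧ A t then weight (profile F hpos hmono hlim).law t else 0) ≤
      ENNReal.ofReal x) :
    condProb (profile F hpos hmono hlim).law n A ≤ ENNReal.ofReal (16 * (n : ℝ) ^ 5 * x) := by
  have hn0 : (0 : ℝ) < n := by positivity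
  have h1 := sizeProb_poly F hpos hmono hlim n hn
  unfold condProb
  calc (∑' t : PTree, if size t = n ∧ A t then weight (profile F hpos hmono hlim).law t else 0) /
        sizeProb (profile F hpos hmono hlim).law n
      ≤ ENNReal.ofReal x / ENNReal.ofReal (1 / (16 * (n : ℝ) ^ 5)) := by
        gcongr
    _ = ENNReal.ofReal (x / (1 / (16 * (n : ℝ) ^ 5))) :=
        (ENNReal.ofReal_div_of_pos (by positivity)).symm
    _ = ENNReal.ofReal (16 * (n : ℝ) ^ 5 * x) := by
        congr 1
        field_simp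

/-- Upper bound for the height. -/
lemma upper_bound (n : ℕ) (hn : 2 ≤ n) (h : ℕ)
    (hh : 24 * (F (n ^ 8) / F 1) * Real.log n ≤ h) :
    condProb (profile F hpos hmono hlim).law n (fun t => h ≤ height t) ≤
      ENNReal.ofReal (16 / n) := by
  set P := profile F hpos hmono hlim with hP
  have hn0 : (0 : ℝ) < n := by positivity
  have hn1 : (1 : ℝ) ≤ n := by exact_mod_cast (by omega : 1 ≤ n)
  have hF1 := hpos 1 le_rfl
  have hF8 := hpos (n ^ 8) (Nat.one_le_pow _ _ (by omega))
  set K : ℝ := (n : ℝ) ^ 6 with hK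
  have hK0 : 0 < K := by positivity
  have hL : F 1 / (4 * F (n ^ 8)) ≤ Lf P.law K := by
    refine le_trans ?_ (P.Lf_ge K hK0.le (n ^ 8) (Nat.one_le_pow _ _ (by omega)) (by
      rw [hK]; push_cast
      have h2 : (2 : ℝ) ≤ n := by exact_mod_cast hn
      nlinarith [mul_le_mul h2 h2 (by norm_num) (by linarith), pow_pos hn0 6]))
    have h3 : 0 ≤ 1 / ((n ^ 8 : ℕ) : ℝ) := by positivity
    have h4 : F 1 / (4 * F (n ^ 8)) = F 1 / F (n ^ 8) / 2 / 2 := by
      field_simp; norm_num
    rw [h4, hP]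
    simp only [profile]
    linarith
  have hL1 := Lf_le_one P.law P.law_mean K hK0.le
  have hpow : (1 - Lf P.law K) ^ h ≤ 1 / K := by
    have h1 : (1 - Lf P.law K) ^ h ≤ Real.exp (-(Lf P.law K * h)) := by
      have h2 : 1 - Lf P.law K ≤ Real.exp (-(Lf P.law K)) := by
        have := Real.add_one_le_exp (-(Lf P.law K))
        linarith
      calc (1 - Lf P.law K) ^ h ≤ (Real.exp (-(Lf P.law K))) ^ h :=
            pow_le_pow_left₀ (by linarith) h2 h
        _ = Real.exp (-(Lf P.law K * h)) := by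
            rw [← Real.exp_nat_mul]; congr 1; ring
    refine h1.trans ?_
    have h3 : 6 * Real.log n ≤ Lf P.law K * h := by
      have hlog : 0 ≤ Real.log n := Real.log_nonneg hn1
      calc 6 * Real.log n = F 1 / (4 * F (n ^ 8)) * (24 * (F (n ^ 8) / F 1) * Real.log n) := by
            field_simp
            ring
        _ ≤ F 1 / (4 * F (n ^ 8)) * h := by gcongr
        _ ≤ Lf P.law K * h := by gcongr
    have h4 : Real.exp (-(6 * Real.log n)) = 1 / K := by
      rw [Real.exp_neg, one_div, hK]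
      congr 1
      have : (6 : ℝ) * Real.log n = ((6 : ℕ) : ℝ) * Real.log n := by norm_num
      rw [this, Real.exp_nat_mul, Real.exp_log hn0]
    rw [← h4]
    exact Real.exp_le_exp.mpr (by linarith)
  have h5 := tall_size_le P.law P.law_mean K hK0 n h
  rw [max_eq_right hpow] at h5
  classical
  have h6 := condProb_le_of F hpos hmono hlim n hn (fun t => h ≤ height t) (1 / K) (by positivity)
    (le_trans (le_of_eq (by congr 1; funext t; congr)) h5)
  refine h6.trans (ENNReal.ofReal_le_ofReal (le_of_eq ?_))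
  rw [hK]
  field_simp

end Bounds

end Pool.Agent.R980.GW
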