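import Pool.Agent.R980.GWLaw

set_option autoImplicit false

open scoped ENNReal
open Filter Topology

namespace Pool.Agent.R980.GW

lemma one_sub_ge_exp (x : ℝ) (h0 : 0 ≤ x) (h1 : x ≤ 1 / 2) : Real.exp (-(2 * x)) ≤ 1 - x := by
  rw [Real.exp_neg]
  have h2 : 1 + 2 * x ≤ Real.exp (2 * x) := by
    have := Real.add_one_le_exp (2 * x)
    linarith
  calc (Real.exp (2 * x))⁻¹ ≤ (1 + 2 * x)⁻¹ := by
        apply inv_anti₀ (by linarith) h2
    _ ≤ 1 - x := by
        rw [inv_le_iff_one_le_mul₀ (by linarith)]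
        nlinarith

lemma exp_half_le (x : ℝ) (h0 : 0 ≤ x) (h1 : x ≤ 1) : Real.exp (x / 2) ≤ 1 + x := by
  have h2 : 1 - x / 2 ≤ Real.exp (-(x / 2)) := by
    have := Real.add_one_le_exp (-(x / 2))
    linarith
  rw [Real.exp_neg] at h2
  have h3 : 0 < Real.exp (x / 2) := Real.exp_pos _
  have h4 : (1 - x / 2) * Real.exp (x / 2) ≤ 1 := by
    have := mul_le_mul_of_nonneg_right h2 h3.le
    rwa [inv_mul_cancel₀ h3.ne'] at this
  have h5 : 1 ≤ (1 - x / 2) * (1 + x) := by nlinarith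
  have h6 : 0 < 1 - x / 2 := by linarith
  by_contra hcon
  push Not at hcon
  have := mul_lt_mul_of_pos_left hcon h6
  linarith

section Bounds

variable (F : ℕ → ℝ) (hpos : ∀ k, 1 ≤ k → 0 < F k)
    (hmono : ∀ j k, 1 ≤ j → j ≤ k → F j ≤ F k) (hlim : Tendsto F atTop atTop)

include hpos hmono in
lemma linear_bound (C : ℝ) (hC1 : 1 ≤ C) (hC : ∀ n, 1 ≤ n → F (n ^ 2) ≤ C * F n) :
    ∃ A : ℝ, 0 < A ∧ ∀ j, 1 ≤ j → F j ≤ A * j := by
  set j0 : ℕ := (⌈2 * C⌉₊ + 1) ^ 2 with hj0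
  have hj01 : 1 ≤ j0 := Nat.one_le_pow _ _ (by omega)
  refine ⟨F j0, hpos _ hj01, ?_⟩
  intro j
  induction j using Nat.strong_induction_on with
  | _ j ih =>
    intro hj
    rcases le_or_gt j j0 with h1 | h1
    · have h2 := hmono j j0 hj h1
      have h3 : (1 : ℝ) ≤ j := by exact_mod_cast hj
      have := hpos j0 hj01
      nlinarith
    · have h2 : ⌈2 * C⌉₊ + 1 ≤ Nat.sqrt j := by
        rw [Nat.le_sqrt, ← sq]
        exact h1.le
      have h3 : 2 * C ≤ ⌈2 * C⌉₊ := Nat.le_ceil _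
      have h4 : (2 : ℕ) ≤ ⌈2 * C⌉₊ := by
        have : (2 : ℝ) ≤ ⌈2 * C⌉₊ := by linarith
        exact_mod_cast this
      have h5 : Nat.sqrt j * Nat.sqrt j ≤ j := Nat.sqrt_le j
      have h6 : Nat.sqrt j + 1 < j := by nlinarith
      have h7 := ih (Nat.sqrt j + 1) h6 (by omega)
      have h8 : j ≤ (Nat.sqrt j + 1) ^ 2 := by
        have := Nat.lt_succ_sqrt j
        rw [sq]
        exact this.le
      have h9 := hmono j _ hj h8
      have h10 := hC (Nat.sqrt j + 1) (by omega)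
      have h11 : 2 * C ≤ Nat.sqrt j := by
        have : ((⌈2 * C⌉₊ : ℕ) : ℝ) ≤ Nat.sqrt j := by exact_mod_cast (by omega : ⌈2 * C⌉₊ ≤ Nat.sqrt j)
        linarith
      have h12 : (Nat.sqrt j : ℝ) * Nat.sqrt j ≤ j := by exact_mod_cast h5
      have h13 : (1 : ℝ) ≤ Nat.sqrt j := by linarith
      have h14 : C * (((Nat.sqrt j + 1 : ℕ)) : ℝ) ≤ j := by
        push_cast
        nlinarith
      have hF0 := hpos j0 hj01
      calc F j ≤ C * F (Nat.sqrt j + 1) := h9.trans h10
        _ ≤ C * (F j0 * ((Nat.sqrt j + 1 : ℕ) : ℝ)) := by gcongr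
        _ = F j0 * (C * ((Nat.sqrt j + 1 : ℕ) : ℝ)) := by ring
        _ ≤ F j0 * j := by gcongr

lemma iterate_pow (C : ℝ) (hC0 : 0 ≤ C) (hC : ∀ n, 1 ≤ n → F (n ^ 2) ≤ C * F n) (i j : ℕ)
    (hj : 1 ≤ j) : F (j ^ (2 ^ i)) ≤ C ^ i * F j := by
  induction i with
  | zero => simp
  | succ i ih =>
    have h1 := hC (j ^ (2 ^ i)) (Nat.one_le_pow _ _ hj)
    rw [← pow_mul, ← pow_succ] at h1
    calc F (j ^ (2 ^ (i + 1))) ≤ C * F (j ^ (2 ^ i)) := h1
      _ ≤ C * (C ^ i * F j) := by gcongr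
      _ = C ^ (i + 1) * F j := by ring

lemma atom_zero_pos : 0 < (profile F hpos hmono hlim).m 0 := by
  set P := profile F hpos hmono hlim with hP
  have h1 := P.mean_a.sub P.summable_a.hasSum
  have h2 : (2 : ℝ) * P.a 2 - P.a 2 ≤ 1 - ∑' k, P.a k := by
    have h3 := le_hasSum h1 2 (fun k _ => by
      rcases Nat.eq_zero_or_pos k with h | h
      · subst h; simp [Profile.a]
      · have h1 : (1 : ℝ) ≤ k := by exact_mod_cast h
        have := P.a_nonneg k
        nlinarith)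
    simpa using h3
  have h3 := atom_lower F hpos hmono hlim 2 (by norm_num)
  rw [← hP, P.law_toReal' 2 (by norm_num)] at h3
  have h4 : (0 : ℝ) < 1 / (2 * ((2 : ℕ) : ℝ) ^ 2 * (((2 : ℕ) : ℝ) + 1)) := by positivity
  unfold Profile.m
  rw [if_pos rfl]
  linarith

lemma critical_law : Critical (profile F hpos hmono hlim).law := by
  refine ⟨Profile.law_mean _, ?_⟩
  set P := profile F hpos hmono hlim with hP
  intro h1
  have h0 := atom_zero_pos F hpos hmono hlim
  rw [← hP] at h0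
  have h2 : (P.law 0).toReal + (P.law 1).toReal ≤ 1 := by
    have := sum_le_hasSum (Finset.range 2) (fun k _ => ENNReal.toReal_nonneg) (toReal_hasSum P.law)
    simpa [Finset.sum_range_succ] using this
  rw [h1, P.law_toReal 0] at h2
  simp only [ENNReal.toReal_one] at h2
  linarith

lemma sizeProb_ne_zero (n : ℕ) (hn : 1 ≤ n) :
    sizeProb (profile F hpos hmono hlim).law n ≠ 0 := by
  rcases hn.lt_or_eq with h | h
  · have h1 := sizeProb_poly F hpos hmono hlim n h
    have hn0 : (0 : ℝ) < n := by positivity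
    have h2 : 0 < ENNReal.ofReal (1 / (16 * (n : ℝ) ^ 5)) := by
      rw [ENNReal.ofReal_pos]; positivity
    exact (lt_of_lt_of_le h2 h1).ne'
  · subst h
    have h0 := atom_zero_pos F hpos hmono hlim
    have h1 : (profile F hpos hmono hlim).law 0 ≤ sizeProb (profile F hpos hmono hlim).law 1 := by
      unfold sizeProb
      refine le_trans (le_of_eq ?_) (ENNReal.le_tsum (mk []))
      rw [size_mk, sizeF_nil, weight_mk, weightF_nil]
      simp
    have h2 : 0 < (profile F hpos hmono hlim).law 0 := by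
      rw [Profile.law_apply, ENNReal.ofReal_pos]
      exact h0
    exact (lt_of_lt_of_le h2 h1).ne'

/-- Lower bound for the height if `F (n²) ≤ C F n`. -/
lemma lower_bound (C : ℝ) (hC1 : 1 ≤ C) (hC : ∀ n, 1 ≤ n → F (n ^ 2) ≤ C * F n) :
    ∃ c : ℝ, 0 < c ∧ Tendsto (fun n : ℕ => condProb (profile F hpos hmono hlim).law n
      (fun t => (height t : ℝ) < c * (F n * Real.log n))) atTop (𝓝 0) := by
  set P := profile F hpos hmono hlim with hP
  obtain ⟨A, hA0, hA⟩ := linear_bound F hpos hmono C hC1 hC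
  have hF1 := hpos 1 le_rfl
  set B : ℝ := (3 * A + F 1) * C ^ 4 with hB
  have hB0 : 0 < B := by positivity
  set κ : ℝ := (1 - (P.law 0).toReal) / 2 with hκ
  have hμ0 : (P.law 0).toReal < 1 := by
    have h2 : (P.law 0).toReal + (P.law 1).toReal ≤ 1 := by
      have := sum_le_hasSum (Finset.range 2) (fun k _ => ENNReal.toReal_nonneg)
        (toReal_hasSum P.law)
      simpa [Finset.sum_range_succ] using this
    have h3 := atom_lower F hpos hmono hlim 1 le_rfl
    rw [← hP] at h3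
    norm_num at h3
    linarith
  have hμ0' : 0 ≤ (P.law 0).toReal := ENNReal.toReal_nonneg
  have hκ0 : 0 < κ := by rw [hκ]; linarith
  have hκ1 : κ ≤ 1 := by rw [hκ]; linarith
  refine ⟨1 / (16 * B), by positivity, ?_⟩
  -- the scale `s = n^{1/8}`
  let s : ℕ → ℝ := fun n => (n : ℝ) ^ (1 / 8 : ℝ)
  have hs8 : ∀ n : ℕ, (s n) ^ 8 = n := by
    intro n
    simp only [s]
    rw [← Real.rpow_natCast, ← Real.rpow_mul (Nat.cast_nonneg n)]
    norm_num
  have hs : Tendsto s atTop atTop :=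
    (tendsto_rpow_atTop (by norm_num : (0 : ℝ) < 1 / 8)).comp tendsto_natCast_atTop_atTop
  have hlimit : Tendsto (fun n : ℕ => ENNReal.ofReal (16 * (n : ℝ) ^ 5 *
      Real.exp (-(s n ^ 2 / 2)))) atTop (𝓝 0) := by
    have h1 : Tendsto (fun n : ℕ => s n ^ 2 / 2) atTop atTop := by
      apply Tendsto.atTop_div_const (by norm_num)
      exact (tendsto_pow_atTop (by norm_num)).comp hs
    have h2 := (Real.tendsto_pow_mul_exp_neg_atTop_nhds_zero 20).comp h1
    have h3 := h2.const_mul (16 * 2 ^ 20 : ℝ)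
    rw [mul_zero] at h3
    have h4 := (ENNReal.continuous_ofReal.tendsto 0).comp h3
    rw [ENNReal.ofReal_zero] at h4
    refine h4.congr fun n => ?_
    simp only [Function.comp]
    congr 1
    rw [← hs8 n]
    ring
  refine tendsto_of_tendsto_of_tendsto_of_le_of_le' tendsto_const_nhds hlimit
    (Eventually.of_forall fun n => zero_le) ?_
  have hFB : ∀ᶠ n : ℕ in atTop, 2 * B ≤ F n := hlim.eventually_ge_atTop _
  have hs1 : ∀ᶠ n : ℕ in atTop, 3 ≤ s n := hs.eventually_ge_atTop _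
  have hs2 : ∀ᶠ n : ℕ in atTop, 1 / κ ≤ s n := hs.eventually_ge_atTop _
  have hs3 : ∀ᶠ n : ℕ in atTop, 1 - Real.log κ ≤ Real.log (s n) :=
    (Real.tendsto_log_atTop.comp hs).eventually_ge_atTop _
  filter_upwards [hFB, hs1, hs2, hs3, eventually_ge_atTop 2] with n hFn hsn1 hsn2 hsn3 hn
  set σ := s n with hσ
  have hσ0 : 0 < σ := by linarith
  have hn0 : (0 : ℝ) < n := by positivity
  set J : ℕ := ⌊σ⌋₊ with hJ
  have hJ3 : 3 ≤ J := Nat.le_floor (by exact_mod_cast hsn1)
  have hJle : (J : ℝ) ≤ σ := Nat.floor_le hσ0.le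
  have hJlt : σ < J + 1 := Nat.lt_floor_add_one σ
  have hJ0 : (0 : ℝ) < J := by positivity
  have hnJ : n ≤ J ^ 16 := by
    have h1 : σ ≤ (J : ℝ) ^ 2 := by
      have : (3 : ℝ) ≤ J := by exact_mod_cast hJ3
      nlinarith
    have h2 : (n : ℝ) ≤ ((J ^ 16 : ℕ) : ℝ) := by
      rw [← hs8 n, ← hσ]
      push_cast
      calc σ ^ 8 ≤ ((J : ℝ) ^ 2) ^ 8 := by gcongr
        _ = (J : ℝ) ^ 16 := by ring
    exact_mod_cast h2
  have hFJ : F n ≤ C ^ 4 * F J := by
    have h1 := hmono n (J ^ 16) (by omega) hnJ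
    have h2 := iterate_pow F C (by linarith) hC 4 J (by omega)
    norm_num at h2
    exact h1.trans h2
  have hFn0 : 0 < F n := hpos n (by omega)
  have hFJ0 : 0 < F J := hpos J (by omega)
  have hinvJ : 1 / F J ≤ C ^ 4 / F n := by
    rw [div_le_div_iff₀ hFJ0 hFn0]
    linarith
  have h1J : 1 / (J : ℝ) ≤ A / F J := by
    rw [div_le_div_iff₀ hJ0 hFJ0]
    have := hA J (by omega)
    linarith
  -- the loss rate
  have hLσ : Lf P.law σ ≤ P.V J := P.Lf_le σ hσ0.le J (by omega) (by linarith)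
  have hVJ : P.V J = (1 / (J : ℝ) + F 1 / F J) / 2 := by rw [hP]; rfl
  have h1σ : 1 / σ ≤ 1 / (J : ℝ) := one_div_le_one_div_of_le hJ0 hJle
  have h2σ : 1 / σ ^ 2 ≤ 1 / σ := by
    apply one_div_le_one_div_of_le hσ0
    nlinarith
  have hrate : Lf P.law σ + 1 / σ ^ 2 * σ + 1 / σ ^ 6 / (1 / σ ^ 4) ≤ B / F n := by
    have e1 : 1 / σ ^ 2 * σ = 1 / σ := by field_simp
    have e2 : 1 / σ ^ 6 / (1 / σ ^ 4) = 1 / σ ^ 2 := by field_simp
    rw [e1, e2]
    have h3 : F 1 / F J = F 1 * (1 / F J) := by ring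
    have h4 : A / F J = A * (1 / F J) := by ring
    have h5 : B / F n = (3 * A + F 1) * (C ^ 4 / F n) := by rw [hB]; ring
    have h6 : (3 * A + F 1) * (1 / F J) ≤ (3 * A + F 1) * (C ^ 4 / F n) := by gcongr
    have h7 : 0 ≤ F 1 * (1 / F J) := by positivity
    have h8 : 0 ≤ 1 / (J : ℝ) := by positivity
    rw [h5]
    nlinarith
  have hBF : B / F n ≤ 1 / 2 := by
    rw [div_le_div_iff₀ hFn0 (by norm_num)]
    linarith
  have hBF0 : 0 ≤ B / F n := by positivity
  set N : ℕ := ⌈1 / (16 * B) * (F n * Real.log n)⌉₊ with hN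
  have hlogn : Real.log n = 8 * Real.log σ := by
    rw [← hs8 n, ← hσ, Real.log_pow]
    norm_num
  have hlogσ : 0 ≤ Real.log σ := Real.log_nonneg (by linarith)
  have hNle : (N : ℝ) ≤ 1 / (16 * B) * (F n * Real.log n) + 1 := by
    have h1 : 0 ≤ 1 / (16 * B) * (F n * Real.log n) := by
      rw [hlogn]; positivity
    exact (Nat.ceil_lt_add_one h1).le
  have hexpN : 2 * (B / F n * N) ≤ Real.log σ + 1 := by
    have h1 : B / F n * N ≤ B / F n * (1 / (16 * B) * (F n * Real.log n) + 1) := by gcongr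
    have h2 : B / F n * (1 / (16 * B) * (F n * Real.log n) + 1) = Real.log n / 16 + B / F n := by
      field_simp
    rw [h2, hlogn] at h1
    linarith
  have hfinal : 1 / σ ^ 4 ≤ κ * (1 / σ ^ 2) * (1 - B / F n) ^ N := by
    have h1 : Real.exp (-(Real.log σ + 1)) ≤ (1 - B / F n) ^ N := by
      calc Real.exp (-(Real.log σ + 1)) ≤ Real.exp (-(2 * (B / F n * N))) :=
            Real.exp_le_exp.mpr (by linarith)
        _ = (Real.exp (-(2 * (B / F n)))) ^ N := by
            rw [← Real.exp_nat_mul]; congr 1; ring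
        _ ≤ (1 - B / F n) ^ N :=
            pow_le_pow_left₀ (Real.exp_pos _).le (one_sub_ge_exp _ hBF0 hBF) N
    have h2 : 1 / (κ * σ ^ 2) ≤ Real.exp (-(Real.log σ + 1)) := by
      have h3 : Real.log σ + 1 ≤ Real.log (κ * σ ^ 2) := by
        rw [Real.log_mul hκ0.ne' (by positivity), Real.log_pow]
        push_cast
        linarith
      rw [Real.exp_neg, one_div]
      apply inv_anti₀ (Real.exp_pos _)
      calc Real.exp (Real.log σ + 1) ≤ Real.exp (Real.log (κ * σ ^ 2)) :=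
            Real.exp_le_exp.mpr h3
        _ = κ * σ ^ 2 := Real.exp_log (by positivity)
    calc 1 / σ ^ 4 = κ * (1 / σ ^ 2) * (1 / (κ * σ ^ 2)) := by field_simp
      _ ≤ κ * (1 / σ ^ 2) * (1 - B / F n) ^ N := by
          apply mul_le_mul_of_nonneg_left (h2.trans h1)
          positivity
  have hη0 : 0 ≤ 1 / σ ^ 6 := by positivity
  have hη1 : 1 / σ ^ 6 ≤ 1 := by
    rw [div_le_one (by positivity)]
    exact one_le_pow₀ (by linarith)
  have hgap := (short_gap P.law P.law_mean (1 / σ ^ 6) σ (1 / σ ^ 2) (1 / σ ^ 4) κ (B / F n)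
    hη0 hσ0.le (by positivity) (by
      rw [div_le_one (by positivity)]
      exact one_le_pow₀ (by linarith)) (by positivity) hκ0.le hκ1 (by
      have h1 : 1 / σ ^ 6 ≤ κ * (1 / σ ^ 2) := by
        have h2 : 1 / κ ≤ σ ^ 4 := by
          calc 1 / κ ≤ σ := hsn2
            _ = σ ^ 1 := (pow_one σ).symm
            _ ≤ σ ^ 4 := pow_le_pow_right₀ (by linarith) (by norm_num)
        rw [div_le_iff₀ hκ0] at h2
        rw [div_le_iff₀ (by positivity)]
        calc (1 : ℝ) ≤ σ ^ 4 * κ := h2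
          _ = κ * (1 / σ ^ 2) * σ ^ 6 := by field_simp
      have h3 : 1 / σ ^ 2 * (1 - (P.law 0).toReal) = 2 * (κ * (1 / σ ^ 2)) := by
        rw [hκ]; ring
      rw [h3]
      linarith) hBF0 (by linarith) hrate (by positivity) N hfinal N le_rfl).1
  have hshort := short_size_le P.law (ENNReal.ofReal (1 + 1 / σ ^ 6)) (by
    rw [ne_eq, ENNReal.ofReal_eq_zero]; push Not; positivity) ENNReal.ofReal_ne_top n N hgap
  have hz : (ENNReal.ofReal (1 + 1 / σ ^ 6) ^ n)⁻¹ ≤ ENNReal.ofReal (Real.exp (-(σ ^ 2 / 2))) := by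
    rw [← ENNReal.ofReal_pow (by positivity), ← ENNReal.ofReal_inv_of_pos (by positivity)]
    apply ENNReal.ofReal_le_ofReal
    rw [Real.exp_neg]
    apply inv_anti₀ (Real.exp_pos _)
    have h1 := exp_half_le (1 / σ ^ 6) hη0 hη1
    calc Real.exp (σ ^ 2 / 2) = (Real.exp (1 / σ ^ 6 / 2)) ^ n := by
          rw [← Real.exp_nat_mul]
          congr 1
          rw [← hs8 n, ← hσ]
          field_simp
      _ ≤ (1 + 1 / σ ^ 6) ^ n := pow_le_pow_left₀ (Real.exp_pos _).le h1 n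
  classical
  have h6 := condProb_le_of F hpos hmono hlim n hn
    (fun t => (height t : ℝ) < 1 / (16 * B) * (F n * Real.log n)) (Real.exp (-(σ ^ 2 / 2)))
    (Real.exp_pos _).le (by
      refine le_trans ?_ (hshort.trans hz)
      apply ENNReal.tsum_le_tsum
      intro t
      by_cases h1 : size t = n ∧ (height t : ℝ) < 1 / (16 * B) * (F n * Real.log n)
      · have h2 : height t < N := Nat.lt_ceil.mpr h1.2
        rw [if_pos h1, if_pos ⟨h1.1, h2⟩]
      · rw [if_neg h1]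
        exact zero_le)
  exact h6

end Bounds

end Pool.Agent.R980.GW
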