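import Mathlib

/-!
# The König graph process: definitions and deterministic facts
-/

set_option autoImplicit false

namespace Pool.Agent.R980.Konig

open Finset Filter Topology
open scoped Classical

/-- pairs of distinct vertices, i.e. the edges of `K_n` -/
abbrev Edge (n : ℕ) : Type := {e : Sym2 (Fin n) // ¬ e.IsDiag}

/-- `M` is a matching of `G`: a set of edges of `G`, no two of which share a vertex. -/
def IsMatchingSet {n : ℕ} (G : SimpleGraph (Fin n)) (M : Finset (Sym2 (Fin n))) : Prop :=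
  (∀ e ∈ M, e ∈ G.edgeSet) ∧ ∀ e ∈ M, ∀ f ∈ M, ∀ v : Fin n, v ∈ e → v ∈ f → e = f

/-- `C` is a vertex cover of `G`: it meets every edge. -/
def IsCover {n : ℕ} (G : SimpleGraph (Fin n)) (C : Finset (Fin n)) : Prop :=
  ∀ e ∈ G.edgeSet, ∃ v ∈ C, v ∈ e

/-- the matching number `ν(G)` -/
noncomputable def nu {n : ℕ} (G : SimpleGraph (Fin n)) : ℕ :=
  ((univ : Finset (Finset (Sym2 (Fin n)))).filter fun M => IsMatchingSet G M).sup Finset.card

/-- the vertex cover number `τ(G)` -/
noncomputable def tau {n : ℕ} (G : SimpleGraph (Fin n)) : ℕ :=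
  sInf {k : ℕ | ∃ C : Finset (Fin n), IsCover G C ∧ C.card = k}

/-- `G` is a König graph: `τ(G) = ν(G)`. -/
def IsKonig {n : ℕ} (G : SimpleGraph (Fin n)) : Prop := tau G = nu G

/-- `C` is an optimal cover of `G`: a vertex cover of size `τ(G)`. -/
def IsOptimalCover {n : ℕ} (G : SimpleGraph (Fin n)) (C : Finset (Fin n)) : Prop :=
  IsCover G C ∧ C.card = tau G

/-- the graph `G + e` -/
def addEdge {n : ℕ} (G : SimpleGraph (Fin n)) (e : Edge n) : SimpleGraph (Fin n) :=
  G ⊔ SimpleGraph.fromEdgeSet {e.1}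

/-- The graph `G_i` of the König graph process along the ordering `σ` of the edges of `K_n`
(where `N` is the number of edges of `K_n`). -/
noncomputable def proc {n : ℕ} (σ : Fin (n.choose 2) ≃ Edge n) : ℕ → SimpleGraph (Fin n)
  | 0 => ⊥
  | i + 1 =>
    if h : i < n.choose 2 then
      (if IsKonig (addEdge (proc σ i) (σ ⟨i, h⟩)) then addEdge (proc σ i) (σ ⟨i, h⟩)
        else proc σ i)
    else proc σ i

/-- the probability of an event for a uniformly random ordering of the edges of `K_n` -/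
noncomputable def prob (n : ℕ) (A : (Fin (n.choose 2) ≃ Edge n) → Prop) : ℝ :=
  ((univ.filter A).card : ℝ) / (Fintype.card (Fin (n.choose 2) ≃ Edge n) : ℝ)

section basics

variable {n : ℕ}

/-- vertices covered by a set of edges -/
noncomputable def VM (M : Finset (Sym2 (Fin n))) : Finset (Fin n) := M.biUnion Sym2.toFinset

theorem mem_VM (M : Finset (Sym2 (Fin n))) (v : Fin n) : v ∈ VM M ↔ ∃ e ∈ M, v ∈ e := by
  unfold VM
  rw [mem_biUnion]
  simp only [Sym2.mem_toFinset]

theorem card_VM (G : SimpleGraph (Fin n)) (M : Finset (Sym2 (Fin n))) (hM : IsMatchingSet G M) :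
    (VM M).card = 2 * M.card := by
  unfold VM
  rw [card_biUnion]
  · rw [sum_congr rfl (fun e he => Sym2.card_toFinset_of_not_isDiag e
      (SimpleGraph.not_isDiag_of_mem_edgeSet _ (hM.1 e he)))]
    rw [sum_const, smul_eq_mul, mul_comm]
  · intro e he f hf hne
    rw [Function.onFun, Finset.disjoint_left]
    intro v hv hv'
    rw [Sym2.mem_toFinset] at hv hv'
    exact hne (hM.2 e he f hf v hv hv')

theorem le_nu (G : SimpleGraph (Fin n)) (M : Finset (Sym2 (Fin n))) (hM : IsMatchingSet G M) :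
    M.card ≤ nu G :=
  Finset.le_sup (f := Finset.card) (by rw [mem_filter]; exact ⟨mem_univ _, hM⟩)

theorem empty_matching (G : SimpleGraph (Fin n)) : IsMatchingSet G ∅ :=
  ⟨fun e he => by simp at he, fun e he => by simp at he⟩

theorem exists_nu (G : SimpleGraph (Fin n)) :
    ∃ M : Finset (Sym2 (Fin n)), IsMatchingSet G M ∧ M.card = nu G := by
  obtain ⟨M, hM, hc⟩ := Finset.exists_mem_eq_sup
    ((univ : Finset (Finset (Sym2 (Fin n)))).filter fun M => IsMatchingSet G M)
    ⟨∅, by rw [mem_filter]; exact ⟨mem_univ _, empty_matching G⟩⟩ Finset.card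
  rw [mem_filter] at hM
  exact ⟨M, hM.2, hc.symm⟩

theorem exists_tau (G : SimpleGraph (Fin n)) : ∃ C : Finset (Fin n), IsOptimalCover G C := by
  have hne : {k : ℕ | ∃ C : Finset (Fin n), IsCover G C ∧ C.card = k}.Nonempty := by
    refine ⟨_, univ, ?_, rfl⟩
    intro e _
    induction e with
    | _ a b => exact ⟨a, mem_univ _, by simp⟩
  exact Nat.sInf_mem hne

theorem tau_le (G : SimpleGraph (Fin n)) (C : Finset (Fin n)) (hC : IsCover G C) :
    tau G ≤ C.card := Nat.sInf_le ⟨C, hC, rfl⟩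

/-- weak duality -/
theorem card_le_card_cover (G : SimpleGraph (Fin n)) (M : Finset (Sym2 (Fin n)))
    (C : Finset (Fin n)) (hM : IsMatchingSet G M) (hC : IsCover G C) : M.card ≤ C.card := by
  have h : ∀ e : Sym2 (Fin n), ∃ v : Fin n, e ∈ M → v ∈ C ∧ v ∈ e := by
    intro e
    by_cases he : e ∈ M
    · obtain ⟨v, hv, hve⟩ := hC e (hM.1 e he)
      exact ⟨v, fun _ => ⟨hv, hve⟩⟩
    · induction e with
      | _ a b => exact ⟨a, fun h => absurd h he⟩
  choose f hf using h
  refine card_le_card_of_injOn f (fun e he => (hf e he).1) ?_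
  intro e he e' he' hee
  refine hM.2 e he e' he' (f e) (hf e he).2 ?_
  rw [hee]
  exact (hf e' he').2

theorem nu_le_tau (G : SimpleGraph (Fin n)) : nu G ≤ tau G := by
  obtain ⟨M, hM, hc⟩ := exists_nu G
  obtain ⟨C, hC, hc'⟩ := exists_tau G
  rw [← hc, ← hc']
  exact card_le_card_cover G M C hM hC

theorem mem_addEdge (G : SimpleGraph (Fin n)) (e : Edge n) (f : Sym2 (Fin n)) :
    f ∈ (addEdge G e).edgeSet ↔ f ∈ G.edgeSet ∨ f = e.1 := by
  unfold addEdge
  rw [SimpleGraph.edgeSet_sup, SimpleGraph.edgeSet_fromEdgeSet]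
  constructor
  · rintro (h | h)
    · exact Or.inl h
    · exact Or.inr h.1
  · rintro (h | h)
    · exact Or.inl h
    · right
      subst h
      exact ⟨rfl, e.2⟩

theorem matching_add (G : SimpleGraph (Fin n)) (e : Edge n) (M : Finset (Sym2 (Fin n)))
    (hM : IsMatchingSet G M) : IsMatchingSet (addEdge G e) M :=
  ⟨fun f hf => (mem_addEdge G e f).2 (Or.inl (hM.1 f hf)), hM.2⟩

theorem cover_of_add (G : SimpleGraph (Fin n)) (e : Edge n) (C : Finset (Fin n))
    (hC : IsCover G C) (v : Fin n) (hv : v ∈ e.1) : IsCover (addEdge G e) (insert v C) := by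
  intro f hf
  rcases (mem_addEdge G e f).1 hf with h | h
  · obtain ⟨w, hw, hwf⟩ := hC f h
    exact ⟨w, mem_insert_of_mem hw, hwf⟩
  · exact ⟨v, mem_insert_self _ _, h ▸ hv⟩

/-- inserting an edge both of whose endpoints are uncovered -/
theorem matching_insert (G : SimpleGraph (Fin n)) (M : Finset (Sym2 (Fin n)))
    (hM : IsMatchingSet G M) (e : Sym2 (Fin n)) (he : e ∈ G.edgeSet)
    (hv : ∀ v ∈ e, v ∉ VM M) : IsMatchingSet G (insert e M) ∧ (insert e M).card = M.card + 1 := by
  have hne : e ∉ M := by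
    intro h
    induction e with
    | _ a b =>
    exact hv a (by simp) ((mem_VM M a).2 ⟨_, h, by simp⟩)
  refine ⟨⟨?_, ?_⟩, card_insert_of_notMem hne⟩
  · intro f hf
    rw [mem_insert] at hf
    rcases hf with rfl | hf
    · exact he
    · exact hM.1 f hf
  · intro f hf g hg v hvf hvg
    rw [mem_insert] at hf hg
    rcases hf with rfl | hf <;> rcases hg with rfl | hg
    · rfl
    · exact absurd ((mem_VM M v).2 ⟨g, hg, hvg⟩) (hv v hvf)
    · exact absurd ((mem_VM M v).2 ⟨f, hf, hvf⟩) (hv v hvg)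
    · exact hM.2 f hf g hg v hvf hvg

theorem matching_subset (G : SimpleGraph (Fin n)) (M M' : Finset (Sym2 (Fin n)))
    (hM : IsMatchingSet G M) (h : M' ⊆ M) : IsMatchingSet G M' :=
  ⟨fun e he => hM.1 e (h he), fun e he f hf => hM.2 e (h he) f (h hf)⟩

/-- Every matching `M` has a maximum matching covering all vertices covered by `M`. -/
theorem extend_matching (G : SimpleGraph (Fin n)) (M : Finset (Sym2 (Fin n)))
    (hM : IsMatchingSet G M) :
    ∃ N : Finset (Sym2 (Fin n)), IsMatchingSet G N ∧ N.card = nu G ∧ VM M ⊆ VM N := by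
  obtain ⟨N0, hN0, hN0c⟩ := exists_nu G
  obtain ⟨N, hN, hmax⟩ := Finset.exists_max_image
    ((univ : Finset (Finset (Sym2 (Fin n)))).filter fun N => IsMatchingSet G N ∧ N.card = nu G)
    (fun N => (N ∩ M).card) ⟨N0, by rw [mem_filter]; exact ⟨mem_univ _, hN0, hN0c⟩⟩
  rw [mem_filter] at hN
  obtain ⟨-, hNm, hNc⟩ := hN
  refine ⟨N, hNm, hNc, ?_⟩
  intro v hv
  by_contra hvN
  rw [mem_VM] at hv
  obtain ⟨e, heM, hve⟩ := hv
  obtain ⟨w, rfl⟩ := Sym2.mem_iff_exists.1 hve
  have heG := hM.1 _ heM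
  -- `w` is covered by `N`
  have hwN : w ∈ VM N := by
    by_contra hw
    have := matching_insert G N hNm s(v, w) heG (by
      intro x hx
      rw [Sym2.mem_iff] at hx
      rcases hx with rfl | rfl
      · exact hvN
      · exact hw)
    have h2 := le_nu G _ this.1
    rw [this.2, hNc] at h2
    omega
  rw [mem_VM] at hwN
  obtain ⟨f, hfN, hwf⟩ := hwN
  have hfM : f ∉ M := by
    intro h
    have := hM.2 _ heM f h w (by simp) hwf
    apply hvN
    rw [mem_VM]
    exact ⟨f, hfN, this ▸ (by simp)⟩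
  have hN' : IsMatchingSet G (N.erase f) := matching_subset G N _ hNm (erase_subset _ _)
  have hun : ∀ x ∈ s(v, w), x ∉ VM (N.erase f) := by
    intro x hx hxN
    rw [Sym2.mem_iff] at hx
    rw [mem_VM] at hxN
    obtain ⟨g, hg, hxg⟩ := hxN
    rw [mem_erase] at hg
    rcases hx with rfl | rfl
    · exact hvN ((mem_VM N x).2 ⟨g, hg.2, hxg⟩)
    · exact hg.1 (hNm.2 g hg.2 f hfN x hxg hwf)
  have hins := matching_insert G (N.erase f) hN' s(v, w) heG hun
  have hcard : (insert s(v, w) (N.erase f)).card = nu G := by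
    rw [hins.2, card_erase_of_mem hfN, hNc]
    have : 0 < N.card := card_pos.2 ⟨f, hfN⟩
    omega
  have hle := hmax (insert s(v, w) (N.erase f)) (by
    rw [mem_filter]; exact ⟨mem_univ _, hins.1, hcard⟩)
  have hvw : s(v, w) ∉ N := fun h => hvN ((mem_VM N v).2 ⟨_, h, by simp⟩)
  have h1 : (insert s(v, w) (N.erase f)) ∩ M = insert s(v, w) (N ∩ M) := by
    rw [insert_inter_of_mem heM]
    congr 1
    ext g
    simp only [mem_inter, mem_erase]
    constructor
    · rintro ⟨⟨_, h⟩, h'⟩; exact ⟨h, h'⟩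
    · rintro ⟨h, h'⟩; exact ⟨⟨fun h3 => hfM (h3 ▸ h'), h⟩, h'⟩
  rw [h1, card_insert_of_notMem (fun h => hvw (mem_inter.1 h).1)] at hle
  omega

theorem two_nu_le (G : SimpleGraph (Fin n)) : 2 * nu G ≤ n := by
  obtain ⟨N, hN, hNc⟩ := exists_nu G
  have h3 := card_VM G N hN
  have h4 : (VM N).card ≤ n := by
    have := card_le_univ (VM N)
    rwa [Fintype.card_fin] at this
  omega

theorem konig_bot : IsKonig (⊥ : SimpleGraph (Fin n)) := by
  have h1 : tau (⊥ : SimpleGraph (Fin n)) ≤ 0 := by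
    have := tau_le (⊥ : SimpleGraph (Fin n)) ∅ (by intro e he; simp at he)
    simpa using this
  have h2 := nu_le_tau (⊥ : SimpleGraph (Fin n))
  unfold IsKonig
  omega

theorem konig_proc (σ : Fin (n.choose 2) ≃ Edge n) (i : ℕ) : IsKonig (proc σ i) := by
  induction i with
  | zero => exact konig_bot
  | succ i ih =>
    rw [proc]
    split_ifs with h1 h2
    · exact h2
    · exact ih
    · exact ih

/-- The invariant: some maximum matching of `G_i` meets all pairs proposed so far. -/
theorem invariant (σ : Fin (n.choose 2) ≃ Edge n) (i : ℕ) :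
    ∃ M : Finset (Sym2 (Fin n)), IsMatchingSet (proc σ i) M ∧ M.card = nu (proc σ i) ∧
      ∀ j : Fin (n.choose 2), j.1 < i → ∃ v ∈ (σ j).1, v ∈ VM M := by
  induction i with
  | zero =>
    obtain ⟨M, hM, hc⟩ := exists_nu (proc σ 0)
    exact ⟨M, hM, hc, fun j hj => absurd hj (Nat.not_lt_zero _)⟩
  | succ i ih =>
    obtain ⟨M, hM, hc, hj⟩ := ih
    rw [proc]
    split_ifs with h1 h2
    · -- accepted
      set e := σ ⟨i, h1⟩ with he
      obtain ⟨N, hN, hNc, hsub⟩ := extend_matching (addEdge (proc σ i) e) M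
        (matching_add _ _ _ hM)
      refine ⟨N, hN, hNc, ?_⟩
      intro j hji
      rcases Nat.lt_succ_iff_lt_or_eq.1 hji with h | h
      · obtain ⟨v, hv, hvM⟩ := hj j h
        exact ⟨v, hv, hsub hvM⟩
      · have hje : σ j = e := by
          rw [he]
          congr 1
          exact Fin.ext h
        rw [hje]
        by_contra hcon
        push Not at hcon
        have h3 := matching_insert (addEdge (proc σ i) e) N hN e.1
          ((mem_addEdge _ e e.1).2 (Or.inr rfl)) hcon
        have h4 := le_nu _ _ h3.1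
        rw [h3.2, hNc] at h4
        omega
    · -- rejected
      set e := σ ⟨i, h1⟩ with he
      refine ⟨M, hM, hc, ?_⟩
      intro j hji
      rcases Nat.lt_succ_iff_lt_or_eq.1 hji with h | h
      · exact hj j h
      · have hje : σ j = e := by
          rw [he]
          congr 1
          exact Fin.ext h
        rw [hje]
        by_contra hcon
        push Not at hcon
        have h3 := matching_insert (addEdge (proc σ i) e) M (matching_add _ _ _ hM) e.1
          ((mem_addEdge _ e e.1).2 (Or.inr rfl)) hcon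
        have h4 := le_nu _ _ h3.1
        rw [h3.2, hc] at h4
        apply h2
        -- the cover number grows by at most one
        obtain ⟨C, hC, hCc⟩ := exists_tau (proc σ i)
        obtain ⟨v, hv⟩ : ∃ v, v ∈ e.1 := by
          obtain ⟨e0, he0⟩ := e
          induction e0 with
          | _ a b => exact ⟨a, by simp⟩
        have h5 := tau_le _ _ (cover_of_add (proc σ i) e C hC v hv)
        have h6 := card_insert_le v C
        have h7 := konig_proc σ i
        have h8 := nu_le_tau (addEdge (proc σ i) e)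
        unfold IsKonig at h7 ⊢
        omega
    · refine ⟨M, hM, hc, ?_⟩
      intro j hji
      exact hj j (lt_of_lt_of_le j.2 (not_lt.1 h1))


/-- the union of all optimal covers -/
noncomputable def DU (G : SimpleGraph (Fin n)) : Finset (Fin n) :=
  univ.filter fun v => ∃ C : Finset (Fin n), IsOptimalCover G C ∧ v ∈ C

theorem mem_DU (G : SimpleGraph (Fin n)) (v : Fin n) :
    v ∈ DU G ↔ ∃ C : Finset (Fin n), IsOptimalCover G C ∧ v ∈ C := by
  unfold DU
  rw [mem_filter]
  exact ⟨fun h => h.2, fun h => ⟨mem_univ _, h⟩⟩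

theorem cover_subset_DU (G : SimpleGraph (Fin n)) (C : Finset (Fin n)) (hC : IsOptimalCover G C) :
    C ⊆ DU G := fun v hv => (mem_DU G v).2 ⟨C, hC, hv⟩

theorem tau_le_DU (G : SimpleGraph (Fin n)) : tau G ≤ (DU G).card := by
  obtain ⟨C, hC⟩ := exists_tau G
  rw [← hC.2]
  exact card_le_card (cover_subset_DU G C hC)

theorem proc_step (σ : Fin (n.choose 2) ≃ Edge n) (i : ℕ) : proc σ i ≤ proc σ (i + 1) := by
  rw [proc]
  split_ifs
  · exact le_sup_left
  · exact le_rfl
  · exact le_rfl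

theorem proc_mono (σ : Fin (n.choose 2) ≃ Edge n) {i j : ℕ} (h : i ≤ j) :
    proc σ i ≤ proc σ j := by
  induction j, h using Nat.le_induction with
  | base => exact le_rfl
  | succ j _ ih => exact ih.trans (proc_step σ j)

/-- the process depends on the prefix only -/
theorem proc_congr (σ σ' : Fin (n.choose 2) ≃ Edge n) (i : ℕ)
    (h : ∀ j : Fin (n.choose 2), j.1 < i → σ j = σ' j) : proc σ i = proc σ' i := by
  induction i with
  | zero => rfl
  | succ i ih =>
    have h1 := ih fun j hj => h j (by omega)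
    rw [proc, proc, h1]
    by_cases hi : i < n.choose 2
    · rw [dif_pos hi, dif_pos hi, h ⟨i, hi⟩ (by simp)]
    · rw [dif_neg hi, dif_neg hi]

/-- a pair touching `DU` is accepted -/
theorem accepted (σ : Fin (n.choose 2) ≃ Edge n) (i : ℕ) (hi : i < n.choose 2) (v : Fin n)
    (hv : v ∈ (σ ⟨i, hi⟩).1) (hvD : v ∈ DU (proc σ i)) :
    (σ ⟨i, hi⟩).1 ∈ (proc σ (i + 1)).edgeSet := by
  have hK := konig_proc σ i
  obtain ⟨C, hC, hvC⟩ := (mem_DU _ _).1 hvD
  have h1 : IsKonig (addEdge (proc σ i) (σ ⟨i, hi⟩)) := by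
    have h2 := tau_le _ _ (cover_of_add (proc σ i) (σ ⟨i, hi⟩) C hC.1 v hv)
    rw [insert_eq_self.2 hvC] at h2
    have h3 := nu_le_tau (addEdge (proc σ i) (σ ⟨i, hi⟩))
    obtain ⟨M, hM, hMc⟩ := exists_nu (proc σ i)
    have h4 := le_nu _ _ (matching_add (proc σ i) (σ ⟨i, hi⟩) M hM)
    unfold IsKonig at hK ⊢
    have h5 := hC.2
    omega
  rw [proc, dif_pos hi, if_pos h1]
  exact (mem_addEdge _ _ _).2 (Or.inr rfl)

/-- structure of an optimal cover with respect to a maximum matching -/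
theorem opt_struct (G : SimpleGraph (Fin n)) (hK : IsKonig G) (M : Finset (Sym2 (Fin n)))
    (hM : IsMatchingSet G M) (hMc : M.card = nu G) (C : Finset (Fin n))
    (hC : IsOptimalCover G C) :
    (∀ v ∈ C, ∃ e ∈ M, v ∈ e) ∧ ∀ e ∈ M, ∀ u v, u ∈ e → v ∈ e → u ∈ C → v ∈ C → u = v := by
  have h : ∀ e : Sym2 (Fin n), ∃ v : Fin n, e ∈ M → v ∈ C ∧ v ∈ e := by
    intro e
    by_cases he : e ∈ M
    · obtain ⟨v, hv, hve⟩ := hC.1 e (hM.1 e he)
      exact ⟨v, fun _ => ⟨hv, hve⟩⟩
    · induction e with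
      | _ a b => exact ⟨a, fun h => absurd h he⟩
  choose f hf using h
  have hinj : Set.InjOn f M := by
    intro e he e' he' hee
    refine hM.2 e he e' he' (f e) (hf e he).2 ?_
    rw [hee]
    exact (hf e' he').2
  have himg : M.image f = C := by
    refine eq_of_subset_of_card_le ?_ ?_
    · intro v hv
      obtain ⟨e, he, rfl⟩ := mem_image.1 hv
      exact (hf e he).1
    · rw [card_image_of_injOn hinj, hMc, hC.2]
      unfold IsKonig at hK
      omega
  have hsurj : ∀ v ∈ C, ∃ e ∈ M, f e = v := by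
    intro v hv
    rw [← himg] at hv
    obtain ⟨e, he, h⟩ := mem_image.1 hv
    exact ⟨e, he, h⟩
  refine ⟨fun v hv => ?_, fun e he u v hu hv huC hvC => ?_⟩
  · obtain ⟨e, he, rfl⟩ := hsurj v hv
    exact ⟨e, he, (hf e he).2⟩
  · obtain ⟨e1, he1, h1⟩ := hsurj u huC
    obtain ⟨e2, he2, h2⟩ := hsurj v hvC
    have hu1 : u ∈ e1 := h1 ▸ (hf e1 he1).2
    have hv2 : v ∈ e2 := h2 ▸ (hf e2 he2).2
    have a1 := hM.2 e1 he1 e he u hu1 hu
    have a2 := hM.2 e2 he2 e he v hv2 hv
    rw [← h1, ← h2, a1, a2]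

/-- exchanging optimal covers along a maximum matching -/
theorem union_card (G : SimpleGraph (Fin n)) (hK : IsKonig G) (C : Finset (Fin n))
    (hC : IsOptimalCover G C) (F : Finset (Finset (Fin n)))
    (hF : ∀ C' ∈ F, IsOptimalCover G C') :
    (F.biUnion fun C' => C' \ C).card ≤ (F.biUnion fun C' => C \ C').card := by
  obtain ⟨M, hM, hMc⟩ := exists_nu G
  have hmate : ∀ x : Fin n, ∃ y : Fin n, x ∈ (F.biUnion fun C' => C' \ C) →
      s(x, y) ∈ M ∧ y ∈ (F.biUnion fun C' => C \ C') := by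
    intro x
    by_cases hx : x ∈ (F.biUnion fun C' => C' \ C)
    · rw [mem_biUnion] at hx
      obtain ⟨C', hC', hx⟩ := hx
      have hx := Finset.mem_sdiff.1 hx
      obtain ⟨h1, h2⟩ := opt_struct G hK M hM hMc C' (hF C' hC')
      obtain ⟨e, he, hxe⟩ := h1 x hx.1
      obtain ⟨y, rfl⟩ := Sym2.mem_iff_exists.1 hxe
      refine ⟨y, fun _ => ⟨he, ?_⟩⟩
      rw [mem_biUnion]
      refine ⟨C', hC', ?_⟩
      have hd : ¬ (s(x, y) : Sym2 (Fin n)).IsDiag :=
        SimpleGraph.not_isDiag_of_mem_edgeSet _ (hM.1 _ he)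
      rw [Sym2.mk_isDiag_iff] at hd
      rw [Finset.mem_sdiff]
      constructor
      · obtain ⟨v, hv, hve⟩ := hC.1 _ (hM.1 _ he)
        rw [Sym2.mem_iff] at hve
        rcases hve with rfl | rfl
        · exact absurd hv hx.2
        · exact hv
      · intro hy
        exact hd (h2 _ he x y (by simp) (by simp) hx.1 hy)
    · exact ⟨x, fun h => absurd h hx⟩
  choose mate hmate using hmate
  refine card_le_card_of_injOn mate (fun x hx => (hmate x hx).2) ?_
  intro x hx x' hx' heq
  have h1 := (hmate x hx).1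
  have h2 := (hmate x' hx').1
  have h3 := hM.2 _ h1 _ h2 (mate x) (by simp) (by rw [heq]; simp)
  rw [heq, Sym2.eq_iff] at h3
  rcases h3 with ⟨h, _⟩ | ⟨h, h'⟩
  · exact h
  · exact h.trans h'

end basics

end Pool.Agent.R980.Konig
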