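import Mathlib

/-!
# Exploring a uniformly random ordering step by step
-/

set_option autoImplicit false
set_option linter.unusedSectionVars false

namespace Pool.Agent.R980.PermExp

open Finset
open scoped Classical

variable {E : Type} [Fintype E] [DecidableEq E] {N : ℕ}

/-- two orderings agree on the first `i` entries -/
def agree (i : ℕ) (σ σ' : Fin N ≃ E) : Prop := ∀ j : Fin N, j.1 < i → σ j = σ' j

theorem one_step (i : ℕ) (hi : i < N) (g : (Fin N ≃ E) → ℝ) (hg0 : ∀ σ, 0 ≤ g σ)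
    (hg : ∀ σ σ', agree i σ σ' → g σ = g σ') (Q : (Fin N ≃ E) → Finset E)
    (hQ : ∀ σ σ', agree i σ σ' → Q σ = Q σ') (c : ℝ)
    (hc : ∀ σ, g σ ≠ 0 → c * N + i ≤ ((Q σ).card : ℝ)) :
    ∑ σ : Fin N ≃ E, g σ * (if σ ⟨i, hi⟩ ∈ Q σ then 0 else 1) ≤ (1 - c) * ∑ σ, g σ := by
  set i0 : Fin N := ⟨i, hi⟩ with hi0
  -- all later positions are equally likely to hit
  have hsym : ∀ j : Fin N, i ≤ j.1 →
      ∑ σ : Fin N ≃ E, g σ * (if σ j ∈ Q σ then (1 : ℝ) else 0)
        = ∑ σ : Fin N ≃ E, g σ * (if σ i0 ∈ Q σ then (1 : ℝ) else 0) := by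
    intro j hj
    set s : Equiv.Perm (Fin N) := Equiv.swap i0 j with hs
    refine Fintype.sum_equiv (Equiv.equivCongr s (Equiv.refl E)) _ _ fun σ => ?_
    have e0 : Equiv.equivCongr s (Equiv.refl E) σ = s.symm.trans σ := by
      ext x; simp [Equiv.equivCongr]
    rw [e0]
    have hag : agree i σ (s.symm.trans σ) := by
      intro k hk
      rw [Equiv.trans_apply, hs, Equiv.symm_swap, Equiv.swap_apply_of_ne_of_ne]
      · intro h; rw [h, hi0] at hk; exact lt_irrefl _ hk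
      · intro h; rw [h] at hk; omega
    rw [hg σ _ hag, hQ σ _ hag]
    have : (s.symm.trans σ) i0 = σ j := by
      rw [Equiv.trans_apply, hs, Equiv.symm_swap, Equiv.swap_apply_left]
    rw [this]
  have hcount : ∀ σ : Fin N ≃ E, g σ * (c * N) ≤ ∑ j ∈ univ.filter (fun j : Fin N => i ≤ j.1),
      g σ * (if σ j ∈ Q σ then (1 : ℝ) else 0) := by
    intro σ
    rw [← mul_sum]
    by_cases h0 : g σ = 0
    · rw [h0, zero_mul, zero_mul]
    · refine mul_le_mul_of_nonneg_left ?_ (hg0 σ)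
      rw [← sum_filter, filter_filter, sum_const, nsmul_eq_mul, mul_one]
      have h1 := hc σ h0
      have h2 : (Q σ).card ≤ (univ.filter fun j : Fin N => i ≤ j.1 ∧ σ j ∈ Q σ).card + i := by
        have h3 : Q σ ⊆ ((univ.filter fun j : Fin N => i ≤ j.1 ∧ σ j ∈ Q σ).image σ) ∪
            ((univ.filter fun j : Fin N => j.1 < i).image σ) := by
          intro e he
          rw [mem_union, mem_image, mem_image]
          rcases Nat.lt_or_ge (σ.symm e).1 i with h | h
          · right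
            exact ⟨σ.symm e, by rw [mem_filter]; exact ⟨mem_univ _, h⟩, by simp⟩
          · left
            refine ⟨σ.symm e, ?_, by simp⟩
            rw [mem_filter]
            exact ⟨mem_univ _, h, by simpa using he⟩
        have h4 : (univ.filter fun j : Fin N => j.1 < i).card ≤ i := by
          have h5 : (univ.filter fun j : Fin N => j.1 < i).card ≤ (range i).card := by
            refine card_le_card_of_injOn (fun j => j.1) ?_ ?_
            · intro j hj
              rw [mem_coe, mem_filter] at hj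
              rw [mem_coe, mem_range]
              exact hj.2
            · intro a _ b _ h
              exact Fin.ext h
          rwa [card_range] at h5
        refine (card_le_card h3).trans ((card_union_le _ _).trans ?_)
        exact Nat.add_le_add card_image_le (card_image_le.trans h4)
      have h3 : ((Q σ).card : ℝ) ≤ ((univ.filter fun j : Fin N => i ≤ j.1 ∧ σ j ∈ Q σ).card : ℝ)
          + i := by exact_mod_cast h2
      linarith
  have hsum : (∑ σ : Fin N ≃ E, g σ) * (c * N) ≤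
      ((N : ℝ) - i) * ∑ σ : Fin N ≃ E, g σ * (if σ i0 ∈ Q σ then (1 : ℝ) else 0) := by
    calc (∑ σ : Fin N ≃ E, g σ) * (c * N)
        = ∑ σ : Fin N ≃ E, g σ * (c * N) := by rw [sum_mul]
      _ ≤ ∑ σ : Fin N ≃ E, ∑ j ∈ univ.filter (fun j : Fin N => i ≤ j.1),
            g σ * (if σ j ∈ Q σ then (1 : ℝ) else 0) := sum_le_sum fun σ _ => hcount σ
      _ = ∑ j ∈ univ.filter (fun j : Fin N => i ≤ j.1), ∑ σ : Fin N ≃ E,
            g σ * (if σ j ∈ Q σ then (1 : ℝ) else 0) := sum_comm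
      _ = ∑ j ∈ univ.filter (fun j : Fin N => i ≤ j.1), ∑ σ : Fin N ≃ E,
            g σ * (if σ i0 ∈ Q σ then (1 : ℝ) else 0) := by
          refine sum_congr rfl fun j hj => ?_
          rw [mem_filter] at hj
          exact hsym j hj.2
      _ = ((N : ℝ) - i) * ∑ σ : Fin N ≃ E, g σ * (if σ i0 ∈ Q σ then (1 : ℝ) else 0) := by
          rw [sum_const, nsmul_eq_mul]
          congr 1
          have h6 : (univ.filter fun j : Fin N => i ≤ j.1).card = N - i := by
            have h7 : (univ.filter fun j : Fin N => i ≤ j.1) = Finset.Ici i0 := by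
              ext j
              rw [mem_filter, mem_Ici, hi0]
              constructor
              · rintro ⟨-, h⟩; exact h
              · intro h; exact ⟨mem_univ _, h⟩
            rw [h7, Fin.card_Ici]
          rw [h6, Nat.cast_sub hi.le]
  have hS0 : 0 ≤ ∑ σ : Fin N ≃ E, g σ * (if σ i0 ∈ Q σ then (1 : ℝ) else 0) :=
    sum_nonneg fun σ _ => mul_nonneg (hg0 σ) (by split_ifs <;> norm_num)
  have hG0 : 0 ≤ ∑ σ : Fin N ≃ E, g σ := sum_nonneg fun σ _ => hg0 σ
  have hN0 : (0 : ℝ) < N := by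
    have : 0 < N := by omega
    exact_mod_cast this
  have hkey : c * ∑ σ : Fin N ≃ E, g σ ≤
      ∑ σ : Fin N ≃ E, g σ * (if σ i0 ∈ Q σ then (1 : ℝ) else 0) := by
    have h1 : ((N : ℝ) - i) * ∑ σ : Fin N ≃ E, g σ * (if σ i0 ∈ Q σ then (1 : ℝ) else 0)
        ≤ N * ∑ σ : Fin N ≃ E, g σ * (if σ i0 ∈ Q σ then (1 : ℝ) else 0) :=
      mul_le_mul_of_nonneg_right (by linarith [Nat.cast_nonneg (α := ℝ) i]) hS0
    have h2 := hsum.trans h1
    have h3 : N * (c * ∑ σ : Fin N ≃ E, g σ) ≤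
        N * ∑ σ : Fin N ≃ E, g σ * (if σ i0 ∈ Q σ then (1 : ℝ) else 0) := by
      linarith
    exact le_of_mul_le_mul_left h3 hN0
  have hsplit : ∑ σ : Fin N ≃ E, g σ * (if σ i0 ∈ Q σ then (0 : ℝ) else 1)
      = ∑ σ, g σ - ∑ σ : Fin N ≃ E, g σ * (if σ i0 ∈ Q σ then (1 : ℝ) else 0) := by
    rw [← sum_sub_distrib]
    refine sum_congr rfl fun σ _ => ?_
    split_ifs <;> ring
  rw [hsplit]
  linarith

/-- indicator -/
noncomputable def ind1 (P : Prop) : ℝ := if P then 1 else 0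

theorem ind1_nonneg (P : Prop) : 0 ≤ ind1 P := by unfold ind1; split_ifs <;> norm_num

theorem ind1_congr {P P' : Prop} (h : P ↔ P') : ind1 P = ind1 P' := by
  have : P = P' := propext h
  rw [this]

/-- the weight of one step -/
noncomputable def W (act : ℕ → (Fin N ≃ E) → Prop) (Q : ℕ → (Fin N ≃ E) → Finset E) (c : ℝ)
    (i : ℕ) (σ : Fin N ≃ E) : ℝ :=
  if act i σ then (if ∃ h : i < N, σ ⟨i, h⟩ ∈ Q i σ then 0 else (1 - c)⁻¹) else 1

theorem W_nonneg (act : ℕ → (Fin N ≃ E) → Prop) (Q : ℕ → (Fin N ≃ E) → Finset E) {c : ℝ}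
    (hc : c < 1) (i : ℕ) (σ : Fin N ≃ E) : 0 ≤ W act Q c i σ := by
  unfold W
  have : 0 ≤ (1 - c)⁻¹ := inv_nonneg.2 (by linarith)
  split_ifs
  · exact le_rfl
  · exact this
  · norm_num

theorem super (act : ℕ → (Fin N ≃ E) → Prop) (Q : ℕ → (Fin N ≃ E) → Finset E) (c : ℝ)
    (hc0 : 0 ≤ c) (hc1 : c < 1) (a b : ℕ) (hab : a ≤ b) (hb : b ≤ N)
    (hact : ∀ i σ σ', a ≤ i → i < b → agree i σ σ' → (act i σ ↔ act i σ'))
    (hQ : ∀ i σ σ', a ≤ i → i < b → agree i σ σ' → Q i σ = Q i σ')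
    (hc : ∀ i σ, a ≤ i → i < b → act i σ → c * N + i ≤ ((Q i σ).card : ℝ)) :
    ∑ σ : Fin N ≃ E, ∏ i ∈ Ico a b, W act Q c i σ ≤ (Fintype.card (Fin N ≃ E) : ℝ) := by
  induction b, hab using Nat.le_induction with
  | base => simp
  | succ b hab ih =>
    have ih' := ih (by omega) (fun i σ σ' h1 h2 => hact i σ σ' h1 (by omega))
      (fun i σ σ' h1 h2 => hQ i σ σ' h1 (by omega)) (fun i σ h1 h2 => hc i σ h1 (by omega))
    refine le_trans ?_ ih'
    have hbN : b < N := by omega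
    set Z : (Fin N ≃ E) → ℝ := fun σ => ∏ i ∈ Ico a b, W act Q c i σ with hZ
    have hZ0 : ∀ σ, 0 ≤ Z σ := fun σ => prod_nonneg fun i _ => W_nonneg act Q hc1 i σ
    have hZag : ∀ σ σ', agree b σ σ' → Z σ = Z σ' := by
      intro σ σ' h
      refine prod_congr rfl fun i hi => ?_
      rw [mem_Ico] at hi
      have hag : agree i σ σ' := fun j hj => h j (by omega)
      have h1 := hact i σ σ' hi.1 (by omega) hag
      have h2 := hQ i σ σ' hi.1 (by omega) hag
      have h3 : (∃ h : i < N, σ ⟨i, h⟩ ∈ Q i σ) ↔ (∃ h : i < N, σ' ⟨i, h⟩ ∈ Q i σ') := by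
        refine exists_congr fun hi' => ?_
        rw [h2, h ⟨i, hi'⟩ hi.2]
      unfold W
      by_cases ha : act i σ
      · rw [if_pos ha, if_pos (h1.1 ha)]
        by_cases hh : ∃ h : i < N, σ ⟨i, h⟩ ∈ Q i σ
        · rw [if_pos hh, if_pos (h3.1 hh)]
        · rw [if_neg hh, if_neg fun h => hh (h3.2 h)]
      · rw [if_neg ha, if_neg fun h => ha (h1.2 h)]
    have hprod : ∀ σ, ∏ i ∈ Ico a (b + 1), W act Q c i σ
        = (Z σ * ind1 (¬ act b σ)) + (1 - c)⁻¹ *
          ((Z σ * ind1 (act b σ)) * (if σ ⟨b, hbN⟩ ∈ Q b σ then 0 else 1)) := by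
      intro σ
      rw [Finset.prod_Ico_succ_top hab]
      change Z σ * W act Q c b σ = _
      unfold W ind1
      by_cases ha : act b σ
      · rw [if_pos ha, if_pos ha, if_neg (not_not.2 ha)]
        by_cases hh : σ ⟨b, hbN⟩ ∈ Q b σ
        · rw [if_pos (⟨hbN, hh⟩ : ∃ h : b < N, σ ⟨b, h⟩ ∈ Q b σ), if_pos hh]
          ring
        · rw [if_neg (fun h : ∃ h : b < N, σ ⟨b, h⟩ ∈ Q b σ => hh h.2), if_neg hh]
          ring
      · rw [if_neg ha, if_neg ha, if_pos ha]
        ring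
    rw [sum_congr rfl fun σ _ => hprod σ, sum_add_distrib, ← mul_sum]
    have hstep := one_step b hbN (fun σ => Z σ * ind1 (act b σ))
      (fun σ => mul_nonneg (hZ0 σ) (ind1_nonneg _))
      (fun σ σ' h => by
        have h1 := hact b σ σ' hab (Nat.lt_succ_self b) h
        rw [hZag σ σ' h, ind1_congr h1])
      (Q b) (fun σ σ' h => hQ b σ σ' hab (Nat.lt_succ_self b) h) c
      (fun σ hσ => by
        refine hc b σ hab (Nat.lt_succ_self b) ?_
        by_contra hcon
        apply hσ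
        unfold ind1
        rw [if_neg hcon, mul_zero])
    have hpos : 0 < 1 - c := by linarith
    have h4 : (1 - c)⁻¹ * ∑ σ : Fin N ≃ E, (Z σ * ind1 (act b σ)) *
        (if σ ⟨b, hbN⟩ ∈ Q b σ then 0 else 1) ≤ ∑ σ, Z σ * ind1 (act b σ) := by
      have := mul_le_mul_of_nonneg_left hstep (inv_nonneg.2 hpos.le)
      rwa [← mul_assoc, inv_mul_cancel₀ hpos.ne', one_mul] at this
    have h5 : ∑ σ, Z σ = ∑ σ, Z σ * ind1 (¬ act b σ) + ∑ σ, Z σ * ind1 (act b σ) := by
      rw [← sum_add_distrib]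
      refine sum_congr rfl fun σ _ => ?_
      unfold ind1
      by_cases ha : act b σ
      · rw [if_pos ha, if_neg (not_not.2 ha)]; ring
      · rw [if_neg ha, if_pos ha]; ring
    rw [h5]
    linarith
/-- It is unlikely to have many active steps without a hit. -/
theorem no_hit (act : ℕ → (Fin N ≃ E) → Prop) (Q : ℕ → (Fin N ≃ E) → Finset E) (c : ℝ)
    (hc0 : 0 ≤ c) (hc1 : c < 1) (a b B : ℕ) (hab : a ≤ b) (hb : b ≤ N)
    (hact : ∀ i σ σ', a ≤ i → i < b → agree i σ σ' → (act i σ ↔ act i σ'))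
    (hQ : ∀ i σ σ', a ≤ i → i < b → agree i σ σ' → Q i σ = Q i σ')
    (hc : ∀ i σ, a ≤ i → i < b → act i σ → c * N + i ≤ ((Q i σ).card : ℝ)) :
    ((univ.filter fun σ : Fin N ≃ E => B ≤ ((Ico a b).filter fun i => act i σ).card ∧
        ∀ i ∈ Ico a b, act i σ → ¬ ∃ h : i < N, σ ⟨i, h⟩ ∈ Q i σ).card : ℝ)
      ≤ (1 - c) ^ B * (Fintype.card (Fin N ≃ E) : ℝ) := by
  have hpos : 0 < 1 - c := by linarith
  have h1 := super act Q c hc0 hc1 a b hab hb hact hQ hc
  set Bad := univ.filter fun σ : Fin N ≃ E => B ≤ ((Ico a b).filter fun i => act i σ).card ∧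
        ∀ i ∈ Ico a b, act i σ → ¬ ∃ h : i < N, σ ⟨i, h⟩ ∈ Q i σ with hBad
  have h2 : ∀ σ ∈ Bad, ((1 - c)⁻¹) ^ B ≤ ∏ i ∈ Ico a b, W act Q c i σ := by
    intro σ hσ
    rw [hBad, mem_filter] at hσ
    obtain ⟨-, h3, h4⟩ := hσ
    have h5 : ∏ i ∈ Ico a b, W act Q c i σ
        = ((1 - c)⁻¹) ^ ((Ico a b).filter fun i => act i σ).card := by
      rw [← prod_const, prod_filter]
      refine prod_congr rfl fun i hi => ?_
      unfold W
      by_cases ha : act i σ
      · rw [if_pos ha, if_pos ha, if_neg (h4 i hi ha)]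
      · rw [if_neg ha, if_neg ha]
    rw [h5]
    exact pow_le_pow_right₀ (one_le_inv_iff₀.2 ⟨hpos, by linarith⟩) h3
  have h3 : (Bad.card : ℝ) * ((1 - c)⁻¹) ^ B ≤ (Fintype.card (Fin N ≃ E) : ℝ) := by
    refine le_trans ?_ h1
    rw [← nsmul_eq_mul, ← sum_const]
    refine (sum_le_sum h2).trans ?_
    exact sum_le_sum_of_subset_of_nonneg (subset_univ _) fun σ _ _ =>
      prod_nonneg fun i _ => W_nonneg act Q hc1 i σ
  have h4 : (Bad.card : ℝ) = (1 - c) ^ B * ((Bad.card : ℝ) * ((1 - c)⁻¹) ^ B) := by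
    rw [inv_pow]
    field_simp
  rw [h4]
  exact mul_le_mul_of_nonneg_left h3 (pow_nonneg hpos.le _)

end Pool.Agent.R980.PermExp
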