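import Mathlib
import Pool.Agent.R980.Konig
import Pool.Agent.R980.PermExp

/-!
# The optimal covers of the König graph process are stable
-/

set_option autoImplicit false

namespace Pool.Agent.R980.Konig

open Finset Filter Topology
open scoped Classical
open Pool.Agent.R980.PermExp

variable {n : ℕ}

/-- pairs with one end in `A` and the other in `B` -/
noncomputable def PQ (A B : Finset (Fin n)) : Finset (Edge n) :=
  univ.filter fun e => ∃ a ∈ A, ∃ b ∈ B, e.1 = s(a, b)

theorem mem_PQ (A B : Finset (Fin n)) (e : Edge n) :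
    e ∈ PQ A B ↔ ∃ a ∈ A, ∃ b ∈ B, e.1 = s(a, b) := by
  unfold PQ
  rw [mem_filter]
  exact ⟨fun h => h.2, fun h => ⟨mem_univ _, h⟩⟩

theorem PQ_card (A B : Finset (Fin n)) : A.card * (B.card - 1) ≤ 2 * (PQ A B).card := by
  set S := (A ×ˢ B).filter (fun z : Fin n × Fin n => z.1 ≠ z.2) with hS
  have h1 : A.card * (B.card - 1) ≤ S.card := by
    have h2 := card_filter_add_card_filter_not (s := A ×ˢ B)
      (fun z : Fin n × Fin n => z.1 ≠ z.2)
    rw [card_product] at h2
    have h3 : ((A ×ˢ B).filter (fun z : Fin n × Fin n => ¬ z.1 ≠ z.2)).card ≤ A.card := by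
      refine card_le_card_of_injOn (fun z => z.1) ?_ ?_
      · intro z hz
        rw [mem_coe, mem_filter, mem_product] at hz
        exact hz.1.1
      · intro z hz w hw h
        rw [mem_coe, mem_filter, not_not] at hz hw
        exact Prod.ext h (by rw [← hz.2, ← hw.2]; exact h)
    have h4 : ((A ×ˢ B).filter (fun z : Fin n × Fin n => ¬ z.1 ≠ z.2)).card + S.card =
        A.card * B.card := by
      rw [← h2, hS, add_comm]
    rw [Nat.mul_sub, mul_one]
    omega
  have h2 : S.card ≤ 2 * (S.image fun z => (s(z.1, z.2) : Sym2 (Fin n))).card := by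
    refine card_le_mul_card_image S 2 ?_
    intro z hz
    obtain ⟨w, hw, rfl⟩ := mem_image.1 hz
    have h3 : (S.filter fun x => (s(x.1, x.2) : Sym2 (Fin n)) = s(w.1, w.2)) ⊆ {w, (w.2, w.1)} := by
      intro x hx
      rw [mem_filter, Sym2.eq_iff] at hx
      rw [mem_insert, mem_singleton]
      rcases hx.2 with ⟨h, h'⟩ | ⟨h, h'⟩
      · exact Or.inl (Prod.ext h h')
      · exact Or.inr (Prod.ext h h')
    exact (card_le_card h3).trans card_le_two
  have h3 : (S.image fun z => (s(z.1, z.2) : Sym2 (Fin n))).card ≤ (PQ A B).card := by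
    rw [← card_image_of_injective (PQ A B) Subtype.val_injective]
    refine card_le_card ?_
    intro e he
    obtain ⟨z, hz, rfl⟩ := mem_image.1 he
    rw [hS, mem_filter, mem_product] at hz
    rw [mem_image]
    refine ⟨⟨s(z.1, z.2), by rw [Sym2.mk_isDiag_iff]; exact hz.2⟩, ?_, rfl⟩
    rw [mem_PQ]
    exact ⟨z.1, hz.1.1, z.2, hz.1.2, rfl⟩
  omega

/-- many vertices of `Y` are in the union of the optimal covers at time `i` -/
def actD (γ : ℝ) (Y : Finset (Fin n)) (i : ℕ) (σ : Fin (n.choose 2) ≃ Edge n) : Prop :=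
  γ * n ≤ ((Y ∩ DU (proc σ i)).card : ℝ)

def BadD (K : ℕ) (γ : ℝ) (Y Z : Finset (Fin n)) (σ : Fin (n.choose 2) ≃ Edge n) : Prop :=
  K * n ≤ ((Ico (2 * K * n) (4 * K * n)).filter fun i => actD γ Y i σ).card ∧
    ∀ i ∈ Ico (2 * K * n) (4 * K * n), actD γ Y i σ →
      ¬ ∃ h : i < n.choose 2, σ ⟨i, h⟩ ∈ PQ (Y ∩ DU (proc σ i)) Z

def BadW (K : ℕ) (W : Finset (Fin n)) (σ : Fin (n.choose 2) ≃ Edge n) : Prop :=
  ∀ i ∈ Ico 0 (2 * K * n), ¬ ∃ h : i < n.choose 2, σ ⟨i, h⟩ ∈ PQ W W

/-- choosing a subfamily whose union has controlled size -/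
theorem greedy {ι : Type} (F : Finset ι) (f : ι → Finset (Fin n)) (s T : ℝ) (hT : 0 < T)
    (hs : ∀ j ∈ F, ((f j).card : ℝ) ≤ s) (h : T ≤ ((F.biUnion f).card : ℝ)) :
    ∃ F' ⊆ F, T ≤ ((F'.biUnion f).card : ℝ) ∧ ((F'.biUnion f).card : ℝ) ≤ T + s := by
  induction F using Finset.induction_on with
  | empty =>
    exfalso
    simp at h
    linarith
  | insert j F hj ih =>
    by_cases h1 : T ≤ ((F.biUnion f).card : ℝ)
    · obtain ⟨F', hF', h2⟩ := ih (fun j hj => hs j (mem_insert_of_mem hj)) h1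
      exact ⟨F', hF'.trans (subset_insert _ _), h2⟩
    · refine ⟨insert j F, subset_rfl, h, ?_⟩
      rw [biUnion_insert]
      have h2 : ((f j ∪ F.biUnion f).card : ℝ) ≤ ((f j).card : ℝ) + ((F.biUnion f).card : ℝ) := by
        exact_mod_cast card_union_le _ _
      have h3 := hs j (mem_insert_self _ _)
      linarith

theorem det (σ : Fin (n.choose 2) ≃ Edge n) (K : ℕ) (hK : 1 ≤ K) (hn : 1 ≤ n) (ε : ℝ)
    (hε0 : 0 < ε) (hε1 : ε ≤ 1 / 2)
    (hD : ∀ Y Z : Finset (Fin n), (n : ℝ) / 8 ≤ (Z.card : ℝ) → ¬ BadD K (ε / 10) Y Z σ)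
    (hW : ∀ W : Finset (Fin n), ε / 10 * n ≤ (W.card : ℝ) → ¬ BadW K W σ)
    (m : ℕ) (hm : 4 * K * n ≤ m) :
    |((DU (proc σ m)).card : ℝ) - (n : ℝ) / 2| ≤ ε * n := by
  set γ : ℝ := ε / 10 with hγ
  have hn0 : (0 : ℝ) < (n : ℝ) := by exact_mod_cast hn
  have hγ0 : 0 < γ := by rw [hγ]; positivity
  have hKn : 1 ≤ K * n := Nat.mul_pos hK hn
  -- the matching number is large from time `2Kn` on
  have hnu : ∀ i, 2 * K * n ≤ i → (1 - γ) * n < 2 * (nu (proc σ i) : ℝ) := by
    intro i hi
    obtain ⟨M, hM, hMc, hj⟩ := invariant σ i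
    have h1 : ¬ (γ * n ≤ (((VM M)ᶜ.card : ℕ) : ℝ)) := by
      intro hcon
      apply hW _ hcon
      intro i' hi' hex
      obtain ⟨h, hmem⟩ := hex
      rw [mem_Ico] at hi'
      obtain ⟨a, ha, b, hb, hab⟩ := (mem_PQ _ _ _).1 hmem
      obtain ⟨v, hv, hvM⟩ := hj ⟨i', h⟩ (by simp only; omega)
      rw [hab, Sym2.mem_iff] at hv
      rw [mem_compl] at ha hb
      rcases hv with rfl | rfl
      · exact ha hvM
      · exact hb hvM
    rw [not_le] at h1
    have h2 := card_VM _ M hM
    have h3 : (VM M)ᶜ.card = n - 2 * nu (proc σ i) := by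
      rw [card_compl, Fintype.card_fin, h2, hMc]
    have h4 := two_nu_le (proc σ i)
    rw [h3, Nat.cast_sub h4] at h1
    push_cast at h1
    linarith
  have htn : ∀ i, tau (proc σ i) = nu (proc σ i) := fun i => konig_proc σ i
  have hDUlow : ∀ i, 2 * K * n ≤ i → (1 - γ) * n / 2 < ((DU (proc σ i)).card : ℝ) := by
    intro i hi
    have h1 := hnu i hi
    have h2 : (nu (proc σ i) : ℝ) ≤ ((DU (proc σ i)).card : ℝ) := by
      have := tau_le_DU (proc σ i)
      rw [htn i] at this
      exact_mod_cast this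
    linarith
  have hcov : ∀ C, IsOptimalCover (proc σ m) C → (n : ℝ) / 2 ≤ ((Cᶜ.card : ℕ) : ℝ) := by
    intro C hC
    have h1 := two_nu_le (proc σ m)
    have h2 : 2 * C.card ≤ n := by rw [hC.2, htn m]; exact h1
    rw [card_compl, Fintype.card_fin, Nat.cast_sub (by omega)]
    have h3 : 2 * (C.card : ℝ) ≤ n := by exact_mod_cast h2
    linarith
  -- complements of optimal covers are rarely active
  have hexc : ∀ C, IsOptimalCover (proc σ m) C →
      ((Ico (2 * K * n) (4 * K * n)).filter fun i => actD γ Cᶜ i σ).card < K * n := by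
    intro C hC
    by_contra hcon
    rw [not_lt] at hcon
    apply hD Cᶜ Cᶜ (by linarith [hcov C hC])
    refine ⟨hcon, ?_⟩
    rintro i hi - ⟨h, hmem⟩
    rw [mem_Ico] at hi
    obtain ⟨a, ha, b, hb, hab⟩ := (mem_PQ _ _ _).1 hmem
    rw [mem_inter, mem_compl] at ha
    rw [mem_compl] at hb
    have hacc := accepted σ i h a (by rw [hab]; simp) ha.2
    have hin : (σ ⟨i, h⟩).1 ∈ (proc σ m).edgeSet :=
      SimpleGraph.edgeSet_mono (proc_mono σ (show i + 1 ≤ m by omega)) hacc
    obtain ⟨v, hv, hve⟩ := hC.1 _ hin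
    rw [hab, Sym2.mem_iff] at hve
    rcases hve with rfl | rfl
    · exact ha.1 hv
    · exact hb hv
  have hIco : (Ico (2 * K * n) (4 * K * n)).card = 2 * (K * n) := by
    rw [Nat.card_Ico]
    have e1 : 4 * K * n = 4 * (K * n) := by ring
    have e2 : 2 * K * n = 2 * (K * n) := by ring
    rw [e1, e2]; omega
  -- at an inactive time the complement of the cover is almost the complement of DU
  have hinact : ∀ C, IsOptimalCover (proc σ m) C → ∀ i, 2 * K * n ≤ i → ¬ actD γ Cᶜ i σ →
      (((C \ DU (proc σ i)).card : ℕ) : ℝ) < 3 / 2 * γ * n := by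
    intro C hC i hi hna
    unfold actD at hna
    rw [not_le] at hna
    have h1 : (DU (proc σ i))ᶜ.card = (C \ DU (proc σ i)).card + (Cᶜ \ DU (proc σ i)).card := by
      rw [← card_union_of_disjoint]
      · congr 1
        ext v
        rw [mem_union, Finset.mem_sdiff, Finset.mem_sdiff, mem_compl, mem_compl]
        tauto
      · rw [Finset.disjoint_left]
        intro v hv hv'
        rw [Finset.mem_sdiff] at hv hv'
        exact (mem_compl.1 hv'.1) hv.1
    have h2 : Cᶜ.card = (Cᶜ \ DU (proc σ i)).card + (Cᶜ ∩ DU (proc σ i)).card := by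
      rw [card_sdiff_add_card_inter]
    have h3 : ((DU (proc σ i))ᶜ.card : ℝ) = n - ((DU (proc σ i)).card : ℝ) := by
      rw [card_compl, Fintype.card_fin, Nat.cast_sub]
      have := card_le_univ (DU (proc σ i))
      rwa [Fintype.card_fin] at this
    have h4 := hDUlow i hi
    have h5 := hcov C hC
    have h1' : ((DU (proc σ i))ᶜ.card : ℝ) = ((C \ DU (proc σ i)).card : ℝ)
        + ((Cᶜ \ DU (proc σ i)).card : ℝ) := by exact_mod_cast h1
    have h2' : ((Cᶜ.card : ℕ) : ℝ) = ((Cᶜ \ DU (proc σ i)).card : ℝ)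
        + ((Cᶜ ∩ DU (proc σ i)).card : ℝ) := by exact_mod_cast h2
    linarith
  -- two optimal covers at time m are close
  have hclose : ∀ C C', IsOptimalCover (proc σ m) C → IsOptimalCover (proc σ m) C' →
      (((C' \ C).card : ℕ) : ℝ) ≤ 5 / 2 * γ * n := by
    intro C C' hC hC'
    have h1 := hexc C hC
    have h2 := hexc C' hC'
    obtain ⟨i, hi, hi1, hi2⟩ : ∃ i ∈ Ico (2 * K * n) (4 * K * n),
        ¬ actD γ Cᶜ i σ ∧ ¬ actD γ C'ᶜ i σ := by
      by_contra hcon
      push Not at hcon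
      have h3 : Ico (2 * K * n) (4 * K * n) ⊆
          ((Ico (2 * K * n) (4 * K * n)).filter fun i => actD γ Cᶜ i σ) ∪
          ((Ico (2 * K * n) (4 * K * n)).filter fun i => actD γ C'ᶜ i σ) := by
        intro i hi
        rw [mem_union, mem_filter, mem_filter]
        by_cases ha : actD γ Cᶜ i σ
        · exact Or.inl ⟨hi, ha⟩
        · exact Or.inr ⟨hi, hcon i hi ha⟩
      have h4 := (card_le_card h3).trans (card_union_le _ _)
      rw [hIco] at h4
      omega
    rw [mem_Ico] at hi
    have h3 := hinact C' hC' i hi.1 hi2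
    unfold actD at hi1
    rw [not_le] at hi1
    have h4 : (C' \ C) ⊆ (C' \ DU (proc σ i)) ∪ (Cᶜ ∩ DU (proc σ i)) := by
      intro v hv
      rw [Finset.mem_sdiff] at hv
      rw [mem_union, Finset.mem_sdiff, mem_inter, mem_compl]
      by_cases hvD : v ∈ DU (proc σ i)
      · exact Or.inr ⟨hv.2, hvD⟩
      · exact Or.inl ⟨hv.1, hvD⟩
    have h5 := (card_le_card h4).trans (card_union_le _ _)
    have h6 : ((C' \ C).card : ℝ) ≤ ((C' \ DU (proc σ i)).card : ℝ)
        + ((Cᶜ ∩ DU (proc σ i)).card : ℝ) := by exact_mod_cast h5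
    linarith
  rw [abs_le]
  constructor
  · -- lower bound
    have h1 := hDUlow m (by
      have : 2 * K * n ≤ 4 * K * n := by nlinarith
      omega)
    have h2 : (1 - γ) * n / 2 = n / 2 - ε * n / 20 := by rw [hγ]; ring
    rw [h2] at h1
    have h3 : 0 < ε * n := by positivity
    linarith
  · -- upper bound
    by_contra hcon
    rw [not_le] at hcon
    obtain ⟨C, hC⟩ := exists_tau (proc σ m)
    set F := (univ : Finset (Finset (Fin n))).filter fun C' => IsOptimalCover (proc σ m) C'
      with hF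
    have hFmem : ∀ C' ∈ F, IsOptimalCover (proc σ m) C' := by
      intro C' hC'
      rw [hF, mem_filter] at hC'
      exact hC'.2
    have hun : DU (proc σ m) ⊆ C ∪ F.biUnion fun C' => C' \ C := by
      intro v hv
      obtain ⟨C', hC', hvC'⟩ := (mem_DU _ _).1 hv
      rw [mem_union, mem_biUnion]
      by_cases hvC : v ∈ C
      · exact Or.inl hvC
      · refine Or.inr ⟨C', ?_, Finset.mem_sdiff.2 ⟨hvC', hvC⟩⟩
        rw [hF, mem_filter]
        exact ⟨mem_univ _, hC'⟩
    have h1 := (card_le_card hun).trans (card_union_le _ _)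
    have h1' : ((DU (proc σ m)).card : ℝ) ≤ (C.card : ℝ)
        + ((F.biUnion fun C' => C' \ C).card : ℝ) := by exact_mod_cast h1
    have h2 : (C.card : ℝ) ≤ n / 2 := by
      have h3 := two_nu_le (proc σ m)
      have h4 : 2 * C.card ≤ n := by rw [hC.2, htn m]; exact h3
      have h5 : 2 * (C.card : ℝ) ≤ n := by exact_mod_cast h4
      linarith
    have h3 : ε * n / 2 ≤ ((F.biUnion fun C' => C' \ C).card : ℝ) := by
      have : 0 < ε * n := by positivity
      linarith
    obtain ⟨F', hF'F, hlow, hup⟩ := greedy F (fun C' => C' \ C) (5 / 2 * γ * n) (ε * n / 2)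
      (by positivity) (fun C' hC' => hclose C C' hC (hFmem C' hC')) h3
    set UX := F'.biUnion fun C' => C' \ C with hUX
    set UY := F'.biUnion fun C' => C \ C' with hUY
    have hUYcard : ε * n / 2 ≤ (UY.card : ℝ) := by
      have h4 := union_card (proc σ m) (konig_proc σ m) C hC F' (fun C' h => hFmem C' (hF'F h))
      have h5 : (UX.card : ℝ) ≤ (UY.card : ℝ) := by exact_mod_cast h4
      linarith
    set Z := Cᶜ \ UX with hZ
    have hZcard : (n : ℝ) / 8 ≤ (Z.card : ℝ) := by
      have h4 : Cᶜ.card ≤ Z.card + UX.card := by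
        have := card_le_card (show Cᶜ ⊆ Z ∪ UX by
          intro v hv
          rw [mem_union, hZ, Finset.mem_sdiff]
          by_cases h : v ∈ UX
          · exact Or.inr h
          · exact Or.inl ⟨hv, h⟩)
        exact this.trans (card_union_le _ _)
      have h5 : ((Cᶜ.card : ℕ) : ℝ) ≤ (Z.card : ℝ) + (UX.card : ℝ) := by exact_mod_cast h4
      have h6 := hcov C hC
      have h7 : 5 / 2 * γ * n = ε * n / 4 := by rw [hγ]; ring
      rw [h7] at hup
      have h8 : ε * n ≤ 1 / 2 * n := mul_le_mul_of_nonneg_right hε1 hn0.le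
      linarith
    apply hD UY Z hZcard
    constructor
    · -- many active times
      have h4 := hexc C hC
      have h5 : (Ico (2 * K * n) (4 * K * n)) \
          ((Ico (2 * K * n) (4 * K * n)).filter fun i => actD γ Cᶜ i σ) ⊆
          (Ico (2 * K * n) (4 * K * n)).filter fun i => actD γ UY i σ := by
        intro i hi
        rw [Finset.mem_sdiff, mem_filter, not_and] at hi
        rw [mem_filter]
        refine ⟨hi.1, ?_⟩
        have hna := hi.2 hi.1
        have hi' := (mem_Ico.1 hi.1).1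
        have h6 := hinact C hC i hi' hna
        have h7 : UY ⊆ (UY ∩ DU (proc σ i)) ∪ (C \ DU (proc σ i)) := by
          intro v hv
          rw [mem_union, mem_inter, Finset.mem_sdiff]
          by_cases hvD : v ∈ DU (proc σ i)
          · exact Or.inl ⟨hv, hvD⟩
          · rw [hUY, mem_biUnion] at hv
            obtain ⟨C', _, hv⟩ := hv
            exact Or.inr ⟨(Finset.mem_sdiff.1 hv).1, hvD⟩
        have h8 := (card_le_card h7).trans (card_union_le _ _)
        have h9 : (UY.card : ℝ) ≤ ((UY ∩ DU (proc σ i)).card : ℝ)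
            + ((C \ DU (proc σ i)).card : ℝ) := by exact_mod_cast h8
        unfold actD
        have h10 : ε * n / 2 = 5 * γ * n := by rw [hγ]; ring
        rw [h10] at hUYcard
        have h11 : 0 < γ * n := by positivity
        linarith
      have h6 := card_le_card h5
      rw [card_sdiff_of_subset (filter_subset _ _), hIco] at h6
      omega
    · rintro i hi - ⟨h, hmem⟩
      rw [mem_Ico] at hi
      obtain ⟨a, ha, b, hb, hab⟩ := (mem_PQ _ _ _).1 hmem
      rw [mem_inter] at ha
      have hacc := accepted σ i h a (by rw [hab]; simp) ha.2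
      have hin : (σ ⟨i, h⟩).1 ∈ (proc σ m).edgeSet :=
        SimpleGraph.edgeSet_mono (proc_mono σ (show i + 1 ≤ m by omega)) hacc
      have haUY := ha.1
      rw [hUY, mem_biUnion] at haUY
      obtain ⟨C', hC', haC'⟩ := haUY
      rw [Finset.mem_sdiff] at haC'
      rw [hZ, Finset.mem_sdiff, mem_compl] at hb
      obtain ⟨v, hv, hve⟩ := (hFmem C' (hF'F hC')).1 _ hin
      rw [hab, Sym2.mem_iff] at hve
      rcases hve with rfl | rfl
      · exact haC'.2 hv
      · apply hb.2
        rw [hUX, mem_biUnion]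
        exact ⟨C', hC', Finset.mem_sdiff.2 ⟨hv, hb.1⟩⟩

end Pool.Agent.R980.Konig
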