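import Mathlib
import Pool.Agent.R980.KonigStable

/-!
# The union of the optimal covers in the König graph process: probability estimates
-/

set_option autoImplicit false

namespace Pool.Agent.R980.Konig

open Finset Filter Topology
open scoped Classical
open Pool.Agent.R980.PermExp

variable {n : ℕ}

theorem card_edge (n : ℕ) : Fintype.card (Edge n) = n.choose 2 := by
  have h := Sym2.card_subtype_not_diag (α := Fin n)
  rw [Fintype.card_fin] at h
  rw [← h]

theorem fcard_le {α : Type} [Fintype α] (p q : α → Prop) {hp : DecidablePred p} {hq : DecidablePred q}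
    (h : ∀ x, p x → q x) : ((univ.filter p).card : ℝ) ≤ ((univ.filter q).card : ℝ) := by
  have h1 : univ.filter p ⊆ univ.filter q := by
    intro x hx
    rw [mem_filter] at hx ⊢
    exact ⟨hx.1, h x hx.2⟩
  exact_mod_cast card_le_card h1

theorem card_orders_pos (n : ℕ) : (0 : ℝ) < (Fintype.card (Fin (n.choose 2) ≃ Edge n) : ℝ) := by
  have h : Nonempty (Fin (n.choose 2) ≃ Edge n) := by
    rw [← card_edge n]
    exact ⟨(Fintype.equivFin (Edge n)).symm⟩
  have := Fintype.card_pos_iff.2 h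
  exact_mod_cast this

theorem proc_agree (i : ℕ) (σ σ' : Fin (n.choose 2) ≃ Edge n) (h : agree i σ σ') :
    proc σ i = proc σ' i := proc_congr σ σ' i h

theorem PQ_real (A B : Finset (Fin n)) : (A.card : ℝ) * ((B.card : ℝ) - 1) ≤
    2 * ((PQ A B).card : ℝ) := by
  have h1 : ((A.card * (B.card - 1) : ℕ) : ℝ) ≤ ((2 * (PQ A B).card : ℕ) : ℝ) := by
    exact_mod_cast PQ_card A B
  push_cast at h1
  have h2 : (B.card : ℝ) - 1 ≤ ((B.card - 1 : ℕ) : ℝ) := by
    have h3 : B.card ≤ (B.card - 1) + 1 := by omega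
    have h4 : (B.card : ℝ) ≤ ((B.card - 1 : ℕ) : ℝ) + 1 := by exact_mod_cast h3
    linarith
  have h5 : (0 : ℝ) ≤ (A.card : ℝ) := Nat.cast_nonneg _
  nlinarith [mul_le_mul_of_nonneg_left h2 h5]

theorem choose_real (n : ℕ) : ((n.choose 2 : ℕ) : ℝ) ≤ (n : ℝ) ^ 2 / 2 := by
  rw [Nat.cast_choose_two]
  have : (0 : ℝ) ≤ (n : ℝ) := Nat.cast_nonneg _
  nlinarith

/-- the estimate for one pair `Y, Z` -/
theorem BadD_le (K n : ℕ) (γ : ℝ) (hγ0 : 0 < γ) (hγ1 : γ ≤ 1)
    (hn : 32 * (4 * (K : ℝ) + 1) ≤ γ ^ 2 * n) (hN : 4 * K * n ≤ n.choose 2)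
    (Y Z : Finset (Fin n)) (hZ : (n : ℝ) / 8 ≤ (Z.card : ℝ)) :
    ((univ.filter fun σ : Fin (n.choose 2) ≃ Edge n => BadD K γ Y Z σ).card : ℝ)
      ≤ (1 - γ ^ 2 / 16) ^ (K * n) * (Fintype.card (Fin (n.choose 2) ≃ Edge n) : ℝ) := by
  have hγ2 : γ ^ 2 ≤ 1 := by nlinarith
  have hγ3 : 0 < γ ^ 2 := by positivity
  have hn0 : (0 : ℝ) ≤ (n : ℝ) := Nat.cast_nonneg _
  have hK0 : (0 : ℝ) ≤ (K : ℝ) := Nat.cast_nonneg _
  have h := no_hit (N := n.choose 2) (E := Edge n) (fun i σ => actD γ Y i σ)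
    (fun i σ => PQ (Y ∩ DU (proc σ i)) Z) (γ ^ 2 / 16) (by positivity) (by linarith)
    (2 * K * n) (4 * K * n) (K * n)
    (by have : 2 * K * n + 2 * K * n = 4 * K * n := by ring
        omega) hN
    (by
      intro i σ σ' _ _ hag
      simp only [actD]
      rw [proc_agree i σ σ' hag])
    (by
      intro i σ σ' _ _ hag
      rw [proc_agree i σ σ' hag])
    (by
      intro i σ _ hi hact
      simp only [actD] at hact
      have h1 := PQ_real (Y ∩ DU (proc σ i)) Z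
      have h2 := choose_real n
      have h3 : (i : ℝ) ≤ 4 * K * n := by exact_mod_cast hi.le
      have hn1 : (32 : ℝ) ≤ n := by
        have : γ ^ 2 * n ≤ 1 * n := mul_le_mul_of_nonneg_right hγ2 hn0
        linarith
      have h4 : γ * n * ((n : ℝ) / 8 - 1) ≤
          ((Y ∩ DU (proc σ i)).card : ℝ) * ((Z.card : ℝ) - 1) := by
        apply mul_le_mul hact (by linarith) (by linarith) (Nat.cast_nonneg _)
      have h5 : 32 * (4 * (K : ℝ) + 1) * n ≤ γ ^ 2 * n * n := mul_le_mul_of_nonneg_right hn hn0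
      have h6 : γ ^ 2 / 16 * ((n.choose 2 : ℕ) : ℝ) ≤ γ ^ 2 / 16 * ((n : ℝ) ^ 2 / 2) :=
        mul_le_mul_of_nonneg_left h2 (by positivity)
      have h7 : γ ^ 2 ≤ γ := by nlinarith
      have h8 : γ ^ 2 * (n * n) ≤ γ * (n * n) := mul_le_mul_of_nonneg_right h7 (by positivity)
      have h9 : γ * n ≤ 1 * n := mul_le_mul_of_nonneg_right hγ1 hn0
      nlinarith)
  refine le_trans (fcard_le _ _ ?_) h
  intro σ hσ
  exact hσ

/-- the always active event -/
def always (n : ℕ) (_ : ℕ) (_ : Fin (n.choose 2) ≃ Edge n) : Prop := True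

theorem BadW_le (K n : ℕ) (γ : ℝ) (hγ0 : 0 < γ) (hγ1 : γ ≤ 1)
    (hn : 32 * (4 * (K : ℝ) + 1) ≤ γ ^ 2 * n) (hN : 2 * K * n ≤ n.choose 2)
    (W : Finset (Fin n)) (hW : γ * n ≤ (W.card : ℝ)) :
    ((univ.filter fun σ : Fin (n.choose 2) ≃ Edge n => BadW K W σ).card : ℝ)
      ≤ (1 - γ ^ 2 / 16) ^ (2 * K * n) * (Fintype.card (Fin (n.choose 2) ≃ Edge n) : ℝ) := by
  have hγ2 : γ ^ 2 ≤ 1 := by nlinarith
  have hγ3 : 0 < γ ^ 2 := by positivity
  have hn0 : (0 : ℝ) ≤ (n : ℝ) := Nat.cast_nonneg _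
  have hK0 : (0 : ℝ) ≤ (K : ℝ) := Nat.cast_nonneg _
  have hn1 : (32 : ℝ) ≤ γ ^ 2 * n := by linarith
  have hγn : γ ^ 2 * n ≤ γ * n := mul_le_mul_of_nonneg_right (by nlinarith) hn0
  have h := no_hit (N := n.choose 2) (E := Edge n) (always n)
    (fun _ _ => PQ W W) (γ ^ 2 / 16) (by positivity) (by linarith)
    0 (2 * K * n) (2 * K * n) (Nat.zero_le _) hN
    (by intro i σ σ' _ _ _; exact Iff.rfl)
    (by intro i σ σ' _ _ _; rfl)
    (by
      intro i σ _ hi _
      have h1 := PQ_real W W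
      have h2 := choose_real n
      have h3 : (i : ℝ) ≤ 2 * K * n := by exact_mod_cast hi.le
      have h4 : γ * n * (γ * n - 1) ≤ (W.card : ℝ) * ((W.card : ℝ) - 1) := by
        apply mul_le_mul hW (by linarith) (by linarith) (Nat.cast_nonneg _)
      have h5 : 32 * (4 * (K : ℝ) + 1) * n ≤ γ ^ 2 * n * n := mul_le_mul_of_nonneg_right hn hn0
      have h6 : γ ^ 2 / 16 * ((n.choose 2 : ℕ) : ℝ) ≤ γ ^ 2 / 16 * ((n : ℝ) ^ 2 / 2) :=
        mul_le_mul_of_nonneg_left h2 (by positivity)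
      have h9 : γ * n ≤ 1 * n := mul_le_mul_of_nonneg_right hγ1 hn0
      have h10 : (0 : ℝ) ≤ K * n := by positivity
      nlinarith)
  refine le_trans (fcard_le _ _ ?_) h
  intro σ hσ
  refine ⟨?_, fun i hi _ => hσ i hi⟩
  rw [filter_true_of_mem (fun _ _ => by trivial), Nat.card_Ico]
  omega

/-- From time `4Kn` on the union of the optimal covers has about `n/2` vertices, except with
exponentially small probability. -/
theorem main1 (ε : ℝ) (hε0 : 0 < ε) (hε1 : ε ≤ 1 / 2) :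
    ∃ K : ℕ, ∃ n0 : ℕ, ∀ n ≥ n0,
      prob n (fun σ => ¬ ∀ m : ℕ, 4 * K * n ≤ m →
        |((DU (proc σ m)).card : ℝ) - (n : ℝ) / 2| ≤ ε * n) ≤ 2 * (1 / 2) ^ n := by
  set γ : ℝ := ε / 10 with hγ
  have hγ0 : 0 < γ := by rw [hγ]; positivity
  have hγ1 : γ ≤ 1 := by rw [hγ]; linarith
  have hγ2 : γ ^ 2 ≤ 1 := by nlinarith
  have hγ3 : 0 < γ ^ 2 := by positivity
  set q : ℝ := 1 - γ ^ 2 / 16 with hq
  have hq0 : 0 < q := by rw [hq]; linarith
  have hq1 : q < 1 := by rw [hq]; linarith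
  obtain ⟨K0, hK0⟩ := exists_pow_lt_of_lt_one (show (0 : ℝ) < 1 / 8 by norm_num) hq1
  set K := K0 + 1 with hK
  have hK1 : 1 ≤ K := by omega
  have hqK : q ^ K ≤ 1 / 8 := by
    have : q ^ K ≤ q ^ K0 := pow_le_pow_of_le_one hq0.le hq1.le (by omega)
    linarith
  obtain ⟨n1, hn1⟩ := exists_nat_ge (32 * (4 * (K : ℝ) + 1) / γ ^ 2)
  refine ⟨K, max n1 (8 * K + 1), fun n hn => ?_⟩
  have hnn1 : n1 ≤ n := (le_max_left _ _).trans hn
  have hn8 : 8 * K + 1 ≤ n := (le_max_right _ _).trans hn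
  have hbig : 32 * (4 * (K : ℝ) + 1) ≤ γ ^ 2 * n := by
    have h1 : 32 * (4 * (K : ℝ) + 1) / γ ^ 2 ≤ (n : ℝ) := hn1.trans (by exact_mod_cast hnn1)
    rw [div_le_iff₀ hγ3] at h1
    linarith
  have hN : 4 * K * n ≤ n.choose 2 := by
    rw [Nat.choose_two_right, Nat.le_div_iff_mul_le (by norm_num)]
    have h1 : 8 * K ≤ n - 1 := by omega
    calc 4 * K * n * 2 = n * (8 * K) := by ring
      _ ≤ n * (n - 1) := Nat.mul_le_mul_left _ h1
  have hN2 : 2 * K * n ≤ n.choose 2 := by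
    refine le_trans ?_ hN
    have : 2 * K * n + 2 * K * n = 4 * K * n := by ring
    omega
  have hΩ := card_orders_pos n
  set Ω : ℝ := (Fintype.card (Fin (n.choose 2) ≃ Edge n) : ℝ) with hΩdef
  unfold prob
  rw [← hΩdef, div_le_iff₀ hΩ]
  -- union bound
  set P : Finset (Finset (Fin n) × Finset (Fin n)) :=
    univ.filter fun z => (n : ℝ) / 8 ≤ (z.2.card : ℝ) with hP
  set R : Finset (Finset (Fin n)) := univ.filter fun W => γ * n ≤ (W.card : ℝ) with hR
  have hsub : (univ.filter fun σ : Fin (n.choose 2) ≃ Edge n => ¬ ∀ m : ℕ, 4 * K * n ≤ m →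
        |((DU (proc σ m)).card : ℝ) - (n : ℝ) / 2| ≤ ε * n) ⊆
      (P.biUnion fun z => univ.filter fun σ => BadD K γ z.1 z.2 σ) ∪
      (R.biUnion fun W => univ.filter fun σ => BadW K W σ) := by
    intro σ hσ
    rw [mem_filter] at hσ
    by_contra hcon
    rw [mem_union, not_or, mem_biUnion, mem_biUnion] at hcon
    apply hσ.2
    intro m hm
    refine det σ K hK1 (by omega) ε hε0 hε1 ?_ ?_ m hm
    · intro Y Z hZ hbad
      apply hcon.1
      refine ⟨(Y, Z), ?_, ?_⟩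
      · rw [hP, mem_filter]; exact ⟨mem_univ _, hZ⟩
      · rw [mem_filter]; exact ⟨mem_univ _, hbad⟩
    · intro W hW hbad
      apply hcon.2
      refine ⟨W, ?_, ?_⟩
      · rw [hR, mem_filter]; exact ⟨mem_univ _, hW⟩
      · rw [mem_filter]; exact ⟨mem_univ _, hbad⟩
  have h1 := (card_le_card hsub).trans (card_union_le _ _)
  have h2 : ((P.biUnion fun z => univ.filter fun σ => BadD K γ z.1 z.2 σ).card : ℝ) ≤
      (4 : ℝ) ^ n * (q ^ (K * n) * Ω) := by
    have h3 : ((P.biUnion fun z => univ.filter fun σ => BadD K γ z.1 z.2 σ).card : ℝ) ≤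
        ∑ z ∈ P, ((univ.filter fun σ => BadD K γ z.1 z.2 σ).card : ℝ) := by
      exact_mod_cast card_biUnion_le
    refine h3.trans ?_
    have h4 : ∀ z ∈ P, ((univ.filter fun σ => BadD K γ z.1 z.2 σ).card : ℝ)
        ≤ q ^ (K * n) * Ω := by
      intro z hz
      rw [hP, mem_filter] at hz
      exact BadD_le K n γ hγ0 hγ1 hbig hN z.1 z.2 hz.2
    refine (sum_le_card_nsmul _ _ _ h4).trans ?_
    rw [nsmul_eq_mul]
    apply mul_le_mul_of_nonneg_right _ (by positivity)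
    have h5 : P.card ≤ 4 ^ n := by
      refine (card_le_univ P).trans ?_
      rw [Fintype.card_prod, Fintype.card_finset, Fintype.card_fin, ← mul_pow]
      norm_num
    exact_mod_cast h5
  have h3 : ((R.biUnion fun W => univ.filter fun σ => BadW K W σ).card : ℝ) ≤
      (2 : ℝ) ^ n * (q ^ (2 * K * n) * Ω) := by
    have h3 : ((R.biUnion fun W => univ.filter fun σ => BadW K W σ).card : ℝ) ≤
        ∑ W ∈ R, ((univ.filter fun σ => BadW K W σ).card : ℝ) := by
      exact_mod_cast card_biUnion_le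
    refine h3.trans ?_
    have h4 : ∀ W ∈ R, ((univ.filter fun σ => BadW K W σ).card : ℝ)
        ≤ q ^ (2 * K * n) * Ω := by
      intro W hW
      rw [hR, mem_filter] at hW
      exact BadW_le K n γ hγ0 hγ1 hbig hN2 W hW.2
    refine (sum_le_card_nsmul _ _ _ h4).trans ?_
    rw [nsmul_eq_mul]
    apply mul_le_mul_of_nonneg_right _ (by positivity)
    have h5 : R.card ≤ 2 ^ n := by
      refine (card_le_univ R).trans ?_
      rw [Fintype.card_finset, Fintype.card_fin]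
    exact_mod_cast h5
  have h4 : ((univ.filter fun σ : Fin (n.choose 2) ≃ Edge n => ¬ ∀ m : ℕ, 4 * K * n ≤ m →
        |((DU (proc σ m)).card : ℝ) - (n : ℝ) / 2| ≤ ε * n).card : ℝ) ≤
      ((P.biUnion fun z => univ.filter fun σ => BadD K γ z.1 z.2 σ).card : ℝ) +
      ((R.biUnion fun W => univ.filter fun σ => BadW K W σ).card : ℝ) := by exact_mod_cast h1
  have h5 : (4 : ℝ) ^ n * (q ^ (K * n) * Ω) ≤ (1 / 2) ^ n * Ω := by
    rw [← mul_assoc]
    apply mul_le_mul_of_nonneg_right _ hΩ.le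
    rw [pow_mul, ← mul_pow]
    apply pow_le_pow_left₀ (by positivity)
    linarith
  have h6 : (2 : ℝ) ^ n * (q ^ (2 * K * n) * Ω) ≤ (1 / 2) ^ n * Ω := by
    rw [← mul_assoc]
    apply mul_le_mul_of_nonneg_right _ hΩ.le
    have h7 : q ^ (2 * K * n) ≤ q ^ (K * n) :=
      pow_le_pow_of_le_one hq0.le hq1.le (by
        have : 2 * K * n = K * n + K * n := by ring
        omega)
    have h8 : (2 : ℝ) ^ n * q ^ (2 * K * n) ≤ (2 : ℝ) ^ n * q ^ (K * n) :=
      mul_le_mul_of_nonneg_left h7 (by positivity)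
    refine h8.trans ?_
    rw [pow_mul, ← mul_pow]
    apply pow_le_pow_left₀ (by positivity)
    linarith
  refine le_trans (fcard_le _ _ (fun _ h => h)) (h4.trans ?_)
  linarith

end Pool.Agent.R980.Konig
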