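import Pool.Agent.R980.Trans

/-!
# First returns: relabelling one class of vertices rarely gives a transitive map
-/

set_option autoImplicit false

namespace Pool.Agent.R980

open Finset Equiv

/-- relabelling of the class `0` by `ρ` -/
def rel {n : ℕ} (ρ : Perm (Fin n)) (v : Fin 3 × Fin n) : Fin 3 × Fin n :=
  if v.1 = 0 then (0, ρ v.2) else v

theorem rel_zero {n : ℕ} (ρ : Perm (Fin n)) (x : Fin n) : rel ρ (0, x) = (0, ρ x) := by
  simp [rel]

theorem rel_ne {n : ℕ} (ρ : Perm (Fin n)) (v : Fin 3 × Fin n) (h : v.1 ≠ 0) : rel ρ v = v := by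
  simp [rel, h]

theorem iter_eq {n : ℕ} (ρ : Perm (Fin n)) (s : Fin 3 × Fin n → Fin 3 × Fin n)
    (x : Fin 3 × Fin n) (j : ℕ) (h : ∀ i < j, (s^[i + 1] x).1 ≠ 0) :
    (fun v => rel ρ (s v))^[j] x = s^[j] x := by
  induction j with
  | zero => rfl
  | succ j ih =>
    rw [Function.iterate_succ_apply', ih (fun i hi => h i (by omega))]
    show rel ρ (s (s^[j] x)) = _
    rw [← Function.iterate_succ_apply' s j x]
    exact rel_ne ρ _ (h j (by omega))

theorem card_rel_trans_le (m : ℕ) (s : Fin 3 × Fin (m + 1) → Fin 3 × Fin (m + 1)) :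
    Nat.card {ρ : Perm (Fin (m + 1)) // Trans (fun v => rel ρ (s v))} ≤ m.factorial := by
  classical
  rcases isEmpty_or_nonempty {ρ : Perm (Fin (m + 1)) // Trans (fun v => rel ρ (s v))} with hE | hE
  · rw [Nat.card_of_isEmpty]; exact Nat.zero_le _
  obtain ⟨ρ1, hρ1⟩ := hE
  have hex : ∀ a : Fin (m + 1), ∃ t, (s^[t + 1] (0, a)).1 = 0 := by
    intro a
    by_contra hcon
    push Not at hcon
    obtain ⟨k, hk⟩ := hρ1 ((fun v => rel ρ1 (s v)) (0, a)) (0, a)
    rw [← Function.iterate_succ_apply, iter_eq ρ1 s (0, a) k.succ (fun i _ => hcon i)] at hk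
    exact hcon k (congrArg Prod.fst hk)
  set T : Fin (m + 1) → ℕ := fun a => Nat.find (hex a) with hT
  set θ : Fin (m + 1) → Fin (m + 1) := fun a => (s^[T a + 1] (0, a)).2 with hθ
  have hTs : ∀ a, s^[T a + 1] (0, a) = (0, θ a) := by
    intro a
    exact Prod.ext (Nat.find_spec (hex a)) rfl
  have hTm : ∀ a, ∀ i < T a, (s^[i + 1] (0, a)).1 ≠ 0 := fun a i hi => Nat.find_min (hex a) hi
  have hret : ∀ (ρ : Perm (Fin (m + 1))) (a : Fin (m + 1)),
      (fun v => rel ρ (s v))^[T a + 1] (0, a) = (0, ρ (θ a)) := by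
    intro ρ a
    rw [Function.iterate_succ_apply', iter_eq ρ s (0, a) (T a) (hTm a)]
    show rel ρ (s (s^[T a] (0, a))) = _
    rw [← Function.iterate_succ_apply' s, Nat.succ_eq_add_one, hTs a, rel_zero]
  have htr : ∀ ρ : Perm (Fin (m + 1)), Trans (fun v => rel ρ (s v)) →
      Trans (fun a => ρ (θ a)) := by
    intro ρ hρ
    have key : ∀ t : ℕ, ∀ a b : Fin (m + 1), (fun v => rel ρ (s v))^[t] (0, a) = (0, b) →
        ∃ k : ℕ, (fun a => ρ (θ a))^[k] a = b := by
      intro t
      induction t using Nat.strong_induction_on with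
      | _ t ih =>
        intro a b hab
        rcases Nat.eq_zero_or_pos t with h0 | hpos
        · subst h0
          refine ⟨0, ?_⟩
          simpa using hab
        · rcases Nat.lt_or_ge (T a) t with hlt | hge
          · obtain ⟨t', rfl⟩ : ∃ t', t = t' + (T a + 1) := ⟨t - (T a + 1), by omega⟩
            rw [Function.iterate_add_apply, hret] at hab
            obtain ⟨k, hk⟩ := ih t' (by omega) _ _ hab
            exact ⟨k + 1, by rw [Function.iterate_succ_apply]; exact hk⟩
          · exfalso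
            rw [iter_eq ρ s (0, a) t (fun i hi => hTm a i (by omega))] at hab
            have h1 := hTm a (t - 1) (by omega)
            have h2 : t - 1 + 1 = t := by omega
            rw [h2, hab] at h1
            exact h1 rfl
    intro a b
    obtain ⟨t, ht⟩ := hρ (0, a) (0, b)
    exact key t a b ht
  have hsurj : Function.Surjective θ := by
    have h1 := (htr ρ1 hρ1).surj
    intro b
    obtain ⟨a, ha⟩ := h1 (ρ1 b)
    exact ⟨a, ρ1.injective ha⟩
  refine le_trans ?_ (card_trans_le m)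
  apply Nat.card_le_card_of_injective
    (fun ρ : {ρ : Perm (Fin (m + 1)) // Trans (fun v => rel ρ (s v))} =>
      (⟨fun a => ρ.1 (θ a), htr ρ.1 ρ.2⟩ : {f : Fin (m + 1) → Fin (m + 1) // Trans f}))
  intro ρ ρ' h
  apply Subtype.ext
  ext1 b
  obtain ⟨a, rfl⟩ := hsurj b
  have h1 := congrArg (fun f : {f : Fin (m + 1) → Fin (m + 1) // Trans f} => f.1 a) h
  exact h1

end Pool.Agent.R980
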