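import Pool.Agent.R980.LiftDefs
import Pool.Agent.R980.Ret
import Pool.Agent.R980.Cyc

/-!
# Random lifts of the complete digraph on three vertices are not Hamiltonian
-/

set_option autoImplicit false

namespace Pool.Agent.R980

open Finset Equiv

/-- the arc from `i` to `i + 1` -/
def ar (i : Fin 3) : Arc3 := ⟨(i, i + 1), by fin_cases i <;> decide⟩
/-- the arc from `i` to `i + 2` -/
def br (i : Fin 3) : Arc3 := ⟨(i, i + 2), by fin_cases i <;> decide⟩

/-- the map with choice function `g` -/
def smap {n : ℕ} (M : LiftData n) (g : Fin 3 × Fin n → Bool) (v : Fin 3 × Fin n) : Fin 3 × Fin n :=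
  if g v = true then (v.1 + 1, M (ar v.1) v.2) else (v.1 + 2, M (br v.1) v.2)

/-- extension of a choice function on the class `0` -/
def ext {n : ℕ} (M : LiftData n) (g0 : Fin n → Bool) (v : Fin 3 × Fin n) : Bool :=
  if v.1 = 0 then g0 v.2
  else if v.1 = 2 then g0 ((M (ar 0)).symm (M (br 2) v.2))
  else g0 ((M (ar 0)).symm (M (br 2) ((M (ar 2)).symm (M (br 1) v.2))))

/-- the permutation governing the cycle covers -/
def th {n : ℕ} (M : LiftData n) : Perm (Fin n) :=
  (M (ar 0))⁻¹ * M (br 2) * (M (ar 2))⁻¹ * M (br 1) * (M (ar 1))⁻¹ * M (br 0)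

theorem arc_cases {n : ℕ} (M : LiftData n) (v w : Fin 3 × Fin n) (h : liftArc M v w) :
    w = (v.1 + 1, M (ar v.1) v.2) ∨ w = (v.1 + 2, M (br v.1) v.2) := by
  obtain ⟨⟨⟨x, y⟩, hxy⟩, h1, h2, h3⟩ := h
  obtain ⟨v1, v2⟩ := v
  obtain ⟨w1, w2⟩ := w
  simp only at h1 h2 h3 hxy
  subst h1 h2 h3
  have : y = x + 1 ∨ y = x + 2 := by
    revert hxy
    revert x y
    decide
  rcases this with rfl | rfl
  · left; rfl
  · right; rfl

theorem ham_perm {n : ℕ} (M : LiftData (n + 1)) (h : IsHamiltonian (liftArc M)) :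
    ∃ τ : Perm (Fin 3 × Fin (n + 1)), Trans τ ∧ ∀ v, liftArc M v (τ v) := by
  obtain ⟨c, hc⟩ := h
  refine ⟨(c.symm.trans (Equiv.addRight 1)).trans c, ?_, ?_⟩
  · have hit : ∀ (k : ℕ) (i : ZMod (Fintype.card (Fin 3 × Fin (n + 1)))),
        (((c.symm.trans (Equiv.addRight 1)).trans c : Perm (Fin 3 × Fin (n + 1))) :
          Fin 3 × Fin (n + 1) → Fin 3 × Fin (n + 1))^[k] (c i) = c (i + k) := by
      intro k
      induction k with
      | zero => intro i; simp
      | succ k ih =>
        intro i
        rw [Function.iterate_succ_apply', ih i]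
        simp [add_assoc]
    intro v w
    have : NeZero (Fintype.card (Fin 3 × Fin (n + 1))) := ⟨by simp⟩
    refine ⟨(c.symm w - c.symm v).val, ?_⟩
    have h1 := hit (c.symm w - c.symm v).val (c.symm v)
    rw [Equiv.apply_symm_apply] at h1
    rw [h1, ZMod.natCast_zmod_val]
    simp
  · intro v
    have := hc (c.symm v)
    simpa using this

/-- the choice function of a cycle cover is invariant -/
theorem choice_inv {n : ℕ} (M : LiftData n) (g : Fin 3 × Fin n → Bool)
    (hinj : Function.Injective (smap M g)) :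
    ∃ g0 : Fin n → Bool, (∀ x, g0 (th M x) = g0 x) ∧ g = ext M g0 := by
  -- the permutation `T`
  set T : Fin 3 × Fin n → Fin 3 × Fin n := fun v =>
    (v.1 + 2, (M (br (v.1 + 2))).symm (M (ar v.1) v.2)) with hT
  have hTinj : Function.Injective T := by
    rintro ⟨a, x⟩ ⟨b, y⟩ h
    simp only [hT, Prod.mk.injEq] at h
    obtain ⟨h1, h2⟩ := h
    have : a = b := by simpa using h1
    subst this
    have h3 := (M (br (a + 2))).symm.injective h2
    have h4 := (M (ar a)).injective h3
    rw [h4]
  have himp : ∀ v, g v = true → g (T v) = true := by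
    intro v hv
    by_contra hcon
    have h1 : smap M g v = (v.1 + 1, M (ar v.1) v.2) := by simp [smap, hv]
    have h2 : smap M g (T v) = ((T v).1 + 2, M (br (T v).1) (T v).2) := by simp [smap, hcon]
    have h3 : smap M g (T v) = smap M g v := by
      rw [h1, h2]
      simp only [hT, Equiv.apply_symm_apply, Prod.mk.injEq, and_true]
      have : ∀ a : Fin 3, a + 2 + 2 = a + 1 := by decide
      exact this _
    have h4 := congrArg Prod.fst (hinj h3)
    simp only [hT] at h4
    revert h4
    generalize v.1 = a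
    revert a
    decide
  have hinv : ∀ v, g (T v) = g v := by
    have hcard : (univ.filter (fun v => g v = true)).image T = univ.filter (fun v => g v = true) := by
      apply Finset.eq_of_subset_of_card_le
      · intro w hw
        rw [mem_image] at hw
        obtain ⟨v, hv, rfl⟩ := hw
        rw [mem_filter] at hv ⊢
        exact ⟨mem_univ _, himp v hv.2⟩
      · rw [card_image_of_injective _ hTinj]
    intro v
    cases hv : g v with
    | true => exact himp v hv
    | false =>
      by_contra hcon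
      have h1 : T v ∈ univ.filter (fun v => g v = true) := by
        rw [mem_filter]
        refine ⟨mem_univ _, ?_⟩
        cases h : g (T v) with
        | true => rfl
        | false => exact absurd h hcon
      rw [← hcard, mem_image] at h1
      obtain ⟨u, hu, huv⟩ := h1
      have := hTinj huv
      subst this
      rw [mem_filter] at hu
      rw [hv] at hu
      exact absurd hu.2 (by simp)
  -- consequences
  have h2 : ∀ y, g (2, y) = g (0, (M (ar 0)).symm (M (br 2) y)) := by
    intro y
    have := hinv (0, (M (ar 0)).symm (M (br 2) y))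
    simp only [hT, zero_add, Equiv.apply_symm_apply, Equiv.symm_apply_apply] at this
    exact this
  have h1 : ∀ z, g (1, z) = g (2, (M (ar 2)).symm (M (br 1) z)) := by
    intro z
    have := hinv (2, (M (ar 2)).symm (M (br 1) z))
    have h22 : (2 : Fin 3) + 2 = 1 := by decide
    simp only [hT, Equiv.apply_symm_apply, h22, Equiv.symm_apply_apply] at this
    exact this
  have h0 : ∀ w, g (0, w) = g (1, (M (ar 1)).symm (M (br 0) w)) := by
    intro z
    have := hinv (1, (M (ar 1)).symm (M (br 0) z))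
    have h12 : (1 : Fin 3) + 2 = 0 := by decide
    simp only [hT, Equiv.apply_symm_apply, h12, Equiv.symm_apply_apply] at this
    exact this
  refine ⟨fun x => g (0, x), ?_, ?_⟩
  · intro x
    show g (0, th M x) = g (0, x)
    rw [h0 x, h1, h2]
    rfl
  · funext v
    obtain ⟨a, x⟩ := v
    unfold ext
    fin_cases a
    · rfl
    · show g (1, x) = _
      rw [h1, h2]
      rfl
    · show g (2, x) = _
      rw [h2]
      rfl

/-- relabelling of the lift data -/
def relab {n : ℕ} (ρ : Perm (Fin n)) (M : LiftData n) : LiftData n :=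
  fun e => if e.1.2 = 0 then ρ * M e else M e

theorem relab_inj {n : ℕ} (ρ : Perm (Fin n)) : Function.Injective (relab ρ) := by
  intro M M' h
  funext e
  have := congrFun h e
  unfold relab at this
  by_cases he : e.1.2 = 0
  · rw [if_pos he, if_pos he] at this
    exact mul_left_cancel this
  · rw [if_neg he, if_neg he] at this
    exact this

theorem relab_ar2 {n : ℕ} (ρ : Perm (Fin n)) (M : LiftData n) :
    relab ρ M (ar 2) = ρ * M (ar 2) := if_pos (by decide)
theorem relab_br1 {n : ℕ} (ρ : Perm (Fin n)) (M : LiftData n) :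
    relab ρ M (br 1) = ρ * M (br 1) := if_pos (by decide)
theorem relab_ar0 {n : ℕ} (ρ : Perm (Fin n)) (M : LiftData n) :
    relab ρ M (ar 0) = M (ar 0) := if_neg (by decide)
theorem relab_ar1 {n : ℕ} (ρ : Perm (Fin n)) (M : LiftData n) :
    relab ρ M (ar 1) = M (ar 1) := if_neg (by decide)
theorem relab_br0 {n : ℕ} (ρ : Perm (Fin n)) (M : LiftData n) :
    relab ρ M (br 0) = M (br 0) := if_neg (by decide)
theorem relab_br2 {n : ℕ} (ρ : Perm (Fin n)) (M : LiftData n) :
    relab ρ M (br 2) = M (br 2) := if_neg (by decide)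

theorem th_relab {n : ℕ} (ρ : Perm (Fin n)) (M : LiftData n) : th (relab ρ M) = th M := by
  unfold th
  rw [relab_ar2, relab_br1, relab_ar0, relab_ar1, relab_br0, relab_br2]
  group

theorem ext_relab {n : ℕ} (ρ : Perm (Fin n)) (M : LiftData n) (g0 : Fin n → Bool) :
    ext (relab ρ M) g0 = ext M g0 := by
  funext v
  unfold ext
  rw [relab_ar2, relab_br1, relab_ar0, relab_br2]
  simp [Equiv.Perm.mul_def]

theorem smap_relab {n : ℕ} (ρ : Perm (Fin n)) (M : LiftData n) (g : Fin 3 × Fin n → Bool)
    (v : Fin 3 × Fin n) : smap (relab ρ M) g v = rel ρ (smap M g v) := by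
  obtain ⟨a, x⟩ := v
  unfold smap rel
  by_cases hg : g (a, x) = true
  · rw [if_pos hg, if_pos hg]
    fin_cases a
    · show ((0 : Fin 3) + 1, relab ρ M (ar 0) x) = _
      rw [relab_ar0]; rfl
    · show ((1 : Fin 3) + 1, relab ρ M (ar 1) x) = _
      rw [relab_ar1]; rfl
    · show ((2 : Fin 3) + 1, relab ρ M (ar 2) x) = _
      rw [relab_ar2]; rfl
  · rw [if_neg hg, if_neg hg]
    fin_cases a
    · show ((0 : Fin 3) + 2, relab ρ M (br 0) x) = _
      rw [relab_br0]; rfl
    · show ((1 : Fin 3) + 2, relab ρ M (br 1) x) = _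
      rw [relab_br1]; rfl
    · show ((2 : Fin 3) + 2, relab ρ M (br 2) x) = _
      rw [relab_br2]; rfl

/-- if the relabelled lift is Hamiltonian then a relabelled cycle cover is transitive -/
theorem ham_imp {n : ℕ} (M : LiftData (n + 1)) (ρ : Perm (Fin (n + 1)))
    (h : IsHamiltonian (liftArc (relab ρ M))) :
    ∃ g0 : Fin (n + 1) → Bool, (∀ x, g0 (th M x) = g0 x) ∧
      Trans (fun v => rel ρ (smap M (ext M g0) v)) := by
  obtain ⟨τ, h1, h2⟩ := ham_perm _ h
  set g : Fin 3 × Fin (n + 1) → Bool := fun v => decide (τ v = (v.1 + 1, relab ρ M (ar v.1) v.2)) with hg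
  have h3 : ∀ v, smap (relab ρ M) g v = τ v := by
    intro v
    unfold smap
    by_cases hv : τ v = (v.1 + 1, relab ρ M (ar v.1) v.2)
    · rw [if_pos (by simp [hg, hv])]
      exact hv.symm
    · rw [if_neg (by simp [hg, hv])]
      exact ((arc_cases _ _ _ (h2 v)).resolve_left hv).symm
  have h4 : Function.Injective (smap (relab ρ M) g) := by
    have : smap (relab ρ M) g = τ := funext h3
    rw [this]
    exact τ.injective
  obtain ⟨g0, h5, h6⟩ := choice_inv _ g h4
  rw [th_relab] at h5
  rw [ext_relab] at h6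
  refine ⟨g0, h5, ?_⟩
  have h7 : (fun v => rel ρ (smap M (ext M g0) v)) = τ := by
    funext v
    rw [← smap_relab, ← h6, h3]
  rw [h7]
  exact h1

open Classical in
/-- the number of relabellings giving a Hamiltonian lift -/
theorem card_relab_ham {n : ℕ} (M : LiftData (n + 1)) :
    (univ.filter (fun ρ : Perm (Fin (n + 1)) => IsHamiltonian (liftArc (relab ρ M)))).card ≤
      NI (th M) * n.factorial := by
  have h1 : univ.filter (fun ρ : Perm (Fin (n + 1)) => IsHamiltonian (liftArc (relab ρ M))) ⊆
      (univ.filter (fun g0 : Fin (n + 1) → Bool => ∀ x, g0 (th M x) = g0 x)).biUnion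
        (fun g0 => univ.filter (fun ρ : Perm (Fin (n + 1)) =>
          Trans (fun v => rel ρ (smap M (ext M g0) v)))) := by
    intro ρ hρ
    rw [mem_filter] at hρ
    obtain ⟨g0, h5, h6⟩ := ham_imp M ρ hρ.2
    rw [mem_biUnion]
    exact ⟨g0, mem_filter.2 ⟨mem_univ _, h5⟩, mem_filter.2 ⟨mem_univ _, h6⟩⟩
  refine (card_le_card h1).trans (card_biUnion_le.trans ?_)
  have h2 : NI (th M) = (univ.filter (fun g0 : Fin (n + 1) → Bool => ∀ x, g0 (th M x) = g0 x)).card := by
    unfold NI
    rw [Nat.card_eq_fintype_card, Fintype.card_subtype]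
  rw [h2, ← smul_eq_mul]
  apply Finset.sum_le_card_nsmul
  intro g0 _
  have h3 := card_rel_trans_le n (smap M (ext M g0))
  rw [Nat.card_eq_fintype_card, Fintype.card_subtype] at h3
  exact h3

open Classical in
theorem card_relab_ham_sqrt {n : ℕ} (M : LiftData (n + 1)) :
    ((univ.filter (fun ρ : Perm (Fin (n + 1)) => IsHamiltonian (liftArc (relab ρ M)))).card : ℝ) ≤
      (n + 1).factorial * (Real.sqrt (NI (th M)) / Real.sqrt (n + 1)) := by
  set c : ℝ := ((univ.filter (fun ρ : Perm (Fin (n + 1)) =>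
    IsHamiltonian (liftArc (relab ρ M)))).card : ℝ) with hc
  have h1 : c ≤ NI (th M) * (n.factorial : ℝ) := by
    have := card_relab_ham M
    rw [hc]
    exact_mod_cast this
  have h2 : c ≤ ((n + 1).factorial : ℝ) := by
    rw [hc]
    have : (univ.filter (fun ρ : Perm (Fin (n + 1)) => IsHamiltonian (liftArc (relab ρ M)))).card ≤
        (univ : Finset (Perm (Fin (n + 1)))).card := card_le_card (filter_subset _ _)
    rw [card_univ, Fintype.card_perm, Fintype.card_fin] at this
    exact_mod_cast this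
  have hf : ((n + 1).factorial : ℝ) = ((n : ℝ) + 1) * (n.factorial : ℝ) := by
    rw [Nat.factorial_succ]; push_cast; ring
  have hfp : (0 : ℝ) < ((n + 1).factorial : ℝ) := by positivity
  have hn : (0 : ℝ) < (n : ℝ) + 1 := by positivity
  have hc0 : 0 ≤ c := by rw [hc]; positivity
  rw [← Real.sqrt_div (by positivity)]
  have h3 : (c / ((n + 1).factorial : ℝ)) ^ 2 ≤ (NI (th M) : ℝ) / ((n : ℝ) + 1) := by
    have h4 : c / ((n + 1).factorial : ℝ) ≤ 1 := by rw [div_le_one hfp]; exact h2
    have h5 : c / ((n + 1).factorial : ℝ) ≤ (NI (th M) : ℝ) / ((n : ℝ) + 1) := by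
      rw [div_le_div_iff₀ hfp hn, hf]
      calc c * ((n : ℝ) + 1) ≤ (NI (th M) * (n.factorial : ℝ)) * ((n : ℝ) + 1) :=
            mul_le_mul_of_nonneg_right h1 hn.le
        _ = _ := by ring
    have h6 : 0 ≤ c / ((n + 1).factorial : ℝ) := by positivity
    nlinarith
  have h7 := Real.le_sqrt_of_sq_le h3
  rw [div_le_iff₀ hfp] at h7
  linarith

/-- averaging over the last matching: the permutation `th M` is uniform -/
theorem sum_th {n : ℕ} (f : Perm (Fin n) → ℝ) :
    (Fintype.card (Perm (Fin n)) : ℝ) * ∑ M : LiftData n, f (th M) =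
      (Fintype.card (LiftData n) : ℝ) * ∑ π : Perm (Fin n), f π := by
  classical
  -- right translation of the coordinate `br 0`
  let tr : Perm (Fin n) → LiftData n ≃ LiftData n := fun x =>
    { toFun := fun M => Function.update M (br 0) (M (br 0) * x)
      invFun := fun M => Function.update M (br 0) (M (br 0) * x⁻¹)
      left_inv := fun M => by simp
      right_inv := fun M => by simp }
  have h1 : ∀ x : Perm (Fin n), ∑ M : LiftData n, f (th M) = ∑ M : LiftData n, f (th M * x) := by
    intro x
    rw [← Equiv.sum_comp (tr x)]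
    refine Finset.sum_congr rfl fun M _ => ?_
    have hth : th (Function.update M (br 0) (M (br 0) * x)) = th M * x := by
      unfold th
      rw [Function.update_self, Function.update_of_ne (by decide),
        Function.update_of_ne (by decide), Function.update_of_ne (by decide),
        Function.update_of_ne (by decide), Function.update_of_ne (by decide)]
      rfl
    show f (th M * x) = f (th (Function.update M (br 0) (M (br 0) * x)))
    rw [hth]
  have h2 : ∑ x : Perm (Fin n), ∑ M : LiftData n, f (th M) =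
      ∑ x : Perm (Fin n), ∑ M : LiftData n, f (th M * x) := Finset.sum_congr rfl fun x _ => h1 x
  rw [Finset.sum_const, Finset.card_univ, nsmul_eq_mul, Finset.sum_comm] at h2
  rw [h2]
  have h3 : ∀ M : LiftData n, ∑ x : Perm (Fin n), f (th M * x) = ∑ π : Perm (Fin n), f π := by
    intro M
    exact Equiv.sum_comp (Equiv.mulLeft (th M)) f
  rw [Finset.sum_congr rfl fun M _ => h3 M, Finset.sum_const, Finset.card_univ, nsmul_eq_mul]

open Classical in
theorem probHam_le (n : ℕ) : probHam (n + 1) ≤
    Real.sqrt 2 * ((n : ℝ) + 1) ^ (Real.sqrt 2 - 1) / Real.sqrt ((n : ℝ) + 1) := by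
  unfold probHam
  have hL : (0 : ℝ) < (Fintype.card (LiftData (n + 1)) : ℝ) := by
    have : 0 < Fintype.card (LiftData (n + 1)) := Fintype.card_pos
    exact_mod_cast this
  rw [Nat.card_eq_fintype_card, Nat.card_eq_fintype_card, Fintype.card_subtype, div_le_iff₀ hL]
  have hP : (0 : ℝ) < ((n + 1).factorial : ℝ) := by positivity
  have hcp : (Fintype.card (Perm (Fin (n + 1))) : ℝ) = ((n + 1).factorial : ℝ) := by
    rw [Fintype.card_perm, Fintype.card_fin]
  have hs : (0 : ℝ) < Real.sqrt ((n : ℝ) + 1) := Real.sqrt_pos.2 (by positivity)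
  -- double counting
  have h1 : ∀ ρ : Perm (Fin (n + 1)),
      ((univ.filter (fun M : LiftData (n + 1) => IsHamiltonian (liftArc M))).card : ℝ) =
      ∑ M : LiftData (n + 1), (if IsHamiltonian (liftArc (relab ρ M)) then (1 : ℝ) else 0) := by
    intro ρ
    have hb : Function.Bijective (relab (n := n + 1) ρ) :=
      Finite.injective_iff_bijective.1 (relab_inj ρ)
    rw [Finset.card_filter]
    push_cast
    exact (Equiv.sum_comp (Equiv.ofBijective _ hb)
      (fun M => if IsHamiltonian (liftArc M) then (1 : ℝ) else 0)).symm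
  have h2 : ((n + 1).factorial : ℝ) *
      ((univ.filter (fun M : LiftData (n + 1) => IsHamiltonian (liftArc M))).card : ℝ) =
      ∑ M : LiftData (n + 1), ((univ.filter (fun ρ : Perm (Fin (n + 1)) =>
        IsHamiltonian (liftArc (relab ρ M)))).card : ℝ) := by
    calc _ = ∑ _ρ : Perm (Fin (n + 1)),
          ((univ.filter (fun M : LiftData (n + 1) => IsHamiltonian (liftArc M))).card : ℝ) := by
          rw [Finset.sum_const, Finset.card_univ, nsmul_eq_mul, hcp]
      _ = ∑ ρ : Perm (Fin (n + 1)), ∑ M : LiftData (n + 1),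
          (if IsHamiltonian (liftArc (relab ρ M)) then (1 : ℝ) else 0) :=
          Finset.sum_congr rfl fun ρ _ => h1 ρ
      _ = ∑ M : LiftData (n + 1), ∑ ρ : Perm (Fin (n + 1)),
          (if IsHamiltonian (liftArc (relab ρ M)) then (1 : ℝ) else 0) := Finset.sum_comm
      _ = _ := by
          refine Finset.sum_congr rfl fun M _ => ?_
          rw [Finset.card_filter]
          push_cast
          rfl
  have h3 : ∑ M : LiftData (n + 1), ((univ.filter (fun ρ : Perm (Fin (n + 1)) =>
        IsHamiltonian (liftArc (relab ρ M)))).card : ℝ) ≤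
      ((n + 1).factorial : ℝ) / Real.sqrt ((n : ℝ) + 1) *
        ∑ M : LiftData (n + 1), Real.sqrt (NI (th M)) := by
    rw [Finset.mul_sum]
    refine Finset.sum_le_sum fun M _ => ?_
    refine (card_relab_ham_sqrt M).trans (le_of_eq ?_)
    ring
  have h4 := sum_th (n := n + 1) (fun π => Real.sqrt (NI π))
  rw [hcp] at h4
  have h5 := SR_le n
  unfold SR at h5
  set H : ℝ := ((univ.filter (fun M : LiftData (n + 1) => IsHamiltonian (liftArc M))).card : ℝ) with hH
  set X : ℝ := ∑ M : LiftData (n + 1), Real.sqrt (NI (th M)) with hX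
  have h6 : ((n + 1).factorial : ℝ) * H ≤ ((n + 1).factorial : ℝ) / Real.sqrt ((n : ℝ) + 1) * X := by
    rw [h2]; exact h3
  have h7 : H ≤ X / Real.sqrt ((n : ℝ) + 1) := by
    have : ((n + 1).factorial : ℝ) * H ≤ ((n + 1).factorial : ℝ) * (X / Real.sqrt ((n : ℝ) + 1)) := by
      refine h6.trans (le_of_eq ?_)
      ring
    exact le_of_mul_le_mul_left this hP
  have h8 : X ≤ (Fintype.card (LiftData (n + 1)) : ℝ) *
      (Real.sqrt 2 * ((n : ℝ) + 1) ^ (Real.sqrt 2 - 1)) := by
    have h9 : ((n + 1).factorial : ℝ) * X ≤ ((n + 1).factorial : ℝ) *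
        ((Fintype.card (LiftData (n + 1)) : ℝ) *
          (Real.sqrt 2 * ((n : ℝ) + 1) ^ (Real.sqrt 2 - 1))) := by
      rw [h4]
      calc (Fintype.card (LiftData (n + 1)) : ℝ) * ∑ π : Perm (Fin (n + 1)), Real.sqrt (NI π)
          ≤ (Fintype.card (LiftData (n + 1)) : ℝ) * (((n + 1).factorial : ℝ) *
            (Real.sqrt 2 * ((n : ℝ) + 1) ^ (Real.sqrt 2 - 1))) :=
            mul_le_mul_of_nonneg_left h5 hL.le
        _ = _ := by ring
    exact le_of_mul_le_mul_left h9 hP
  calc H ≤ X / Real.sqrt ((n : ℝ) + 1) := h7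
    _ ≤ ((Fintype.card (LiftData (n + 1)) : ℝ) *
      (Real.sqrt 2 * ((n : ℝ) + 1) ^ (Real.sqrt 2 - 1))) / Real.sqrt ((n : ℝ) + 1) :=
      div_le_div_of_nonneg_right h8 hs.le
    _ = _ := by ring

theorem probHam_bound (n : ℕ) (hn : 1 ≤ n) :
    probHam n ≤ Real.sqrt 2 * (n : ℝ) ^ (Real.sqrt 2 - 3 / 2) := by
  obtain ⟨m, rfl⟩ : ∃ m, n = m + 1 := ⟨n - 1, by omega⟩
  refine (probHam_le m).trans (le_of_eq ?_)
  have h : (0 : ℝ) < (m : ℝ) + 1 := by positivity
  push_cast
  rw [Real.sqrt_eq_rpow ((m : ℝ) + 1), mul_div_assoc, ← Real.rpow_sub h]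
  congr 2
  ring

theorem probHam_nonneg (n : ℕ) : 0 ≤ probHam n := by
  unfold probHam; positivity

theorem probHam_tendsto : Filter.Tendsto probHam Filter.atTop (nhds 0) := by
  have hs : Real.sqrt 2 < 3 / 2 := by
    rw [Real.sqrt_lt' (by norm_num)]; norm_num
  have h1 : Filter.Tendsto (fun n : ℕ => Real.sqrt 2 * (n : ℝ) ^ (Real.sqrt 2 - 3 / 2))
      Filter.atTop (nhds (Real.sqrt 2 * 0)) := by
    apply Filter.Tendsto.const_mul
    have h2 := (tendsto_rpow_neg_atTop (y := 3 / 2 - Real.sqrt 2) (by linarith)).comp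
      (tendsto_natCast_atTop_atTop (R := ℝ))
    refine h2.congr fun n => ?_
    simp only [Function.comp]
    congr 1
    ring
  rw [mul_zero] at h1
  refine tendsto_of_tendsto_of_tendsto_of_le_of_le' tendsto_const_nhds h1
    (Filter.Eventually.of_forall probHam_nonneg) ?_
  filter_upwards [Filter.eventually_ge_atTop 1] with n hn
  exact probHam_bound n hn

end Pool.Agent.R980
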