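import Mathlib

/-!
# Random lifts of the complete digraph on three vertices: definitions
-/

set_option autoImplicit false

namespace Pool.Agent.R980

/-- The arcs of the complete digraph on the vertex set `{0, 1, 2}`: all ordered pairs of distinct
vertices. -/
abbrev Arc3 : Type := {e : Fin 3 × Fin 3 // e.1 ≠ e.2}

/-- The data of an `n`-lift: for every arc `e = (x, y)` a perfect matching between `A_x` and `A_y`,
where `A_x = {x} × Fin n`; it is given by a permutation `M e` of `Fin n`, the vertex `(x, a)` being
matched with `(y, M e a)`. -/
abbrev LiftData (n : ℕ) : Type := Arc3 → Equiv.Perm (Fin n)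

/-- The arc relation of the lift: the edge of `M_e` between `(x, a)` and `(y, M e a)`, `e = (x, y)`,
is oriented from `(x, a)` to `(y, M e a)`. -/
def liftArc {n : ℕ} (M : LiftData n) (v w : Fin 3 × Fin n) : Prop :=
  ∃ e : Arc3, e.1.1 = v.1 ∧ e.1.2 = w.1 ∧ M e v.2 = w.2

/-- A digraph with the finite vertex set `V` and the arc relation `R` is Hamiltonian: the vertices
can be numbered cyclically so that there is an arc from every vertex to the next one. -/
def IsHamiltonian {V : Type} [Fintype V] (R : V → V → Prop) : Prop :=
  ∃ c : ZMod (Fintype.card V) ≃ V, ∀ i, R (c i) (c (i + 1))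

/-- The probability that the random `n`-lift is Hamiltonian: the six matchings are independent and
uniformly random, so all lift data have the same probability. -/
noncomputable def probHam (n : ℕ) : ℝ :=
  (Nat.card {M : LiftData n // IsHamiltonian (liftArc M)} : ℝ) / (Nat.card (LiftData n) : ℝ)

end Pool.Agent.R980
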