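import Mathlib

/-!
# Path covers of finite graphs
-/

set_option autoImplicit false

namespace Pool.Agent.R980

open Finset

/-- `C` is a list of pairwise vertex-disjoint (nonempty) paths of `H` which together contain all
vertices; a path is a duplicate-free list of vertices in which consecutive vertices are adjacent,
and a single vertex counts as a path. -/
def IsPathCover {V : Type} (H : SimpleGraph V) (C : List (List V)) : Prop :=
  (∀ l ∈ C, l ≠ [] ∧ l.IsChain H.Adj) ∧ C.flatten.Nodup ∧ ∀ v : V, v ∈ C.flatten

/-- The path cover number: the least number of vertex-disjoint paths of `H` covering all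
vertices. -/
noncomputable def pathCoverNumber {V : Type} (H : SimpleGraph V) : ℕ :=
  sInf {m : ℕ | ∃ C : List (List V), IsPathCover H C ∧ C.length = m}

variable {V : Type}

theorem exists_cover [Fintype V] (H : SimpleGraph V) :
    ∃ C : List (List V), IsPathCover H C := by
  refine ⟨(univ : Finset V).toList.map (fun v => [v]), ?_, ?_, ?_⟩
  · intro l hl
    rw [List.mem_map] at hl
    obtain ⟨v, _, rfl⟩ := hl
    exact ⟨by simp, by simp⟩
  · have : ((univ : Finset V).toList.map (fun v => [v])).flatten = (univ : Finset V).toList := by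
      induction (univ : Finset V).toList with
      | nil => rfl
      | cons a l ih => simp [ih]
    rw [this]
    exact Finset.nodup_toList _
  · intro v
    rw [List.mem_flatten]
    exact ⟨[v], by simp, by simp⟩

theorem pcn_spec [Fintype V] (H : SimpleGraph V) :
    ∃ C : List (List V), IsPathCover H C ∧ C.length = pathCoverNumber H := by
  obtain ⟨C, hC⟩ := exists_cover H
  exact Nat.sInf_mem (s := {m : ℕ | ∃ C : List (List V), IsPathCover H C ∧ C.length = m})
    ⟨C.length, C, hC, rfl⟩

theorem pcn_le {H : SimpleGraph V} {C : List (List V)} (h : IsPathCover H C) :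
    pathCoverNumber H ≤ C.length := Nat.sInf_le ⟨C, h, rfl⟩

theorem pcn_mono [Fintype V] {H H' : SimpleGraph V} (h : H' ≤ H) :
    pathCoverNumber H ≤ pathCoverNumber H' := by
  obtain ⟨C, hC, hl⟩ := pcn_spec H'
  rw [← hl]
  refine pcn_le ⟨fun l hlC => ⟨(hC.1 l hlC).1, ?_⟩, hC.2.1, hC.2.2⟩
  exact List.IsChain.imp (fun a b hab => h hab) (hC.1 l hlC).2

/-- a chain avoiding an endpoint of `e` is a chain after deleting `e` -/
theorem chain_avoid {H : SimpleGraph V} {a b : V} (l : List V) (h : l.IsChain H.Adj)
    (ha : a ∉ l) : l.IsChain (H.deleteEdges {s(a, b)}).Adj := by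
  induction l with
  | nil => simp
  | cons x l ih =>
    cases l with
    | nil => simp
    | cons y l =>
      rw [List.isChain_cons_cons] at h ⊢
      refine ⟨?_, ih h.2 (fun hm => ha (List.mem_cons_of_mem _ hm))⟩
      rw [SimpleGraph.deleteEdges_adj]
      refine ⟨h.1, ?_⟩
      intro he
      rw [Set.mem_singleton_iff, Sym2.eq_iff] at he
      apply ha
      rcases he with ⟨h1, _⟩ | ⟨_, h2⟩
      · rw [← h1]; simp
      · rw [← h2]; simp

theorem chain_split {H : SimpleGraph V} {a b : V} (l : List V) (h : l.IsChain H.Adj)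
    (hn : l.Nodup) :
    l.IsChain (H.deleteEdges {s(a, b)}).Adj ∨ ∃ l1 l2 : List V, l = l1 ++ l2 ∧ l1 ≠ [] ∧ l2 ≠ [] ∧
      l1.IsChain (H.deleteEdges {s(a, b)}).Adj ∧ l2.IsChain (H.deleteEdges {s(a, b)}).Adj := by
  induction l with
  | nil => left; simp
  | cons x l ih =>
    cases l with
    | nil => left; simp
    | cons y l =>
      rw [List.isChain_cons_cons] at h
      have hn' := List.nodup_cons.1 hn
      by_cases he : s(x, y) = s(a, b)
      · right
        refine ⟨[x], y :: l, rfl, by simp, by simp, by simp, ?_⟩
        rw [← he]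
        exact chain_avoid (y :: l) h.2 hn'.1
      · have hxy : (H.deleteEdges {s(a, b)}).Adj x y := by
          rw [SimpleGraph.deleteEdges_adj]
          exact ⟨h.1, by rw [Set.mem_singleton_iff]; exact he⟩
        rcases ih h.2 hn'.2 with h1 | ⟨l1, l2, h2, h3, h4, h5, h6⟩
        · left
          rw [List.isChain_cons_cons]
          exact ⟨hxy, h1⟩
        · right
          refine ⟨x :: l1, l2, by rw [h2]; rfl, by simp, h4, ?_, h6⟩
          cases l1 with
          | nil => exact absurd rfl h3
          | cons z l1 =>
            have : y = z := by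
              have := congrArg List.head? h2
              simpa using this
            subst this
            rw [List.isChain_cons_cons]
            exact ⟨hxy, h5⟩

theorem pcn_step [Fintype V] (H : SimpleGraph V) (e : Sym2 V) :
    pathCoverNumber (H.deleteEdges {e}) ≤ pathCoverNumber H + 1 := by
  obtain ⟨C, hC, hl⟩ := pcn_spec H
  induction e with
  | _ a b =>
  obtain ⟨h1, h2, h3⟩ := hC
  have ha := h3 a
  rw [List.mem_flatten] at ha
  obtain ⟨l, hlC, hal⟩ := ha
  obtain ⟨C1, C2, rfl⟩ := List.append_of_mem hlC
  have hfl : (C1 ++ l :: C2).flatten = C1.flatten ++ (l ++ C2.flatten) := by simp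
  rw [hfl] at h2 h3
  have hnl : l.Nodup := by
    rw [List.nodup_append] at h2
    have := h2.2.1
    rw [List.nodup_append] at this
    exact this.1
  -- the other paths avoid `a`
  have hav : ∀ l' ∈ C1 ++ C2, a ∉ l' := by
    intro l' hl' hal'
    rw [List.mem_append] at hl'
    rcases hl' with h | h
    · rw [List.nodup_append] at h2
      exact h2.2.2 a (List.mem_flatten.2 ⟨l', h, hal'⟩) a (List.mem_append_left _ hal) rfl
    · rw [List.nodup_append] at h2
      have h4 := h2.2.1
      rw [List.nodup_append] at h4
      exact h4.2.2 a hal a (List.mem_flatten.2 ⟨l', h, hal'⟩) rfl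
  have hoth : ∀ l' ∈ C1 ++ C2, l' ≠ [] ∧ l'.IsChain (H.deleteEdges {s(a, b)}).Adj := by
    intro l' hl'
    have hm : l' ∈ C1 ++ l :: C2 := by
      rw [List.mem_append] at hl' ⊢
      rcases hl' with h | h
      · exact Or.inl h
      · exact Or.inr (List.mem_cons_of_mem _ h)
    exact ⟨(h1 l' hm).1, chain_avoid l' (h1 l' hm).2 (hav l' hl')⟩
  rcases chain_split (a := a) (b := b) l (h1 l hlC).2 hnl with h | ⟨l1, l2, h4, h5, h6, h7, h8⟩
  · have hcov : IsPathCover (H.deleteEdges {s(a, b)}) (C1 ++ l :: C2) := by
      refine ⟨?_, by rw [hfl]; exact h2, by rw [hfl]; exact h3⟩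
      intro l' hl'
      rw [List.mem_append, List.mem_cons] at hl'
      rcases hl' with h' | rfl | h'
      · exact hoth l' (List.mem_append_left _ h')
      · exact ⟨(h1 l' hlC).1, h⟩
      · exact hoth l' (List.mem_append_right _ h')
    have := pcn_le hcov
    rw [hl] at this
    omega
  · have hfl' : (C1 ++ l1 :: l2 :: C2).flatten = C1.flatten ++ (l ++ C2.flatten) := by
      rw [h4]; simp
    have hcov : IsPathCover (H.deleteEdges {s(a, b)}) (C1 ++ l1 :: l2 :: C2) := by
      refine ⟨?_, by rw [hfl']; exact h2, by rw [hfl']; exact h3⟩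
      intro l' hl'
      rw [List.mem_append, List.mem_cons, List.mem_cons] at hl'
      rcases hl' with h' | rfl | rfl | h'
      · exact hoth l' (List.mem_append_left _ h')
      · exact ⟨h5, h7⟩
      · exact ⟨h6, h8⟩
      · exact hoth l' (List.mem_append_right _ h')
    have := pcn_le hcov
    have hlen : (C1 ++ l1 :: l2 :: C2).length = (C1 ++ l :: C2).length + 1 := by
      simp
      omega
    rw [hlen, hl] at this
    exact this

/-- discrete continuity -/
theorem pcn_exists [Fintype V] [DecidableEq V] (H : SimpleGraph V) (k : ℕ)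
    (h0 : pathCoverNumber H ≤ k) (F : Finset (Sym2 V))
    (h1 : k ≤ pathCoverNumber (H.deleteEdges (F : Set (Sym2 V)))) :
    ∃ F' ⊆ F, pathCoverNumber (H.deleteEdges (F' : Set (Sym2 V))) = k := by
  induction F using Finset.induction_on with
  | empty =>
    refine ⟨∅, le_rfl, ?_⟩
    simp only [coe_empty, SimpleGraph.deleteEdges_empty] at h1 ⊢
    omega
  | insert e F he ih =>
    by_cases h2 : k ≤ pathCoverNumber (H.deleteEdges (F : Set (Sym2 V)))
    · obtain ⟨F', hF', h3⟩ := ih h2
      exact ⟨F', hF'.trans (subset_insert _ _), h3⟩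
    · refine ⟨insert e F, le_rfl, ?_⟩
      have h3 := pcn_step (H.deleteEdges (F : Set (Sym2 V))) e
      rw [SimpleGraph.deleteEdges_deleteEdges] at h3
      have h4 : (F : Set (Sym2 V)) ∪ {e} = ((insert e F : Finset (Sym2 V)) : Set (Sym2 V)) := by
        rw [coe_insert, Set.union_singleton]
      rw [h4] at h3
      omega

/-- isolated vertices are paths by themselves -/
theorem pcn_isolated [Fintype V] [DecidableEq V] (H : SimpleGraph V) (S : Finset V)
    (hS : ∀ v ∈ S, ∀ w, ¬ H.Adj v w) (hlt : S.card < Fintype.card V) :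
    S.card + 1 ≤ pathCoverNumber H := by
  obtain ⟨C, hC, hl⟩ := pcn_spec H
  rw [← hl]
  obtain ⟨h1, h2, h3⟩ := hC
  -- a path containing a vertex of `S` is a singleton
  have hsing : ∀ l ∈ C, ∀ v ∈ S, v ∈ l → l = [v] := by
    intro l hlC v hv hvl
    obtain ⟨a, b, rfl⟩ := List.append_of_mem hvl
    have hch := (h1 _ hlC).2
    have ha : a = [] := by
      by_contra hne
      obtain ⟨a', x, rfl⟩ := List.eq_nil_or_concat a |>.resolve_left hne
      rw [List.concat_eq_append, List.append_assoc] at hch
      have := (List.isChain_append.1 hch).2.1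
      simp only [List.singleton_append] at this
      rw [List.isChain_cons_cons] at this
      exact hS v hv x this.1.symm
    have hb : b = [] := by
      cases b with
      | nil => rfl
      | cons y b =>
        exfalso
        have := (List.isChain_append.1 hch).2.1
        rw [List.isChain_cons_cons] at this
        exact hS v hv y this.1
    rw [ha, hb]
    rfl
  -- there is a vertex outside `S`
  obtain ⟨w, hw⟩ : ∃ w, w ∉ S := by
    by_contra hcon
    push Not at hcon
    have : S = univ := Finset.eq_univ_iff_forall.2 hcon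
    rw [this, card_univ] at hlt
    exact lt_irrefl _ hlt
  have hwC := h3 w
  rw [List.mem_flatten] at hwC
  obtain ⟨lw, hlw, hwl⟩ := hwC
  have hsub : insert lw (S.image (fun v => [v])) ⊆ C.toFinset := by
    intro l hl'
    rw [mem_insert, mem_image] at hl'
    rw [List.mem_toFinset]
    rcases hl' with rfl | ⟨v, hv, rfl⟩
    · exact hlw
    · have := h3 v
      rw [List.mem_flatten] at this
      obtain ⟨l, hlC, hvl⟩ := this
      rwa [hsing l hlC v hv hvl] at hlC
  have hnot : lw ∉ S.image (fun v => [v]) := by
    intro h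
    rw [mem_image] at h
    obtain ⟨v, hv, rfl⟩ := h
    rw [List.mem_singleton] at hwl
    exact hw (hwl ▸ hv)
  have h5 := card_le_card hsub
  rw [card_insert_of_notMem hnot, card_image_of_injective] at h5
  · exact h5.trans (List.toFinset_card_le C)
  · intro a b hab
    simpa using hab

end Pool.Agent.R980
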