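import Mathlib

/-!
# Transitive self-maps of a finite set
-/

set_option autoImplicit false

namespace Pool.Agent.R980

open Finset

/-- `f` is transitive: every point is reached from every point -/
def Trans {V : Type*} (f : V → V) : Prop := ∀ v w, ∃ k : ℕ, f^[k] v = w

theorem Trans.surj {V : Type*} {f : V → V} (h : Trans f) : Function.Surjective f := by
  intro b
  obtain ⟨k, hk⟩ := h (f b) b
  refine ⟨f^[k] b, ?_⟩
  rw [← Function.iterate_succ_apply' f k b, Function.iterate_succ_apply]
  exact hk

/-- the first `m + 1` iterates of a transitive map of a set with `m + 1` elements are distinct -/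
theorem trans_inj {m : ℕ} {f : Fin (m + 1) → Fin (m + 1)} (h : Trans f) (x : Fin (m + 1)) {i j : ℕ}
    (hij : i < j) (hj : j ≤ m) : f^[i] x ≠ f^[j] x := by
  intro heq
  -- all iterates lie in the image of range j
  have key : ∀ k : ℕ, ∃ l < j, f^[k] x = f^[l] x := by
    intro k
    induction k with
    | zero => exact ⟨0, by omega, rfl⟩
    | succ k ih =>
      obtain ⟨l, hl, hk⟩ := ih
      by_cases hl2 : l + 1 < j
      · refine ⟨l + 1, hl2, ?_⟩
        rw [Function.iterate_succ_apply', Function.iterate_succ_apply', hk]
      · have : l + 1 = j := by omega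
        refine ⟨i, hij, ?_⟩
        rw [Function.iterate_succ_apply', hk, ← Function.iterate_succ_apply' f l x, heq, ← this]
  have hsub : (univ : Finset (Fin (m + 1))) ⊆ (range j).image (fun l => f^[l] x) := by
    intro y _
    obtain ⟨k, hk⟩ := h x y
    obtain ⟨l, hl, hkl⟩ := key k
    rw [mem_image]
    exact ⟨l, mem_range.2 hl, by rw [← hkl, hk]⟩
  have h1 := card_le_card hsub
  have h2 : ((range j).image (fun l => f^[l] x)).card ≤ j := by
    refine card_image_le.trans ?_
    simp
  rw [card_univ, Fintype.card_fin] at h1
  omega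

theorem trans_period {m : ℕ} {f : Fin (m + 1) → Fin (m + 1)} (h : Trans f) (x : Fin (m + 1)) :
    f^[m + 1] x = x := by
  -- `f^[m+1] x` is one of the first `m + 1` iterates
  have hbij : (range (m + 1)).image (fun l => f^[l] x) = (univ : Finset (Fin (m + 1))) := by
    apply eq_univ_of_card
    rw [card_image_of_injOn, card_range, Fintype.card_fin]
    intro i hi j hj hij
    simp only [coe_range, Set.mem_Iio] at hi hj
    simp only at hij
    rcases lt_trichotomy i j with hlt | heq | hgt
    · exact absurd hij (trans_inj h x hlt (by omega))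
    · exact heq
    · exact absurd hij.symm (trans_inj h x hgt (by omega))
  have hmem : f^[m + 1] x ∈ (range (m + 1)).image (fun l => f^[l] x) := by
    rw [hbij]; exact mem_univ _
  rw [mem_image] at hmem
  obtain ⟨i, hi, hix⟩ := hmem
  rw [mem_range] at hi
  rcases Nat.eq_zero_or_pos i with h0 | hpos
  · subst h0
    simpa using hix.symm
  · exfalso
    -- the iterates of `f x` avoid `x`
    have hav : ∀ k : ℕ, ∃ l, 1 ≤ l ∧ l ≤ m ∧ f^[k + 1] x = f^[l] x := by
      intro k
      induction k with
      | zero =>
        rcases Nat.eq_zero_or_pos m with hm | hm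
        · omega
        · exact ⟨1, le_rfl, hm, rfl⟩
      | succ k ih =>
        obtain ⟨l, hl1, hl2, hk⟩ := ih
        by_cases hlm : l + 1 ≤ m
        · refine ⟨l + 1, by omega, hlm, ?_⟩
          rw [Function.iterate_succ_apply', hk, ← Function.iterate_succ_apply' f l x]
        · refine ⟨i, hpos, by omega, ?_⟩
          rw [Function.iterate_succ_apply', hk, ← Function.iterate_succ_apply' f l x, hix]
          congr 1
          have : l + 1 = m + 1 := by omega
          rw [Nat.succ_eq_add_one, this]
    obtain ⟨k, hk⟩ := h (f x) x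
    rw [← Function.iterate_succ_apply] at hk
    obtain ⟨l, hl1, hl2, hl⟩ := hav k
    have : f^[0] x = f^[l] x := by
      rw [← hl]
      simpa using hk.symm
    exact trans_inj h x hl1 hl2 this

/-- the number of transitive self-maps of a set with `m + 1` elements is at most `m!` -/
theorem card_trans_le (m : ℕ) :
    Nat.card {f : Fin (m + 1) → Fin (m + 1) // Trans f} ≤ m.factorial := by
  classical
  have hcard : Fintype.card (Fin m ↪ {x : Fin (m + 1) // x ≠ 0}) = m.factorial := by
    rw [Fintype.card_embedding_eq]
    simp [Nat.descFactorial_self]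
  rw [← hcard, ← Nat.card_eq_fintype_card]
  apply Nat.card_le_card_of_injective
    (fun f : {f : Fin (m + 1) → Fin (m + 1) // Trans f} =>
      (⟨fun j : Fin m => ⟨f.1^[(j : ℕ) + 1] 0, by
          have := trans_inj f.2 0 (i := 0) (j := (j : ℕ) + 1) (by omega) (by omega)
          simpa using this.symm⟩, by
        intro i j hij
        simp only [Subtype.mk.injEq] at hij
        by_contra hne
        rcases lt_or_gt_of_ne hne with h | h
        · exact trans_inj f.2 0 (i := (i : ℕ) + 1) (j := (j : ℕ) + 1) (by
            have : (i : ℕ) < j := h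
            omega) (by omega) hij
        · exact trans_inj f.2 0 (i := (j : ℕ) + 1) (j := (i : ℕ) + 1) (by
            have : (j : ℕ) < i := h
            omega) (by omega) hij.symm⟩ : Fin m ↪ {x : Fin (m + 1) // x ≠ 0}))
  intro f g hfg
  apply Subtype.ext
  have hseq : ∀ j : ℕ, j ≤ m → f.1^[j] 0 = g.1^[j] 0 := by
    intro j hj
    rcases Nat.eq_zero_or_pos j with h0 | hpos
    · subst h0; rfl
    · have h1 : f.1^[(j - 1) + 1] 0 = g.1^[(j - 1) + 1] 0 :=
        congrArg (fun e : Fin m ↪ {x : Fin (m + 1) // x ≠ 0} => (e ⟨j - 1, by omega⟩).1) hfg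
      have h2 : j - 1 + 1 = j := by omega
      rw [h2] at h1
      exact h1
  have hseq' : ∀ j : ℕ, j ≤ m + 1 → f.1^[j] 0 = g.1^[j] 0 := by
    intro j hj
    rcases Nat.lt_or_ge j (m + 1) with h | h
    · exact hseq j (by omega)
    · have : j = m + 1 := by omega
      subst this
      rw [trans_period f.2, trans_period g.2]
  funext x
  -- x is an iterate with index at most m
  have hx : ∃ j ≤ m, f.1^[j] 0 = x := by
    have hbij : (range (m + 1)).image (fun l => f.1^[l] 0) = (univ : Finset (Fin (m + 1))) := by
      apply eq_univ_of_card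
      rw [card_image_of_injOn, card_range, Fintype.card_fin]
      intro i hi j hj hij
      simp only [coe_range, Set.mem_Iio] at hi hj
      simp only at hij
      rcases lt_trichotomy i j with hlt | heq | hgt
      · exact absurd hij (trans_inj f.2 0 hlt (by omega))
      · exact heq
      · exact absurd hij.symm (trans_inj f.2 0 hgt (by omega))
    have hmem : x ∈ (range (m + 1)).image (fun l => f.1^[l] 0) := by
      rw [hbij]; exact mem_univ _
    rw [mem_image] at hmem
    obtain ⟨i, hi, hix⟩ := hmem
    rw [mem_range] at hi
    exact ⟨i, by omega, hix⟩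
  obtain ⟨j, hj, rfl⟩ := hx
  have h1 := hseq' (j + 1) (by omega)
  rw [Function.iterate_succ_apply', Function.iterate_succ_apply', ← hseq j hj] at h1
  exact h1

end Pool.Agent.R980
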